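import Pool.Agent.KRC.Stmts

/-!
# The Korenblum constant along integer multiples: basic lemmas
-/

set_option autoImplicit false

namespace Pool.Agent.KRC

open Complex MeasureTheory Set Filter Topology Metric

namespace Bas

theorem isOpen_An (c : ℝ) : IsOpen (An c) :=
  (isOpen_lt continuous_const continuous_norm).inter (isOpen_lt continuous_norm continuous_const)

theorem An_sub (c : ℝ) : An c ⊆ ball 0 1 := fun z hz => by
  rw [mem_ball_zero_iff]; exact hz.2

theorem isOpen_annulus (a b : ℝ) : IsOpen {z : ℂ | a < ‖z‖ ∧ ‖z‖ < b} :=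
  (isOpen_lt continuous_const continuous_norm).inter (isOpen_lt continuous_norm continuous_const)

theorem annulus_sub {a b : ℝ} (hb : b ≤ 1) : {z : ℂ | a < ‖z‖ ∧ ‖z‖ < b} ⊆ ball 0 1 :=
  fun z hz => by rw [mem_ball_zero_iff]; exact hz.2.trans_le hb

theorem closedBall_sub {r : ℝ} (hr : r < 1) : closedBall (0 : ℂ) r ⊆ ball 0 1 :=
  closedBall_subset_ball hr

/-- continuous functions on the disc are bounded on smaller closed discs -/
theorem bdd {E : Type*} [NormedAddCommGroup E] {f : ℂ → E} (hf : ContinuousOn f (ball 0 1))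
    {r : ℝ} (hr : r < 1) : ∃ M : ℝ, 0 ≤ M ∧ ∀ z : ℂ, ‖z‖ ≤ r → ‖f z‖ ≤ M := by
  obtain ⟨M, hM⟩ := (isCompact_closedBall (0 : ℂ) r).exists_bound_of_continuousOn
    (hf.mono (closedBall_sub hr))
  exact ⟨max M 0, le_max_right _ _, fun z hz =>
    (hM z (mem_closedBall_zero_iff.2 hz)).trans (le_max_left _ _)⟩

/-- the product with the conjugate is at most the product of the norms -/
theorem re_le (a b : ℂ) : |(b * (starRingEnd ℂ) a).re| ≤ ‖b‖ * ‖a‖ := by
  refine (abs_re_le_norm _).trans ?_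
  rw [norm_mul, RCLike.norm_conj]

/-- `|g + k|² - |g - k|² = 4 Re (k conj g)` -/
theorem four (a b : ℂ) : ‖a + b‖ ^ 2 - ‖a - b‖ ^ 2 = 4 * (b * (starRingEnd ℂ) a).re := by
  rw [← normSq_eq_norm_sq, ← normSq_eq_norm_sq, normSq_add, normSq_sub]
  simp [mul_comm]
  ring

/-- `|a - t b|² = |a|² - 2 t Re (b conj a) + t² |b|²` -/
theorem sq_sub (a b : ℂ) (t : ℝ) :
    ‖a - t * b‖ ^ 2 = ‖a‖ ^ 2 - 2 * t * (b * (starRingEnd ℂ) a).re + t ^ 2 * ‖b‖ ^ 2 := by
  rw [← normSq_eq_norm_sq, ← normSq_eq_norm_sq, ← normSq_eq_norm_sq, normSq_sub, normSq_mul,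
    normSq_ofReal]
  simp
  ring

theorem Ep_zero {q : ℝ} {g k : ℂ → ℂ} {z : ℂ} (h : g z = 0) : Ep q g k z = 0 := by
  simp [Ep, h]

/-- the bound for `Ep` -/
theorem Ep_le {q : ℝ} (g k : ℂ → ℂ) (z : ℂ) :
    |Ep q g k z| ≤ ‖g z‖ ^ (q - 1) * ‖k z‖ := by
  by_cases h : g z = 0
  · rw [Ep_zero h, abs_zero]
    positivity
  have hg : 0 < ‖g z‖ := norm_pos_iff.2 h
  rw [Ep, abs_mul, abs_of_nonneg (by positivity)]
  calc ‖g z‖ ^ (q - 2) * |(k z * (starRingEnd ℂ) (g z)).re| ≤ ‖g z‖ ^ (q - 2) * (‖k z‖ * ‖g z‖) :=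
        mul_le_mul_of_nonneg_left (re_le _ _) (by positivity)
    _ = ‖g z‖ ^ (q - 2) * ‖g z‖ ^ (1 : ℝ) * ‖k z‖ := by rw [Real.rpow_one]; ring
    _ = ‖g z‖ ^ (q - 1) * ‖k z‖ := by
        rw [← Real.rpow_add hg]
        congr 2
        ring

/-- measurability on the disc -/
theorem meas {E : Type*} [NormedAddCommGroup E] [SecondCountableTopology E] {f : ℂ → E}
    (hf : ContinuousOn f (ball 0 1)) : AEStronglyMeasurable f (volume.restrict (ball 0 1)) :=
  hf.aestronglyMeasurable measurableSet_ball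

theorem norm_pow_meas {f : ℂ → ℂ} (hf : ContinuousOn f (ball 0 1)) (q : ℝ) :
    AEStronglyMeasurable (fun z => ‖f z‖ ^ q) (volume.restrict (ball 0 1)) :=
  ((meas hf).norm.aemeasurable.pow_const q).aestronglyMeasurable

theorem re_meas {g k : ℂ → ℂ} (hg : ContinuousOn g (ball 0 1)) (hk : ContinuousOn k (ball 0 1)) :
    AEStronglyMeasurable (fun z => (k z * (starRingEnd ℂ) (g z)).re)
      (volume.restrict (ball 0 1)) :=
  meas (continuous_re.comp_continuousOn (hk.mul (continuous_conj.comp_continuousOn hg)))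

theorem Ep_meas {g k : ℂ → ℂ} (hg : ContinuousOn g (ball 0 1)) (hk : ContinuousOn k (ball 0 1))
    (q : ℝ) : AEStronglyMeasurable (Ep q g k) (volume.restrict (ball 0 1)) :=
  (norm_pow_meas hg (q - 2)).mul (re_meas hg hk)

theorem Dp_cont {f g : ℂ → ℂ} (hf : ContinuousOn f (ball 0 1)) (hg : ContinuousOn g (ball 0 1))
    {q : ℝ} (hq : 0 ≤ q) : ContinuousOn (Dp q f g) (ball 0 1) :=
  (hg.norm.rpow_const fun _ _ => Or.inr hq).sub (hf.norm.rpow_const fun _ _ => Or.inr hq)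

theorem pow_cont {f : ℂ → ℂ} (hf : ContinuousOn f (ball 0 1)) {q : ℝ} (hq : 0 ≤ q) :
    ContinuousOn (fun z => ‖f z‖ ^ q) (ball 0 1) :=
  hf.norm.rpow_const fun _ _ => Or.inr hq

/-- a function which is measurable on the disc and bounded on a smaller disc is integrable there -/
theorem intOn_of_bdd {φ : ℂ → ℝ} (hφ : AEStronglyMeasurable φ (volume.restrict (ball 0 1)))
    {r M : ℝ} (hr : r < 1) (hM : ∀ z : ℂ, ‖z‖ ≤ r → |φ z| ≤ M) :
    IntegrableOn φ (closedBall 0 r) := by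
  have h : IntegrableOn (fun _ : ℂ => M) (closedBall 0 r) :=
    integrableOn_const measure_closedBall_lt_top.ne
  refine Integrable.mono' h
    (hφ.mono_measure (Measure.restrict_mono (closedBall_sub hr) le_rfl)) ?_
  filter_upwards [ae_restrict_mem measurableSet_closedBall] with z hz
  exact hM z (mem_closedBall_zero_iff.1 hz)

/-- continuous functions are integrable on smaller discs -/
theorem intOn_of_cont {φ : ℂ → ℝ} (hφ : ContinuousOn φ (ball 0 1)) {r : ℝ} (hr : r < 1) :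
    IntegrableOn φ (closedBall 0 r) := by
  obtain ⟨M, _, hM⟩ := bdd hφ hr
  exact intOn_of_bdd (meas hφ) hr hM

theorem Ep_bdd {g k : ℂ → ℂ} (hg : ContinuousOn g (ball 0 1)) (hk : ContinuousOn k (ball 0 1))
    {q : ℝ} (hq : 1 ≤ q) {r : ℝ} (hr : r < 1) :
    ∃ M : ℝ, 0 ≤ M ∧ ∀ z : ℂ, ‖z‖ ≤ r → |Ep q g k z| ≤ M := by
  obtain ⟨M, hM0, hM⟩ := bdd hg hr
  obtain ⟨M', hM0', hM'⟩ := bdd hk hr
  refine ⟨M ^ (q - 1) * M', by positivity, fun z hz => (Ep_le g k z).trans ?_⟩
  exact mul_le_mul (Real.rpow_le_rpow (norm_nonneg _) (hM z hz) (by linarith)) (hM' z hz)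
    (norm_nonneg _) (by positivity)

theorem Ep_intOn {g k : ℂ → ℂ} (hg : ContinuousOn g (ball 0 1)) (hk : ContinuousOn k (ball 0 1))
    {q : ℝ} (hq : 1 ≤ q) {r : ℝ} (hr : r < 1) : IntegrableOn (Ep q g k) (closedBall 0 r) := by
  obtain ⟨M, _, hM⟩ := Ep_bdd hg hk hq hr
  exact intOn_of_bdd (Ep_meas hg hk q) hr hM

theorem Dp_intOn {f g : ℂ → ℂ} (hf : ContinuousOn f (ball 0 1)) (hg : ContinuousOn g (ball 0 1))
    {q : ℝ} (hq : 0 ≤ q) {r : ℝ} (hr : r < 1) : IntegrableOn (Dp q f g) (closedBall 0 r) :=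
  intOn_of_cont (Dp_cont hf hg hq) hr

/-- the zero set of an analytic function is a null set -/
theorem zero_null {g : ℂ → ℂ} (hg : DifferentiableOn ℂ g (ball 0 1))
    (h : ∃ z ∈ ball (0 : ℂ) 1, g z ≠ 0) : volume ({z : ℂ | g z = 0} ∩ ball 0 1) = 0 := by
  have hA : AnalyticOnNhd ℂ g (ball 0 1) := hg.analyticOnNhd isOpen_ball
  have hc : ({z : ℂ | g z = 0} ∩ ball 0 1).Countable := by
    have h2 : {z : ℂ | g z = 0} ∩ ball 0 1 ⊆
        ⋃ n : ℕ, {z : ℂ | g z = 0} ∩ closedBall 0 (1 - 1 / ((n : ℝ) + 1)) := by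
      rintro z ⟨hz, hz1⟩
      rw [mem_ball_zero_iff] at hz1
      obtain ⟨n, hn⟩ := exists_nat_one_div_lt (sub_pos.2 hz1)
      refine mem_iUnion.2 ⟨n, hz, ?_⟩
      rw [mem_closedBall_zero_iff]
      linarith
    refine Countable.mono h2 (countable_iUnion fun n => Finite.countable ?_)
    set r : ℝ := 1 - 1 / ((n : ℝ) + 1) with hr
    have hr1 : r < 1 := by
      have : 0 < 1 / ((n : ℝ) + 1) := by positivity
      linarith
    by_contra hinf
    obtain ⟨z, hz, hacc⟩ := (Set.Infinite.exists_accPt_of_subset_isCompact hinf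
      (isCompact_closedBall (0 : ℂ) r) inter_subset_right)
    have hz1 : z ∈ ball (0 : ℂ) 1 := closedBall_sub hr1 hz
    have h3 : ∃ᶠ w in 𝓝[≠] z, g w = 0 := by
      rw [accPt_iff_frequently_nhdsNE] at hacc
      exact hacc.mono fun w hw => hw.1
    have h4 := hA.eqOn_zero_of_preconnected_of_frequently_eq_zero
      (convex_ball (0 : ℂ) 1).isPreconnected hz1 h3
    obtain ⟨w, hw, hw0⟩ := h
    exact hw0 (h4 hw)
  exact hc.measure_zero _

/-- almost everywhere form -/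
theorem ae_ne {g : ℂ → ℂ} (hg : DifferentiableOn ℂ g (ball 0 1))
    (h : ∃ z ∈ ball (0 : ℂ) 1, g z ≠ 0) {s : Set ℂ} (hs : s ⊆ ball 0 1) :
    ∀ᵐ z ∂(volume.restrict s), g z ≠ 0 := by
  have h1 : ∀ᵐ z ∂(volume.restrict (ball (0 : ℂ) 1)), g z ≠ 0 := by
    rw [ae_iff]
    simp only [not_not]
    rw [Measure.restrict_apply₀']
    · exact zero_null hg h
    · exact measurableSet_ball.nullMeasurableSet
  exact ae_mono (Measure.restrict_mono hs le_rfl) h1

/-- the integral over the disc as the limit over smaller discs -/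
theorem tendsto_int {φ : ℂ → ℝ} (hφ : IntegrableOn φ (ball 0 1)) {r : ℕ → ℝ}
    (hr1 : ∀ n, r n ≤ 1) (hr : Tendsto r atTop (𝓝 1)) :
    Tendsto (fun n => ∫ z in ball (0 : ℂ) (r n), φ z) atTop (𝓝 (∫ z in ball (0 : ℂ) 1, φ z)) := by
  have h1 : ∀ n, ∫ z in ball (0 : ℂ) (r n), φ z =
      ∫ z in ball (0 : ℂ) 1, (ball (0 : ℂ) (r n)).indicator φ z := by
    intro n
    rw [setIntegral_indicator measurableSet_ball, inter_eq_right.2 (ball_subset_ball (hr1 n))]
  simp_rw [h1]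
  refine tendsto_integral_of_dominated_convergence (fun z => ‖φ z‖) ?_ hφ.norm ?_ ?_
  · intro n
    exact hφ.aestronglyMeasurable.indicator measurableSet_ball
  · intro n
    exact Eventually.of_forall fun z => norm_indicator_le_norm_self _ _
  · filter_upwards [ae_restrict_mem measurableSet_ball] with z hz
    rw [mem_ball_zero_iff] at hz
    apply tendsto_const_nhds.congr'
    filter_upwards [hr.eventually (lt_mem_nhds hz)] with n hn
    rw [indicator_of_mem (mem_ball_zero_iff.2 hn)]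

/-- circles are null sets -/
theorem sphere_null (r : ℝ) (hr : r ≠ 0) : volume (sphere (0 : ℂ) r) = 0 :=
  Measure.addHaar_sphere_of_ne_zero _ _ hr

/-- the integral over the open and the closed disc -/
theorem ball_eq_closedBall {φ : ℂ → ℝ} {r : ℝ} :
    ∫ z in ball (0 : ℂ) r, φ z = ∫ z in closedBall (0 : ℂ) r, φ z := by
  apply setIntegral_congr_set
  have h1 : volume (closedBall (0 : ℂ) r \ ball 0 r) = 0 := by
    rw [closedBall_sdiff_ball]
    exact Measure.addHaar_sphere _ _ _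
  exact (ae_le_set.2 (by rw [sdiff_eq_empty.2 ball_subset_closedBall]; simp)).antisymm
    (ae_le_set.2 h1)

end Bas

end Pool.Agent.KRC
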