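import Pool.Agent.KRC.Bas
import Pool.Agent.KRB.Rem

/-!
# The Korenblum constant along integer multiples: bounds for bad pairs (module `BND`)
-/

set_option autoImplicit false

namespace Pool.Agent.KRC

open Complex MeasureTheory Set Filter Topology Metric
open Pool.Agent.KRB (Berg nrm KP kap)

namespace BNDAux

/-- the closed annulus is compact -/
theorem compact_cann (a b : ℝ) : IsCompact {z : ℂ | a ≤ ‖z‖ ∧ ‖z‖ ≤ b} := by
  apply (isCompact_closedBall (0 : ℂ) b).of_isClosed_subset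
  · exact (isClosed_le continuous_const continuous_norm).inter
      (isClosed_le continuous_norm continuous_const)
  · intro z hz
    exact mem_closedBall_zero_iff.2 hz.2

/-- the maximum principle on a disc -/
theorem maxp {k : ℂ → ℂ} (hk : DifferentiableOn ℂ k (ball 0 1)) {ρ M : ℝ} (h0 : 0 < ρ)
    (h1 : ρ < 1) (hM : ∀ z : ℂ, ‖z‖ = ρ → ‖k z‖ ≤ M) : ∀ z : ℂ, ‖z‖ ≤ ρ → ‖k z‖ ≤ M := by
  intro z hz
  have hsub : closedBall (0 : ℂ) ρ ⊆ ball 0 1 := Bas.closedBall_sub h1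
  have hd : DiffContOnCl ℂ k (ball 0 ρ) := by
    apply DifferentiableOn.diffContOnCl
    rw [closure_ball (0 : ℂ) h0.ne']
    exact hk.mono hsub
  refine Complex.norm_le_of_forall_mem_frontier_norm_le (U := ball (0 : ℂ) ρ) isBounded_ball hd ?_ ?_
  · intro w hw
    rw [frontier_ball (0 : ℂ) h0.ne'] at hw
    exact hM w (mem_sphere_zero_iff_norm.1 hw)
  · rw [closure_ball (0 : ℂ) h0.ne']
    exact mem_closedBall_zero_iff.2 hz

/-- the unimodular factor -/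
theorem exists_unit (w : ℂ) : ∃ u : ℂ, ‖u‖ = 1 ∧ w = u * ‖w‖ := by
  by_cases h : w = 0
  · exact ⟨1, by simp, by simp [h]⟩
  · have hw : (‖w‖ : ℂ) ≠ 0 := by
      rw [Ne, ofReal_eq_zero]
      exact norm_ne_zero_iff.2 h
    refine ⟨w / ‖w‖, ?_, ?_⟩
    · rw [norm_div, norm_real, norm_norm]
      exact div_self (norm_ne_zero_iff.2 h)
    · field_simp

/-- pairs with equal norms on an open set are not bad -/
theorem not_bad (hR : S_RIG) {q : ℝ} {f g : ℂ → ℂ} (hf : Berg q f) (hg : Berg q g)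
    (hlt : nrm q g < nrm q f) {U : Set ℂ} (hU : IsOpen U) (hne : U.Nonempty)
    (hsub : U ⊆ ball 0 1) (h : ∀ z ∈ U, ‖f z‖ = ‖g z‖) : False := by
  obtain ⟨u, hu, hfu⟩ := hR f g U hf.1 hg.1 hU hne hsub h
  have h1 : nrm q f = nrm q g := by
    unfold nrm
    congr 1
    apply setIntegral_congr_fun measurableSet_ball
    intro z hz
    show ‖f z‖ ^ q = ‖g z‖ ^ q
    rw [hfu z hz, norm_mul, hu, one_mul]
  rw [h1] at hlt
  exact lt_irrefl _ hlt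

/-- the integral inequality -/
theorem int_lt {q : ℝ} (hq : 1 ≤ q) {f g : ℂ → ℂ} (hf : Berg q f) (hg : Berg q g)
    (hlt : nrm q g < nrm q f) :
    ∫ z in ball (0 : ℂ) 1, (‖g z‖ ^ q - ‖f z‖ ^ q) < 0 := by
  rw [integral_sub hg.2 hf.2, sub_neg]
  by_contra hcon
  rw [not_lt] at hcon
  have h0 : 0 ≤ ∫ z in ball (0 : ℂ) 1, ‖f z‖ ^ q :=
    integral_nonneg fun z => by positivity
  have h1 : nrm q f ≤ nrm q g := Real.rpow_le_rpow h0 hcon (by positivity)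
  exact absurd hlt (not_lt.2 h1)

/-- `x ≤ max 1 (x^q)` -/
theorem le_of_rpow {x q M : ℝ} (hq : 1 ≤ q) (h : x ^ q ≤ M) : x ≤ max 1 M := by
  rcases le_or_gt x 1 with h1 | h1
  · exact h1.trans (le_max_left _ _)
  · refine le_trans ?_ (h.trans (le_max_right _ _))
    calc x = x ^ (1 : ℝ) := (Real.rpow_one x).symm
      _ ≤ x ^ q := Real.rpow_le_rpow_of_exponent_le h1.le hq

/-- the gain on the annulus -/
theorem gain {q x y t : ℝ} (hq : 1 ≤ q) (hx : 0 ≤ x) (hy : 0 ≤ y) (ht0 : 0 ≤ t) (ht1 : t ≤ 1)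
    (h : x ≤ (1 - t) * y) : t * y ^ q ≤ y ^ q - x ^ q := by
  have h1 : x ^ q ≤ ((1 - t) * y) ^ q := Real.rpow_le_rpow hx h (by linarith)
  have h2 : ((1 - t) * y) ^ q = (1 - t) ^ q * y ^ q := Real.mul_rpow (by linarith) hy
  have h3 : (1 - t) ^ q ≤ (1 - t) := by
    rcases eq_or_lt_of_le (show 0 ≤ 1 - t by linarith) with h0 | h0
    · rw [← h0, Real.zero_rpow (by linarith)]
    · calc (1 - t) ^ q ≤ (1 - t) ^ (1 : ℝ) :=
            Real.rpow_le_rpow_of_exponent_ge h0 (by linarith) hq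
        _ = 1 - t := Real.rpow_one _
  have h4 : (1 - t) ^ q * y ^ q ≤ (1 - t) * y ^ q :=
    mul_le_mul_of_nonneg_right h3 (by positivity)
  nlinarith

/-- the integral bound on the annulus -/
theorem int_ann {q e H C₂ α r₁ β : ℝ} (hq : 1 ≤ q) {f g : ℂ → ℂ} (hf : Berg q f)
    (hg : Berg q g) (hlt : nrm q g < nrm q f) (he0 : 0 < e) (he1 : e ≤ 1) (hH : 1 ≤ H)
    (hC₂ : 0 ≤ C₂) (hβ : β ≤ 1)
    (h1 : ∀ z : ℂ, ‖z‖ ≤ r₁ → ‖f z‖ ^ q - ‖g z‖ ^ q ≤ C₂ * e)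
    (h2 : ∀ z : ℂ, r₁ < ‖z‖ → ‖z‖ < 1 → ‖f z‖ ≤ ‖g z‖)
    (h3 : ∀ z : ℂ, α < ‖z‖ → ‖z‖ < β → ‖f z‖ ≤ (1 - e / H) * ‖g z‖) :
    IntegrableOn (fun z => ‖g z‖ ^ q) {z : ℂ | α < ‖z‖ ∧ ‖z‖ < β} ∧
    ∫ z in {z : ℂ | α < ‖z‖ ∧ ‖z‖ < β}, ‖g z‖ ^ q ≤ volume.real (ball (0 : ℂ) 1) * C₂ * H := by
  have hAo : IsOpen {z : ℂ | α < ‖z‖ ∧ ‖z‖ < β} := Bas.isOpen_annulus α β
  have hAs : {z : ℂ | α < ‖z‖ ∧ ‖z‖ < β} ⊆ ball 0 1 := Bas.annulus_sub hβ
  set A : Set ℂ := {z : ℂ | α < ‖z‖ ∧ ‖z‖ < β} with hA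
  have hAm : MeasurableSet A := hAo.measurableSet
  refine ⟨hg.2.mono_set hAs, ?_⟩
  have hH0 : 0 < H := by linarith
  have heH0 : 0 ≤ e / H := by positivity
  have heH1 : e / H ≤ 1 := by
    rw [div_le_one hH0]
    linarith
  -- the pointwise inequality
  have hpt : ∀ z ∈ ball (0 : ℂ) 1,
      A.indicator (fun z => e / H * ‖g z‖ ^ q) z - C₂ * e ≤ ‖g z‖ ^ q - ‖f z‖ ^ q := by
    intro z hz
    rw [mem_ball_zero_iff] at hz
    have hCe : 0 ≤ C₂ * e := by positivity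
    by_cases hzA : z ∈ A
    · rw [indicator_of_mem hzA]
      have := gain hq (norm_nonneg (f z)) (norm_nonneg (g z)) heH0 heH1 (h3 z hzA.1 hzA.2)
      linarith
    · rw [indicator_of_notMem hzA]
      rcases le_or_gt ‖z‖ r₁ with h | h
      · have := h1 z h
        linarith
      · have h4 : ‖f z‖ ^ q ≤ ‖g z‖ ^ q :=
          Real.rpow_le_rpow (norm_nonneg _) (h2 z h hz) (by linarith)
        linarith
  have hD : IntegrableOn (fun z => ‖g z‖ ^ q - ‖f z‖ ^ q) (ball 0 1) := hg.2.sub hf.2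
  have hI1 : IntegrableOn (A.indicator (fun z => e / H * ‖g z‖ ^ q)) (ball 0 1) :=
    (hg.2.const_mul (e / H)).indicator hAm
  have hI2 : IntegrableOn (fun _ : ℂ => C₂ * e) (ball 0 1) :=
    integrableOn_const measure_ball_lt_top.ne
  have h5 : ∫ z in ball (0 : ℂ) 1, (A.indicator (fun z => e / H * ‖g z‖ ^ q) z - C₂ * e) ≤
      ∫ z in ball (0 : ℂ) 1, (‖g z‖ ^ q - ‖f z‖ ^ q) :=
    setIntegral_mono_on (hI1.sub hI2) hD measurableSet_ball hpt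
  have h6 := int_lt hq hf hg hlt
  have h7 : ∫ z in ball (0 : ℂ) 1, (A.indicator (fun z => e / H * ‖g z‖ ^ q) z - C₂ * e) =
      e / H * (∫ z in A, ‖g z‖ ^ q) - volume.real (ball (0 : ℂ) 1) * (C₂ * e) := by
    rw [integral_sub hI1 hI2, setIntegral_indicator hAm, inter_eq_right.2 hAs,
      integral_const_mul, setIntegral_const, smul_eq_mul]
  rw [h7] at h5
  have h8 : e / H * (∫ z in A, ‖g z‖ ^ q) ≤ volume.real (ball (0 : ℂ) 1) * (C₂ * e) := by linarith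
  have h9 : e / H * (∫ z in A, ‖g z‖ ^ q) ≤ e / H * (volume.real (ball (0 : ℂ) 1) * C₂ * H) := by
    refine h8.trans (le_of_eq ?_)
    field_simp
  exact le_of_mul_le_mul_left h9 (by positivity)

end BNDAux

open BNDAux in
theorem bnd (hH : S_HAR) (hS : S_SMV) (hP : S_PTB) (hR : S_RIG) : S_BND := by
  intro c₂ r₁ Q hc₂ hcr hr₁
  have hr₁0 : 0 < r₁ := lt_of_le_of_lt hc₂ hcr
  by_cases hQ : 1 ≤ Q
  swap
  · refine ⟨fun _ _ => 1, fun _ _ => le_rfl, ?_⟩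
    intro q c' f g hq hqQ
    exact absurd (hq.trans hqQ) hQ
  have hz₀n : ‖((r₁ : ℝ) : ℂ)‖ = r₁ := by
    rw [norm_real, Real.norm_of_nonneg hr₁0.le]
  have hz₀ : ((r₁ : ℝ) : ℂ) ∈ An c₂ := ⟨by rw [hz₀n]; exact hcr, by rw [hz₀n]; exact hr₁⟩
  -- Harnack constants
  have hHar : ∀ a b : ℝ, ∃ C : ℝ, 1 ≤ C ∧ (c₂ < a → b < 1 → ∀ ω : ℂ → ℂ,
      DifferentiableOn ℂ ω (An c₂) → (∀ z ∈ An c₂, ‖ω z‖ ≤ 1) →
      ∀ z : ℂ, a ≤ ‖z‖ → ‖z‖ ≤ b → ‖ω z - ω ((r₁ : ℝ) : ℂ)‖ ≤ C * (1 - ‖ω ((r₁ : ℝ) : ℂ)‖) ∧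
        1 - ‖ω ((r₁ : ℝ) : ℂ)‖ ≤ C * (1 - ‖ω z‖)) := by
    intro a b
    by_cases h : c₂ < a ∧ b < 1
    · obtain ⟨C, hC1, hC⟩ := hH c₂ {z : ℂ | a ≤ ‖z‖ ∧ ‖z‖ ≤ b} ((r₁ : ℝ) : ℂ) hc₂
        (compact_cann a b) (fun z hz => ⟨h.1.trans_le hz.1, hz.2.trans_lt h.2⟩) hz₀
      exact ⟨C, hC1, fun _ _ ω hω1 hω2 z hz1 hz2 => hC ω hω1 hω2 z ⟨hz1, hz2⟩⟩
    · exact ⟨1, le_rfl, fun h1 h2 => absurd ⟨h1, h2⟩ h⟩
  choose H hH1 hHω using hHar
  -- sub-mean value constants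
  have hSmv : ∀ b : ℝ, ∃ C : ℝ, 0 < C ∧ (b < 1 → ∀ (q M : ℝ) (g : ℂ → ℂ), 1 ≤ q →
      DifferentiableOn ℂ g (ball 0 1) →
      IntegrableOn (fun z => ‖g z‖ ^ q)
        {z : ℂ | (c₂ + r₁) / 2 < ‖z‖ ∧ ‖z‖ < (1 + max b r₁) / 2} →
      ∫ z in {z : ℂ | (c₂ + r₁) / 2 < ‖z‖ ∧ ‖z‖ < (1 + max b r₁) / 2}, ‖g z‖ ^ q ≤ M →
      ∀ z : ℂ, ‖z‖ ≤ max b r₁ → ‖g z‖ ^ q ≤ C * M) := by
    intro b
    by_cases h : b < 1
    · have hm : max b r₁ < 1 := max_lt h hr₁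
      have hm' : r₁ ≤ max b r₁ := le_max_right _ _
      obtain ⟨C, hC0, hC⟩ := hS ((c₂ + r₁) / 2) (max b r₁) ((1 + max b r₁) / 2)
        (by linarith) (by linarith) (by linarith) (by linarith)
      exact ⟨C, hC0, fun _ => hC⟩
    · exact ⟨1, one_pos, fun h1 => absurd h1 h⟩
  choose Sm hSm0 hSm using hSmv
  -- constants
  set H₂ : ℝ := H r₁ r₁ with hH₂
  have hH₂1 : 1 ≤ H₂ := hH1 _ _
  set C₂ : ℝ := Q * (1 + H₂) * (2 + H₂) ^ (Q - 1) with hC₂def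
  have hC₂0 : 0 ≤ C₂ := by
    have : 0 ≤ 2 + H₂ := by linarith
    positivity
  set V : ℝ := volume.real (ball (0 : ℂ) 1) with hV
  have hV0 : 0 ≤ V := measureReal_nonneg
  set H₀ : ℝ → ℝ := fun b => H ((c₂ + r₁) / 2) ((1 + max b r₁) / 2) with hH₀
  have hH₀1 : ∀ b, 1 ≤ H₀ b := fun b => hH1 _ _
  set G : ℝ → ℝ := fun b => max 1 (Sm b * (V * C₂ * H₀ b)) with hG
  have hG1 : ∀ b, 1 ≤ G b := fun b => le_max_left _ _
  set C : ℝ → ℝ → ℝ := fun a b => (1 + H a b) + (1 + H₀ b) * G b with hC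
  have hCH : ∀ a b, 1 + H a b ≤ C a b := by
    intro a b
    have h1 := hH₀1 b
    have h2 := hG1 b
    have : 0 ≤ (1 + H₀ b) * G b := by positivity
    simp only [hC]
    linarith
  have hCG : ∀ a b, (1 + H₀ b) * G b ≤ C a b := by
    intro a b
    have h1 := hH1 a b
    simp only [hC]
    linarith
  have hCG' : ∀ a b, G b ≤ C a b := by
    intro a b
    have h1 := hH₀1 b
    have h2 := hG1 b
    have h3 := hCG a b
    nlinarith
  have hC1 : ∀ a b, 1 ≤ C a b := fun a b => by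
    have h1 := hH1 a b
    have h2 := hCH a b
    linarith
  refine ⟨C, hC1, ?_⟩
  intro q c' f g hq hqQ hc'0 hc' hf hg hfg hlt hg1
  have hsub : An c₂ ⊆ {z : ℂ | c' < ‖z‖ ∧ ‖z‖ < 1} := fun z hz =>
    ⟨hc'.trans_lt hz.1, hz.2⟩
  -- the open annulus used for contradictions
  have hUo : IsOpen {z : ℂ | (c₂ + r₁) / 2 < ‖z‖ ∧ ‖z‖ < r₁} := Bas.isOpen_annulus _ _
  have hUn : {z : ℂ | (c₂ + r₁) / 2 < ‖z‖ ∧ ‖z‖ < r₁}.Nonempty := by
    refine ⟨(((c₂ + 3 * r₁) / 4 : ℝ) : ℂ), ?_⟩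
    have h1 : ‖(((c₂ + 3 * r₁) / 4 : ℝ) : ℂ)‖ = (c₂ + 3 * r₁) / 4 := by
      rw [norm_real, Real.norm_of_nonneg (by linarith)]
    constructor
    · rw [h1]; linarith
    · rw [h1]; linarith
  have hUs : {z : ℂ | (c₂ + r₁) / 2 < ‖z‖ ∧ ‖z‖ < r₁} ⊆ ball 0 1 := Bas.annulus_sub hr₁.le
  -- `g` is not identically zero
  have hgne : ∃ z : ℂ, ‖z‖ < 1 ∧ g z ≠ 0 := by
    by_contra hcon
    push Not at hcon
    refine not_bad hR hf hg hlt hUo hUn hUs ?_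
    intro z hz
    have hz1 : ‖z‖ < 1 := hz.2.trans hr₁
    have h1 : ‖f z‖ ≤ ‖g z‖ := hfg z (by linarith [hz.1]) hz1
    rw [hcon z hz1, norm_zero] at h1 ⊢
    exact le_antisymm h1 (norm_nonneg _)
  obtain ⟨ω, hωd, hω⟩ := Pool.Agent.KRB.rem f g c' hc'0 hf.1 hg.1 hgne hfg
  have hωd' : DifferentiableOn ℂ ω (An c₂) := hωd.mono hsub
  have hω1 : ∀ z ∈ An c₂, ‖ω z‖ ≤ 1 := fun z hz => (hω z (hsub hz).1 (hsub hz).2).2
  have hωf : ∀ z ∈ An c₂, f z = ω z * g z := fun z hz => (hω z (hsub hz).1 (hsub hz).2).1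
  set w₀ : ℂ := ω ((r₁ : ℝ) : ℂ) with hw₀
  have hw₀1 : ‖w₀‖ ≤ 1 := hω1 _ hz₀
  set e : ℝ := 1 - ‖w₀‖ with he
  have he1 : e ≤ 1 := by
    have := norm_nonneg w₀
    linarith
  have he0 : 0 < e := by
    rcases (show 0 ≤ e by linarith).eq_or_lt with h | h
    swap
    · exact h
    exfalso
    refine not_bad hR hf hg hlt hUo hUn hUs ?_
    intro z hz
    have hzA : z ∈ An c₂ := ⟨by linarith [hz.1], hz.2.trans hr₁⟩
    have h1 := (hHω ((c₂ + r₁) / 2) r₁ (by linarith) hr₁ ω hωd' hω1 z hz.1.le hz.2.le).1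
    rw [← hw₀, ← he, ← h, mul_zero] at h1
    have h2 : ω z = w₀ := by
      rw [← sub_eq_zero]
      exact norm_le_zero_iff.1 h1
    have h3 : ‖w₀‖ = 1 := by linarith
    rw [hωf z hzA, norm_mul, h2, h3, one_mul]
  obtain ⟨u, hu, hwu⟩ := exists_unit w₀
  have huu : (starRingEnd ℂ) u * u = 1 := by
    rw [← normSq_eq_conj_mul_self, normSq_eq_norm_sq, hu]
    simp
  have hu' : ‖(starRingEnd ℂ) u‖ = 1 := by rw [RCLike.norm_conj, hu]
  have heC : (e : ℂ) ≠ 0 := by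
    rw [Ne, ofReal_eq_zero]
    exact he0.ne'
  set k : ℂ → ℂ := fun z => (g z - (starRingEnd ℂ) u * f z) / e with hk
  have hkd : DifferentiableOn ℂ k (ball 0 1) := (hg.1.sub (hf.1.const_mul _)).div_const _
  have hfk : ∀ z ∈ ball (0 : ℂ) 1, f z = u * (g z - e * k z) := by
    intro z _
    simp only [hk]
    rw [mul_div_cancel₀ _ heC]
    calc f z = (starRingEnd ℂ) u * u * f z := by rw [huu, one_mul]
      _ = u * (g z - (g z - (starRingEnd ℂ) u * f z)) := by ring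
  have hnf : ∀ z ∈ ball (0 : ℂ) 1, ‖f z‖ = ‖g z - e * k z‖ := by
    intro z hz
    rw [hfk z hz, norm_mul, hu, one_mul]
  -- (1) the bounds on the closed annulus
  have hstep1 : ∀ a b : ℝ, c₂ < a → b < 1 → ∀ z : ℂ, a ≤ ‖z‖ → ‖z‖ ≤ b →
      ‖k z‖ ≤ (1 + H a b) * ‖g z‖ ∧ ‖f z‖ ≤ (1 - e / H a b) * ‖g z‖ := by
    intro a b ha hb z hz1 hz2
    have hzA : z ∈ An c₂ := ⟨ha.trans_le hz1, hz2.trans_lt hb⟩
    have h1 := hHω a b ha hb ω hωd' hω1 z hz1 hz2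
    rw [← hw₀, ← he] at h1
    have hHp : 0 < H a b := by
      have := hH1 a b
      linarith
    constructor
    · have h2 : k z = g z * (1 - (starRingEnd ℂ) u * ω z) / e := by
        simp only [hk]
        rw [hωf z hzA]
        ring
      have h3 : 1 - (starRingEnd ℂ) u * ω z =
          (e : ℂ) - (starRingEnd ℂ) u * (ω z - w₀) := by
        have h4 : (starRingEnd ℂ) u * w₀ = ‖w₀‖ := by
          rw [hwu, ← mul_assoc, huu, one_mul, norm_mul, hu, one_mul]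
          simp
        have h5 : (e : ℂ) = 1 - (‖w₀‖ : ℂ) := by
          rw [he]
          push_cast
          ring
        rw [mul_sub, h4, h5]
        ring
      have h6 : ‖1 - (starRingEnd ℂ) u * ω z‖ ≤ (1 + H a b) * e := by
        rw [h3]
        calc ‖(e : ℂ) - (starRingEnd ℂ) u * (ω z - w₀)‖
            ≤ ‖(e : ℂ)‖ + ‖(starRingEnd ℂ) u * (ω z - w₀)‖ := norm_sub_le _ _
          _ = e + ‖ω z - w₀‖ := by
              rw [norm_real, Real.norm_of_nonneg he0.le, norm_mul, hu', one_mul]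
          _ ≤ e + H a b * e := by linarith [h1.1]
          _ = (1 + H a b) * e := by ring
      rw [h2, norm_div, norm_mul, norm_real, Real.norm_of_nonneg he0.le, div_le_iff₀ he0]
      calc ‖g z‖ * ‖1 - (starRingEnd ℂ) u * ω z‖ ≤ ‖g z‖ * ((1 + H a b) * e) :=
            mul_le_mul_of_nonneg_left h6 (norm_nonneg _)
        _ = (1 + H a b) * ‖g z‖ * e := by ring
    · rw [hωf z hzA, norm_mul]
      refine mul_le_mul_of_nonneg_right ?_ (norm_nonneg _)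
      have h7 : e / H a b ≤ 1 - ‖ω z‖ := by
        rw [div_le_iff₀ hHp]
        linarith [h1.2]
      linarith
  -- (2) the bound for `|z| ≤ r₁`
  have hk1 : ∀ z : ℂ, ‖z‖ ≤ r₁ → ‖k z‖ ≤ 1 + H₂ := by
    refine maxp hkd hr₁0 hr₁ ?_
    intro z hz
    have h1 := (hstep1 r₁ r₁ hcr hr₁ z hz.ge hz.le).1
    have h2 := hg1 z hz.le
    calc ‖k z‖ ≤ (1 + H₂) * ‖g z‖ := h1
      _ ≤ (1 + H₂) * 1 := mul_le_mul_of_nonneg_left h2 (by linarith)
      _ = 1 + H₂ := mul_one _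
  have hstep2 : ∀ z : ℂ, ‖z‖ ≤ r₁ → ‖f z‖ ^ q - ‖g z‖ ^ q ≤ C₂ * e := by
    intro z hz
    have hzb : z ∈ ball (0 : ℂ) 1 := mem_ball_zero_iff.2 (hz.trans_lt hr₁)
    have h1 := hg1 z hz
    have h2 := hk1 z hz
    have hek : ‖(e : ℂ) * k z‖ ≤ e * (1 + H₂) := by
      rw [norm_mul, norm_real, Real.norm_of_nonneg he0.le]
      exact mul_le_mul_of_nonneg_left h2 he0.le
    have hek' : e * (1 + H₂) ≤ 1 + H₂ := by nlinarith
    have h3 : ‖g z - e * k z‖ ≤ 2 + H₂ := by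
      calc ‖g z - e * k z‖ ≤ ‖g z‖ + ‖(e : ℂ) * k z‖ := norm_sub_le _ _
        _ ≤ 2 + H₂ := by linarith
    have h4 : ‖g z‖ ≤ 2 + H₂ := by linarith
    have h5 := hP (g z - e * k z) (g z) q (2 + H₂) hq h3 h4
    have h6 : ‖g z - e * k z - g z‖ ≤ e * (1 + H₂) := by
      have : g z - e * k z - g z = -((e : ℂ) * k z) := by ring
      rw [this, norm_neg]
      exact hek
    rw [← hnf z hzb] at h5
    have h7 : (2 + H₂) ^ (q - 1) ≤ (2 + H₂) ^ (Q - 1) :=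
      Real.rpow_le_rpow_of_exponent_le (by linarith) (by linarith)
    have h8 : (0 : ℝ) ≤ (2 + H₂) ^ (q - 1) := Real.rpow_nonneg (by linarith) _
    calc ‖f z‖ ^ q - ‖g z‖ ^ q ≤ |‖f z‖ ^ q - ‖g z‖ ^ q| := le_abs_self _
      _ ≤ q * ‖g z - e * k z - g z‖ * (2 + H₂) ^ (q - 1) := h5
      _ ≤ Q * (e * (1 + H₂)) * (2 + H₂) ^ (Q - 1) := by
          apply mul_le_mul _ h7 h8 (by positivity)
          exact mul_le_mul hqQ h6 (norm_nonneg _) (by linarith)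
      _ = C₂ * e := by rw [hC₂def]; ring
  have hstep3 : ∀ z : ℂ, r₁ < ‖z‖ → ‖z‖ < 1 → ‖f z‖ ≤ ‖g z‖ := fun z hz1 hz2 =>
    hfg z (by linarith) hz2
  refine ⟨e, u, k, he0, he1, hu, hkd, hfk, ?_⟩
  intro a b ha hab hb
  constructor
  · intro z hz1 hz2
    have h1 := hstep1 a b ha hb z hz1 hz2
    have hHp : 0 < H a b := by
      have := hH1 a b
      linarith
    have h2 := hCH a b
    constructor
    · exact h1.1.trans (mul_le_mul_of_nonneg_right h2 (norm_nonneg _))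
    · refine h1.2.trans (mul_le_mul_of_nonneg_right ?_ (norm_nonneg _))
      have h3 : e / C a b ≤ e / H a b :=
        div_le_div_of_nonneg_left he0.le hHp (by linarith)
      linarith
  -- (3)
  have hm : max b r₁ < 1 := max_lt hb hr₁
  have hm' : r₁ ≤ max b r₁ := le_max_right _ _
  have hint := int_ann (α := (c₂ + r₁) / 2) (β := (1 + max b r₁) / 2) (r₁ := r₁) (H := H₀ b)
    hq hf hg hlt he0 he1 (hH₀1 b) hC₂0 (by linarith) hstep2 hstep3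
    (fun z hz1 hz2 => (hstep1 ((c₂ + r₁) / 2) ((1 + max b r₁) / 2) (by linarith) (by linarith)
      z hz1.le hz2.le).2)
  have hgq : ∀ z : ℂ, ‖z‖ ≤ max b r₁ → ‖g z‖ ≤ G b := by
    intro z hz
    exact le_of_rpow hq
      (hSm b hb q (V * C₂ * H₀ b) g hq hg.1 hint.1 hint.2 z hz)
  have hkq : ∀ z : ℂ, ‖z‖ ≤ max b r₁ → ‖k z‖ ≤ (1 + H₀ b) * G b := by
    refine maxp hkd (lt_of_lt_of_le hr₁0 hm') hm ?_
    intro z hz
    have h1 := (hstep1 ((c₂ + r₁) / 2) ((1 + max b r₁) / 2) (by linarith) (by linarith)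
      z (by rw [hz]; linarith) (by rw [hz]; linarith)).1
    refine h1.trans (mul_le_mul_of_nonneg_left (hgq z hz.le) ?_)
    have := hH₀1 b
    simp only [hH₀] at this
    linarith
  intro z hz
  have hz' : ‖z‖ ≤ max b r₁ := hz.trans (le_max_left _ _)
  exact ⟨(hgq z hz').trans (hCG' a b), (hkq z hz').trans (hCG a b)⟩

end Pool.Agent.KRC
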