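import Pool.Agent.KRC.Bas
import Pool.Agent.KRB.Low

/-!
# The Korenblum constant along integer multiples: continuity
-/

set_option autoImplicit false

namespace Pool.Agent.KRC

open Complex MeasureTheory Set Filter Topology Metric
open Pool.Agent.KRB (Berg nrm KP kap)

namespace CONAux

theorem le_kap {q c : ℝ} (h0 : 0 < c) (h1 : c < 1) (h : KP q c) : c ≤ kap q :=
  le_csSup ⟨1, fun _ hx => hx.2.1.le⟩ ⟨h0, h1, h⟩

/-- upper semicontinuity -/
theorem upper (hU : S_USC) (hK : S_KGD) {q b : ℝ} (hq : 1 ≤ q) (hb : kap q < b) :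
    ∀ᶠ q' in 𝓝[Ici 1] q, kap q' < b := by
  obtain ⟨h0, h1, -⟩ := hK q hq
  rcases le_or_gt 1 b with h | h
  · filter_upwards [self_mem_nhdsWithin] with q' hq'
    exact (hK q' hq').2.1.trans_le h
  · have hc'1 : kap q < (kap q + b) / 2 := by linarith
    have hc'2 : (kap q + b) / 2 < b := by linarith
    set c' := (kap q + b) / 2 with hc'
    have hc1 : kap q < (kap q + c') / 2 := by linarith
    have hc2 : (kap q + c') / 2 < c' := by linarith
    set c := (kap q + c') / 2 with hc
    have hn : ¬ KP q c := fun hh => by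
      have := le_kap (lt_of_le_of_lt h0 hc1) (by linarith) hh
      linarith
    obtain ⟨δ, hδ, hδ'⟩ := hU q c c' hq (lt_of_le_of_lt h0 hc1) hc2 (by linarith) hn
    have hball : {q' : ℝ | |q' - q| < δ} ∈ 𝓝[Ici 1] q := by
      apply mem_nhdsWithin_of_mem_nhds
      have := Metric.ball_mem_nhds q hδ
      filter_upwards [this] with x hx
      rwa [Metric.mem_ball, Real.dist_eq] at hx
    filter_upwards [self_mem_nhdsWithin, hball] with q' hq' hd
    have hnK := hδ' q' hq' hd
    obtain ⟨-, -, hKq⟩ := hK q' hq'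
    by_contra hcon
    rw [not_lt] at hcon
    exact hnK (Pool.Agent.KRB.LOWAux.mono hKq (by linarith))

/-- lower semicontinuity -/
theorem lower (hE : S_EXR) (hA : S_LMA) (hB : S_LMB) (hG : S_GD) (hK : S_KGD) {q a : ℝ}
    (hq : 1 ≤ q) (ha : a < kap q) : ∀ᶠ q' in 𝓝[Ici 1] q, a < kap q' := by
  obtain ⟨h0, h1, hKq⟩ := hK q hq
  rcases lt_or_ge a 0 with h | h
  · filter_upwards [self_mem_nhdsWithin] with q' hq'
    exact h.trans_le (hK q' hq').1
  · by_contra hcon
    have hfr : ∃ᶠ q' in 𝓝[Ici 1] q, q' ∈ Ici (1 : ℝ) ∧ kap q' ≤ a := by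
      rw [Filter.not_eventually] at hcon
      refine (hcon.and_eventually self_mem_nhdsWithin).mono ?_
      rintro x ⟨hx1, hx2⟩
      exact ⟨hx2, not_lt.1 hx1⟩
    obtain ⟨qn, hqn, hqn'⟩ := Filter.exists_seq_forall_of_frequently hfr
    have htq : Tendsto qn atTop (𝓝 q) := hqn.mono_right nhdsWithin_le_nhds
    have hc1 : a < (a + kap q) / 2 := by linarith
    have hc2 : (a + kap q) / 2 < kap q := by linarith
    set c := (a + kap q) / 2 with hc
    have hcpos : 0 < c := lt_of_le_of_lt h hc1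
    obtain ⟨qn', cn', en, gn, kn, e, g, k, hC⟩ := hE q c qn (fun _ => c)
      (fun n => (hqn' n).1) htq hcpos.le (by linarith) (fun _ => hcpos.le)
      (fun _ => by linarith) tendsto_const_nhds (fun n hn => by
        have h2 := le_kap hcpos (by linarith) hn
        have h3 := (hqn' n).2
        linarith)
    have he : 0 ≤ e := ge_of_tendsto' hC.te fun n => (hC.hen n).le
    obtain ⟨hGA, hGB⟩ := hG c (kap q) q hcpos.le hc2 h1 hq hKq
    rcases he.lt_or_eq with he | he
    · exact hGA _ _ (hA _ _ _ _ _ _ _ _ _ _ hC he)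
    · subst he
      exact hGB _ _ (hB _ _ _ _ _ _ _ _ _ hC)

end CONAux

open CONAux in
theorem con (hE : S_EXR) (hA : S_LMA) (hB : S_LMB) (hG : S_GD) (hU : S_USC) (hK : S_KGD) :
    S_CON := by
  intro q hq
  rw [ContinuousWithinAt, tendsto_order]
  exact ⟨fun a ha => lower hE hA hB hG hK hq ha, fun b hb => upper hU hK hq hb⟩

end Pool.Agent.KRC
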