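import Pool.Agent.KRB.Defs

/-!
# The Korenblum constant along integer multiples: definitions
-/

set_option autoImplicit false

namespace Pool.Agent.KRC

open Complex MeasureTheory Set Filter Topology Metric

/-- the annulus `c < |z| < 1` -/
def An (c : ℝ) : Set ℂ := {z : ℂ | c < ‖z‖ ∧ ‖z‖ < 1}

/-- `|g|^q - |f|^q` -/
noncomputable def Dp (q : ℝ) (f g : ℂ → ℂ) (z : ℂ) : ℝ := ‖g z‖ ^ q - ‖f z‖ ^ q

/-- `|g|^(q-2) Re (k conj g)`, the derivative of `|g + t k|^q / q` at `t = 0` -/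
noncomputable def Ep (q : ℝ) (g k : ℂ → ℂ) (z : ℂ) : ℝ :=
  ‖g z‖ ^ (q - 2) * (k z * (starRingEnd ℂ) (g z)).re

/-- limits of bad pairs, first kind -/
structure LimA (c q : ℝ) (f g : ℂ → ℂ) : Prop where
  df : DifferentiableOn ℂ f (ball 0 1)
  dg : DifferentiableOn ℂ g (ball 0 1)
  le : ∀ z ∈ An c, ‖f z‖ ≤ ‖g z‖
  lt : ∃ z ∈ An c, ‖f z‖ < ‖g z‖
  int : IntegrableOn (Dp q f g) (ball 0 1)
  nonpos : ∫ z in ball (0 : ℂ) 1, Dp q f g z ≤ 0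

/-- limits of bad pairs, second kind (infinitesimal pairs) -/
structure LimB (c q : ℝ) (g k : ℂ → ℂ) : Prop where
  dg : DifferentiableOn ℂ g (ball 0 1)
  dk : DifferentiableOn ℂ k (ball 0 1)
  le : ∀ z ∈ An c, 0 ≤ (k z * (starRingEnd ℂ) (g z)).re
  lt : ∃ z ∈ An c, 0 < (k z * (starRingEnd ℂ) (g z)).re
  int : IntegrableOn (Ep q g k) (ball 0 1)
  nonpos : ∫ z in ball (0 : ℂ) 1, Ep q g k z ≤ 0

/-- a convergent sequence of bad pairs `(gn - en kn, gn)` -/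
structure Conv (c q : ℝ) (qn cn en : ℕ → ℝ) (gn kn : ℕ → ℂ → ℂ) (e : ℝ) (g k : ℂ → ℂ) :
    Prop where
  hq : 1 ≤ q
  hqn : ∀ n, 1 ≤ qn n
  tq : Tendsto qn atTop (𝓝 q)
  hc0 : 0 ≤ c
  hc1 : c < 1
  hcn0 : ∀ n, 0 ≤ cn n
  hcn1 : ∀ n, cn n < 1
  tc : Tendsto cn atTop (𝓝 c)
  hen : ∀ n, 0 < en n
  hen1 : ∀ n, en n ≤ 1
  te : Tendsto en atTop (𝓝 e)
  dgn : ∀ n, DifferentiableOn ℂ (gn n) (ball 0 1)
  dkn : ∀ n, DifferentiableOn ℂ (kn n) (ball 0 1)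
  dg : DifferentiableOn ℂ g (ball 0 1)
  dk : DifferentiableOn ℂ k (ball 0 1)
  ug : ∀ r : ℝ, r < 1 → TendstoUniformlyOn gn g atTop (closedBall 0 r)
  uk : ∀ r : ℝ, r < 1 → TendstoUniformlyOn kn k atTop (closedBall 0 r)
  adm : ∀ n, ∀ z ∈ An (cn n), ‖gn n z - en n * kn n z‖ ≤ ‖gn n z‖
  bad : ∀ (n : ℕ) (a b : ℝ), cn n ≤ a → a ≤ b → b < 1 →
    ∫ z in {z : ℂ | a < ‖z‖ ∧ ‖z‖ < b}, (‖gn n z‖ ^ qn n - ‖gn n z - en n * kn n z‖ ^ qn n) ≤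
      ∫ z in closedBall (0 : ℂ) (cn n), (‖gn n z - en n * kn n z‖ ^ qn n - ‖gn n z‖ ^ qn n)
  nt : ∃ z₁ ∈ An c, ∃ η : ℝ, 0 < η ∧ g z₁ ≠ 0 ∧
    ∀ n, ‖gn n z₁ - en n * kn n z₁‖ ≤ (1 - η * en n) * ‖gn n z₁‖

/-- the factorisation `g = P g₀`, `k = g₀ (N + P h₀)` -/
structure Fac (κ : ℝ) (g k : ℂ → ℂ) (P N : Polynomial ℂ) (g₀ h₀ : ℂ → ℂ) : Prop where
  dg : DifferentiableOn ℂ g₀ (ball 0 1)
  dh : DifferentiableOn ℂ h₀ (ball 0 1)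
  eg : ∀ z ∈ ball (0 : ℂ) 1, g z = P.eval z * g₀ z
  ek : ∀ z ∈ ball (0 : ℂ) 1, k z = g₀ z * (N.eval z + P.eval z * h₀ z)
  ne : ∀ z : ℂ, κ < ‖z‖ → P.eval z ≠ 0
  le : ∀ z ∈ An κ, 0 ≤ ((N.eval z + P.eval z * h₀ z) * (starRingEnd ℂ) (P.eval z)).re

/-- the test function `g₀ (N + P h₀(ρ z))` -/
noncomputable def ph (P N : Polynomial ℂ) (g₀ h₀ : ℂ → ℂ) (ρ : ℝ) (z : ℂ) : ℂ :=
  g₀ z * (N.eval z + P.eval z * h₀ (ρ * z))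

end Pool.Agent.KRC
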