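import Pool.Agent.KRC.Bas
import Pool.Agent.KRB.Up

/-!
# The Korenblum constant along integer multiples: dilation
-/

set_option autoImplicit false

namespace Pool.Agent.KRC

open Complex MeasureTheory Set Filter Topology Metric
open Pool.Agent.KRB

namespace DILAux

theorem maps {r : ℝ} (hr0 : 0 < r) (hr1 : r < 1) {z : ℂ} (hz : z ∈ ball (0 : ℂ) 1) :
    (r : ℂ) * z ∈ ball (0 : ℂ) 1 := by
  rw [mem_ball_zero_iff] at hz ⊢
  rw [norm_mul, norm_real, Real.norm_of_nonneg hr0.le]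
  nlinarith [norm_nonneg z]

theorem berg {p r : ℝ} (hp : 0 < p) (hr0 : 0 < r) (hr1 : r < 1) {F : ℂ → ℂ}
    (hF : DifferentiableOn ℂ F (ball 0 1)) : Berg p (fun z => F (r * z)) := by
  have hd : DifferentiableOn ℂ (fun z : ℂ => F (r * z)) (ball 0 1) := by
    refine hF.comp (f := fun z : ℂ => (r : ℂ) * z) ?_ fun z hz => maps hr0 hr1 hz
    exact (differentiable_id.const_mul _).differentiableOn
  refine ⟨hd, ?_⟩
  obtain ⟨M, hM0, hM⟩ := Bas.bdd hF.continuousOn hr1
  have h : IntegrableOn (fun _ : ℂ => M ^ p) (ball (0 : ℂ) 1) :=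
    integrableOn_const measure_ball_lt_top.ne
  have hc : ContinuousOn (fun z : ℂ => ‖F (r * z)‖ ^ p) (ball 0 1) :=
    (hd.continuousOn.norm).rpow_const (fun _ _ => Or.inr hp.le)
  refine Integrable.mono' h (hc.aestronglyMeasurable measurableSet_ball) ?_
  filter_upwards [ae_restrict_mem measurableSet_ball] with z hz
  rw [mem_ball_zero_iff] at hz
  rw [Real.norm_of_nonneg (by positivity)]
  refine Real.rpow_le_rpow (norm_nonneg _) (hM _ ?_) hp.le
  rw [norm_mul, norm_real, Real.norm_of_nonneg hr0.le]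
  nlinarith [norm_nonneg z]

theorem subst {r : ℝ} (hr0 : 0 < r) (φ : ℂ → ℝ) :
    ∫ w in ball (0 : ℂ) r, φ w = r ^ 2 * ∫ z in ball (0 : ℂ) 1, φ (r * z) := by
  have h1 := Measure.setIntegral_comp_smul_of_pos (volume : Measure ℂ) φ (ball (0 : ℂ) 1) hr0
  rw [smul_unitBall_of_pos hr0, Complex.finrank_real_complex] at h1
  have h2 : ∫ z in ball (0 : ℂ) 1, φ (r * z) = ∫ z in ball (0 : ℂ) 1, φ (r • z) := by
    simp only [Complex.real_smul]
  rw [h2, h1, smul_eq_mul, ← mul_assoc, mul_inv_cancel₀ (by positivity), one_mul]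

end DILAux

open DILAux in
theorem dil : S_DIL := by
  intro p κ r F G hp hK hr0 hr1 hF hG hle
  have h1 := UPAux.int_le hp hK (DILAux.berg hp hr0 hr1 hF) (DILAux.berg hp hr0 hr1 hG) (by
    intro z h1 h2
    refine hle _ ?_ ?_
    · rw [norm_mul, norm_real, Real.norm_of_nonneg hr0.le]
      exact mul_lt_mul_of_pos_left h1 hr0
    · rw [norm_mul, norm_real, Real.norm_of_nonneg hr0.le]
      calc r * ‖z‖ < r * 1 := mul_lt_mul_of_pos_left h2 hr0
        _ = r := mul_one r)
  rw [subst hr0 fun w => ‖F w‖ ^ p, subst hr0 fun w => ‖G w‖ ^ p]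
  exact mul_le_mul_of_nonneg_left h1 (by positivity)

end Pool.Agent.KRC
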