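import Pool.Agent.KRC.Bas

/-!
# The Korenblum constant along integer multiples: extraction of a convergent sequence of bad pairs
-/

set_option autoImplicit false

namespace Pool.Agent.KRC

open Complex MeasureTheory Set Filter Topology Metric
open Pool.Agent.KRB (Berg nrm KP kap)

namespace EXRAux

theorem nrm_div {q μ : ℝ} (hq : 0 < q) (hμ : 0 < μ) (g : ℂ → ℂ) :
    nrm q (fun z => g z / μ) = nrm q g / μ := by
  have h1 : ∀ z : ℂ, ‖g z / (μ : ℂ)‖ ^ q = ‖g z‖ ^ q / μ ^ q := by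
    intro z
    rw [norm_div, norm_real, Real.norm_of_nonneg hμ.le, Real.div_rpow (norm_nonneg _) hμ.le]
  unfold nrm
  simp_rw [h1]
  rw [integral_div, Real.div_rpow (integral_nonneg fun z => by positivity) (by positivity),
    ← Real.rpow_mul hμ.le, mul_one_div_cancel hq.ne', Real.rpow_one]

theorem berg_div {q μ : ℝ} (hμ : 0 < μ) {g : ℂ → ℂ} (hg : Berg q g) :
    Berg q (fun z => g z / μ) := by
  have h1 : ∀ z : ℂ, ‖g z / (μ : ℂ)‖ ^ q = ‖g z‖ ^ q / μ ^ q := by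
    intro z
    rw [norm_div, norm_real, Real.norm_of_nonneg hμ.le, Real.div_rpow (norm_nonneg _) hμ.le]
  refine ⟨hg.1.div_const _, ?_⟩
  simp_rw [h1]
  exact hg.2.div_const _

/-- a function which vanishes on a nonempty open subset of the disc vanishes on the disc -/
theorem ident {g : ℂ → ℂ} (hg : DifferentiableOn ℂ g (ball 0 1)) {U : Set ℂ} (hU : IsOpen U)
    (hU1 : U ⊆ ball 0 1) (hne : U.Nonempty) (h : ∀ z ∈ U, g z = 0) :
    ∀ z ∈ ball (0 : ℂ) 1, g z = 0 := by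
  obtain ⟨z₀, hz₀⟩ := hne
  have hA : AnalyticOnNhd ℂ g (ball 0 1) := hg.analyticOnNhd isOpen_ball
  have h3 : g =ᶠ[𝓝 z₀] 0 := by
    filter_upwards [hU.mem_nhds hz₀] with w hw
    exact h w hw
  intro z hz
  exact hA.eqOn_zero_of_preconnected_of_eventuallyEq_zero
    (convex_ball (0 : ℂ) 1).isPreconnected (hU1 hz₀) h3 hz

theorem An_nonempty {c : ℝ} (hc0 : 0 ≤ c) (hc : c < 1) : (An c).Nonempty := by
  refine ⟨(((c + 1) / 2 : ℝ) : ℂ), ?_⟩
  constructor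
  · rw [norm_real, Real.norm_of_nonneg (by linarith)]; linarith
  · rw [norm_real, Real.norm_of_nonneg (by linarith)]; linarith

/-- normalised bad pairs -/
theorem one {q c r : ℝ} (hq : 1 ≤ q) (hc0 : 0 ≤ c) (hc1 : c < 1) (hr0 : 0 < r) (hr1 : r < 1)
    (h : ¬ KP q c) : ∃ f g : ℂ → ℂ, Berg q f ∧ Berg q g ∧
      (∀ z : ℂ, c < ‖z‖ → ‖z‖ < 1 → ‖f z‖ ≤ ‖g z‖) ∧ nrm q g < nrm q f ∧
      (∀ z : ℂ, ‖z‖ ≤ r → ‖g z‖ ≤ 1) ∧ ∃ z : ℂ, ‖z‖ ≤ r ∧ ‖g z‖ = 1 := by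
  unfold KP at h
  push Not at h
  obtain ⟨f, g, hf, hg, hle, hn⟩ := h
  have hcont : ContinuousOn (fun z => ‖g z‖) (closedBall (0 : ℂ) r) :=
    (hg.1.continuousOn.mono (Bas.closedBall_sub hr1)).norm
  obtain ⟨z₀, hz₀, hmax⟩ := (isCompact_closedBall (0 : ℂ) r).exists_isMaxOn
    ⟨0, mem_closedBall_self hr0.le⟩ hcont
  have hmax' : ∀ z : ℂ, ‖z‖ ≤ r → ‖g z‖ ≤ ‖g z₀‖ := fun z hz =>
    hmax (mem_closedBall_zero_iff.2 hz)
  have hμ : 0 < ‖g z₀‖ := by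
    rcases (norm_nonneg (g z₀)).eq_or_lt with h0 | h0
    · exfalso
      have h1 : ∀ z ∈ ball (0 : ℂ) 1, g z = 0 := by
        refine ident hg.1 isOpen_ball (ball_subset_ball hr1.le) ⟨0, mem_ball_self hr0⟩ ?_
        intro z hz
        have := hmax' z (mem_ball_zero_iff.1 hz).le
        rw [← h0] at this
        exact norm_le_zero_iff.1 this
      have h2 : ∀ z ∈ ball (0 : ℂ) 1, f z = 0 := by
        refine ident hf.1 (Bas.isOpen_An c) (Bas.An_sub c) (An_nonempty hc0 hc1) ?_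
        intro z hz
        have := hle z hz.1 hz.2
        rw [h1 z (Bas.An_sub c hz), norm_zero] at this
        exact norm_le_zero_iff.1 this
      have h3 : nrm q f = nrm q g := by
        unfold nrm
        congr 1
        refine setIntegral_congr_fun measurableSet_ball fun z hz => ?_
        simp only [h1 z hz, h2 z hz]
      exact hn.ne h3.symm
    · exact h0
  refine ⟨fun z => f z / (‖g z₀‖ : ℝ), fun z => g z / (‖g z₀‖ : ℝ), berg_div hμ hf, berg_div hμ hg,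
    ?_, ?_, ?_, z₀, mem_closedBall_zero_iff.1 hz₀, ?_⟩
  · intro z hz hz1
    rw [norm_div, norm_div]
    exact div_le_div_of_nonneg_right (hle z hz hz1) (norm_nonneg _)
  · rw [nrm_div (by linarith) hμ, nrm_div (by linarith) hμ]
    exact div_lt_div_of_pos_right hn hμ
  · intro z hz
    rw [norm_div, norm_real, Real.norm_of_nonneg hμ.le, div_le_one hμ]
    exact hmax' z hz
  · rw [norm_div, norm_real, Real.norm_of_nonneg hμ.le, div_self hμ.ne']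

/-- the inequality `bad` -/
theorem bad {q c : ℝ} (hq : 1 ≤ q) (hc1 : c < 1) {f g F : ℂ → ℂ} (hf : Berg q f)
    (hg : Berg q g) (hle : ∀ z : ℂ, c < ‖z‖ → ‖z‖ < 1 → ‖f z‖ ≤ ‖g z‖) (hn : nrm q g < nrm q f)
    (hF : ∀ z ∈ ball (0 : ℂ) 1, ‖F z‖ = ‖f z‖) {a b : ℝ} (ha : c ≤ a) (hb : b < 1) :
    ∫ z in {z : ℂ | a < ‖z‖ ∧ ‖z‖ < b}, (‖g z‖ ^ q - ‖F z‖ ^ q) ≤
      ∫ z in closedBall (0 : ℂ) c, (‖F z‖ ^ q - ‖g z‖ ^ q) := by
  have hsub : {z : ℂ | a < ‖z‖ ∧ ‖z‖ < b} ⊆ An c := fun z hz =>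
    ⟨ha.trans_lt hz.1, hz.2.trans hb⟩
  have hm1 : MeasurableSet {z : ℂ | a < ‖z‖ ∧ ‖z‖ < b} := (Bas.isOpen_annulus a b).measurableSet
  have hm2 : MeasurableSet (An c) := (Bas.isOpen_An c).measurableSet
  have e1 : ∫ z in {z : ℂ | a < ‖z‖ ∧ ‖z‖ < b}, (‖g z‖ ^ q - ‖F z‖ ^ q) =
      ∫ z in {z : ℂ | a < ‖z‖ ∧ ‖z‖ < b}, (‖g z‖ ^ q - ‖f z‖ ^ q) := by
    refine setIntegral_congr_fun hm1 fun z hz => ?_
    simp only [hF z (Bas.An_sub c (hsub hz))]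
  have e2 : ∫ z in closedBall (0 : ℂ) c, (‖F z‖ ^ q - ‖g z‖ ^ q) =
      - ∫ z in closedBall (0 : ℂ) c, (‖g z‖ ^ q - ‖f z‖ ^ q) := by
    rw [← integral_neg]
    refine setIntegral_congr_fun measurableSet_closedBall fun z hz => ?_
    simp only [hF z (Bas.closedBall_sub hc1 hz)]
    ring
  have hint : IntegrableOn (fun z => ‖g z‖ ^ q - ‖f z‖ ^ q) (ball (0 : ℂ) 1) := hg.2.sub hf.2
  have hneg : ∫ z in ball (0 : ℂ) 1, (‖g z‖ ^ q - ‖f z‖ ^ q) < 0 := by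
    rw [integral_sub hg.2 hf.2]
    unfold nrm at hn
    have := (Real.rpow_lt_rpow_iff (integral_nonneg fun z => by positivity)
      (integral_nonneg fun z => by positivity) (by positivity : 0 < 1 / q)).1 hn
    linarith
  have hun : ball (0 : ℂ) 1 = closedBall (0 : ℂ) c ∪ An c := by
    ext z
    simp only [mem_union, mem_ball_zero_iff, mem_closedBall_zero_iff, An, mem_ofPred_eq]
    constructor
    · intro h
      rcases le_or_gt ‖z‖ c with h1 | h1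
      · exact Or.inl h1
      · exact Or.inr ⟨h1, h⟩
    · rintro (h | h)
      · exact h.trans_lt hc1
      · exact h.2
  have hdisj : Disjoint (closedBall (0 : ℂ) c) (An c) := by
    rw [Set.disjoint_left]
    intro z hz hz2
    exact absurd hz2.1 (not_lt.2 (mem_closedBall_zero_iff.1 hz))
  have hsplit : ∫ z in ball (0 : ℂ) 1, (‖g z‖ ^ q - ‖f z‖ ^ q) =
      (∫ z in closedBall (0 : ℂ) c, (‖g z‖ ^ q - ‖f z‖ ^ q)) +
        ∫ z in An c, (‖g z‖ ^ q - ‖f z‖ ^ q) := by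
    rw [hun]
    exact setIntegral_union hdisj hm2 (hint.mono_set (Bas.closedBall_sub hc1))
      (hint.mono_set (Bas.An_sub c))
  have hmono : ∫ z in {z : ℂ | a < ‖z‖ ∧ ‖z‖ < b}, (‖g z‖ ^ q - ‖f z‖ ^ q) ≤
      ∫ z in An c, (‖g z‖ ^ q - ‖f z‖ ^ q) := by
    refine setIntegral_mono_set (hint.mono_set (Bas.An_sub c)) ?_ hsub.eventuallyLE
    filter_upwards [ae_restrict_mem hm2] with z hz
    simp only [Pi.zero_apply]
    have := Real.rpow_le_rpow (norm_nonneg _) (hle z hz.1 hz.2) (by linarith : (0 : ℝ) ≤ q)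
    linarith
  rw [e1, e2]
  linarith

end EXRAux

open EXRAux in
theorem exr (hB : S_BND) (hM : S_MON) : S_EXR := by
  intro q c qn cn hqn tq hc0 hc1 hcn0 hcn1 tc hK
  have hq : 1 ≤ q := ge_of_tendsto' tq hqn
  -- the bound for `cn`
  obtain ⟨c₂, hc₂⟩ := tc.isCompact_insert_range.exists_isGreatest (insert_nonempty _ _)
  have hcc₂ : c ≤ c₂ := hc₂.2 (mem_insert _ _)
  have hcnc₂ : ∀ n, cn n ≤ c₂ := fun n => hc₂.2 (mem_insert_of_mem _ (mem_range_self n))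
  have hc₂1 : c₂ < 1 := by
    rcases hc₂.1 with h | ⟨n, h⟩
    · rw [h]; exact hc1
    · rw [← h]; exact hcn1 n
  have hc₂0 : 0 ≤ c₂ := hc0.trans hcc₂
  obtain ⟨Q, hQ⟩ := tq.bddAbove_range
  have hQ' : ∀ n, qn n ≤ Q := fun n => hQ (mem_range_self n)
  set r₁ : ℝ := (1 + c₂) / 2 with hr₁
  have hr1 : r₁ < 1 := by linarith
  have hr2 : c₂ < r₁ := by linarith
  have hr0 : 0 < r₁ := by linarith
  obtain ⟨C, hC1, hC⟩ := hB c₂ r₁ Q hc₂0 hr2 hr1
  choose f g hf hg hle hn hg1 hgz using fun n =>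
    one (hqn n) (hcn0 n) (hcn1 n) hr0 hr1 (hK n)
  choose e u k he he1 hu hk hfu hab using fun n =>
    hC (qn n) (cn n) (f n) (g n) (hqn n) (hQ' n) (hcn0 n) (hcnc₂ n) (hf n) (hg n) (hle n) (hn n)
      (hg1 n)
  have hF : ∀ n, ∀ z ∈ ball (0 : ℂ) 1, ‖g n z - e n * k n z‖ = ‖f n z‖ := by
    intro n z hz
    rw [hfu n z hz, norm_mul, hu n, one_mul]
  -- bounds
  have hbg : ∀ r : ℝ, r < 1 → ∃ M : ℝ, ∀ n, ∀ z : ℂ, ‖z‖ ≤ r → ‖g n z‖ ≤ M := by
    intro r hr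
    refine ⟨C (max r r₁) (max r r₁), fun n z hz => ?_⟩
    exact ((hab n (max r r₁) (max r r₁) (lt_max_of_lt_right hr2) le_rfl (max_lt hr hr1)).2 z
      (hz.trans (le_max_left _ _))).1
  have hbk : ∀ r : ℝ, r < 1 → ∃ M : ℝ, ∀ n, ∀ z : ℂ, ‖z‖ ≤ r → ‖k n z‖ ≤ M := by
    intro r hr
    refine ⟨C (max r r₁) (max r r₁), fun n z hz => ?_⟩
    exact ((hab n (max r r₁) (max r r₁) (lt_max_of_lt_right hr2) le_rfl (max_lt hr hr1)).2 z
      (hz.trans (le_max_left _ _))).2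
  obtain ⟨φ₁, G, hφ₁, hG, hGu⟩ := hM g (fun n => (hg n).1) hbg
  obtain ⟨φ₂, K, hφ₂, hKd, hKu⟩ := hM (fun n => k (φ₁ n)) (fun n => hk _)
    (fun r hr => by
      obtain ⟨M, hM⟩ := hbk r hr
      exact ⟨M, fun n z hz => hM _ z hz⟩)
  obtain ⟨E, hE, φ₃, hφ₃, hEt⟩ := (isCompact_Icc (a := (0 : ℝ)) (b := 1)).tendsto_subseq
    (x := fun n => e (φ₁ (φ₂ n))) (fun n => ⟨(he _).le, he1 _⟩)
  set φ : ℕ → ℕ := fun n => φ₁ (φ₂ (φ₃ n)) with hφdef
  have hφ23 : StrictMono (fun n => φ₂ (φ₃ n)) := hφ₂.comp hφ₃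
  have hφ : StrictMono φ := hφ₁.comp hφ23
  have hφt : Tendsto φ atTop atTop := hφ.tendsto_atTop
  have hug : ∀ r : ℝ, r < 1 → TendstoUniformlyOn (fun n => g (φ n)) G atTop (closedBall 0 r) := by
    intro r hr v hv
    exact hφ23.tendsto_atTop.eventually (hGu r hr v hv)
  have huk : ∀ r : ℝ, r < 1 → TendstoUniformlyOn (fun n => k (φ n)) K atTop (closedBall 0 r) := by
    intro r hr v hv
    exact hφ₃.tendsto_atTop.eventually (hKu r hr v hv)
  -- the limit is not zero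
  have hG0 : ∃ z ∈ An c₂, G z ≠ 0 := by
    by_contra hcon
    push Not at hcon
    have h1 : ∀ z ∈ ball (0 : ℂ) 1, G z = 0 :=
      ident hG (Bas.isOpen_An c₂) (Bas.An_sub c₂) (An_nonempty hc₂0 hc₂1) hcon
    have h2 := (Metric.tendstoUniformlyOn_iff.1 (hug r₁ hr1) 1 one_pos).exists
    obtain ⟨n, hn'⟩ := h2
    obtain ⟨z, hz, hz1⟩ := hgz (φ n)
    have h3 := hn' z (mem_closedBall_zero_iff.2 hz)
    rw [h1 z (mem_ball_zero_iff.2 (hz.trans_lt hr1)), dist_zero_left, hz1] at h3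
    exact lt_irrefl _ h3
  obtain ⟨z₁, hz₁, hGz₁⟩ := hG0
  refine ⟨fun n => qn (φ n), fun n => cn (φ n), fun n => e (φ n), fun n => g (φ n),
    fun n => k (φ n), E, G, K, ?_⟩
  exact
    { hq := hq
      hqn := fun n => hqn _
      tq := tq.comp hφt
      hc0 := hc0
      hc1 := hc1
      hcn0 := fun n => hcn0 _
      hcn1 := fun n => hcn1 _
      tc := tc.comp hφt
      hen := fun n => he _
      hen1 := fun n => he1 _
      te := hEt
      dgn := fun n => (hg _).1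
      dkn := fun n => hk _
      dg := hG
      dk := hKd
      ug := hug
      uk := huk
      adm := fun n z hz => by
        rw [hF (φ n) z (Bas.An_sub _ hz)]
        exact hle (φ n) z hz.1 hz.2
      bad := fun n a b ha _ hb =>
        bad (hqn (φ n)) (hcn1 (φ n)) (F := fun z => g (φ n) z - e (φ n) * k (φ n) z) (hf (φ n))
          (hg (φ n)) (hle (φ n)) (hn (φ n)) (hF (φ n)) ha hb
      nt := by
        refine ⟨z₁, ⟨hcc₂.trans_lt hz₁.1, hz₁.2⟩, 1 / C ‖z₁‖ ‖z₁‖,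
          one_div_pos.2 (lt_of_lt_of_le one_pos (hC1 _ _)), hGz₁, fun n => ?_⟩
        have h1 := ((hab (φ n) ‖z₁‖ ‖z₁‖ hz₁.1 le_rfl hz₁.2).1 z₁ le_rfl le_rfl).2
        rw [hF (φ n) z₁ (mem_ball_zero_iff.2 hz₁.2)]
        calc ‖f (φ n) z₁‖ ≤ (1 - e (φ n) / C ‖z₁‖ ‖z₁‖) * ‖g (φ n) z₁‖ := h1
          _ = (1 - 1 / C ‖z₁‖ ‖z₁‖ * e (φ n)) * ‖g (φ n) z₁‖ := by ring }

end Pool.Agent.KRC
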