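import Pool.Agent.KRC.Bas

/-!
# The Korenblum constant along integer multiples: extension across the circle
-/

set_option autoImplicit false

namespace Pool.Agent.KRC

open Complex MeasureTheory Set Filter Topology Metric

namespace EXTAux

/-- a point of the circle is a limit of points of the annulus -/
theorem neBot {κ : ℝ} {z₀ : ℂ} (h0 : 0 < κ) (h1 : κ < 1) (hz : ‖z₀‖ = κ) :
    (𝓝[An κ] z₀).NeBot := by
  rw [← mem_closure_iff_nhdsWithin_neBot]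
  have ht : Tendsto (fun n : ℕ => (((1 : ℝ) + 1 / ((n : ℝ) + 1) : ℝ) : ℂ) * z₀) atTop (𝓝 z₀) := by
    have h2 : Tendsto (fun n : ℕ => ((1 : ℝ) + 1 / ((n : ℝ) + 1))) atTop (𝓝 (1 + 0)) :=
      tendsto_const_nhds.add tendsto_one_div_add_atTop_nhds_zero_nat
    rw [add_zero] at h2
    have h3 := ((continuous_ofReal.tendsto _).comp h2).mul_const z₀
    simpa using h3
  refine mem_closure_of_tendsto ht ?_
  have h4 : Tendsto (fun n : ℕ => ‖(((1 : ℝ) + 1 / ((n : ℝ) + 1) : ℝ) : ℂ) * z₀‖) atTop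
      (𝓝 ‖z₀‖) := ht.norm
  rw [hz] at h4
  filter_upwards [h4.eventually (gt_mem_nhds h1)] with n hn
  refine ⟨?_, hn⟩
  have h5 : (0 : ℝ) < 1 / ((n : ℝ) + 1) := by positivity
  rw [norm_mul, hz, norm_real, Real.norm_of_nonneg (by positivity)]
  nlinarith

/-- the quotient is analytic -/
theorem quot {κ : ℝ} {f g : ℂ → ℂ} {z₀ : ℂ} (h0 : 0 < κ) (h1 : κ < 1)
    (df : DifferentiableOn ℂ f (ball 0 1)) (dg : DifferentiableOn ℂ g (ball 0 1))
    (hg : ∃ z ∈ ball (0 : ℂ) 1, g z ≠ 0) (hle : ∀ z ∈ An κ, ‖f z‖ ≤ ‖g z‖) (hz : ‖z₀‖ = κ) :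
    ∃ ω : ℂ → ℂ, AnalyticAt ℂ ω z₀ ∧ (∀ᶠ z in 𝓝 z₀, f z = ω z * g z) ∧
      ∀ᶠ z in 𝓝 z₀, z ≠ z₀ → g z ≠ 0 := by
  have hz1 : z₀ ∈ ball (0 : ℂ) 1 := by rw [mem_ball_zero_iff, hz]; exact h1
  have hA : AnalyticOnNhd ℂ g (ball 0 1) := dg.analyticOnNhd isOpen_ball
  have hAf : AnalyticAt ℂ f z₀ := df.analyticOnNhd isOpen_ball z₀ hz1
  have hAg : AnalyticAt ℂ g z₀ := hA z₀ hz1
  have hne : ¬ ∀ᶠ z in 𝓝 z₀, g z = 0 := by
    intro h
    obtain ⟨w, hw, hw0⟩ := hg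
    exact hw0 (hA.eqOn_zero_of_preconnected_of_eventuallyEq_zero
      (convex_ball (0 : ℂ) 1).isPreconnected hz1 h hw)
  obtain ⟨n, g₁, hg₁, hg₁0, hg₁e⟩ := hAg.exists_eventuallyEq_pow_smul_nonzero_iff.2 hne
  have hNB := neBot h0 h1 hz
  have hzA : z₀ ∉ An κ := fun h => absurd h.1 (by rw [hz]; exact lt_irrefl _)
  have hord : (n : ℕ∞) ≤ analyticOrderAt f z₀ := by
    by_contra hlt
    rw [not_le] at hlt
    have hfin : ¬ ∀ᶠ z in 𝓝 z₀, f z = 0 := by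
      intro h
      rw [analyticOrderAt_eq_top.2 h] at hlt
      exact absurd hlt (by simp)
    obtain ⟨l, f₁, hf₁, hf₁0, hf₁e⟩ := hAf.exists_eventuallyEq_pow_smul_nonzero_iff.2 hfin
    have hl : analyticOrderAt f z₀ = l := (hAf.analyticOrderAt_eq_natCast).2 ⟨f₁, hf₁, hf₁0, hf₁e⟩
    rw [hl, Nat.cast_lt] at hlt
    have hev : ∀ᶠ z in 𝓝[An κ] z₀, ‖f₁ z‖ ≤ ‖z - z₀‖ ^ (n - l) * ‖g₁ z‖ := by
      filter_upwards [nhdsWithin_le_nhds hf₁e, nhdsWithin_le_nhds hg₁e, self_mem_nhdsWithin]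
        with z h2 h3 h4
      have h5 := hle z h4
      rw [h2, h3, norm_smul, norm_smul, norm_pow, norm_pow] at h5
      have h6 : 0 < ‖z - z₀‖ := by
        rw [norm_pos_iff, sub_ne_zero]
        rintro rfl
        exact hzA h4
      have h7 : ‖z - z₀‖ ^ n = ‖z - z₀‖ ^ l * ‖z - z₀‖ ^ (n - l) := by
        rw [← pow_add]
        congr 1
        omega
      rw [h7, mul_assoc] at h5
      exact le_of_mul_le_mul_left h5 (by positivity)
    have ht1 : Tendsto (fun z => ‖f₁ z‖) (𝓝[An κ] z₀) (𝓝 ‖f₁ z₀‖) :=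
      (hf₁.continuousAt.norm).tendsto.mono_left nhdsWithin_le_nhds
    have ht2 : Tendsto (fun z => ‖z - z₀‖ ^ (n - l) * ‖g₁ z‖) (𝓝[An κ] z₀)
        (𝓝 (‖z₀ - z₀‖ ^ (n - l) * ‖g₁ z₀‖)) := by
      have : ContinuousAt (fun z => ‖z - z₀‖ ^ (n - l) * ‖g₁ z‖) z₀ := by
        exact ((continuousAt_id.sub continuousAt_const).norm.pow _).mul hg₁.continuousAt.norm
      exact this.tendsto.mono_left nhdsWithin_le_nhds
    have h8 := le_of_tendsto_of_tendsto ht1 ht2 hev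
    rw [sub_self, norm_zero, zero_pow (by omega), zero_mul] at h8
    exact hf₁0 (norm_le_zero_iff.1 h8)
  obtain ⟨f₁, hf₁, hf₁e⟩ := (natCast_le_analyticOrderAt hAf).1 hord
  have hg₁n : ∀ᶠ z in 𝓝 z₀, g₁ z ≠ 0 := hg₁.continuousAt.eventually_ne hg₁0
  refine ⟨fun z => f₁ z / g₁ z, hf₁.div hg₁ hg₁0, ?_, ?_⟩
  · filter_upwards [hf₁e, hg₁e, hg₁n] with z h2 h3 h4
    rw [h2, h3, smul_eq_mul, smul_eq_mul]
    field_simp
  · filter_upwards [hg₁e, hg₁n] with z h3 h4 h5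
    rw [h3, smul_eq_mul]
    exact mul_ne_zero (pow_ne_zero _ (sub_ne_zero.2 h5)) h4

/-- the local claim -/
theorem loc {κ : ℝ} {f g : ℂ → ℂ} {z₀ : ℂ} (h0 : 0 < κ) (h1 : κ < 1)
    (df : DifferentiableOn ℂ f (ball 0 1)) (dg : DifferentiableOn ℂ g (ball 0 1))
    (hg : ∃ z ∈ ball (0 : ℂ) 1, g z ≠ 0) (hle : ∀ z ∈ An κ, ‖f z‖ ≤ ‖g z‖) (hz : ‖z₀‖ = κ) :
    ∃ L : ℝ, ∀ᶠ w in 𝓝 z₀, ‖w‖ ≤ κ → ‖f w‖ ≤ (1 + L * (κ - ‖w‖)) * ‖g w‖ := by
  obtain ⟨ω, hω, he, hn⟩ := quot h0 h1 df dg hg hle hz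
  obtain ⟨K, t, ht, hK⟩ := (hω.contDiffAt (n := 1)).exists_lipschitzOnWith
  have hall : ∀ᶠ z in 𝓝 z₀, z ∈ t ∧ f z = ω z * g z ∧ (z ≠ z₀ → g z ≠ 0) := by
    filter_upwards [ht, he, hn] with z h2 h3 h4
    exact ⟨h2, h3, h4⟩
  obtain ⟨ρ, hρ, hρt⟩ := Metric.eventually_nhds_iff.1 hall
  refine ⟨K, ?_⟩
  have hρ' : 0 < min (ρ / 3) κ := lt_min (by linarith) h0
  filter_upwards [Metric.ball_mem_nhds z₀ hρ'] with w hw hwκ
  have hw1 : ‖w - z₀‖ < ρ / 3 := by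
    have := mem_ball_iff_norm.1 hw
    exact this.trans_le (min_le_left _ _)
  have hw2 : ‖w - z₀‖ < κ := by
    have := mem_ball_iff_norm.1 hw
    exact this.trans_le (min_le_right _ _)
  have hw3 : κ - ‖w‖ ≤ ‖w - z₀‖ := by
    have := norm_sub_norm_le z₀ w
    rw [hz, norm_sub_rev] at this
    exact this
  have hw0 : 0 < ‖w‖ := by linarith
  have hwt := hρt (by rw [dist_eq_norm]; linarith : dist w z₀ < ρ)
  have key : ‖ω w‖ ≤ 1 + K * (κ - ‖w‖) := by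
    -- test points slightly outside
    have hev : ∀ᶠ ε in 𝓝[>] (0 : ℝ), ‖ω w‖ ≤ 1 + K * (κ + ε - ‖w‖) := by
      have h3 : (0 : ℝ) < min (ρ / 3) (1 - κ) := lt_min (by linarith) (by linarith)
      filter_upwards [Ioo_mem_nhdsGT h3] with ε hε
      have hε1 : ε < ρ / 3 := hε.2.trans_le (min_le_left _ _)
      have hε2 : ε < 1 - κ := hε.2.trans_le (min_le_right _ _)
      set w' : ℂ := (((κ + ε) / ‖w‖ : ℝ) : ℂ) * w with hw'
      have hn' : ‖w'‖ = κ + ε := by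
        rw [hw', norm_mul, norm_real, Real.norm_of_nonneg (by have := hε.1; positivity)]
        field_simp
      have hA : w' ∈ An κ := by
        refine ⟨?_, ?_⟩
        · rw [hn']; linarith [hε.1]
        · rw [hn']; linarith
      have hd : ‖w - w'‖ = κ + ε - ‖w‖ := by
        have : w - w' = ((1 - (κ + ε) / ‖w‖ : ℝ) : ℂ) * w := by
          rw [hw']
          push_cast
          ring
        rw [this, norm_mul, norm_real, Real.norm_of_nonpos, neg_sub, sub_mul, one_mul,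
          div_mul_cancel₀ _ hw0.ne']
        rw [sub_nonpos, le_div_iff₀ hw0]
        linarith [hε.1]
      have hd2 : dist w' z₀ < ρ := by
        rw [dist_eq_norm]
        calc ‖w' - z₀‖ = ‖(w - z₀) - (w - w')‖ := by congr 1; ring
          _ ≤ ‖w - z₀‖ + ‖w - w'‖ := norm_sub_le _ _
          _ < ρ := by rw [hd]; linarith
      have hw't := hρt hd2
      have hne : w' ≠ z₀ := by
        intro h
        rw [h, hz] at hn'
        linarith [hε.1]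
      have hg' := hw't.2.2 hne
      have h4 : ‖ω w'‖ ≤ 1 := by
        have h5 := hle w' hA
        rw [hw't.2.1, norm_mul] at h5
        have h6 : 0 < ‖g w'‖ := norm_pos_iff.2 hg'
        exact le_of_mul_le_mul_right (by rw [one_mul]; exact h5) h6
      have h5 := hK.dist_le_mul w hwt.1 w' hw't.1
      rw [dist_eq_norm, dist_eq_norm, hd] at h5
      calc ‖ω w‖ = ‖(ω w - ω w') + ω w'‖ := by congr 1; ring
        _ ≤ ‖ω w - ω w'‖ + ‖ω w'‖ := norm_add_le _ _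
        _ ≤ 1 + K * (κ + ε - ‖w‖) := by linarith
    have ht2 : Tendsto (fun ε : ℝ => 1 + K * (κ + ε - ‖w‖)) (𝓝[>] 0)
        (𝓝 (1 + K * (κ + 0 - ‖w‖))) := by
      have : Continuous fun ε : ℝ => 1 + (K : ℝ) * (κ + ε - ‖w‖) := by fun_prop
      exact this.continuousAt.tendsto.mono_left nhdsWithin_le_nhds
    rw [add_zero] at ht2
    exact ge_of_tendsto ht2 hev
  rw [hwt.2.1, norm_mul]
  exact mul_le_mul_of_nonneg_right key (norm_nonneg _)

end EXTAux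

open EXTAux in
theorem extn : S_EXT := by
  intro κ f g h0 h1 df dg hg hle
  by_contra hcon
  push Not at hcon
  have hseq : ∀ n : ℕ, ∃ w : ℂ, κ - κ / ((n : ℝ) + 2) < ‖w‖ ∧ ‖w‖ ≤ κ ∧
      (1 + (n : ℝ) * (κ - ‖w‖)) * ‖g w‖ < ‖f w‖ := by
    intro n
    have h2 : (0 : ℝ) < (n : ℝ) + 2 := by positivity
    exact hcon n (κ / ((n : ℝ) + 2)) (by positivity) (by positivity)
      (by rw [div_lt_iff₀ h2]; nlinarith [(Nat.cast_nonneg n : (0 : ℝ) ≤ n)])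
  choose w hw1 hw2 hw3 using hseq
  obtain ⟨z₀, hz₀, φ, hφ, hlim⟩ := (isCompact_closedBall (0 : ℂ) κ).tendsto_subseq
    (fun n => mem_closedBall_zero_iff.2 (hw2 n))
  have hz : ‖z₀‖ = κ := by
    have h3 : Tendsto (fun n => ‖w (φ n)‖) atTop (𝓝 ‖z₀‖) := hlim.norm
    have h4 : Tendsto (fun n : ℕ => κ - κ / ((φ n : ℝ) + 2)) atTop (𝓝 (κ - 0)) := by
      refine tendsto_const_nhds.sub ?_
      refine Tendsto.div_atTop tendsto_const_nhds ?_
      exact tendsto_atTop_add_const_right _ _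
        (tendsto_natCast_atTop_atTop.comp hφ.tendsto_atTop)
    rw [sub_zero] at h4
    refine le_antisymm (le_of_tendsto' h3 fun n => hw2 _) ?_
    exact le_of_tendsto_of_tendsto' h4 h3 fun n => (hw1 _).le
  obtain ⟨L, hL⟩ := loc h0 h1 df dg hg hle hz
  have h5 : ∀ᶠ n in atTop, L ≤ (φ n : ℝ) :=
    (tendsto_natCast_atTop_atTop.comp hφ.tendsto_atTop).eventually_ge_atTop L
  obtain ⟨n, hn1, hn2⟩ := ((hlim.eventually hL).and h5).exists
  have h6 := hn1 (hw2 _)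
  have h7 := hw3 (φ n)
  have h8 : (1 + L * (κ - ‖w (φ n)‖)) * ‖g (w (φ n))‖ ≤
      (1 + (φ n : ℝ) * (κ - ‖w (φ n)‖)) * ‖g (w (φ n))‖ := by
    refine mul_le_mul_of_nonneg_right ?_ (norm_nonneg _)
    have := mul_le_mul_of_nonneg_right hn2 (sub_nonneg.2 (hw2 (φ n)))
    linarith
  simp only [Function.comp] at h6
  linarith

end Pool.Agent.KRC
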