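import Pool.Agent.KRC.Bas
import Pool.Agent.KRB.Rem

/-!
# The Korenblum constant along integer multiples: factorisation
-/

set_option autoImplicit false

namespace Pool.Agent.KRC

open Complex MeasureTheory Set Filter Topology Metric

namespace FACAux

/-- division by a polynomial with its roots in the disc -/
theorem divP (κ : ℝ) (hκ : κ < 1) : ∀ (d : ℕ) (P : Polynomial ℂ), P.natDegree = d → P ≠ 0 →
    (∀ z : ℂ, κ < ‖z‖ → P.eval z ≠ 0) → ∀ v : ℂ → ℂ, DifferentiableOn ℂ v (ball 0 1) →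
    ∃ (N : Polynomial ℂ) (h : ℂ → ℂ), DifferentiableOn ℂ h (ball 0 1) ∧
      ∀ z ∈ ball (0 : ℂ) 1, v z = N.eval z + P.eval z * h z := by
  intro d
  induction d with
  | zero =>
    intro P hd hP _ v hv
    obtain ⟨c, rfl⟩ : ∃ c, P = Polynomial.C c := ⟨_, Polynomial.eq_C_of_natDegree_eq_zero hd⟩
    have hc : c ≠ 0 := fun h => hP (by rw [h, Polynomial.C_0])
    refine ⟨0, fun z => c⁻¹ * v z, hv.const_mul _, fun z _ => ?_⟩
    rw [Polynomial.eval_zero, Polynomial.eval_C]
    field_simp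
    ring
  | succ d ih =>
    intro P hd hP hne v hv
    obtain ⟨a, ha⟩ := Complex.exists_root (f := P) (by
      rw [Polynomial.degree_eq_natDegree hP, hd]; exact_mod_cast Nat.succ_pos d)
    obtain ⟨Q, hQ⟩ := Polynomial.dvd_iff_isRoot.2 ha
    have haκ : ‖a‖ ≤ κ := by
      by_contra h
      exact hne a (not_le.1 h) ha
    have hQ0 : Q ≠ 0 := by
      rintro rfl
      exact hP (by rw [hQ, mul_zero])
    have hQd : Q.natDegree = d := by
      have h1 := congrArg Polynomial.natDegree hQ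
      rw [Polynomial.natDegree_mul (Polynomial.X_sub_C_ne_zero a) hQ0,
        Polynomial.natDegree_X_sub_C, hd] at h1
      omega
    have hQne : ∀ z : ℂ, κ < ‖z‖ → Q.eval z ≠ 0 := by
      intro z hz h
      apply hne z hz
      rw [hQ, Polynomial.eval_mul, h, mul_zero]
    obtain ⟨N', h', hh', e'⟩ := ih Q hQd hQ0 hQne v hv
    have ha1 : a ∈ ball (0 : ℂ) 1 := mem_ball_zero_iff.2 (haκ.trans_lt hκ)
    refine ⟨N' + Polynomial.C (h' a) * Q, dslope h' a, ?_, ?_⟩
    · exact (Complex.differentiableOn_dslope (isOpen_ball.mem_nhds ha1)).2 hh'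
    · intro z hz
      have h1 := sub_smul_dslope h' a z
      rw [smul_eq_mul] at h1
      rw [e' z hz, hQ]
      simp only [Polynomial.eval_add, Polynomial.eval_mul, Polynomial.eval_C,
        Polynomial.eval_sub, Polynomial.eval_X]
      linear_combination (-(Q.eval z)) * h1

/-- the zeros in a smaller closed disc are finite in number -/
theorem zfin {g : ℂ → ℂ} (hg : DifferentiableOn ℂ g (ball 0 1))
    (h : ∃ z ∈ ball (0 : ℂ) 1, g z ≠ 0) {r : ℝ} (hr : r < 1) :
    ({z : ℂ | g z = 0} ∩ closedBall 0 r).Finite := by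
  by_contra hinf
  obtain ⟨z, hz, hacc⟩ := (Set.Infinite.exists_accPt_of_subset_isCompact hinf
    (isCompact_closedBall (0 : ℂ) r) inter_subset_right)
  have hz1 : z ∈ ball (0 : ℂ) 1 := Bas.closedBall_sub hr hz
  have h3 : ∃ᶠ w in 𝓝[≠] z, g w = 0 := by
    rw [accPt_iff_frequently_nhdsNE] at hacc
    exact hacc.mono fun w hw => hw.1
  have h4 := (hg.analyticOnNhd isOpen_ball).eqOn_zero_of_preconnected_of_frequently_eq_zero
    (convex_ball (0 : ℂ) 1).isPreconnected hz1 h3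
  obtain ⟨w, hw, hw0⟩ := h
  exact hw0 (h4 hw)

/-- the order is finite -/
theorem ordfin {g : ℂ → ℂ} (hg : DifferentiableOn ℂ g (ball 0 1))
    (h : ∃ z ∈ ball (0 : ℂ) 1, g z ≠ 0) {a : ℂ} (ha : a ∈ ball (0 : ℂ) 1) :
    analyticOrderAt g a ≠ ⊤ := by
  intro h1
  rw [analyticOrderAt_eq_top] at h1
  have h4 := (hg.analyticOnNhd isOpen_ball).eqOn_zero_of_preconnected_of_eventuallyEq_zero
    (convex_ball (0 : ℂ) 1).isPreconnected ha h1
  obtain ⟨w, hw, hw0⟩ := h
  exact hw0 (h4 hw)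

/-- the degree of a factor is bounded -/
theorem degb {κ : ℝ} (hκ : κ < 1) {g : ℂ → ℂ} (hg : DifferentiableOn ℂ g (ball 0 1))
    (h : ∃ z ∈ ball (0 : ℂ) 1, g z ≠ 0) (P : Polynomial ℂ) (g₀ : ℂ → ℂ) (hP : P ≠ 0)
    (hg₀ : DifferentiableOn ℂ g₀ (ball 0 1))
    (he : ∀ z ∈ ball (0 : ℂ) 1, g z = P.eval z * g₀ z)
    (hne : ∀ z : ℂ, κ < ‖z‖ → P.eval z ≠ 0) :
    P.natDegree ≤ ∑ a ∈ (zfin hg h hκ).toFinset, analyticOrderNatAt g a := by
  classical
  have hroot : ∀ a ∈ P.roots.toFinset, ‖a‖ ≤ κ ∧ P.eval a = 0 := by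
    intro a ha
    rw [Multiset.mem_toFinset, Polynomial.mem_roots hP] at ha
    refine ⟨?_, ha⟩
    by_contra h1
    exact hne a (not_le.1 h1) ha
  have hsub : P.roots.toFinset ⊆ (zfin hg h hκ).toFinset := by
    intro a ha
    obtain ⟨h1, h2⟩ := hroot a ha
    rw [Set.Finite.mem_toFinset]
    refine ⟨?_, mem_closedBall_zero_iff.2 h1⟩
    show g a = 0
    rw [he a (mem_ball_zero_iff.2 (h1.trans_lt hκ)), h2, zero_mul]
  have hcount : ∀ a ∈ P.roots.toFinset, P.roots.count a ≤ analyticOrderNatAt g a := by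
    intro a ha
    obtain ⟨h1, h2⟩ := hroot a ha
    have ha1 : a ∈ ball (0 : ℂ) 1 := mem_ball_zero_iff.2 (h1.trans_lt hκ)
    obtain ⟨Q, hQ⟩ := Polynomial.pow_rootMultiplicity_dvd P a
    have hga : AnalyticAt ℂ g a := hg.analyticOnNhd isOpen_ball a ha1
    have h3 : ((P.roots.count a : ℕ) : ℕ∞) ≤ analyticOrderAt g a := by
      rw [natCast_le_analyticOrderAt hga]
      refine ⟨fun z => Q.eval z * g₀ z, ?_, ?_⟩
      · exact (Q.differentiable.analyticAt a).mul (hg₀.analyticOnNhd isOpen_ball a ha1)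
      · filter_upwards [isOpen_ball.mem_nhds ha1] with z hz
        rw [he z hz, smul_eq_mul, Polynomial.count_roots]
        conv_lhs => rw [hQ]
        rw [Polynomial.eval_mul, Polynomial.eval_pow, Polynomial.eval_sub, Polynomial.eval_X,
          Polynomial.eval_C]
        ring
    rw [← Nat.cast_analyticOrderNatAt (ordfin hg h ha1)] at h3
    exact_mod_cast h3
  calc P.natDegree = Multiset.card P.roots := (IsAlgClosed.splits P).natDegree_eq_card_roots
    _ = ∑ a ∈ P.roots.toFinset, P.roots.count a := (Multiset.toFinset_sum_count_eq _).symm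
    _ ≤ ∑ a ∈ P.roots.toFinset, analyticOrderNatAt g a := Finset.sum_le_sum hcount
    _ ≤ ∑ a ∈ (zfin hg h hκ).toFinset, analyticOrderNatAt g a :=
        Finset.sum_le_sum_of_subset hsub

/-- the zeros in the smaller closed disc -/
theorem facg {κ : ℝ} (hκ : κ < 1) {g : ℂ → ℂ} (hg : DifferentiableOn ℂ g (ball 0 1))
    (h : ∃ z ∈ ball (0 : ℂ) 1, g z ≠ 0) :
    ∃ (P : Polynomial ℂ) (g₀ : ℂ → ℂ), P ≠ 0 ∧ DifferentiableOn ℂ g₀ (ball 0 1) ∧
      (∀ z ∈ ball (0 : ℂ) 1, g z = P.eval z * g₀ z) ∧ (∀ z : ℂ, κ < ‖z‖ → P.eval z ≠ 0) ∧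
      ∀ z : ℂ, ‖z‖ ≤ κ → g₀ z ≠ 0 := by
  set S : Set ℕ := {d : ℕ | ∃ (P : Polynomial ℂ) (g₀ : ℂ → ℂ), P.natDegree = d ∧ P ≠ 0 ∧
    DifferentiableOn ℂ g₀ (ball 0 1) ∧ (∀ z ∈ ball (0 : ℂ) 1, g z = P.eval z * g₀ z) ∧
    ∀ z : ℂ, κ < ‖z‖ → P.eval z ≠ 0} with hS
  have hb : BddAbove S := by
    refine ⟨∑ a ∈ (zfin hg h hκ).toFinset, analyticOrderNatAt g a, ?_⟩
    rintro d ⟨P, g₀, hd, hP, hg₀, he, hne⟩
    rw [← hd]
    exact degb hκ hg h P g₀ hP hg₀ he hne
  have hS0 : S.Nonempty := ⟨0, 1, g, Polynomial.natDegree_one, one_ne_zero, hg,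
    fun z _ => by rw [Polynomial.eval_one, one_mul],
    fun z _ => by rw [Polynomial.eval_one]; exact one_ne_zero⟩
  obtain ⟨P, g₀, hd, hP, hg₀, he, hne⟩ := Nat.sSup_mem hS0 hb
  refine ⟨P, g₀, hP, hg₀, he, hne, fun a ha h0 => ?_⟩
  have ha1 : a ∈ ball (0 : ℂ) 1 := mem_ball_zero_iff.2 (ha.trans_lt hκ)
  have h1 : (sSup S + 1) ∈ S := by
    refine ⟨(Polynomial.X - Polynomial.C a) * P, dslope g₀ a, ?_,
      mul_ne_zero (Polynomial.X_sub_C_ne_zero a) hP,
      (Complex.differentiableOn_dslope (isOpen_ball.mem_nhds ha1)).2 hg₀, ?_, ?_⟩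
    · rw [Polynomial.natDegree_mul (Polynomial.X_sub_C_ne_zero a) hP,
        Polynomial.natDegree_X_sub_C, hd, add_comm]
    · intro z hz
      have h2 := sub_smul_dslope g₀ a z
      rw [smul_eq_mul, h0, sub_zero] at h2
      rw [he z hz, ← h2]
      simp only [Polynomial.eval_mul, Polynomial.eval_sub, Polynomial.eval_X, Polynomial.eval_C]
      ring
    · intro z hz h2
      rw [Polynomial.eval_mul, Polynomial.eval_sub, Polynomial.eval_X, Polynomial.eval_C] at h2
      rcases mul_eq_zero.1 h2 with h3 | h3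
      · rw [sub_eq_zero.1 h3] at hz
        exact absurd ha (not_le.2 hz)
      · exact hne z hz h3
  have h2 := le_csSup hb h1
  omega

/-- `Re ((1 - w)/(1 + w)) ≥ 0` for `‖w‖ ≤ 1` -/
theorem cay {w : ℂ} (hw : ‖w‖ ≤ 1) : 0 ≤ ((1 - w) / (1 + w)).re := by
  have h1 : (1 - w) / (1 + w) = ((1 - w) * (starRingEnd ℂ) (1 + w)) * ((normSq (1 + w))⁻¹ : ℝ) := by
    rw [div_eq_mul_inv, Complex.inv_def]
    push_cast
    ring
  rw [h1, Complex.re_mul_ofReal]
  refine mul_nonneg ?_ (inv_nonneg.2 (normSq_nonneg _))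
  have h2 : ((1 - w) * (starRingEnd ℂ) (1 + w)).re = 1 - ‖w‖ ^ 2 := by
    rw [← normSq_eq_norm_sq, normSq_apply]
    simp
    ring
  rw [h2]
  nlinarith [norm_nonneg w]

end FACAux

open FACAux in
/-- the factorisation -/
theorem fac : S_FAC := by
  intro κ g k hκ0 hκ hg hk hne hre
  obtain ⟨P, g₀, hP, hg₀, he, hPne, hg₀ne⟩ := facg hκ hg hne
  -- the multiplier
  have hsum : ∃ z : ℂ, ‖z‖ < 1 ∧ (fun z => g z + k z) z ≠ 0 := by
    by_contra hcon
    push Not at hcon
    -- a point of the annulus with `g ≠ 0`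
    have hk' : ∀ z : ℂ, ‖z‖ < 1 → k z = - g z := fun z hz => by
      have h1 : g z + k z = 0 := hcon z hz
      linear_combination h1
    have hz0 : ∀ z ∈ An κ, g z = 0 := by
      intro z hz
      have h1 := hre z hz
      rw [hk' z hz.2, neg_mul, Complex.neg_re, Complex.mul_conj, Complex.ofReal_re] at h1
      have h2 : normSq (g z) = 0 := le_antisymm (by linarith) (normSq_nonneg _)
      exact normSq_eq_zero.1 h2
    have hp : (((κ + 1) / 2 : ℝ) : ℂ) ∈ An κ := by
      constructor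
      · rw [Complex.norm_real, Real.norm_of_nonneg (by linarith)]
        linarith
      · rw [Complex.norm_real, Real.norm_of_nonneg (by linarith)]
        linarith
    have h4 := (hg.analyticOnNhd isOpen_ball).eqOn_zero_of_preconnected_of_eventuallyEq_zero
      (convex_ball (0 : ℂ) 1).isPreconnected (Bas.An_sub κ hp)
      (by filter_upwards [(Bas.isOpen_An κ).mem_nhds hp] with z hz using hz0 z hz)
    obtain ⟨w, hw, hw0⟩ := hne
    exact hw0 (h4 hw)
  obtain ⟨ω, hω, hωe⟩ := Pool.Agent.KRB.rem (fun z => g z - k z) (fun z => g z + k z) κ hκ0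
    (hg.sub hk) (hg.add hk) hsum (by
      intro z hz1 hz2
      have h1 := Bas.four (g z) (k z)
      have h2 := hre z ⟨hz1, hz2⟩
      exact (sq_le_sq₀ (norm_nonneg _) (norm_nonneg _)).1 (by linarith))
  have hωd : ∀ z ∈ An κ, DifferentiableAt ℂ ω z := fun z hz =>
    (hω z hz).differentiableAt ((Bas.isOpen_An κ).mem_nhds hz)
  have hω1 : ∀ z ∈ An κ, 1 + ω z ≠ 0 := by
    intro z hz h0
    have hm : IsLocalMax (norm ∘ ω) z := by
      filter_upwards [(Bas.isOpen_An κ).mem_nhds hz] with w hw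
      have hz1 : ω z = -1 := by linear_combination h0
      simp only [Function.comp_apply, hz1, norm_neg, norm_one]
      exact (hωe w hw.1 hw.2).2
    have h1 := Complex.eventually_eq_of_isLocalMax_norm
      (by filter_upwards [(Bas.isOpen_An κ).mem_nhds hz] with w hw using hωd w hw) hm
    have h4 := (hg.analyticOnNhd isOpen_ball).eqOn_zero_of_preconnected_of_eventuallyEq_zero
      (convex_ball (0 : ℂ) 1).isPreconnected (Bas.An_sub κ hz)
      (by
        filter_upwards [h1, (Bas.isOpen_An κ).mem_nhds hz] with w hw1 hw2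
        have h2 : g w - k w = ω w * (g w + k w) := (hωe w hw2.1 hw2.2).1
        show g w = 0
        rw [hw1] at h2
        linear_combination (1 / 2 : ℂ) * h2 + (1 / 2 : ℂ) * (g w + k w) * h0)
    obtain ⟨w, hw, hw0⟩ := hne
    exact hw0 (h4 hw)
  set u : ℂ → ℂ := fun z => P.eval z * ((1 - ω z) / (1 + ω z)) with hu
  have hku : ∀ z ∈ An κ, k z = g₀ z * u z := by
    intro z hz
    have h2 : g z - k z = ω z * (g z + k z) := (hωe z hz.1 hz.2).1
    have h3 := he z (Bas.An_sub κ hz)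
    have h4 : (1 + ω z) * k z = (1 - ω z) * g z := by linear_combination -h2
    have h5 : k z = (1 - ω z) / (1 + ω z) * g z := by
      field_simp [hω1 z hz]
      linear_combination h4
    rw [h5, h3, hu]
    ring
  set v : ℂ → ℂ := fun z => if ‖z‖ ≤ κ then k z / g₀ z else u z with hv
  have hvk : ∀ z ∈ ball (0 : ℂ) 1, k z = g₀ z * v z := by
    intro z hz
    rw [mem_ball_zero_iff] at hz
    by_cases h1 : ‖z‖ ≤ κ
    · simp only [hv, if_pos h1]
      field_simp [hg₀ne z h1]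
    · simp only [hv, if_neg h1]
      exact hku z ⟨not_le.1 h1, hz⟩
  have hvd : DifferentiableOn ℂ v (ball 0 1) := by
    intro z hz
    rw [mem_ball_zero_iff] at hz
    have hzb : z ∈ ball (0 : ℂ) 1 := mem_ball_zero_iff.2 hz
    have hg₀z : DifferentiableAt ℂ g₀ z := (hg₀ z hzb).differentiableAt (isOpen_ball.mem_nhds hzb)
    have hkz : DifferentiableAt ℂ k z := (hk z hzb).differentiableAt (isOpen_ball.mem_nhds hzb)
    apply DifferentiableAt.differentiableWithinAt
    by_cases h1 : ‖z‖ ≤ κ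
    · have h2 : DifferentiableAt ℂ (fun w => k w / g₀ w) z := hkz.div hg₀z (hg₀ne z h1)
      refine h2.congr_of_eventuallyEq ?_
      filter_upwards [hg₀z.continuousAt.eventually_ne (hg₀ne z h1), isOpen_ball.mem_nhds hzb]
        with w hw1 hw2
      rw [hvk w hw2]
      field_simp
    · have hzA : z ∈ An κ := ⟨not_le.1 h1, hz⟩
      have h2 : DifferentiableAt ℂ u z :=
        P.differentiable.differentiableAt.mul
          (((differentiableAt_const 1).sub (hωd z hzA)).div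
            ((differentiableAt_const 1).add (hωd z hzA)) (hω1 z hzA))
      refine h2.congr_of_eventuallyEq ?_
      filter_upwards [(Bas.isOpen_An κ).mem_nhds hzA] with w hw
      simp only [hv, if_neg (not_le.2 hw.1)]
  obtain ⟨N, h₀, hh₀, hN⟩ := divP κ hκ P.natDegree P rfl hP hPne v hvd
  refine ⟨P, N, g₀, h₀, hg₀, hh₀, he, fun z hz => ?_, hPne, fun z hz => ?_⟩
  · rw [hvk z hz, hN z hz]
  · rw [← hN z (Bas.An_sub κ hz)]
    have h1 : v z = P.eval z * ((1 - ω z) / (1 + ω z)) := by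
      simp only [hv, if_neg (not_le.2 hz.1), hu]
    have h2 : v z * (starRingEnd ℂ) (P.eval z) =
        ((1 - ω z) / (1 + ω z)) * ((normSq (P.eval z) : ℝ) : ℂ) := by
      rw [h1, ← Complex.mul_conj]
      ring
    rw [h2, Complex.re_mul_ofReal]
    exact mul_nonneg (cay (hωe z hz.1 hz.2).2) (normSq_nonneg _)

end Pool.Agent.KRC
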