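import Pool.Agent.KRC.Stmts

/-!
# The Korenblum constant along integer multiples: conclusion
-/

set_option autoImplicit false

namespace Pool.Agent.KRC

open Complex MeasureTheory Set Filter Topology Metric
open Pool.Agent.KRB (Berg nrm KP kap)

namespace FinAux

/-- one multiple -/
theorem one (hC : S_CON) (hS : S_STR) (R : ℝ) (m : ℕ) (hm : 2 ≤ m) : ∃ δ : ℝ, 0 < δ ∧ δ ≤ 1 ∧
    ∀ p q : ℝ, 1 ≤ p → p ≤ R → |q - m * p| < δ → kap p < kap q := by
  have hm2 : (2 : ℝ) ≤ m := by exact_mod_cast hm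
  rcases lt_or_ge R 1 with hR | hR
  · exact ⟨1, one_pos, le_rfl, fun p q h1 h2 _ => absurd (h1.trans h2) (not_le.2 hR)⟩
  have hcont : ContinuousOn (fun p : ℝ => kap (m * p) - kap p) (Icc 1 R) := by
    apply ContinuousOn.sub
    · apply ContinuousOn.comp hC (by fun_prop)
      intro p hp
      rw [mem_Ici]
      nlinarith [hp.1]
    · exact hC.mono fun p hp => hp.1
  obtain ⟨p₀, hp₀, hmin⟩ := isCompact_Icc.exists_isMinOn (nonempty_Icc.2 hR) hcont
  obtain ⟨μ, hμ⟩ : ∃ μ : ℝ, μ = kap (m * p₀) - kap p₀ := ⟨_, rfl⟩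
  have hμ0 : 0 < μ := by
    rw [hμ]
    linarith [hS p₀ m hp₀.1 hm]
  have huc : UniformContinuousOn kap (Icc 1 (m * R + 1)) :=
    isCompact_Icc.uniformContinuousOn_of_continuous (hC.mono fun p hp => hp.1)
  rw [Metric.uniformContinuousOn_iff] at huc
  obtain ⟨δ, hδ, hd⟩ := huc μ hμ0
  refine ⟨min δ 1, lt_min hδ one_pos, min_le_right _ _, fun p q h1 h2 h3 => ?_⟩
  have h4 : |q - m * p| < δ := h3.trans_le (min_le_left _ _)
  have h5 : |q - m * p| < 1 := h3.trans_le (min_le_right _ _)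
  rw [abs_lt] at h5
  have h6 : (m : ℝ) * p ≤ m * R := mul_le_mul_of_nonneg_left h2 (by positivity)
  have h7 : 2 ≤ (m : ℝ) * p := by nlinarith
  have h8 := hd q ⟨by linarith, by linarith⟩ (m * p) ⟨by linarith, by linarith⟩
    (by rwa [Real.dist_eq])
  rw [Real.dist_eq, abs_lt] at h8
  have h9 : μ ≤ kap (m * p) - kap p := by
    rw [hμ]
    exact hmin ⟨h1, h2⟩
  linarith

/-- finitely many multiples -/
theorem fins (hC : S_CON) (hS : S_STR) (R : ℝ) (M : ℕ) : ∃ δ : ℝ, 0 < δ ∧ δ ≤ 1 ∧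
    ∀ m : ℕ, 2 ≤ m → m ≤ M → ∀ p q : ℝ, 1 ≤ p → p ≤ R → |q - m * p| < δ → kap p < kap q := by
  induction M with
  | zero => exact ⟨1, one_pos, le_rfl, fun m h1 h2 => by omega⟩
  | succ M ih =>
    obtain ⟨δ, h0, h1, h⟩ := ih
    by_cases hM : 2 ≤ M + 1
    · obtain ⟨δ', h0', h1', h'⟩ := one hC hS R (M + 1) hM
      refine ⟨min δ δ', lt_min h0 h0', (min_le_left _ _).trans h1, fun m hm2 hmM p q hp hpR hq => ?_⟩
      rcases Nat.lt_or_ge m (M + 1) with hlt | hge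
      · exact h m hm2 (by omega) p q hp hpR (hq.trans_le (min_le_left _ _))
      · have : m = M + 1 := by omega
        subst this
        exact h' p q hp hpR (hq.trans_le (min_le_right _ _))
    · exact ⟨1, one_pos, le_rfl, fun m h1 h2 => by omega⟩

end FinAux

open FinAux

/-- strict inequality near the integer multiples -/
theorem nb (hC : S_CON) (hS : S_STR) (hF : ∃ C : ℝ, 0 < C ∧
    (∀ p : ℝ, 1 ≤ p → 1 / (40 * √p) ≤ 1 - kap p ∧
      1 - kap p ≤ C * √(Real.log (p + 1) / p)) ∧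
    ∀ p₁ p₂ : ℝ, 1 ≤ p₁ → C * (p₁ * Real.log (p₁ + 1)) ≤ p₂ → kap p₁ < kap p₂) :
    ∀ R : ℝ, ∃ δ : ℝ, 0 < δ ∧ ∀ (m : ℕ) (p q : ℝ), 2 ≤ m → 1 ≤ p → p ≤ R → |q - m * p| < δ →
      kap p < kap q := by
  intro R
  obtain ⟨C, hC0, _, hF⟩ := hF
  obtain ⟨M, hM⟩ := exists_nat_ge (C * Real.log (R + 1) + 1)
  obtain ⟨δ, h0, h1, h⟩ := fins hC hS R M
  refine ⟨δ, h0, fun m p q hm hp hpR hq => ?_⟩
  rcases le_or_gt m M with hmM | hmM
  · exact h m hm hmM p q hp hpR hq
  · apply hF p q hp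
    have hmM' : (M : ℝ) ≤ m := by exact_mod_cast hmM.le
    have h2 := (abs_lt.1 hq).1
    have h3 : Real.log (p + 1) ≤ Real.log (R + 1) := Real.log_le_log (by linarith) (by linarith)
    have h4 : C * (p * Real.log (p + 1)) ≤ C * (p * Real.log (R + 1)) :=
      mul_le_mul_of_nonneg_left (mul_le_mul_of_nonneg_left h3 (by linarith)) hC0.le
    have h5 : (C * Real.log (R + 1) + 1) * p ≤ m * p :=
      mul_le_mul_of_nonneg_right (hM.trans hmM') (by linarith)
    linarith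

/-- strict monotonicity is the same as injectivity -/
theorem inj (hC : S_CON) (hS : S_STR) :
    StrictMonoOn kap (Ici 1) ↔ InjOn kap (Ici 1) := by
  refine ⟨StrictMonoOn.injOn, fun hinj => ?_⟩
  have key : ∀ b : ℝ, 2 ≤ b → StrictMonoOn kap (Icc 1 b) := by
    intro b hb
    rcases ContinuousOn.strictMonoOn_of_injOn_Icc' (by linarith : (1 : ℝ) ≤ b)
      (hC.mono fun p hp => hp.1) (hinj.mono fun p hp => hp.1) with h | h
    · exact h
    · exfalso
      have h1 : kap 2 < kap 1 := h ⟨le_rfl, by linarith⟩ ⟨by norm_num, hb⟩ (by norm_num)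
      have h2 := hS 1 2 le_rfl le_rfl
      norm_num at h2
      linarith
  intro x hx y hy hxy
  rw [mem_Ici] at hx hy
  exact key (max y 2) (le_max_right _ _) ⟨hx, hxy.le.trans (le_max_left _ _)⟩
    ⟨hy, le_max_left _ _⟩ hxy

end Pool.Agent.KRC
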