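import Pool.Agent.KRC.Bas

/-!
# Module GD: good constants
-/

set_option autoImplicit false

namespace Pool.Agent.KRC

open Complex MeasureTheory Set Filter Topology Metric
open Pool.Agent.KRB (Berg nrm KP kap)

theorem gd (hD : S_DIL) (hL : S_LIN) (hP : S_POS) : S_GD := by
  intro c κ q hc hcκ hκ hq hK
  have hκ0 : 0 < κ := by linarith
  have h1 : c / κ < 1 := (div_lt_one hκ0).2 hcκ
  have h2 : c ≤ c / κ := by
    rw [le_div_iff₀ hκ0]
    nlinarith
  obtain ⟨r, hr⟩ : ∃ r : ℝ, r = (1 + c / κ) / 2 := ⟨_, rfl⟩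
  have hr1 : r < 1 := by linarith
  have hr2 : c / κ < r := by linarith
  have hcr : c < r := by linarith
  have hr0 : 0 < r := by linarith
  have hrκ : c ≤ r * κ := by
    rw [div_lt_iff₀ hκ0] at hr2
    exact hr2.le
  constructor
  · intro f g h
    have e1 := hD q κ r f g (by linarith) hK hr0 hr1 h.df h.dg fun w hw1 hw2 =>
      h.le w ⟨by linarith, by linarith⟩
    have e2 := hP.1 c q r f g hc hq hcr hr1 h
    have hi : ∀ F : ℂ → ℂ, DifferentiableOn ℂ F (ball 0 1) →
        IntegrableOn (fun z => ‖F z‖ ^ q) (ball 0 r) := fun F hF =>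
      (Bas.intOn_of_cont (Bas.pow_cont hF.continuousOn (by linarith)) hr1).mono_set
        ball_subset_closedBall
    have e3 : ∫ z in ball (0 : ℂ) r, Dp q f g z =
        (∫ z in ball (0 : ℂ) r, ‖g z‖ ^ q) - ∫ z in ball (0 : ℂ) r, ‖f z‖ ^ q :=
      integral_sub (hi g h.dg) (hi f h.df)
    linarith
  · intro g k h
    have e1 := hL q κ r g k hq hK hr0 hr1 h.dg h.dk fun w hw1 hw2 =>
      h.le w ⟨by linarith, by linarith⟩
    have e2 := hP.2 c q r g k hc hq hcr hr1 h
    linarith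

end Pool.Agent.KRC
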