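import Pool.Agent.KRC.Bas

/-!
# The Korenblum constant along integer multiples: Harnack
-/

set_option autoImplicit false

namespace Pool.Agent.KRC

open Complex MeasureTheory Set Filter Topology Metric

namespace HARAux

/-- the annulus is connected -/
theorem preconn {c : ℝ} (hc : 0 ≤ c) : IsPreconnected (An c) := by
  have h : An c = (fun x : ℝ × ℝ => (x.1 : ℂ) * cexp (x.2 * I)) '' (Ioo c 1 ×ˢ univ) := by
    ext z
    constructor
    · intro hz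
      exact ⟨(‖z‖, arg z), ⟨hz, mem_univ _⟩, norm_mul_exp_arg_mul_I z⟩
    · rintro ⟨⟨r, θ⟩, ⟨hr, _⟩, rfl⟩
      have hr0 : 0 ≤ r := hc.trans hr.1.le
      simp only [An, mem_ofPred_eq, norm_mul, norm_exp_ofReal_mul_I, mul_one, norm_real,
        Real.norm_of_nonneg hr0]
      exact hr
  rw [h]
  apply IsPreconnected.image (isPreconnected_Ioo.prod isPreconnected_univ)
  fun_prop

/-- the constant `C` works at `z` -/
def Good (c : ℝ) (z₀ z : ℂ) (C : ℝ) : Prop := ∀ ω : ℂ → ℂ, DifferentiableOn ℂ ω (An c) →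
  (∀ z ∈ An c, ‖ω z‖ ≤ 1) → ‖ω z - ω z₀‖ ≤ C * (1 - ‖ω z₀‖) ∧ 1 - ‖ω z₀‖ ≤ C * (1 - ‖ω z‖)

theorem Good.mono {c : ℝ} {z₀ z : ℂ} {C C' : ℝ} (hz₀ : z₀ ∈ An c) (hz : z ∈ An c)
    (h : Good c z₀ z C) (hC : C ≤ C') : Good c z₀ z C' := by
  intro ω hd hb
  obtain ⟨h1, h2⟩ := h ω hd hb
  have h3 := hb z₀ hz₀
  have h4 := hb z hz
  exact ⟨h1.trans (mul_le_mul_of_nonneg_right hC (by linarith)),
    h2.trans (mul_le_mul_of_nonneg_right hC (by linarith))⟩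

theorem step (hP : S_PCK) {c R C : ℝ} {z₀ z z' : ℂ} (hR : 0 < R) (hz₀ : z₀ ∈ An c) (hC : 0 ≤ C)
    (hb : ball z' R ⊆ An c) (hz : ‖z - z'‖ ≤ R / 3) :
    (Good c z₀ z' C → Good c z₀ z (6 + 7 * C)) ∧ (Good c z₀ z C → Good c z₀ z' (6 + 7 * C)) := by
  have hz'A : z' ∈ An c := hb (mem_ball_self hR)
  have hzA : z ∈ An c := hb (by
    rw [mem_ball, dist_eq_norm]
    linarith)
  constructor
  · intro h ω hd hbd
    obtain ⟨h1, h2⟩ := h ω hd hbd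
    obtain ⟨h3, h4⟩ := hP ω z' R hR (hd.mono hb) (fun w hw => hbd w (hb hw)) z hz
    have e0 := hbd z₀ hz₀
    have e1 := hbd z' hz'A
    have e2 := hbd z hzA
    have h5 : ‖ω z₀‖ - ‖ω z'‖ ≤ ‖ω z' - ω z₀‖ := by
      rw [norm_sub_rev]
      exact norm_sub_norm_le _ _
    have h6 : ‖ω z - ω z₀‖ ≤ ‖ω z - ω z'‖ + ‖ω z' - ω z₀‖ := norm_sub_le_norm_sub_add_norm_sub _ _ _
    have hE : 0 ≤ 1 - ‖ω z₀‖ := by linarith
    have hCE : 0 ≤ C * (1 - ‖ω z₀‖) := mul_nonneg hC hE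
    have hE1 : 0 ≤ 1 - ‖ω z‖ := by linarith
    have hCE1 : 0 ≤ C * (1 - ‖ω z‖) := mul_nonneg hC hE1
    constructor
    · nlinarith
    · have h7 : C * (1 - ‖ω z'‖) ≤ C * (3 * (1 - ‖ω z‖)) := mul_le_mul_of_nonneg_left h4 hC
      nlinarith
  · intro h ω hd hbd
    obtain ⟨h1, h2⟩ := h ω hd hbd
    obtain ⟨h3, h4⟩ := hP ω z' R hR (hd.mono hb) (fun w hw => hbd w (hb hw)) z hz
    have e0 := hbd z₀ hz₀
    have e1 := hbd z' hz'A
    have e2 := hbd z hzA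
    have h5 : ‖ω z₀‖ - ‖ω z‖ ≤ ‖ω z - ω z₀‖ := by
      rw [norm_sub_rev]
      exact norm_sub_norm_le _ _
    have h5' : ‖ω z'‖ - ‖ω z‖ ≤ ‖ω z - ω z'‖ := by
      rw [norm_sub_rev]
      exact norm_sub_norm_le _ _
    have h6 : ‖ω z' - ω z₀‖ ≤ ‖ω z' - ω z‖ + ‖ω z - ω z₀‖ := norm_sub_le_norm_sub_add_norm_sub _ _ _
    rw [norm_sub_rev (ω z') (ω z)] at h6
    have hE : 0 ≤ 1 - ‖ω z₀‖ := by linarith
    have hCE : 0 ≤ C * (1 - ‖ω z₀‖) := mul_nonneg hC hE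
    have hE1 : 0 ≤ 1 - ‖ω z'‖ := by linarith
    have hCE1 : 0 ≤ C * (1 - ‖ω z'‖) := mul_nonneg hC hE1
    constructor
    · nlinarith
    · have h7 : C * (1 - ‖ω z‖) ≤ C * (3 * (1 - ‖ω z'‖)) :=
        mul_le_mul_of_nonneg_left (by linarith) hC
      nlinarith

end HARAux

open HARAux

theorem har (hP : S_PCK) : S_HAR := by
  intro c K z₀ hc hK hKA hz₀
  have hopen := Bas.isOpen_An c
  -- all points are good
  have hall : An c ⊆ {z | z ∈ An c ∧ ∃ C, 0 ≤ C ∧ Good c z₀ z C} := by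
    apply (preconn hc).subset_of_closure_inter_subset
    · rw [isOpen_iff_mem_nhds]
      rintro z' ⟨hz', C, hC, hG⟩
      obtain ⟨R, hR, hball⟩ := Metric.isOpen_iff.1 hopen z' hz'
      filter_upwards [ball_mem_nhds z' (by positivity : 0 < R / 3)] with z hz
      rw [mem_ball, dist_eq_norm] at hz
      refine ⟨hball (by rw [mem_ball, dist_eq_norm]; linarith), 6 + 7 * C, by positivity,
        (step hP hR hz₀ hC hball hz.le).1 hG⟩
    · refine ⟨z₀, hz₀, hz₀, 1, zero_le_one, fun ω _ hb => ?_⟩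
      have := hb z₀ hz₀
      constructor
      · rw [sub_self, norm_zero]
        linarith
      · linarith
    · rintro z' ⟨hcl, hz'⟩
      obtain ⟨R, hR, hball⟩ := Metric.isOpen_iff.1 hopen z' hz'
      obtain ⟨z, ⟨hz, C, hC, hG⟩, hzz'⟩ := Metric.mem_closure_iff.1 hcl (R / 3) (by positivity)
      rw [dist_comm, dist_eq_norm] at hzz'
      exact ⟨hz', 6 + 7 * C, by positivity, (step hP hR hz₀ hC hball hzz'.le).2 hG⟩
  -- compactness
  have hcov : ∃ C : ℝ, 1 ≤ C ∧ ∀ z ∈ K ∩ An c, Good c z₀ z C := by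
    apply hK.induction_on (p := fun s => ∃ C : ℝ, 1 ≤ C ∧ ∀ z ∈ s ∩ An c, Good c z₀ z C)
    · exact ⟨1, le_rfl, fun z hz => absurd hz.1 (notMem_empty z)⟩
    · rintro s t hst ⟨C, h1, h2⟩
      exact ⟨C, h1, fun z hz => h2 z ⟨hst hz.1, hz.2⟩⟩
    · rintro s t ⟨C, h1, h2⟩ ⟨D, h3, h4⟩
      refine ⟨max C D, h1.trans (le_max_left _ _), fun z hz => ?_⟩
      rcases hz.1 with h | h
      · exact (h2 z ⟨h, hz.2⟩).mono hz₀ hz.2 (le_max_left _ _)
      · exact (h4 z ⟨h, hz.2⟩).mono hz₀ hz.2 (le_max_right _ _)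
    · intro z' hz'
      obtain ⟨-, C, hC, hG⟩ := hall (hKA hz')
      obtain ⟨R, hR, hball⟩ := Metric.isOpen_iff.1 hopen z' (hKA hz')
      refine ⟨ball z' (R / 3), mem_nhdsWithin_of_mem_nhds (ball_mem_nhds z' (by positivity)),
        6 + 7 * C, by linarith, fun z hz => ?_⟩
      have := hz.1
      rw [mem_ball, dist_eq_norm] at this
      exact (step hP hR hz₀ hC hball this.le).1 hG
  obtain ⟨C, h1, h2⟩ := hcov
  exact ⟨C, h1, fun ω hd hb z hz => h2 z ⟨hz, hKA hz⟩ ω hd hb⟩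

end Pool.Agent.KRC
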