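import Pool.Agent.KRC.Bas
import Pool.Agent.KRB.Rem

/-!
# The Korenblum constant along integer multiples: a Hopf type bound (module `HOP`)
-/

set_option autoImplicit false

namespace Pool.Agent.KRC

open Complex MeasureTheory Set Filter Topology Metric

namespace HOPAux

/-- annuli are connected -/
theorem preconn (c : ℝ) (hc : 0 ≤ c) : IsPreconnected (An c) := by
  have h1 : IsPreconnected ((Ioo c 1) ×ˢ (univ : Set ℝ)) :=
    isPreconnected_Ioo.prod isPreconnected_univ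
  have h2 : Continuous fun x : ℝ × ℝ => ((x.1 : ℂ)) * cexp ((x.2 : ℂ) * I) := by fun_prop
  have h3 := h1.image _ h2.continuousOn
  have h4 : An c = (fun x : ℝ × ℝ => ((x.1 : ℂ)) * cexp ((x.2 : ℂ) * I)) ''
      ((Ioo c 1) ×ˢ (univ : Set ℝ)) := by
    ext z
    constructor
    · intro hz
      exact ⟨(‖z‖, arg z), ⟨⟨hz.1, hz.2⟩, mem_univ _⟩, norm_mul_exp_arg_mul_I z⟩
    · rintro ⟨x, hx, rfl⟩
      have hx1 : c < x.1 := hx.1.1
      have hx2 : x.1 < 1 := hx.1.2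
      have h5 : ‖(x.1 : ℂ) * cexp ((x.2 : ℂ) * I)‖ = x.1 := by
        rw [norm_mul, norm_exp_ofReal_mul_I, mul_one, norm_real, Real.norm_eq_abs,
          abs_of_pos (hc.trans_lt hx1)]
      show c < ‖(x.1 : ℂ) * cexp ((x.2 : ℂ) * I)‖ ∧ ‖(x.1 : ℂ) * cexp ((x.2 : ℂ) * I)‖ < 1
      rw [h5]
      exact ⟨hx1, hx2⟩
  rw [h4]
  exact h3

end HOPAux

open HOPAux in
theorem hop : S_HOP := by
  intro κ ρ f g hκ hκρ hρ1 hf hg hle hlt
  obtain ⟨z₁, hz₁, hlt₁⟩ := hlt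
  have hg1 : g z₁ ≠ 0 := by
    intro h
    rw [h, norm_zero] at hlt₁
    exact absurd hlt₁ (not_lt.2 (norm_nonneg _))
  obtain ⟨ω, hωd, hω⟩ := Pool.Agent.KRB.rem f g κ hκ hf hg ⟨z₁, hz₁.2, hg1⟩
    fun z h1 h2 => hle z ⟨h1, h2⟩
  have hρ0 : 0 < ρ := hκ.trans_lt hκρ
  have hωd' : DifferentiableOn ℂ ω (An κ) := hωd
  -- strict bound
  have hstr : ∀ z ∈ An κ, ‖ω z‖ < 1 := by
    intro z hz
    refine lt_of_le_of_ne (hω z hz.1 hz.2).2 fun h => ?_
    have hmax : IsMaxOn (norm ∘ ω) (An κ) z := by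
      intro w hw
      show ‖ω w‖ ≤ ‖ω z‖
      rw [h]
      exact (hω w hw.1 hw.2).2
    have h2 := Complex.eqOn_of_isPreconnected_of_isMaxOn_norm (preconn κ hκ) (Bas.isOpen_An κ)
      hωd' hz hmax
    have h3 : ω z₁ = ω z := h2 hz₁
    rw [(hω z₁ hz₁.1 hz₁.2).1, norm_mul, h3, h, one_mul] at hlt₁
    exact lt_irrefl _ hlt₁
  -- the maximum on the circle of radius ρ
  have hcirc : ∃ μ : ℝ, 0 ≤ μ ∧ μ < 1 ∧ ∀ z : ℂ, ‖z‖ = ρ → ‖ω z‖ ≤ μ := by
    have hsub : sphere (0 : ℂ) ρ ⊆ An κ := by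
      intro z hz
      rw [mem_sphere_zero_iff_norm] at hz
      exact ⟨by rw [hz]; exact hκρ, by rw [hz]; exact hρ1⟩
    obtain ⟨w, hw, hmax⟩ := (isCompact_sphere (0 : ℂ) ρ).exists_isMaxOn
      (NormedSpace.sphere_nonempty.2 hρ0.le) ((hωd'.continuousOn.mono hsub).norm)
    refine ⟨‖ω w‖, norm_nonneg _, hstr w (hsub hw), fun z hz => ?_⟩
    exact hmax (mem_sphere_zero_iff_norm.2 hz)
  obtain ⟨μ, hμ0, hμ1, hμ⟩ := hcirc
  obtain ⟨N, hN⟩ := exists_pow_lt_of_lt_one hρ0 hμ1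
  have hN0 : N ≠ 0 := by
    rintro rfl
    rw [pow_zero] at hN
    linarith
  have hNpos : (0 : ℝ) < N := by exact_mod_cast Nat.pos_of_ne_zero hN0
  -- the key bound
  have hkey : ∀ z : ℂ, ρ ≤ ‖z‖ → ‖z‖ < 1 → ‖ω z‖ ^ N ≤ ‖z‖ := by
    intro z hz1 hz2
    rcases eq_or_lt_of_le hz1 with h | h
    · calc ‖ω z‖ ^ N ≤ μ ^ N := pow_le_pow_left₀ (norm_nonneg _) (hμ z h.symm) N
        _ ≤ ρ := hN.le
        _ ≤ ‖z‖ := hz1
    have hz0 : 0 < ‖z‖ := hρ0.trans h
    have hr : ∀ r : ℝ, ‖z‖ < r → r < 1 → ‖ω z‖ ^ N * r ≤ ‖z‖ := by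
      intro r hr1 hr2
      have hr0 : 0 < r := hz0.trans hr1
      -- apply the maximum principle on the annulus
      have hUo : IsOpen {w : ℂ | ρ < ‖w‖ ∧ ‖w‖ < r} := Bas.isOpen_annulus ρ r
      have hcl : closure {w : ℂ | ρ < ‖w‖ ∧ ‖w‖ < r} ⊆ {w : ℂ | ρ ≤ ‖w‖ ∧ ‖w‖ ≤ r} := by
        apply closure_minimal
        · intro w hw
          exact ⟨hw.1.le, hw.2.le⟩
        · exact (isClosed_le continuous_const continuous_norm).inter
            (isClosed_le continuous_norm continuous_const)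
      have hclA : closure {w : ℂ | ρ < ‖w‖ ∧ ‖w‖ < r} ⊆ An κ := by
        intro w hw
        have := hcl hw
        exact ⟨hκρ.trans_le this.1, this.2.trans_lt hr2⟩
      have hb : Bornology.IsBounded {w : ℂ | ρ < ‖w‖ ∧ ‖w‖ < r} := by
        refine (isBounded_ball (x := (0 : ℂ)) (r := r)).subset fun w hw => ?_
        rw [mem_ball_zero_iff]
        exact hw.2
      have hd : DifferentiableOn ℂ (fun w => ω w ^ N / w)
          (closure {w : ℂ | ρ < ‖w‖ ∧ ‖w‖ < r}) := by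
        refine ((hωd'.mono hclA).pow N).div differentiableOn_id ?_
        intro w hw hw0
        have := (hcl hw).1
        change w = 0 at hw0
        rw [hw0, norm_zero] at this
        linarith
      have hfin : ‖ω z ^ N / z‖ ≤ 1 / r := by
        refine norm_le_of_forall_mem_frontier_norm_le hb hd.diffContOnCl ?_
          (subset_closure ⟨h, hr1⟩)
        intro w hw
        rw [frontier, hUo.interior_eq] at hw
        have h3 := hcl hw.1
        have hw0 : 0 < ‖w‖ := hρ0.trans_le h3.1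
        rw [norm_div, norm_pow]
        by_cases h4 : ρ < ‖w‖
        · by_cases h5 : ‖w‖ < r
          · exact absurd ⟨h4, h5⟩ hw.2
          · have h6 : ‖w‖ = r := le_antisymm h3.2 (not_lt.1 h5)
            rw [h6]
            refine div_le_div_of_nonneg_right ?_ hr0.le
            exact pow_le_one₀ (norm_nonneg _) (hω w (by rw [h6]; linarith) (by rw [h6]; exact hr2)).2
        · have h6 : ‖w‖ = ρ := le_antisymm (not_lt.1 h4) h3.1
          rw [h6]
          have h7 : ‖ω w‖ ^ N ≤ ρ :=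
            (pow_le_pow_left₀ (norm_nonneg _) (hμ w h6) N).trans hN.le
          have h8 : ‖ω w‖ ^ N / ρ ≤ 1 := (div_le_one hρ0).2 h7
          refine h8.trans ?_
          rw [le_div_iff₀ hr0, one_mul]
          exact hr2.le
      rw [norm_div, norm_pow, div_le_div_iff₀ hz0 hr0, one_mul] at hfin
      exact hfin
    by_contra hcon
    push Not at hcon
    set A : ℝ := ‖ω z‖ ^ N with hA
    have hA0 : 0 < A := hz0.trans hcon
    have hA1 : A ≤ 1 := pow_le_one₀ (norm_nonneg _) (hω z (hκρ.trans h) hz2).2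
    have ht : ‖z‖ / A < 1 := (div_lt_one hA0).2 hcon
    have ht2 : ‖z‖ ≤ ‖z‖ / A := by
      rw [le_div_iff₀ hA0]
      nlinarith
    have h9 := hr ((‖z‖ / A + 1) / 2) (by linarith) (by linarith)
    have h10 : A * (‖z‖ / A) = ‖z‖ := mul_div_cancel₀ _ hA0.ne'
    nlinarith
  refine ⟨1 / N, by positivity, ?_, fun z hz1 hz2 => ?_⟩
  · rw [div_le_one hNpos]
    exact_mod_cast Nat.one_le_iff_ne_zero.2 hN0
  have hzA : κ < ‖z‖ := hκρ.trans_le hz1
  have h1 := hkey z hz1 hz2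
  have hN1 : (1 : ℝ) ≤ N := by exact_mod_cast Nat.one_le_iff_ne_zero.2 hN0
  have h0 : 1 / (N : ℝ) ≤ 1 := (div_le_one hNpos).2 hN1
  have h01 : 0 < 1 / (N : ℝ) := by positivity
  have hzn := norm_nonneg z
  have h2 : (1 : ℝ) + N * (-(1 / N * (1 - ‖z‖))) ≤ (1 + -(1 / N * (1 - ‖z‖))) ^ N := by
    apply one_add_mul_le_pow
    nlinarith
  have h3 : (1 : ℝ) + N * (-(1 / N * (1 - ‖z‖))) = ‖z‖ := by
    field_simp
    ring
  rw [h3] at h2
  have h4 : 0 ≤ 1 + -(1 / N * (1 - ‖z‖)) := by nlinarith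
  have h5 : ‖ω z‖ ≤ 1 + -(1 / N * (1 - ‖z‖)) :=
    (pow_le_pow_iff_left₀ (norm_nonneg _) h4 hN0).1 (h1.trans h2)
  rw [(hω z hzA hz2).1, norm_mul]
  refine mul_le_mul_of_nonneg_right ?_ (norm_nonneg _)
  linarith

end Pool.Agent.KRC
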