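import Pool.Agent.KRC.Bas
import Pool.Agent.KRB.Fin
import Pool.Agent.KRB.Up
import Pool.Agent.KRB.Rad
import Pool.Agent.KRB.Low

/-!
# Module KGD: the constant itself is good
-/

set_option autoImplicit false

namespace Pool.Agent.KRC

open Complex MeasureTheory Set Filter Topology Metric
open Pool.Agent.KRB (Berg nrm KP kap)

namespace KGDAux

theorem rpow_div {p M : ℝ} (hM : 0 < M) (f : ℂ → ℂ) (z : ℂ) :
    ‖f z / (M : ℂ)‖ ^ p = ‖f z‖ ^ p / M ^ p := by
  rw [norm_div, Complex.norm_real, Real.norm_of_nonneg hM.le,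
    Real.div_rpow (norm_nonneg _) hM.le]

theorem berg_div {p M : ℝ} (hM : 0 < M) {f : ℂ → ℂ} (hf : Berg p f) :
    Berg p (fun z => f z / (M : ℂ)) := by
  refine ⟨hf.1.div_const _, ?_⟩
  have h1 : (fun z => ‖f z / (M : ℂ)‖ ^ p) = fun z => ‖f z‖ ^ p / M ^ p := by
    ext z
    exact rpow_div hM f z
  rw [h1]
  exact hf.2.div_const _

theorem nrm_div {p M : ℝ} (hp : 0 < p) (hM : 0 < M) (f : ℂ → ℂ) :
    nrm p (fun z => f z / (M : ℂ)) = nrm p f / M := by
  unfold nrm
  have h1 : (∫ z in ball (0 : ℂ) 1, ‖f z / (M : ℂ)‖ ^ p) =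
      (∫ z in ball (0 : ℂ) 1, ‖f z‖ ^ p) / M ^ p := by
    rw [← integral_div]
    congr 1
    ext z
    exact rpow_div hM f z
  have h2 : 0 ≤ ∫ z in ball (0 : ℂ) 1, ‖f z‖ ^ p :=
    integral_nonneg fun z => Real.rpow_nonneg (norm_nonneg _) _
  rw [h1, Real.div_rpow h2 (Real.rpow_nonneg hM.le _), ← Real.rpow_mul hM.le,
    mul_one_div_cancel hp.ne', Real.rpow_one]

theorem nrm_nonneg (p : ℝ) (g : ℂ → ℂ) : 0 ≤ nrm p g :=
  Real.rpow_nonneg (integral_nonneg fun _ => Real.rpow_nonneg (norm_nonneg _) _) _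

/-- Domination almost everywhere. -/
theorem nrm_mono {p : ℝ} (hp : 0 < p) {f g : ℂ → ℂ} (hf : Berg p f) (hg : Berg p g)
    (h : ∀ z : ℂ, z ≠ 0 → ‖z‖ < 1 → ‖f z‖ ≤ ‖g z‖) : nrm p f ≤ nrm p g := by
  unfold nrm
  apply Real.rpow_le_rpow (integral_nonneg fun _ => Real.rpow_nonneg (norm_nonneg _) _) _
    (by positivity)
  apply setIntegral_mono_on_ae hf.2 hg.2 measurableSet_ball
  have h1 : ∀ᵐ z : ℂ, z ≠ 0 := by
    rw [ae_iff]
    simp
  filter_upwards [h1] with z hz hz1
  exact Real.rpow_le_rpow (norm_nonneg _) (h z hz (by simpa using hz1)) hp.le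

end KGDAux

open KGDAux in
theorem kgd (hE : S_EXT) : S_KGD := by
  intro p hp
  have hp0 : 0 < p := by linarith
  have hk0 : 0 ≤ kap p := Pool.Agent.KRB.kap_nonneg p
  have hk1 : kap p < 1 := by
    refine lt_of_le_of_lt (Pool.Agent.KRB.kap_le (Pool.Agent.KRB.up Pool.Agent.KRB.rad) hp) ?_
    have h1 : 0 < √p := Real.sqrt_pos.2 hp0
    have h2 : 0 < 1 / (40 * √p) := by positivity
    linarith
  refine ⟨hk0, hk1, ?_⟩
  intro f g hf hg hfg
  rcases eq_or_lt_of_le hk0 with h0 | hpos
  · apply nrm_mono hp0 hf hg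
    intro z hz hz1
    apply hfg z _ hz1
    rw [← h0]
    exact norm_pos_iff.2 hz
  by_cases hg0 : ∃ z ∈ ball (0 : ℂ) 1, g z ≠ 0
  · obtain ⟨C, δ, hC, hδ, hδk, hext⟩ := hE (kap p) f g hpos hk1 hf.1 hg.1 hg0
      (fun z hz => hfg z hz.1 hz.2)
    have key : ∀ c ∈ Ioo (kap p - δ) (kap p), nrm p f ≤ (1 + C * (kap p - c)) * nrm p g := by
      intro c hc
      have hc0 : 0 < c := by linarith [hc.1]
      have hKP : KP p c := by
        have hne : {c : ℝ | 0 < c ∧ c < 1 ∧ KP p c}.Nonempty := by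
          by_contra hcon
          rw [Set.not_nonempty_iff_eq_empty] at hcon
          have h1 : kap p = 0 := by
            unfold kap
            rw [hcon, Real.sSup_empty]
          linarith
        obtain ⟨c', hc', hcc'⟩ := exists_lt_of_lt_csSup hne hc.2
        exact Pool.Agent.KRB.LOWAux.mono hc'.2.2 hcc'.le
      have hM : 0 < 1 + C * (kap p - c) := by
        have : 0 ≤ C * (kap p - c) := mul_nonneg hC (by linarith [hc.2])
        linarith
      have h2 := hKP (fun z => f z / ((1 + C * (kap p - c) : ℝ) : ℂ)) g (berg_div hM hf) hg (by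
        intro z hz hz1
        rw [norm_div, Complex.norm_real, Real.norm_of_nonneg hM.le, div_le_iff₀ hM]
        rcases le_or_gt ‖z‖ (kap p) with h3 | h3
        · have h4 := hext z (by linarith [hc.1]) h3
          have h5 : (1 + C * (kap p - ‖z‖)) * ‖g z‖ ≤ (1 + C * (kap p - c)) * ‖g z‖ := by
            apply mul_le_mul_of_nonneg_right _ (norm_nonneg _)
            have : C * (kap p - ‖z‖) ≤ C * (kap p - c) :=
              mul_le_mul_of_nonneg_left (by linarith) hC
            linarith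
          linarith
        · have h4 := hfg z h3 hz1
          have h5 : 0 ≤ C * (kap p - c) * ‖g z‖ :=
            mul_nonneg (mul_nonneg hC (by linarith [hc.2])) (norm_nonneg _)
          linarith)
      rw [nrm_div hp0 hM, div_le_iff₀ hM] at h2
      linarith
    have hlim : Tendsto (fun c : ℝ => (1 + C * (kap p - c)) * nrm p g) (𝓝[<] (kap p))
        (𝓝 (nrm p g)) := by
      have h1 : Tendsto (fun c : ℝ => (1 + C * (kap p - c)) * nrm p g) (𝓝 (kap p))
          (𝓝 ((1 + C * (kap p - kap p)) * nrm p g)) := by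
        apply Continuous.tendsto
        fun_prop
      rw [sub_self, mul_zero, add_zero, one_mul] at h1
      exact h1.mono_left nhdsWithin_le_nhds
    apply ge_of_tendsto hlim
    filter_upwards [Ioo_mem_nhdsLT (show kap p - δ < kap p by linarith)] with c hc
    exact key c hc
  · push Not at hg0
    have hz₀ : (((kap p + 1) / 2 : ℝ) : ℂ) ∈ An (kap p) := by
      constructor
      · rw [Complex.norm_real, Real.norm_of_nonneg (by linarith)]
        linarith
      · rw [Complex.norm_real, Real.norm_of_nonneg (by linarith)]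
        linarith
    have hopen : IsOpen (An (kap p)) :=
      (isOpen_lt continuous_const continuous_norm).inter (isOpen_lt continuous_norm continuous_const)
    have h1 : f =ᶠ[𝓝 (((kap p + 1) / 2 : ℝ) : ℂ)] 0 := by
      filter_upwards [hopen.mem_nhds hz₀] with z hz
      have h2 := hfg z hz.1 hz.2
      rw [hg0 z (by simpa using hz.2), norm_zero] at h2
      exact norm_le_zero_iff.1 h2
    have h3 := (hf.1.analyticOnNhd isOpen_ball).eqOn_zero_of_preconnected_of_eventuallyEq_zero
      (convex_ball (0 : ℂ) 1).isPreconnected (by simpa using hz₀.2) h1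
    apply nrm_mono hp0 hf hg
    intro z _ hz1
    have h4 := h3 (show z ∈ ball (0 : ℂ) 1 by simpa using hz1)
    rw [h4]
    simp

end Pool.Agent.KRC
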