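import Pool.Agent.KRC.Bas

/-!
# The Korenblum constant along integer multiples: linearisation
-/

set_option autoImplicit false

namespace Pool.Agent.KRC

open Complex MeasureTheory Set Filter Topology Metric
open Pool.Agent.KRB (Berg nrm KP kap)

namespace LINAux

/-- the difference quotient -/
noncomputable def dq (p : ℝ) (G K : ℂ → ℂ) (n : ℕ) (z : ℂ) : ℝ :=
  (‖G z + (1 / ((n : ℝ) + 1) : ℝ) * K z‖ ^ p - ‖G z - (1 / ((n : ℝ) + 1) : ℝ) * K z‖ ^ p) /
    (1 / ((n : ℝ) + 1))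

theorem lim (h1 : S_PTL) {p : ℝ} (hp : 1 ≤ p) (G K : ℂ → ℂ) (z : ℂ) (hz : G z ≠ 0) :
    Tendsto (fun n => dq p G K n z) atTop (𝓝 (2 * p * Ep p G K z)) := by
  have hen : ∀ n : ℕ, 0 < 1 / ((n : ℝ) + 1) := fun n => by positivity
  have ht : Tendsto (fun n : ℕ => 1 / ((n : ℝ) + 1)) atTop (𝓝 0) :=
    tendsto_one_div_add_atTop_nhds_zero_nat
  have a1 := h1 (fun _ => G z) (fun _ => K z) (fun _ => p) (fun n => 1 / ((n : ℝ) + 1)) (G z)
    (K z) p hz hp (fun _ => hp) hen tendsto_const_nhds tendsto_const_nhds tendsto_const_nhds ht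
  have a2 := h1 (fun _ => G z) (fun _ => - K z) (fun _ => p) (fun n => 1 / ((n : ℝ) + 1)) (G z)
    (- K z) p hz hp (fun _ => hp) hen tendsto_const_nhds tendsto_const_nhds tendsto_const_nhds ht
  have a3 := a1.sub a2
  refine (a3.congr fun n => ?_).trans (le_of_eq ?_)
  · unfold dq
    rw [mul_neg, sub_neg_eq_add]
    ring
  · congr 1
    unfold Ep
    rw [neg_mul, neg_re]
    ring

theorem bound (h2 : S_PTB) {p : ℝ} (hp : 1 ≤ p) (G K : ℂ → ℂ) (z : ℂ) {M M' : ℝ}
    (hM : ‖G z‖ ≤ M) (hM' : ‖K z‖ ≤ M') (n : ℕ) :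
    |dq p G K n z| ≤ 2 * p * M' * (M + M') ^ (p - 1) := by
  set t : ℝ := 1 / ((n : ℝ) + 1) with ht
  have ht0 : 0 < t := by positivity
  have ht1 : t ≤ 1 := by
    rw [ht, div_le_one (by positivity)]
    have : (0 : ℝ) ≤ n := Nat.cast_nonneg _
    linarith
  have hM0 : 0 ≤ M' := (norm_nonneg _).trans hM'
  have hMM : 0 ≤ M + M' := add_nonneg ((norm_nonneg _).trans hM) hM0
  have htK : ‖(t : ℂ) * K z‖ ≤ M' := by
    rw [norm_mul, norm_real, Real.norm_eq_abs, abs_of_pos ht0]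
    calc t * ‖K z‖ ≤ 1 * ‖K z‖ := mul_le_mul_of_nonneg_right ht1 (norm_nonneg _)
      _ ≤ M' := by rw [one_mul]; exact hM'
  have b1 : ‖G z + t * K z‖ ≤ M + M' := (norm_add_le _ _).trans (add_le_add hM htK)
  have b2 : ‖G z - t * K z‖ ≤ M + M' := (norm_sub_le _ _).trans (add_le_add hM htK)
  have b3 := h2 _ _ p (M + M') hp b1 b2
  have b4 : ‖(G z + t * K z) - (G z - t * K z)‖ = 2 * t * ‖K z‖ := by
    have : (G z + t * K z) - (G z - t * K z) = ((2 * t : ℝ) : ℂ) * K z := by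
      push_cast
      ring
    rw [this, norm_mul, norm_real, Real.norm_eq_abs, abs_of_pos (by positivity)]
  rw [b4] at b3
  have : |dq p G K n z| = |‖G z + t * K z‖ ^ p - ‖G z - t * K z‖ ^ p| / t := by
    unfold dq
    rw [← ht, abs_div, abs_of_pos ht0]
  rw [this, div_le_iff₀ ht0]
  have hX : 0 ≤ (M + M') ^ (p - 1) := Real.rpow_nonneg hMM _
  calc _ ≤ p * (2 * t * ‖K z‖) * (M + M') ^ (p - 1) := b3
    _ ≤ p * (2 * t * M') * (M + M') ^ (p - 1) := by
        refine mul_le_mul_of_nonneg_right ?_ hX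
        refine mul_le_mul_of_nonneg_left ?_ (by linarith)
        exact mul_le_mul_of_nonneg_left hM' (by positivity)
    _ = 2 * p * M' * (M + M') ^ (p - 1) * t := by ring

theorem meas {G K : ℂ → ℂ} (hG : ContinuousOn G (ball 0 1)) (hK : ContinuousOn K (ball 0 1))
    (p : ℝ) (n : ℕ) {r : ℝ} (hr : r ≤ 1) :
    AEStronglyMeasurable (dq p G K n) (volume.restrict (ball 0 r)) := by
  have h : AEStronglyMeasurable (dq p G K n) (volume.restrict (ball 0 1)) := by
    unfold dq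
    have h1 : ContinuousOn (fun z => G z + (1 / ((n : ℝ) + 1) : ℝ) * K z) (ball 0 1) :=
      hG.add (continuousOn_const.mul hK)
    have h2 : ContinuousOn (fun z => G z - (1 / ((n : ℝ) + 1) : ℝ) * K z) (ball 0 1) :=
      hG.sub (continuousOn_const.mul hK)
    exact ((Bas.norm_pow_meas h1 p).sub (Bas.norm_pow_meas h2 p)).aemeasurable.div_const _
      |>.aestronglyMeasurable
  exact h.mono_measure (Measure.restrict_mono (ball_subset_ball hr) le_rfl)

theorem int_nonneg (hD : S_DIL) {p κ r : ℝ} {G K : ℂ → ℂ} (hp : 1 ≤ p) (hKP : KP p κ)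
    (hr0 : 0 < r) (hr1 : r < 1) (hG : DifferentiableOn ℂ G (ball 0 1))
    (hK : DifferentiableOn ℂ K (ball 0 1))
    (hpos : ∀ w : ℂ, r * κ < ‖w‖ → ‖w‖ < r → 0 ≤ (K w * (starRingEnd ℂ) (G w)).re) (n : ℕ) :
    0 ≤ ∫ z in ball (0 : ℂ) r, dq p G K n z := by
  set t : ℝ := 1 / ((n : ℝ) + 1) with ht
  have ht0 : 0 < t := by positivity
  have dF : DifferentiableOn ℂ (fun z => G z - t * K z) (ball 0 1) :=
    hG.sub ((differentiableOn_const _).mul hK)
  have dE : DifferentiableOn ℂ (fun z => G z + t * K z) (ball 0 1) :=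
    hG.add ((differentiableOn_const _).mul hK)
  have h := hD p κ r _ _ (by linarith) hKP hr0 hr1 dF dE (by
    intro w hw1 hw2
    have h4 := Bas.four (G w) (t * K w)
    have h5 : (t * K w * (starRingEnd ℂ) (G w)).re = t * (K w * (starRingEnd ℂ) (G w)).re := by
      rw [mul_assoc, re_ofReal_mul]
    rw [h5] at h4
    have h6 := hpos w hw1 hw2
    have h7 : 0 ≤ t * (K w * (starRingEnd ℂ) (G w)).re := mul_nonneg ht0.le h6
    show ‖G w - t * K w‖ ≤ ‖G w + t * K w‖
    refine abs_le_of_sq_le_sq' ?_ (norm_nonneg _) |>.2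
    linarith)
  have i1 : IntegrableOn (fun z => ‖G z + t * K z‖ ^ p) (ball 0 r) :=
    (Bas.intOn_of_cont (Bas.pow_cont dE.continuousOn (by linarith)) hr1).mono_set
      ball_subset_closedBall
  have i2 : IntegrableOn (fun z => ‖G z - t * K z‖ ^ p) (ball 0 r) :=
    (Bas.intOn_of_cont (Bas.pow_cont dF.continuousOn (by linarith)) hr1).mono_set
      ball_subset_closedBall
  have e : ∫ z in ball (0 : ℂ) r, dq p G K n z =
      (∫ z in ball (0 : ℂ) r, ‖G z + t * K z‖ ^ p) / t -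
        (∫ z in ball (0 : ℂ) r, ‖G z - t * K z‖ ^ p) / t := by
    unfold dq
    rw [← ht, integral_div, integral_sub i1 i2]
    ring
  rw [e, sub_nonneg]
  exact div_le_div_of_nonneg_right h ht0.le

end LINAux

open LINAux in
theorem lin (hD : S_DIL) (h1 : S_PTL) (h2 : S_PTB) : S_LIN := by
  intro p κ r G K hp hKP hr0 hr1 hG hK hpos
  by_cases hne : ∃ z ∈ ball (0 : ℂ) 1, G z ≠ 0
  swap
  · push Not at hne
    have : ∫ w in ball (0 : ℂ) r, Ep p G K w = 0 :=
      setIntegral_eq_zero_of_forall_eq_zero fun z hz =>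
        Bas.Ep_zero (hne z (ball_subset_ball hr1.le hz))
    rw [this]
  obtain ⟨M, hM0, hM⟩ := Bas.bdd hG.continuousOn hr1
  obtain ⟨M', hM0', hM'⟩ := Bas.bdd hK.continuousOn hr1
  have hlim : Tendsto (fun n => ∫ z in ball (0 : ℂ) r, dq p G K n z) atTop
      (𝓝 (∫ z in ball (0 : ℂ) r, 2 * p * Ep p G K z)) := by
    refine tendsto_integral_of_dominated_convergence
      (fun _ => 2 * p * M' * (M + M') ^ (p - 1)) ?_ ?_ ?_ ?_
    · intro n
      exact meas hG.continuousOn hK.continuousOn p n hr1.le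
    · exact integrableOn_const measure_ball_lt_top.ne
    · intro n
      filter_upwards [ae_restrict_mem measurableSet_ball] with z hz
      have hz' : ‖z‖ ≤ r := (mem_ball_zero_iff.1 hz).le
      rw [Real.norm_eq_abs]
      exact bound h2 hp G K z (hM z hz') (hM' z hz') n
    · filter_upwards [Bas.ae_ne hG hne (ball_subset_ball hr1.le)] with z hz
      exact lim h1 hp G K z hz
  have h3 : 0 ≤ ∫ z in ball (0 : ℂ) r, 2 * p * Ep p G K z :=
    ge_of_tendsto' hlim fun n => int_nonneg hD hp hKP hr0 hr1 hG hK hpos n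
  rw [integral_const_mul] at h3
  have h4 : 0 < 2 * p := by linarith
  exact nonneg_of_mul_nonneg_right h3 h4

end Pool.Agent.KRC
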