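import Pool.Agent.KRC.Bas

/-!
# The Korenblum constant along integer multiples: limits of bad pairs, first kind
-/

set_option autoImplicit false

namespace Pool.Agent.KRC

open Complex MeasureTheory Set Filter Topology Metric

namespace LMAAux

/-- the integrands -/
noncomputable def Fn (qn en : ℕ → ℝ) (gn kn : ℕ → ℂ → ℂ) (n : ℕ) (z : ℂ) : ℝ :=
  ‖gn n z‖ ^ qn n - ‖gn n z - en n * kn n z‖ ^ qn n

section

variable {c q : ℝ} {qn cn en : ℕ → ℝ} {gn kn : ℕ → ℂ → ℂ} {e : ℝ} {g k : ℂ → ℂ}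

theorem tend_g (H : Conv c q qn cn en gn kn e g k) {z : ℂ} (hz : ‖z‖ < 1) :
    Tendsto (fun n => gn n z) atTop (𝓝 (g z)) :=
  (H.ug ‖z‖ hz).tendsto_at (mem_closedBall_zero_iff.2 le_rfl)

theorem tend_k (H : Conv c q qn cn en gn kn e g k) {z : ℂ} (hz : ‖z‖ < 1) :
    Tendsto (fun n => kn n z) atTop (𝓝 (k z)) :=
  (H.uk ‖z‖ hz).tendsto_at (mem_closedBall_zero_iff.2 le_rfl)

theorem tend_f (H : Conv c q qn cn en gn kn e g k) {z : ℂ} (hz : ‖z‖ < 1) :
    Tendsto (fun n => gn n z - en n * kn n z) atTop (𝓝 (g z - e * k z)) := by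
  have h1 : Tendsto (fun n => ((en n : ℝ) : ℂ)) atTop (𝓝 (e : ℂ)) :=
    (continuous_ofReal.tendsto e).comp H.te
  exact (tend_g H hz).sub (h1.mul (tend_k H hz))

theorem tend_F (H : Conv c q qn cn en gn kn e g k) {z : ℂ} (hz : ‖z‖ < 1) :
    Tendsto (fun n => Fn qn en gn kn n z) atTop
      (𝓝 (Dp q (fun z => g z - e * k z) g z)) := by
  have hq : 0 < q := by linarith [H.hq]
  exact ((tend_g H hz).norm.rpow H.tq (Or.inr hq)).sub
    ((tend_f H hz).norm.rpow H.tq (Or.inr hq))

/-- a uniform bound on smaller discs -/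
theorem bound (H : Conv c q qn cn en gn kn e g k) {r : ℝ} (hr : r < 1) :
    ∃ M : ℝ, 0 ≤ M ∧ ∀ᶠ n in atTop, ∀ z : ℂ, ‖z‖ ≤ r → |Fn qn en gn kn n z| ≤ M := by
  obtain ⟨M1, hM1, h1⟩ := Bas.bdd H.dg.continuousOn hr
  obtain ⟨M2, hM2, h2⟩ := Bas.bdd H.dk.continuousOn hr
  have u1 := Metric.tendstoUniformlyOn_iff.1 (H.ug r hr) 1 one_pos
  have u2 := Metric.tendstoUniformlyOn_iff.1 (H.uk r hr) 1 one_pos
  have u3 : ∀ᶠ n in atTop, qn n < q + 1 := H.tq.eventually (gt_mem_nhds (by linarith))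
  set K : ℝ := M1 + M2 + 2 with hK
  have hK1 : 1 ≤ K := by linarith
  refine ⟨K ^ (q + 1), by positivity, ?_⟩
  filter_upwards [u1, u2, u3] with n v1 v2 v3 z hz
  have hz' : z ∈ closedBall (0 : ℂ) r := mem_closedBall_zero_iff.2 hz
  have w1 : ‖gn n z‖ ≤ M1 + 1 := by
    have h3 := v1 z hz'
    rw [dist_eq_norm] at h3
    have h4 : ‖gn n z‖ ≤ ‖g z‖ + ‖g z - gn n z‖ := by
      calc ‖gn n z‖ = ‖g z - (g z - gn n z)‖ := by rw [sub_sub_cancel]
        _ ≤ _ := norm_sub_le _ _
    linarith [h1 z hz]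
  have w2 : ‖kn n z‖ ≤ M2 + 1 := by
    have h3 := v2 z hz'
    rw [dist_eq_norm] at h3
    have h4 : ‖kn n z‖ ≤ ‖k z‖ + ‖k z - kn n z‖ := by
      calc ‖kn n z‖ = ‖k z - (k z - kn n z)‖ := by rw [sub_sub_cancel]
        _ ≤ _ := norm_sub_le _ _
    linarith [h2 z hz]
  have w3 : ‖gn n z - en n * kn n z‖ ≤ K := by
    have h3 : ‖((en n : ℝ) : ℂ) * kn n z‖ ≤ M2 + 1 := by
      rw [norm_mul, Complex.norm_real, Real.norm_eq_abs, abs_of_pos (H.hen n)]
      calc en n * ‖kn n z‖ ≤ 1 * (M2 + 1) :=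
            mul_le_mul (H.hen1 n) w2 (norm_nonneg _) zero_le_one
        _ = _ := one_mul _
    have h4 := norm_sub_le (gn n z) (en n * kn n z)
    linarith
  have w4 : ‖gn n z‖ ≤ K := by linarith
  have hqn := H.hqn n
  have key : ∀ x : ℝ, 0 ≤ x → x ≤ K → 0 ≤ x ^ qn n ∧ x ^ qn n ≤ K ^ (q + 1) := by
    intro x hx0 hxK
    refine ⟨by positivity, ?_⟩
    calc x ^ qn n ≤ K ^ qn n := Real.rpow_le_rpow hx0 hxK (by linarith)
      _ ≤ K ^ (q + 1) := Real.rpow_le_rpow_of_exponent_le hK1 v3.le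
  obtain ⟨a1, a2⟩ := key _ (norm_nonneg _) w4
  obtain ⟨b1, b2⟩ := key _ (norm_nonneg _) w3
  unfold Fn
  rw [abs_le]
  constructor <;> linarith

theorem F_cont (H : Conv c q qn cn en gn kn e g k) (n : ℕ) :
    ContinuousOn (Fn qn en gn kn n) (ball 0 1) := by
  have hq := H.hqn n
  have h1 : ContinuousOn (fun z => gn n z - en n * kn n z) (ball 0 1) :=
    (H.dgn n).continuousOn.sub (continuousOn_const.mul (H.dkn n).continuousOn)
  exact (Bas.pow_cont (H.dgn n).continuousOn (by linarith)).sub (Bas.pow_cont h1 (by linarith))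

theorem f_diff (H : Conv c q qn cn en gn kn e g k) :
    DifferentiableOn ℂ (fun z => g z - e * k z) (ball 0 1) :=
  H.dg.sub ((differentiableOn_const _).mul H.dk)

/-- limits of integrals over sets in a smaller disc -/
theorem tend_left (H : Conv c q qn cn en gn kn e g k) {a b : ℝ} (hb : b < 1) :
    Tendsto (fun n => ∫ z in {z : ℂ | a < ‖z‖ ∧ ‖z‖ < b}, Fn qn en gn kn n z) atTop
      (𝓝 (∫ z in {z : ℂ | a < ‖z‖ ∧ ‖z‖ < b}, Dp q (fun z => g z - e * k z) g z)) := by
  obtain ⟨M, hM0, hM⟩ := bound H hb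
  have hmeas : MeasurableSet {z : ℂ | a < ‖z‖ ∧ ‖z‖ < b} := (Bas.isOpen_annulus a b).measurableSet
  have hsub : {z : ℂ | a < ‖z‖ ∧ ‖z‖ < b} ⊆ closedBall (0 : ℂ) b :=
    fun z hz => mem_closedBall_zero_iff.2 hz.2.le
  have hsub1 : {z : ℂ | a < ‖z‖ ∧ ‖z‖ < b} ⊆ ball (0 : ℂ) 1 := Bas.annulus_sub hb.le
  refine tendsto_integral_filter_of_dominated_convergence (fun _ => M) ?_ ?_ ?_ ?_
  · exact Eventually.of_forall fun n =>
      ((F_cont H n).mono hsub1).aestronglyMeasurable hmeas
  · filter_upwards [hM] with n hn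
    filter_upwards [ae_restrict_mem hmeas] with z hz
    exact hn z hz.2.le
  · exact (integrableOn_const measure_closedBall_lt_top.ne).mono_set hsub
  · filter_upwards [ae_restrict_mem hmeas] with z hz
    exact tend_F H (hz.2.trans hb)

theorem tend_right (H : Conv c q qn cn en gn kn e g k) :
    Tendsto (fun n => ∫ z in closedBall (0 : ℂ) (cn n), Fn qn en gn kn n z) atTop
      (𝓝 (∫ z in closedBall (0 : ℂ) c, Dp q (fun z => g z - e * k z) g z)) := by
  have hc1 := H.hc1
  set r : ℝ := (1 + c) / 2 with hr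
  have hcr : c < r := by linarith
  have hr1 : r < 1 := by linarith
  obtain ⟨M, hM0, hM⟩ := bound H hr1
  have e1 : ∫ z in closedBall (0 : ℂ) c, Dp q (fun z => g z - e * k z) g z =
      ∫ z in closedBall (0 : ℂ) r, (closedBall (0 : ℂ) c).indicator
        (Dp q (fun z => g z - e * k z) g) z := by
    rw [setIntegral_indicator measurableSet_closedBall,
      inter_eq_right.2 (closedBall_subset_closedBall hcr.le)]
  have e2 : ∀ᶠ n in atTop, ∫ z in closedBall (0 : ℂ) r, (closedBall (0 : ℂ) (cn n)).indicator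
      (Fn qn en gn kn n) z = ∫ z in closedBall (0 : ℂ) (cn n), Fn qn en gn kn n z := by
    filter_upwards [H.tc.eventually (gt_mem_nhds hcr)] with n hn
    rw [setIntegral_indicator measurableSet_closedBall,
      inter_eq_right.2 (closedBall_subset_closedBall hn.le)]
  rw [e1]
  refine Tendsto.congr' e2 ?_
  refine tendsto_integral_filter_of_dominated_convergence (fun _ => M) ?_ ?_ ?_ ?_
  · refine Eventually.of_forall fun n => ?_
    exact (((F_cont H n).mono (Bas.closedBall_sub hr1)).aestronglyMeasurable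
      measurableSet_closedBall).indicator measurableSet_closedBall
  · filter_upwards [hM] with n hn
    filter_upwards [ae_restrict_mem measurableSet_closedBall] with z hz
    refine (norm_indicator_le_norm_self _ _).trans ?_
    exact hn z (mem_closedBall_zero_iff.1 hz)
  · exact integrableOn_const measure_closedBall_lt_top.ne
  · have hs : volume (sphere (0 : ℂ) c) = 0 := Measure.addHaar_sphere _ _ _
    have hae : ∀ᵐ z ∂(volume.restrict (closedBall (0 : ℂ) r)), ‖z‖ ≠ c := by
      refine ae_restrict_of_ae ?_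
      have hset : {z : ℂ | ¬ ‖z‖ ≠ c} = sphere (0 : ℂ) c := by
        ext z
        simp
      rw [ae_iff, hset]
      exact hs
    filter_upwards [ae_restrict_mem measurableSet_closedBall, hae] with z hz hzc
    have hz1 : ‖z‖ < 1 := (mem_closedBall_zero_iff.1 hz).trans_lt hr1
    rcases lt_or_gt_of_ne hzc with h | h
    · rw [indicator_of_mem (mem_closedBall_zero_iff.2 h.le)]
      refine (tend_F H hz1).congr' ?_
      filter_upwards [H.tc.eventually (lt_mem_nhds h)] with n hn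
      rw [indicator_of_mem (mem_closedBall_zero_iff.2 hn.le)]
    · rw [indicator_of_notMem (fun h' => absurd (mem_closedBall_zero_iff.1 h') (not_le.2 h))]
      apply tendsto_const_nhds.congr'
      filter_upwards [H.tc.eventually (gt_mem_nhds h)] with n hn
      rw [indicator_of_notMem (fun h' => absurd (mem_closedBall_zero_iff.1 h') (not_le.2 hn))]

/-- the limit inequality -/
theorem limit_le (H : Conv c q qn cn en gn kn e g k) {a b : ℝ} (hca : c < a) (hab : a ≤ b)
    (hb : b < 1) : ∫ z in {z : ℂ | a < ‖z‖ ∧ ‖z‖ < b}, Dp q (fun z => g z - e * k z) g z ≤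
      -∫ z in closedBall (0 : ℂ) c, Dp q (fun z => g z - e * k z) g z := by
  refine le_of_tendsto_of_tendsto (tend_left H (a := a) hb) (tend_right H).neg ?_
  filter_upwards [H.tc.eventually (gt_mem_nhds hca)] with n hn
  have h1 := H.bad n a b hn.le hab hb
  have h2 : ∫ z in closedBall (0 : ℂ) (cn n),
      (‖gn n z - en n * kn n z‖ ^ qn n - ‖gn n z‖ ^ qn n) =
      -∫ z in closedBall (0 : ℂ) (cn n), Fn qn en gn kn n z := by
    rw [← integral_neg]
    congr 1
    funext z
    unfold Fn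
    ring
  rw [h2] at h1
  exact h1

theorem adm_lim (H : Conv c q qn cn en gn kn e g k) : ∀ z ∈ An c, ‖g z - e * k z‖ ≤ ‖g z‖ := by
  intro z hz
  refine le_of_tendsto_of_tendsto (tend_f H hz.2).norm (tend_g H hz.2).norm ?_
  filter_upwards [H.tc.eventually (gt_mem_nhds hz.1)] with n hn
  exact H.adm n z ⟨hn, hz.2⟩

theorem union_eq (hc : c < 1) : ball (0 : ℂ) 1 = closedBall 0 c ∪ An c := by
  ext z
  simp only [mem_ball_zero_iff, mem_union, mem_closedBall_zero_iff, An, mem_ofPred_eq]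
  constructor
  · intro h
    rcases le_or_gt ‖z‖ c with h1 | h1
    · exact Or.inl h1
    · exact Or.inr ⟨h1, h⟩
  · rintro (h | h)
    · exact h.trans_lt hc
    · exact h.2

theorem disj : Disjoint (closedBall (0 : ℂ) c) (An c) := by
  rw [Set.disjoint_left]
  intro z h1 h2
  exact absurd (mem_closedBall_zero_iff.1 h1) (not_le.2 h2.1)

theorem main (H : Conv c q qn cn en gn kn e g k) :
    IntegrableOn (Dp q (fun z => g z - e * k z) g) (ball 0 1) ∧
      ∫ z in ball (0 : ℂ) 1, Dp q (fun z => g z - e * k z) g z ≤ 0 := by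
  have hc1 := H.hc1
  have hq : 0 ≤ q := by linarith [H.hq]
  set D := Dp q (fun z => g z - e * k z) g with hD
  have hDc : ContinuousOn D (ball 0 1) :=
    Bas.Dp_cont (f_diff H).continuousOn H.dg.continuousOn hq
  set A : ℕ → Set ℂ := fun n => {z : ℂ | c + (1 - c) / (n + 3) < ‖z‖ ∧
    ‖z‖ < 1 - (1 - c) / (n + 3)} with hA
  have hpos : ∀ n : ℕ, 0 < (1 - c) / ((n : ℝ) + 3) := by
    intro n
    have : 0 < 1 - c := by linarith
    positivity
  have hle : ∀ n : ℕ, c + (1 - c) / ((n : ℝ) + 3) ≤ 1 - (1 - c) / ((n : ℝ) + 3) := by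
    intro n
    have h1 : (1 - c) / ((n : ℝ) + 3) ≤ (1 - c) / 2 := by
      apply div_le_div_of_nonneg_left (by linarith) (by norm_num)
      have : (0 : ℝ) ≤ n := Nat.cast_nonneg n
      linarith
    linarith
  have hlim : Tendsto (fun n : ℕ => (1 - c) / ((n : ℝ) + 3)) atTop (𝓝 0) :=
    tendsto_const_nhds.div_atTop
      (tendsto_atTop_add_const_right _ _ tendsto_natCast_atTop_atTop)
  have hsub : ∀ n, A n ⊆ An c := fun n z hz =>
    ⟨by linarith [hz.1, hpos n], by linarith [hz.2, hpos n]⟩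
  have hcov : AECover (volume.restrict (An c)) atTop A := by
    constructor
    · filter_upwards [ae_restrict_mem (Bas.isOpen_An c).measurableSet] with z hz
      have h1 : ∀ᶠ n : ℕ in atTop, (1 - c) / ((n : ℝ) + 3) < ‖z‖ - c :=
        hlim.eventually (gt_mem_nhds (by linarith [hz.1]))
      have h2 : ∀ᶠ n : ℕ in atTop, (1 - c) / ((n : ℝ) + 3) < 1 - ‖z‖ :=
        hlim.eventually (gt_mem_nhds (by linarith [hz.2]))
      filter_upwards [h1, h2] with n h3 h4
      exact ⟨by linarith, by linarith⟩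
    · intro n
      exact (Bas.isOpen_annulus _ _).measurableSet
  have hres : ∀ n, (volume.restrict (An c)).restrict (A n) = volume.restrict (A n) := by
    intro n
    rw [Measure.restrict_restrict (Bas.isOpen_annulus _ _).measurableSet,
      inter_eq_left.2 (hsub n)]
  have hb1 : ∀ n : ℕ, 1 - (1 - c) / ((n : ℝ) + 3) < 1 := fun n => by linarith [hpos n]
  have hI : Integrable D (volume.restrict (An c)) := by
    refine hcov.integrable_of_integral_bounded_of_nonneg_ae
      (-∫ z in closedBall (0 : ℂ) c, D z) ?_ ?_ ?_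
    · intro n
      rw [IntegrableOn, hres]
      have h1 : IntegrableOn D (closedBall 0 (1 - (1 - c) / ((n : ℝ) + 3))) :=
        Bas.intOn_of_cont hDc (hb1 n)
      exact h1.mono_set fun z hz => mem_closedBall_zero_iff.2 hz.2.le
    · filter_upwards [ae_restrict_mem (Bas.isOpen_An c).measurableSet] with z hz
      have h1 := Real.rpow_le_rpow (norm_nonneg _) (adm_lim H z hz) hq
      simp only [hD, Dp]
      linarith
    · refine Eventually.of_forall fun n => ?_
      rw [hres]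
      exact limit_le H (by linarith [hpos n]) (hle n) (hb1 n)
  have hAn : ∫ z in An c, D z ≤ -∫ z in closedBall (0 : ℂ) c, D z := by
    refine le_of_tendsto (hcov.integral_tendsto_of_countably_generated hI) ?_
    refine Eventually.of_forall fun n => ?_
    rw [hres]
    exact limit_le H (by linarith [hpos n]) (hle n) (hb1 n)
  have hcl : IntegrableOn D (closedBall 0 c) := Bas.intOn_of_cont hDc hc1
  rw [union_eq hc1]
  refine ⟨hcl.union hI, ?_⟩
  rw [setIntegral_union disj (Bas.isOpen_An c).measurableSet hcl hI]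
  linarith

end

end LMAAux

open LMAAux in
theorem lma : S_LMA := by
  intro c q qn cn en gn kn e g k H he
  obtain ⟨h1, h2⟩ := main H
  refine ⟨f_diff H, H.dg, adm_lim H, ?_, h1, h2⟩
  obtain ⟨z₁, hz, η, hη, hg, hn⟩ := H.nt
  refine ⟨z₁, hz, ?_⟩
  have h3 : ‖g z₁ - e * k z₁‖ ≤ (1 - η * e) * ‖g z₁‖ :=
    le_of_tendsto_of_tendsto (tend_f H hz.2).norm
      ((tendsto_const_nhds.sub (tendsto_const_nhds.mul H.te)).mul (tend_g H hz.2).norm)
      (Eventually.of_forall hn)
  have h4 : 0 < ‖g z₁‖ := norm_pos_iff.2 hg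
  have h5 : 0 < η * e * ‖g z₁‖ := by positivity
  have h6 : (1 - η * e) * ‖g z₁‖ = ‖g z₁‖ - η * e * ‖g z₁‖ := by ring
  show ‖g z₁ - e * k z₁‖ < ‖g z₁‖
  linarith

end Pool.Agent.KRC
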