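import Pool.Agent.KRC.Bas

/-!
# The Korenblum constant along integer multiples: limits of bad pairs, second kind
-/

set_option autoImplicit false

namespace Pool.Agent.KRC

open Complex MeasureTheory Set Filter Topology Metric

namespace LMBAux

/-- the integrands, divided by `e_n` -/
noncomputable def Gn (qn en : ℕ → ℝ) (gn kn : ℕ → ℂ → ℂ) (n : ℕ) (z : ℂ) : ℝ :=
  (‖gn n z‖ ^ qn n - ‖gn n z - en n * kn n z‖ ^ qn n) / en n

section

variable {c q : ℝ} {qn cn en : ℕ → ℝ} {gn kn : ℕ → ℂ → ℂ} {g k : ℂ → ℂ}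

theorem tend_g (H : Conv c q qn cn en gn kn 0 g k) {z : ℂ} (hz : ‖z‖ < 1) :
    Tendsto (fun n => gn n z) atTop (𝓝 (g z)) :=
  (H.ug ‖z‖ hz).tendsto_at (mem_closedBall_zero_iff.2 le_rfl)

theorem tend_k (H : Conv c q qn cn en gn kn 0 g k) {z : ℂ} (hz : ‖z‖ < 1) :
    Tendsto (fun n => kn n z) atTop (𝓝 (k z)) :=
  (H.uk ‖z‖ hz).tendsto_at (mem_closedBall_zero_iff.2 le_rfl)

theorem tend_re (H : Conv c q qn cn en gn kn 0 g k) {z : ℂ} (hz : ‖z‖ < 1) :
    Tendsto (fun n => (kn n z * (starRingEnd ℂ) (gn n z)).re) atTop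
      (𝓝 (k z * (starRingEnd ℂ) (g z)).re) :=
  (continuous_re.tendsto _).comp
    ((tend_k H hz).mul ((continuous_conj.tendsto _).comp (tend_g H hz)))

theorem tend_G (h1 : S_PTL) (H : Conv c q qn cn en gn kn 0 g k) {z : ℂ} (hz : ‖z‖ < 1)
    (hg : g z ≠ 0) :
    Tendsto (fun n => Gn qn en gn kn n z) atTop (𝓝 (q * Ep q g k z)) :=
  h1 (fun n => gn n z) (fun n => kn n z) qn en (g z) (k z) q hg H.hq H.hqn H.hen
    (tend_g H hz) (tend_k H hz) H.tq H.te

/-- a uniform bound on smaller discs -/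
theorem bound (h2 : S_PTB) (H : Conv c q qn cn en gn kn 0 g k) {r : ℝ} (hr : r < 1) :
    ∃ M : ℝ, 0 ≤ M ∧ ∀ᶠ n in atTop, ∀ z : ℂ, ‖z‖ ≤ r → |Gn qn en gn kn n z| ≤ M := by
  obtain ⟨M1, hM1, h1⟩ := Bas.bdd H.dg.continuousOn hr
  obtain ⟨M2, hM2, h2'⟩ := Bas.bdd H.dk.continuousOn hr
  have u1 := Metric.tendstoUniformlyOn_iff.1 (H.ug r hr) 1 one_pos
  have u2 := Metric.tendstoUniformlyOn_iff.1 (H.uk r hr) 1 one_pos
  have u3 : ∀ᶠ n in atTop, qn n < q + 1 := H.tq.eventually (gt_mem_nhds (by linarith))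
  set K : ℝ := M1 + M2 + 2 with hK
  have hK1 : 1 ≤ K := by linarith
  have hq := H.hq
  refine ⟨(q + 1) * (M2 + 1) * K ^ q, by positivity, ?_⟩
  filter_upwards [u1, u2, u3] with n v1 v2 v3 z hz
  have hz' : z ∈ closedBall (0 : ℂ) r := mem_closedBall_zero_iff.2 hz
  have w1 : ‖gn n z‖ ≤ M1 + 1 := by
    have h3 := v1 z hz'
    rw [dist_eq_norm] at h3
    have h4 : ‖gn n z‖ ≤ ‖g z‖ + ‖g z - gn n z‖ := by
      calc ‖gn n z‖ = ‖g z - (g z - gn n z)‖ := by rw [sub_sub_cancel]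
        _ ≤ _ := norm_sub_le _ _
    linarith [h1 z hz]
  have w2 : ‖kn n z‖ ≤ M2 + 1 := by
    have h3 := v2 z hz'
    rw [dist_eq_norm] at h3
    have h4 : ‖kn n z‖ ≤ ‖k z‖ + ‖k z - kn n z‖ := by
      calc ‖kn n z‖ = ‖k z - (k z - kn n z)‖ := by rw [sub_sub_cancel]
        _ ≤ _ := norm_sub_le _ _
    linarith [h2' z hz]
  have hen := H.hen n
  have e1 : ‖((en n : ℝ) : ℂ) * kn n z‖ = en n * ‖kn n z‖ := by
    rw [norm_mul, Complex.norm_real, Real.norm_eq_abs, abs_of_pos hen]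
  have w3 : ‖gn n z - en n * kn n z‖ ≤ K := by
    have h3 : ‖((en n : ℝ) : ℂ) * kn n z‖ ≤ M2 + 1 := by
      rw [e1]
      calc en n * ‖kn n z‖ ≤ 1 * (M2 + 1) :=
            mul_le_mul (H.hen1 n) w2 (norm_nonneg _) zero_le_one
        _ = _ := one_mul _
    have h4 := norm_sub_le (gn n z) (en n * kn n z)
    linarith
  have w4 : ‖gn n z‖ ≤ K := by linarith
  have hqn := H.hqn n
  have h5 := h2 (gn n z) (gn n z - en n * kn n z) (qn n) K hqn w4 w3
  rw [sub_sub_cancel, e1] at h5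
  unfold Gn
  rw [abs_div, abs_of_pos hen, div_le_iff₀ hen]
  have h6 : K ^ (qn n - 1) ≤ K ^ q := Real.rpow_le_rpow_of_exponent_le hK1 (by linarith)
  have h7 : qn n * (en n * ‖kn n z‖) ≤ (q + 1) * (en n * (M2 + 1)) :=
    mul_le_mul v3.le (mul_le_mul_of_nonneg_left w2 hen.le) (by positivity) (by linarith)
  calc _ ≤ qn n * (en n * ‖kn n z‖) * K ^ (qn n - 1) := h5
    _ ≤ ((q + 1) * (en n * (M2 + 1))) * K ^ q :=
        mul_le_mul h7 h6 (by positivity) (by positivity)
    _ = _ := by ring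

theorem G_cont (H : Conv c q qn cn en gn kn 0 g k) (n : ℕ) :
    ContinuousOn (Gn qn en gn kn n) (ball 0 1) := by
  have hq := H.hqn n
  have h1 : ContinuousOn (fun z => gn n z - en n * kn n z) (ball 0 1) :=
    (H.dgn n).continuousOn.sub (continuousOn_const.mul (H.dkn n).continuousOn)
  exact ((Bas.pow_cont (H.dgn n).continuousOn (by linarith)).sub
    (Bas.pow_cont h1 (by linarith))).div_const _

theorem exne (H : Conv c q qn cn en gn kn 0 g k) : ∃ z ∈ ball (0 : ℂ) 1, g z ≠ 0 := by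
  obtain ⟨z₁, hz, η, hη, hg, hn⟩ := H.nt
  exact ⟨z₁, mem_ball_zero_iff.2 hz.2, hg⟩

/-- limits of integrals over sets in a smaller disc -/
theorem tend_left (h1 : S_PTL) (h2 : S_PTB) (H : Conv c q qn cn en gn kn 0 g k) {a b : ℝ}
    (hb : b < 1) :
    Tendsto (fun n => ∫ z in {z : ℂ | a < ‖z‖ ∧ ‖z‖ < b}, Gn qn en gn kn n z) atTop
      (𝓝 (∫ z in {z : ℂ | a < ‖z‖ ∧ ‖z‖ < b}, q * Ep q g k z)) := by
  obtain ⟨M, hM0, hM⟩ := bound h2 H hb
  have hmeas : MeasurableSet {z : ℂ | a < ‖z‖ ∧ ‖z‖ < b} := (Bas.isOpen_annulus a b).measurableSet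
  have hsub : {z : ℂ | a < ‖z‖ ∧ ‖z‖ < b} ⊆ closedBall (0 : ℂ) b :=
    fun z hz => mem_closedBall_zero_iff.2 hz.2.le
  have hsub1 : {z : ℂ | a < ‖z‖ ∧ ‖z‖ < b} ⊆ ball (0 : ℂ) 1 := Bas.annulus_sub hb.le
  refine tendsto_integral_filter_of_dominated_convergence (fun _ => M) ?_ ?_ ?_ ?_
  · exact Eventually.of_forall fun n =>
      ((G_cont H n).mono hsub1).aestronglyMeasurable hmeas
  · filter_upwards [hM] with n hn
    filter_upwards [ae_restrict_mem hmeas] with z hz
    exact hn z hz.2.le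
  · exact (integrableOn_const measure_closedBall_lt_top.ne).mono_set hsub
  · filter_upwards [ae_restrict_mem hmeas, Bas.ae_ne H.dg (exne H) hsub1] with z hz hgz
    exact tend_G h1 H (hz.2.trans hb) hgz

theorem tend_right (h1 : S_PTL) (h2 : S_PTB) (H : Conv c q qn cn en gn kn 0 g k) :
    Tendsto (fun n => ∫ z in closedBall (0 : ℂ) (cn n), Gn qn en gn kn n z) atTop
      (𝓝 (∫ z in closedBall (0 : ℂ) c, q * Ep q g k z)) := by
  have hc1 := H.hc1
  set r : ℝ := (1 + c) / 2 with hr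
  have hcr : c < r := by linarith
  have hr1 : r < 1 := by linarith
  obtain ⟨M, hM0, hM⟩ := bound h2 H hr1
  have e1 : ∫ z in closedBall (0 : ℂ) c, q * Ep q g k z =
      ∫ z in closedBall (0 : ℂ) r, (closedBall (0 : ℂ) c).indicator
        (fun z => q * Ep q g k z) z := by
    rw [setIntegral_indicator measurableSet_closedBall,
      inter_eq_right.2 (closedBall_subset_closedBall hcr.le)]
  have e2 : ∀ᶠ n in atTop, ∫ z in closedBall (0 : ℂ) r, (closedBall (0 : ℂ) (cn n)).indicator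
      (Gn qn en gn kn n) z = ∫ z in closedBall (0 : ℂ) (cn n), Gn qn en gn kn n z := by
    filter_upwards [H.tc.eventually (gt_mem_nhds hcr)] with n hn
    rw [setIntegral_indicator measurableSet_closedBall,
      inter_eq_right.2 (closedBall_subset_closedBall hn.le)]
  rw [e1]
  refine Tendsto.congr' e2 ?_
  refine tendsto_integral_filter_of_dominated_convergence (fun _ => M) ?_ ?_ ?_ ?_
  · refine Eventually.of_forall fun n => ?_
    exact (((G_cont H n).mono (Bas.closedBall_sub hr1)).aestronglyMeasurable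
      measurableSet_closedBall).indicator measurableSet_closedBall
  · filter_upwards [hM] with n hn
    filter_upwards [ae_restrict_mem measurableSet_closedBall] with z hz
    refine (norm_indicator_le_norm_self _ _).trans ?_
    exact hn z (mem_closedBall_zero_iff.1 hz)
  · exact integrableOn_const measure_closedBall_lt_top.ne
  · have hs : volume (sphere (0 : ℂ) c) = 0 := Measure.addHaar_sphere _ _ _
    have hae : ∀ᵐ z ∂(volume.restrict (closedBall (0 : ℂ) r)), ‖z‖ ≠ c := by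
      refine ae_restrict_of_ae ?_
      have hset : {z : ℂ | ¬ ‖z‖ ≠ c} = sphere (0 : ℂ) c := by
        ext z
        simp
      rw [ae_iff, hset]
      exact hs
    filter_upwards [ae_restrict_mem measurableSet_closedBall, hae,
      Bas.ae_ne H.dg (exne H) (Bas.closedBall_sub hr1)] with z hz hzc hgz
    have hz1 : ‖z‖ < 1 := (mem_closedBall_zero_iff.1 hz).trans_lt hr1
    rcases lt_or_gt_of_ne hzc with h | h
    · rw [indicator_of_mem (mem_closedBall_zero_iff.2 h.le)]
      refine (tend_G h1 H hz1 hgz).congr' ?_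
      filter_upwards [H.tc.eventually (lt_mem_nhds h)] with n hn
      rw [indicator_of_mem (mem_closedBall_zero_iff.2 hn.le)]
    · rw [indicator_of_notMem (fun h' => absurd (mem_closedBall_zero_iff.1 h') (not_le.2 h))]
      apply tendsto_const_nhds.congr'
      filter_upwards [H.tc.eventually (gt_mem_nhds h)] with n hn
      rw [indicator_of_notMem (fun h' => absurd (mem_closedBall_zero_iff.1 h') (not_le.2 hn))]

/-- the limit inequality -/
theorem limit_le (h1 : S_PTL) (h2 : S_PTB) (H : Conv c q qn cn en gn kn 0 g k) {a b : ℝ}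
    (hca : c < a) (hab : a ≤ b) (hb : b < 1) :
    ∫ z in {z : ℂ | a < ‖z‖ ∧ ‖z‖ < b}, Ep q g k z ≤ -∫ z in closedBall (0 : ℂ) c, Ep q g k z := by
  have hq : 0 < q := by linarith [H.hq]
  have h0 : ∫ z in {z : ℂ | a < ‖z‖ ∧ ‖z‖ < b}, q * Ep q g k z ≤
      -∫ z in closedBall (0 : ℂ) c, q * Ep q g k z := by
    refine le_of_tendsto_of_tendsto (tend_left h1 h2 H (a := a) hb) (tend_right h1 h2 H).neg ?_
    filter_upwards [H.tc.eventually (gt_mem_nhds hca)] with n hn
    have h3 := H.bad n a b hn.le hab hb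
    have hen := H.hen n
    have e1 : ∀ s : Set ℂ, ∫ z in s, Gn qn en gn kn n z =
        (∫ z in s, (‖gn n z‖ ^ qn n - ‖gn n z - en n * kn n z‖ ^ qn n)) / en n := by
      intro s
      rw [← integral_div]
      rfl
    have e2 : ∫ z in closedBall (0 : ℂ) (cn n),
        (‖gn n z - en n * kn n z‖ ^ qn n - ‖gn n z‖ ^ qn n) =
        -∫ z in closedBall (0 : ℂ) (cn n),
          (‖gn n z‖ ^ qn n - ‖gn n z - en n * kn n z‖ ^ qn n) := by
      rw [← integral_neg]
      congr 1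
      funext z
      ring
    rw [e2] at h3
    rw [e1, e1, ← neg_div]
    exact div_le_div_of_nonneg_right h3 hen.le
  rw [integral_const_mul, integral_const_mul] at h0
  have h4 : q * ∫ z in {z : ℂ | a < ‖z‖ ∧ ‖z‖ < b}, Ep q g k z ≤
      q * -∫ z in closedBall (0 : ℂ) c, Ep q g k z := by linarith
  exact le_of_mul_le_mul_left h4 hq

theorem adm_lim (H : Conv c q qn cn en gn kn 0 g k) :
    ∀ z ∈ An c, 0 ≤ (k z * (starRingEnd ℂ) (g z)).re := by
  intro z hz
  refine ge_of_tendsto (tend_re H hz.2) ?_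
  filter_upwards [H.tc.eventually (gt_mem_nhds hz.1)] with n hn
  have h1 := H.adm n z ⟨hn, hz.2⟩
  have hen := H.hen n
  have h2 : ‖gn n z - en n * kn n z‖ ^ 2 ≤ ‖gn n z‖ ^ 2 :=
    pow_le_pow_left₀ (norm_nonneg _) h1 2
  rw [Bas.sq_sub] at h2
  have h3 : 0 ≤ en n ^ 2 * ‖kn n z‖ ^ 2 := by positivity
  have h4 : 0 ≤ (2 * en n) * (kn n z * (starRingEnd ℂ) (gn n z)).re := by linarith
  exact nonneg_of_mul_nonneg_right h4 (by positivity)

theorem union_eq (hc : c < 1) : ball (0 : ℂ) 1 = closedBall 0 c ∪ An c := by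
  ext z
  simp only [mem_ball_zero_iff, mem_union, mem_closedBall_zero_iff, An, mem_ofPred_eq]
  constructor
  · intro h
    rcases le_or_gt ‖z‖ c with h1 | h1
    · exact Or.inl h1
    · exact Or.inr ⟨h1, h⟩
  · rintro (h | h)
    · exact h.trans_lt hc
    · exact h.2

theorem disj : Disjoint (closedBall (0 : ℂ) c) (An c) := by
  rw [Set.disjoint_left]
  intro z h1 h2
  exact absurd (mem_closedBall_zero_iff.1 h1) (not_le.2 h2.1)

theorem main (p1 : S_PTL) (p2 : S_PTB) (H : Conv c q qn cn en gn kn 0 g k) :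
    IntegrableOn (Ep q g k) (ball 0 1) ∧ ∫ z in ball (0 : ℂ) 1, Ep q g k z ≤ 0 := by
  have hc1 := H.hc1
  set D := Ep q g k with hD
  set A : ℕ → Set ℂ := fun n => {z : ℂ | c + (1 - c) / (n + 3) < ‖z‖ ∧
    ‖z‖ < 1 - (1 - c) / (n + 3)} with hA
  have hpos : ∀ n : ℕ, 0 < (1 - c) / ((n : ℝ) + 3) := by
    intro n
    have : 0 < 1 - c := by linarith
    positivity
  have hle : ∀ n : ℕ, c + (1 - c) / ((n : ℝ) + 3) ≤ 1 - (1 - c) / ((n : ℝ) + 3) := by
    intro n
    have h1 : (1 - c) / ((n : ℝ) + 3) ≤ (1 - c) / 2 := by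
      apply div_le_div_of_nonneg_left (by linarith) (by norm_num)
      have : (0 : ℝ) ≤ n := Nat.cast_nonneg n
      linarith
    linarith
  have hlim : Tendsto (fun n : ℕ => (1 - c) / ((n : ℝ) + 3)) atTop (𝓝 0) :=
    tendsto_const_nhds.div_atTop
      (tendsto_atTop_add_const_right _ _ tendsto_natCast_atTop_atTop)
  have hsub : ∀ n, A n ⊆ An c := fun n z hz =>
    ⟨by linarith [hz.1, hpos n], by linarith [hz.2, hpos n]⟩
  have hcov : AECover (volume.restrict (An c)) atTop A := by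
    constructor
    · filter_upwards [ae_restrict_mem (Bas.isOpen_An c).measurableSet] with z hz
      have h1 : ∀ᶠ n : ℕ in atTop, (1 - c) / ((n : ℝ) + 3) < ‖z‖ - c :=
        hlim.eventually (gt_mem_nhds (by linarith [hz.1]))
      have h2 : ∀ᶠ n : ℕ in atTop, (1 - c) / ((n : ℝ) + 3) < 1 - ‖z‖ :=
        hlim.eventually (gt_mem_nhds (by linarith [hz.2]))
      filter_upwards [h1, h2] with n h3 h4
      exact ⟨by linarith, by linarith⟩
    · intro n
      exact (Bas.isOpen_annulus _ _).measurableSet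
  have hres : ∀ n, (volume.restrict (An c)).restrict (A n) = volume.restrict (A n) := by
    intro n
    rw [Measure.restrict_restrict (Bas.isOpen_annulus _ _).measurableSet,
      inter_eq_left.2 (hsub n)]
  have hb1 : ∀ n : ℕ, 1 - (1 - c) / ((n : ℝ) + 3) < 1 := fun n => by linarith [hpos n]
  have hI : Integrable D (volume.restrict (An c)) := by
    refine hcov.integrable_of_integral_bounded_of_nonneg_ae
      (-∫ z in closedBall (0 : ℂ) c, D z) ?_ ?_ ?_
    · intro n
      rw [IntegrableOn, hres]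
      have h1 : IntegrableOn D (closedBall 0 (1 - (1 - c) / ((n : ℝ) + 3))) :=
        Bas.Ep_intOn H.dg.continuousOn H.dk.continuousOn H.hq (hb1 n)
      exact h1.mono_set fun z hz => mem_closedBall_zero_iff.2 hz.2.le
    · filter_upwards [ae_restrict_mem (Bas.isOpen_An c).measurableSet] with z hz
      have h1 := adm_lim H z hz
      simp only [hD, Ep]
      exact mul_nonneg (Real.rpow_nonneg (norm_nonneg _) _) h1
    · refine Eventually.of_forall fun n => ?_
      rw [hres]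
      exact limit_le p1 p2 H (by linarith [hpos n]) (hle n) (hb1 n)
  have hAn : ∫ z in An c, D z ≤ -∫ z in closedBall (0 : ℂ) c, D z := by
    refine le_of_tendsto (hcov.integral_tendsto_of_countably_generated hI) ?_
    refine Eventually.of_forall fun n => ?_
    rw [hres]
    exact limit_le p1 p2 H (by linarith [hpos n]) (hle n) (hb1 n)
  have hcl : IntegrableOn D (closedBall 0 c) :=
    Bas.Ep_intOn H.dg.continuousOn H.dk.continuousOn H.hq hc1
  rw [union_eq hc1]
  refine ⟨hcl.union hI, ?_⟩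
  rw [setIntegral_union disj (Bas.isOpen_An c).measurableSet hcl hI]
  linarith

end

end LMBAux

open LMBAux in
theorem lmb (h1 : S_PTL) (h2 : S_PTB) : S_LMB := by
  intro c q qn cn en gn kn g k H
  obtain ⟨m1, m2⟩ := main h1 h2 H
  refine ⟨H.dg, H.dk, adm_lim H, ?_, m1, m2⟩
  obtain ⟨z₁, hz, η, hη, hg, hn⟩ := H.nt
  refine ⟨z₁, hz, ?_⟩
  have h3 : η * ‖g z₁‖ ^ 2 ≤ (k z₁ * (starRingEnd ℂ) (g z₁)).re := by
    refine le_of_tendsto_of_tendsto (((tend_g H hz.2).norm.pow 2).const_mul η)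
      (tend_re H hz.2) (Eventually.of_forall fun n => ?_)
    have hen := H.hen n
    have h4 := hn n
    have h5 : ((gn n z₁ - en n * kn n z₁) * (starRingEnd ℂ) (gn n z₁)).re ≤
        ‖gn n z₁ - en n * kn n z₁‖ * ‖gn n z₁‖ := by
      refine (re_le_norm _).trans ?_
      rw [norm_mul, RCLike.norm_conj]
    have h6 : ((gn n z₁ - en n * kn n z₁) * (starRingEnd ℂ) (gn n z₁)).re =
        ‖gn n z₁‖ ^ 2 - en n * (kn n z₁ * (starRingEnd ℂ) (gn n z₁)).re := by
      rw [sub_mul, sub_re, mul_conj, ofReal_re, normSq_eq_norm_sq, mul_assoc, re_ofReal_mul]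
    have h7 : ‖gn n z₁ - en n * kn n z₁‖ * ‖gn n z₁‖ ≤
        (1 - η * en n) * ‖gn n z₁‖ * ‖gn n z₁‖ :=
      mul_le_mul_of_nonneg_right h4 (norm_nonneg _)
    have h8 : en n * (η * ‖gn n z₁‖ ^ 2) ≤ en n * (kn n z₁ * (starRingEnd ℂ) (gn n z₁)).re := by
      nlinarith
    exact le_of_mul_le_mul_left h8 hen
  have h9 : 0 < ‖g z₁‖ := norm_pos_iff.2 hg
  have h10 : 0 < η * ‖g z₁‖ ^ 2 := by positivity
  linarith

end Pool.Agent.KRC
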