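import Pool.Agent.KRC.Bas

/-!
# The inequality for test functions (module KRC_LMR, helper15)
-/

set_option autoImplicit false

namespace Pool.Agent.KRC

open Complex MeasureTheory Set Filter Topology Metric
open Pool.Agent.KRB (KP)

namespace LMRAux

open Bas

lemma poly_bd (P : Polynomial ℂ) : ∃ M : ℝ, 0 ≤ M ∧ ∀ z : ℂ, ‖z‖ ≤ 1 → ‖P.eval z‖ ≤ M := by
  obtain ⟨M, hM⟩ := (isCompact_closedBall (0 : ℂ) 1).exists_bound_of_continuousOn
    P.continuous.continuousOn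
  exact ⟨max M 0, le_max_right _ _, fun z hz =>
    (hM z (mem_closedBall_zero_iff.2 hz)).trans (le_max_left _ _)⟩

lemma poly_lip (P : Polynomial ℂ) : ∃ L : ℝ, 0 ≤ L ∧ ∀ z w : ℂ, ‖z‖ ≤ 1 → ‖w‖ ≤ 1 →
    ‖P.eval z - P.eval w‖ ≤ L * ‖z - w‖ := by
  obtain ⟨L, hL0, hL⟩ := poly_bd P.derivative
  refine ⟨L, hL0, fun z w hz hw => ?_⟩
  refine Convex.norm_image_sub_le_of_norm_hasDerivWithin_le
    (f := fun x => P.eval x) (f' := fun x => P.derivative.eval x) (s := closedBall (0 : ℂ) 1)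
    (fun x _ => (P.hasDerivAt x).hasDerivWithinAt)
    (fun x hx => hL x (mem_closedBall_zero_iff.1 hx)) (convex_closedBall _ _)
    (mem_closedBall_zero_iff.2 hw) (mem_closedBall_zero_iff.2 hz)

lemma poly_inv (P : Polynomial ℂ) {κ κ₁ : ℝ} (hκ : κ < κ₁)
    (hne : ∀ z : ℂ, κ < ‖z‖ → P.eval z ≠ 0) :
    ∃ M : ℝ, 0 ≤ M ∧ ∀ z : ℂ, κ₁ ≤ ‖z‖ → ‖z‖ ≤ 1 → ‖(P.eval z)⁻¹‖ ≤ M := by
  have hK : IsCompact (closedBall (0 : ℂ) 1 ∩ {z : ℂ | κ₁ ≤ ‖z‖}) :=
    (isCompact_closedBall (0 : ℂ) 1).inter_right (isClosed_le continuous_const continuous_norm)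
  obtain ⟨M, hM⟩ := hK.exists_bound_of_continuousOn (f := fun z => (P.eval z)⁻¹)
    (P.continuous.continuousOn.inv₀ fun z hz => hne z (hκ.trans_le hz.2))
  exact ⟨max M 0, le_max_right _ _, fun z hz hz1 =>
    (hM z ⟨mem_closedBall_zero_iff.2 hz1, hz⟩).trans (le_max_left _ _)⟩

lemma quot_lip (P N : Polynomial ℂ) {κ κ₁ : ℝ} (hκ : κ < κ₁)
    (hne : ∀ z : ℂ, κ < ‖z‖ → P.eval z ≠ 0) :
    ∃ L : ℝ, 0 ≤ L ∧ ∀ z w : ℂ, κ₁ ≤ ‖z‖ → ‖z‖ ≤ 1 → κ₁ ≤ ‖w‖ → ‖w‖ ≤ 1 →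
      ‖N.eval z / P.eval z - N.eval w / P.eval w‖ ≤ L * ‖z - w‖ := by
  obtain ⟨M, hM0, hM⟩ := poly_inv P hκ hne
  obtain ⟨LP, hLP0, hLP⟩ := poly_lip P
  obtain ⟨LN, hLN0, hLN⟩ := poly_lip N
  obtain ⟨BP, hBP0, hBP⟩ := poly_bd P
  obtain ⟨BN, hBN0, hBN⟩ := poly_bd N
  refine ⟨(LN * BP + BN * LP) * (M * M), by positivity, fun z w hz hz1 hw hw1 => ?_⟩
  have hPz := hne z (hκ.trans_le hz)
  have hPw := hne w (hκ.trans_le hw)
  have e : N.eval z / P.eval z - N.eval w / P.eval w =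
      ((N.eval z - N.eval w) * P.eval w - N.eval w * (P.eval z - P.eval w)) *
        ((P.eval z)⁻¹ * (P.eval w)⁻¹) := by
    field_simp
    ring
  rw [e, norm_mul, norm_mul]
  have h1 : ‖(N.eval z - N.eval w) * P.eval w - N.eval w * (P.eval z - P.eval w)‖ ≤
      (LN * BP + BN * LP) * ‖z - w‖ := by
    refine (norm_sub_le _ _).trans ?_
    rw [norm_mul, norm_mul]
    have a1 := mul_le_mul (hLN z w hz1 hw1) (hBP w hw1) (norm_nonneg _) (by positivity)
    have a2 := mul_le_mul (hBN w hw1) (hLP z w hz1 hw1) (norm_nonneg _) hBN0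
    nlinarith
  have h2 : ‖(P.eval z)⁻¹‖ * ‖(P.eval w)⁻¹‖ ≤ M * M :=
    mul_le_mul (hM z hz hz1) (hM w hw hw1) (norm_nonneg _) hM0
  calc _ ≤ ((LN * BP + BN * LP) * ‖z - w‖) * (M * M) :=
        mul_le_mul h1 h2 (by positivity) (by positivity)
    _ = _ := by ring

/-- the integrand of `Ep` as a function of two numbers -/
lemma pair_eq {p : ℝ} {a b c : ℂ} (ha : a ≠ 0) (hb : b ≠ 0) :
    ‖a * b‖ ^ (p - 2) * ((a * c) * (starRingEnd ℂ) (a * b)).re =
      (‖a‖ * ‖b‖) ^ p * (c / b).re := by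
  have ha' : 0 < ‖a‖ := norm_pos_iff.2 ha
  have hb' : 0 < ‖b‖ := norm_pos_iff.2 hb
  have e1 : ((a * c) * (starRingEnd ℂ) (a * b)).re = ‖a‖ ^ 2 * (c * (starRingEnd ℂ) b).re := by
    have : (a * c) * (starRingEnd ℂ) (a * b) = ((‖a‖ ^ 2 : ℝ) : ℂ) * (c * (starRingEnd ℂ) b) := by
      rw [map_mul, ← normSq_eq_norm_sq, normSq_eq_conj_mul_self]
      ring
    rw [this, re_ofReal_mul]
  have e2 : (c / b).re = (c * (starRingEnd ℂ) b).re / ‖b‖ ^ 2 := by
    rw [div_eq_mul_inv, inv_def, ← mul_assoc, re_mul_ofReal, normSq_eq_norm_sq, div_eq_mul_inv]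
  have e3 : (‖a‖ * ‖b‖) ^ p = (‖a‖ * ‖b‖) ^ (p - 2) * (‖a‖ * ‖b‖) ^ 2 := by
    rw [← Real.rpow_natCast (‖a‖ * ‖b‖) 2, ← Real.rpow_add (by positivity)]
    congr 1
    push_cast
    ring
  rw [e1, e2, e3, norm_mul]
  field_simp

/-- the bound near the circle -/
lemma reg2 {p : ℝ} {m : ℕ} (hp : 1 ≤ p) (hm : 2 ≤ m) {H g₀ g k h Pz Nz Pw Nw : ℂ}
    {C r nw M CP C' L : ℝ} (hg : g = Pw * g₀) (hk : k = g₀ * (Nw + Pw * h)) (hPz : Pz ≠ 0)
    (hPw : Pw ≠ 0) (hM0 : 0 ≤ M) (hM : ‖Pw⁻¹‖ ≤ M) (hCP0 : 0 ≤ CP) (hCP : ‖Pz‖ ≤ CP)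
    (hC'0 : 0 ≤ C') (hC' : ‖H‖ ≤ C' * ‖g‖ ^ (m - 1)) (hC : 0 ≤ C) (hL0 : 0 ≤ L)
    (hL : ‖Nz / Pz - Nw / Pw‖ ≤ L * (1 - r))
    (hnn : 0 ≤ ((Nz + Pz * (h + C * (1 - r))) * (starRingEnd ℂ) Pz).re) (hr : nw ≤ r)
    (hkg : 0 ≤ (k * (starRingEnd ℂ) g).re) (hnw : nw ≤ 1) :
    |‖H * g₀ * Pz‖ ^ (p - 2) *
      ((H * g₀ * (Nz + Pz * (h + C * (1 - r)))) * (starRingEnd ℂ) (H * g₀ * Pz)).re| ≤
    (CP * M * C') ^ p * (‖g‖ ^ (m * p - 2) * (k * (starRingEnd ℂ) g).re +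
      (L + C) * ((1 - nw) * ‖g‖ ^ (m * p))) := by
  have hrhs : 0 ≤ (CP * M * C') ^ p * (‖g‖ ^ (m * p - 2) * (k * (starRingEnd ℂ) g).re +
      (L + C) * ((1 - nw) * ‖g‖ ^ (m * p))) := by
    have : 0 ≤ 1 - nw := by linarith
    positivity
  by_cases ha : H * g₀ = 0
  · rw [ha]
    simpa using hrhs
  have hg₀ : g₀ ≠ 0 := right_ne_zero_of_mul ha
  have hgne : g ≠ 0 := by rw [hg]; exact mul_ne_zero hPw hg₀
  have hg' : 0 < ‖g‖ := norm_pos_iff.2 hgne
  rw [pair_eq ha hPz]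
  have e0 : ((Nz + Pz * (h + C * (1 - r))) / Pz).re =
      ((Nz + Pz * (h + C * (1 - r))) * (starRingEnd ℂ) Pz).re / ‖Pz‖ ^ 2 := by
    rw [div_eq_mul_inv, inv_def, ← mul_assoc, re_mul_ofReal, normSq_eq_norm_sq, div_eq_mul_inv]
  have hc0 : 0 ≤ ((Nz + Pz * (h + C * (1 - r))) / Pz).re := by
    rw [e0]; positivity
  rw [abs_of_nonneg (by positivity)]
  have e1 : (Nz + Pz * (h + C * (1 - r))) / Pz = (Nz / Pz - Nw / Pw) + k / g +
      ((C * (1 - r) : ℝ) : ℂ) := by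
    rw [hg, hk]
    push_cast
    field_simp
    ring
  have e2 : (k / g).re = (k * (starRingEnd ℂ) g).re / ‖g‖ ^ 2 := by
    rw [div_eq_mul_inv, inv_def, ← mul_assoc, re_mul_ofReal, normSq_eq_norm_sq, div_eq_mul_inv]
  have h1 : ((Nz + Pz * (h + C * (1 - r))) / Pz).re ≤
      (k * (starRingEnd ℂ) g).re / ‖g‖ ^ 2 + (L + C) * (1 - nw) := by
    rw [e1, add_re, add_re, e2, ofReal_re]
    have a1 := (le_abs_self _).trans ((abs_re_le_norm (Nz / Pz - Nw / Pw)).trans hL)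
    have a2 : (L + C) * (1 - r) ≤ (L + C) * (1 - nw) :=
      mul_le_mul_of_nonneg_left (by linarith) (by linarith)
    nlinarith
  have h2 : ‖H * g₀‖ * ‖Pz‖ ≤ (CP * M * C') * ‖g‖ ^ m := by
    have b1 : ‖g₀‖ ≤ M * ‖g‖ := by
      have : g₀ = Pw⁻¹ * g := by rw [hg]; field_simp
      rw [this, norm_mul]
      exact (mul_le_mul_of_nonneg_right hM (norm_nonneg _))
    have b2 : ‖g‖ ^ m = ‖g‖ ^ (m - 1) * ‖g‖ := by
      rw [← pow_succ]
      congr 1
      omega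
    rw [norm_mul, b2]
    calc ‖H‖ * ‖g₀‖ * ‖Pz‖ ≤ (C' * ‖g‖ ^ (m - 1)) * (M * ‖g‖) * CP := by
          refine mul_le_mul (mul_le_mul hC' b1 (norm_nonneg _) (by positivity)) hCP
            (norm_nonneg _) (by positivity)
      _ = _ := by ring
  have h3 : (‖H * g₀‖ * ‖Pz‖) ^ p ≤ (CP * M * C') ^ p * ‖g‖ ^ (m * p) := by
    have b3 : ‖g‖ ^ ((m : ℝ) * p) = (‖g‖ ^ m) ^ p := by
      rw [Real.rpow_mul hg'.le, Real.rpow_natCast]
    rw [b3, ← Real.mul_rpow (by positivity) (by positivity)]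
    exact Real.rpow_le_rpow (by positivity) h2 (by linarith)
  have e4 : ‖g‖ ^ ((m : ℝ) * p) = ‖g‖ ^ ((m : ℝ) * p - 2) * ‖g‖ ^ 2 := by
    rw [← Real.rpow_natCast ‖g‖ 2, ← Real.rpow_add hg']
    congr 1
    push_cast
    ring
  calc (‖H * g₀‖ * ‖Pz‖) ^ p * ((Nz + Pz * (h + C * (1 - r))) / Pz).re
      ≤ ((CP * M * C') ^ p * ‖g‖ ^ (m * p)) *
        ((k * (starRingEnd ℂ) g).re / ‖g‖ ^ 2 + (L + C) * (1 - nw)) :=
        mul_le_mul h3 h1 hc0 (by positivity)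
    _ = _ := by
        rw [e4]
        field_simp

/-- the pointwise limit -/
lemma lim_eq {p : ℝ} (hp : 1 ≤ p) {H g₀ g k h Pw Nw : ℂ} (hg : g = Pw * g₀)
    (hk : k = g₀ * (Nw + Pw * h)) (hgne : g ≠ 0) {G K : ℕ → ℂ}
    (hG : Tendsto G atTop (𝓝 (H * g₀ * Pw))) (hK : Tendsto K atTop (𝓝 (H * g₀ * (Nw + Pw * h))))
    (h0 : H = 0 → ∀ n, G n = 0) :
    Tendsto (fun n => ‖G n‖ ^ (p - 2) * (K n * (starRingEnd ℂ) (G n)).re) atTop
      (𝓝 (‖H‖ ^ p * (‖g‖ ^ (p - 2) * (k * (starRingEnd ℂ) g).re))) := by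
  have hg' : 0 < ‖g‖ := norm_pos_iff.2 hgne
  by_cases hH : H = 0
  · have : (fun n => ‖G n‖ ^ (p - 2) * (K n * (starRingEnd ℂ) (G n)).re) = fun _ => (0 : ℝ) := by
      funext n
      rw [h0 hH n]
      simp
    rw [this, hH, norm_zero, Real.zero_rpow (by linarith), zero_mul]
    exact tendsto_const_nhds
  · have hH' : 0 < ‖H‖ := norm_pos_iff.2 hH
    have hG0 : H * g₀ * Pw = H * g := by rw [hg]; ring
    have hK0 : H * g₀ * (Nw + Pw * h) = H * k := by rw [hk]; ring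
    rw [hG0] at hG
    rw [hK0] at hK
    have hne : ‖H * g‖ ≠ 0 := norm_ne_zero_iff.2 (mul_ne_zero hH hgne)
    have t1 : Tendsto (fun n => ‖G n‖ ^ (p - 2)) atTop (𝓝 (‖H * g‖ ^ (p - 2))) :=
      hG.norm.rpow_const (Or.inl hne)
    have t2 : Tendsto (fun n => (K n * (starRingEnd ℂ) (G n)).re) atTop
        (𝓝 ((H * k) * (starRingEnd ℂ) (H * g)).re) :=
      (continuous_re.tendsto _).comp (hK.mul ((continuous_conj.tendsto _).comp hG))
    have t3 := t1.mul t2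
    have e1 : ((H * k) * (starRingEnd ℂ) (H * g)).re = ‖H‖ ^ 2 * (k * (starRingEnd ℂ) g).re := by
      have : (H * k) * (starRingEnd ℂ) (H * g) =
          ((‖H‖ ^ 2 : ℝ) : ℂ) * (k * (starRingEnd ℂ) g) := by
        rw [map_mul, ← normSq_eq_norm_sq, normSq_eq_conj_mul_self]
        ring
      rw [this, re_ofReal_mul]
    have e2 : ‖H * g‖ ^ (p - 2) * (‖H‖ ^ 2 * (k * (starRingEnd ℂ) g).re) =
        ‖H‖ ^ p * (‖g‖ ^ (p - 2) * (k * (starRingEnd ℂ) g).re) := by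
      have e3 : ‖H‖ ^ p = ‖H‖ ^ (p - 2) * ‖H‖ ^ 2 := by
        rw [← Real.rpow_natCast ‖H‖ 2, ← Real.rpow_add hH']
        congr 1
        push_cast
        ring
      rw [norm_mul, Real.mul_rpow hH'.le hg'.le, e3]
      ring
    rw [e1, e2] at t3
    exact t3

end LMRAux

open LMRAux Bas in
theorem lmr (hL : S_LIN) (hR : S_RG) (hW : S_WT) : S_LMR := by
  intro p κ m g k P N g₀ h₀ hp hm hκ0 hκ1 hKP hB hF ρ s hρ0 hρ1
  obtain ⟨C, r₀, hC0, hr₀, hRG⟩ := hR κ g k P N g₀ h₀ hκ0 hκ1 hF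
  have hm1 : (2 : ℝ) ≤ m := by exact_mod_cast hm
  have hmp : 1 ≤ (m : ℝ) * p := by nlinarith
  have hWT := hW.2 κ (m * p) g k hκ0 hκ1 hmp hB
  have hgne : ∃ z ∈ ball (0 : ℂ) 1, g z ≠ 0 := by
    obtain ⟨z, hz, hlt⟩ := hB.lt
    refine ⟨z, An_sub κ hz, fun h => ?_⟩
    rw [h] at hlt
    simp at hlt
  set κ₁ : ℝ := (κ + 1) / 2 with hκ₁
  have hκκ₁ : κ < κ₁ := by rw [hκ₁]; linarith
  have hκ₁1 : κ₁ < 1 := by rw [hκ₁]; linarith
  -- continuity
  have cg : ContinuousOn g (ball 0 1) := hB.dg.continuousOn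
  have ck : ContinuousOn k (ball 0 1) := hB.dk.continuousOn
  have cg₀ : ContinuousOn g₀ (ball 0 1) := hF.dg.continuousOn
  have ch₀ : ContinuousOn h₀ (ball 0 1) := hF.dh.continuousOn
  have dhρ : DifferentiableOn ℂ (fun z => h₀ (ρ * z)) (ball 0 1) := by
    refine hF.dh.comp ((differentiable_id.const_mul (ρ : ℂ)).differentiableOn) fun z hz => ?_
    rw [mem_ball_zero_iff] at hz ⊢
    rw [norm_mul, norm_real, Real.norm_eq_abs, abs_of_pos hρ0]
    nlinarith [norm_nonneg z]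
  have dph : DifferentiableOn ℂ (ph P N g₀ h₀ ρ) (ball 0 1) :=
    hF.dg.mul (N.differentiable.differentiableOn.add (P.differentiable.differentiableOn.mul dhρ))
  set H : ℂ → ℂ := fun z => g z ^ (m - 2) * (g z - s * ph P N g₀ h₀ ρ z) with hH
  have dH : DifferentiableOn ℂ H (ball 0 1) :=
    (hB.dg.pow _).mul (hB.dg.sub (dph.const_mul _))
  have cH : ContinuousOn H (ball 0 1) := dH.continuousOn
  -- constants
  obtain ⟨BP, hBP0, hBP⟩ := poly_bd P
  obtain ⟨BN, hBN0, hBN⟩ := poly_bd N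
  obtain ⟨M, hM0, hM⟩ := poly_inv P hκκ₁ hF.ne
  obtain ⟨L, hL0, hLip⟩ := quot_lip P N hκκ₁ hF.ne
  obtain ⟨BH, hBH0, hBH⟩ := bdd cH hκ₁1
  obtain ⟨Bg, hBg0, hBg⟩ := bdd cg₀ hκ₁1
  obtain ⟨Bh, hBh0, hBh⟩ := bdd ch₀ hκ₁1
  obtain ⟨Bρ, hBρ0, hBρ⟩ := bdd ch₀ hρ1
  -- the bound for H near the circle
  set C' : ℝ := 1 + |s| * (M * BN + Bρ) with hC'
  have hC'0 : 0 ≤ C' := by rw [hC']; positivity
  have hHle : ∀ w : ℂ, κ₁ ≤ ‖w‖ → ‖w‖ < 1 → ‖H w‖ ≤ C' * ‖g w‖ ^ (m - 1) := by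
    intro w hw hw1
    have hwb : w ∈ ball (0 : ℂ) 1 := mem_ball_zero_iff.2 hw1
    have hPw := hF.ne w (hκκ₁.trans_le hw)
    have e1 : ph P N g₀ h₀ ρ w = g w * ((P.eval w)⁻¹ * N.eval w + h₀ (ρ * w)) := by
      rw [ph, hF.eg w hwb]
      field_simp
    have a1 : ‖h₀ (ρ * w)‖ ≤ Bρ := by
      refine hBρ _ ?_
      rw [norm_mul, norm_real, Real.norm_eq_abs, abs_of_pos hρ0]
      nlinarith [norm_nonneg w]
    have a2 : ‖(P.eval w)⁻¹ * N.eval w + h₀ (ρ * w)‖ ≤ M * BN + Bρ := by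
      refine (norm_add_le _ _).trans (add_le_add ?_ a1)
      rw [norm_mul]
      exact mul_le_mul (hM w hw hw1.le) (hBN w hw1.le) (norm_nonneg _) hM0
    have a3 : ‖g w - s * ph P N g₀ h₀ ρ w‖ ≤ C' * ‖g w‖ := by
      rw [e1]
      refine (norm_sub_le _ _).trans ?_
      rw [norm_mul, norm_mul, norm_real, Real.norm_eq_abs, hC']
      have := mul_le_mul_of_nonneg_left a2 (mul_nonneg (abs_nonneg s) (norm_nonneg (g w)))
      nlinarith
    rw [hH]
    simp only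
    rw [norm_mul, norm_pow]
    calc ‖g w‖ ^ (m - 2) * ‖g w - s * ph P N g₀ h₀ ρ w‖ ≤ ‖g w‖ ^ (m - 2) * (C' * ‖g w‖) :=
          mul_le_mul_of_nonneg_left a3 (by positivity)
      _ = C' * (‖g w‖ ^ (m - 2) * ‖g w‖) := by ring
      _ = C' * ‖g w‖ ^ (m - 1) := by
          rw [← pow_succ]
          congr 2
          omega
  -- radii
  set R : ℝ := max r₀ (1 / 2) with hRdef
  have hR1 : R < 1 := max_lt hr₀ (by norm_num)
  have hR0 : r₀ ≤ R := le_max_left _ _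
  have hRh : 1 / 2 ≤ R := le_max_right _ _
  set r : ℕ → ℝ := fun n => 1 - (1 - R) / ((n : ℝ) + 2) with hrdef
  have hrR : ∀ n, R < r n := by
    intro n
    have h1 : (1 - R) / ((n : ℝ) + 2) < 1 - R :=
      div_lt_self (by linarith) (by have : (0 : ℝ) ≤ n := n.cast_nonneg; linarith)
    rw [hrdef]
    simp only
    linarith
  have hr1 : ∀ n, r n < 1 := by
    intro n
    have h1 : 0 < (1 - R) / ((n : ℝ) + 2) := div_pos (by linarith) (by positivity)
    rw [hrdef]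
    simp only
    linarith
  have hr0 : ∀ n, 0 < r n := fun n => by linarith [hrR n]
  have hrt : Tendsto r atTop (𝓝 1) := by
    have h1 : Tendsto (fun n : ℕ => (1 - R) / ((n : ℝ) + 2)) atTop (𝓝 0) :=
      tendsto_const_nhds.div_atTop (tendsto_atTop_add_const_right _ _ tendsto_natCast_atTop_atTop)
    have h2 := (tendsto_const_nhds (x := (1 : ℝ)) (f := (atTop : Filter ℕ))).sub h1
    simpa using h2
  have hrC : ∀ n, ((r n : ℝ) : ℂ) ≠ 0 := fun n => ofReal_ne_zero.2 (hr0 n).ne'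
  -- the pairs
  set G : ℕ → ℂ → ℂ := fun n w => H w * g₀ w * P.eval (w / (r n : ℂ)) with hG
  set K : ℕ → ℂ → ℂ := fun n w => H w * g₀ w *
    (N.eval (w / (r n : ℂ)) + P.eval (w / (r n : ℂ)) * (h₀ w + C * (1 - (r n : ℂ)))) with hK
  have dPr : ∀ (Q : Polynomial ℂ) (n : ℕ),
      DifferentiableOn ℂ (fun w : ℂ => Q.eval (w / (r n : ℂ))) (ball 0 1) := fun Q n =>
    (Q.differentiable.comp (differentiable_id.div_const _)).differentiableOn
  have dG : ∀ n, DifferentiableOn ℂ (G n) (ball 0 1) := fun n => (dH.mul hF.dg).mul (dPr P n)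
  have dK : ∀ n, DifferentiableOn ℂ (K n) (ball 0 1) := fun n =>
    (dH.mul hF.dg).mul ((dPr N n).add ((dPr P n).mul (hF.dh.add_const _)))
  have hz : ∀ (n : ℕ) (w : ℂ), ‖w / (r n : ℂ)‖ = ‖w‖ / r n := by
    intro n w
    rw [norm_div, norm_real, Real.norm_eq_abs, abs_of_pos (hr0 n)]
  have hnn : ∀ (n : ℕ) (w : ℂ), r n * κ < ‖w‖ → ‖w‖ < r n →
      0 ≤ ((N.eval (w / (r n : ℂ)) + P.eval (w / (r n : ℂ)) * (h₀ w + C * (1 - (r n : ℂ)))) *
        (starRingEnd ℂ) (P.eval (w / (r n : ℂ)))).re := by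
    intro n w h1 h2
    have h3 := hRG (r n) (hR0.trans_lt (hrR n)) (hr1 n) (w / (r n : ℂ)) (by
      refine ⟨?_, ?_⟩
      · rw [hz, lt_div_iff₀ (hr0 n)]
        linarith
      · rw [hz, div_lt_one (hr0 n)]
        exact h2)
    have e : (r n : ℂ) * (w / (r n : ℂ)) = w := by field_simp [hrC n]
    rw [e] at h3
    exact h3
  have hLn : ∀ n, 0 ≤ ∫ w in ball (0 : ℂ) (r n), Ep p (G n) (K n) w := by
    intro n
    refine hL p κ (r n) (G n) (K n) hp hKP (hr0 n) (hr1 n) (dG n) (dK n) fun w h1 h2 => ?_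
    have h3 := hnn n w h1 h2
    have e : (K n w * (starRingEnd ℂ) (G n w)).re = ‖H w * g₀ w‖ ^ 2 *
        ((N.eval (w / (r n : ℂ)) + P.eval (w / (r n : ℂ)) * (h₀ w + C * (1 - (r n : ℂ)))) *
        (starRingEnd ℂ) (P.eval (w / (r n : ℂ)))).re := by
      rw [← re_ofReal_mul, ← normSq_eq_norm_sq, normSq_eq_conj_mul_self, hK, hG]
      simp only [map_mul]
      congr 1
      ring
    rw [e]
    positivity
  -- the dominating function
  set B : ℝ := (BH * Bg * BP) ^ (p - 1) * (BH * Bg * (BN + BP * (Bh + C))) with hBdef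
  have hB0 : 0 ≤ B := by rw [hBdef]; positivity
  set D : ℝ := (BP * M * C') ^ p with hD
  have hD0 : 0 ≤ D := by rw [hD]; positivity
  set bd : ℂ → ℝ := fun w => B + D * (|Ep (m * p) g k w| +
    (L + C) * ((1 - ‖w‖) * ‖g w‖ ^ ((m : ℝ) * p))) with hbd
  have ibd : IntegrableOn bd (ball 0 1) := by
    refine Integrable.add (integrableOn_const measure_ball_lt_top.ne) (Integrable.const_mul ?_ _)
    exact hB.int.abs.add (Integrable.const_mul hWT _)
  have hdom : ∀ (n : ℕ) (w : ℂ), w ∈ ball (0 : ℂ) 1 →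
      ‖(ball (0 : ℂ) (r n)).indicator (Ep p (G n) (K n)) w‖ ≤ bd w := by
    intro n w hw
    have hw1 : ‖w‖ < 1 := mem_ball_zero_iff.1 hw
    have hX : 0 ≤ |Ep (m * p) g k w| + (L + C) * ((1 - ‖w‖) * ‖g w‖ ^ ((m : ℝ) * p)) := by
      have : 0 ≤ 1 - ‖w‖ := by linarith
      positivity
    have hbd0 : 0 ≤ bd w := by
      rw [hbd]
      simp only
      positivity
    by_cases hwr : w ∈ ball (0 : ℂ) (r n)
    · rw [indicator_of_mem hwr, Real.norm_eq_abs]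
      have hwr' : ‖w‖ < r n := mem_ball_zero_iff.1 hwr
      have hz1 : ‖w / (r n : ℂ)‖ ≤ 1 := by
        rw [hz, div_le_one (hr0 n)]
        exact hwr'.le
      rcases le_total ‖w‖ κ₁ with h1 | h1
      · refine le_trans ?_ (le_add_of_nonneg_right (mul_nonneg hD0 hX))
        refine (Ep_le (G n) (K n) w).trans ?_
        have a1 : ‖G n w‖ ≤ BH * Bg * BP := by
          rw [hG]
          simp only
          rw [norm_mul, norm_mul]
          exact mul_le_mul (mul_le_mul (hBH w h1) (hBg w h1) (norm_nonneg _) hBH0) (hBP _ hz1)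
            (norm_nonneg _) (by positivity)
        have a2 : ‖K n w‖ ≤ BH * Bg * (BN + BP * (Bh + C)) := by
          rw [hK]
          simp only
          rw [norm_mul, norm_mul]
          refine mul_le_mul (mul_le_mul (hBH w h1) (hBg w h1) (norm_nonneg _) hBH0) ?_
            (norm_nonneg _) (by positivity)
          refine (norm_add_le _ _).trans (add_le_add (hBN _ hz1) ?_)
          rw [norm_mul]
          refine mul_le_mul (hBP _ hz1) ?_ (norm_nonneg _) hBP0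
          refine (norm_add_le _ _).trans (add_le_add (hBh w h1) ?_)
          have e : (C : ℂ) * (1 - (r n : ℂ)) = ((C * (1 - r n) : ℝ) : ℂ) := by push_cast; ring
          rw [e, norm_real, Real.norm_eq_abs, abs_of_nonneg (mul_nonneg hC0 (by linarith [hr1 n]))]
          nlinarith [hr0 n]
        exact mul_le_mul (Real.rpow_le_rpow (norm_nonneg _) a1 (by linarith)) a2
          (norm_nonneg _) (by positivity)
      · have hzn : κ₁ ≤ ‖w / (r n : ℂ)‖ := by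
          rw [hz, le_div_iff₀ (hr0 n)]
          have : 0 ≤ κ₁ := by rw [hκ₁]; linarith
          nlinarith [hr1 n]
        have hzw : ‖w / (r n : ℂ) - w‖ ≤ 1 - r n := by
          have e : w / (r n : ℂ) - w = ((1 - r n : ℝ) : ℂ) * (w / (r n : ℂ)) := by
            push_cast
            field_simp [hrC n]
          rw [e, norm_mul, norm_real, Real.norm_eq_abs, abs_of_nonneg (by linarith [hr1 n])]
          nlinarith [norm_nonneg (w / (r n : ℂ)), hr1 n]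
        have hkg : 0 ≤ (k w * (starRingEnd ℂ) (g w)).re :=
          hB.le w ⟨hκκ₁.trans_le h1, hw1⟩
        have key := reg2 (p := p) (m := m) (r := r n) (nw := ‖w‖) (H := H w) (g₀ := g₀ w)
          (g := g w) (k := k w) (h := h₀ w) (Pz := P.eval (w / (r n : ℂ)))
          (Nz := N.eval (w / (r n : ℂ))) (Pw := P.eval w) (Nw := N.eval w) (C := C) (M := M)
          (CP := BP) (C' := C') (L := L) hp hm (hF.eg w hw) (hF.ek w hw)
          (hF.ne _ (hκκ₁.trans_le hzn)) (hF.ne _ (hκκ₁.trans_le h1)) hM0 (hM w h1 hw1.le) hBP0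
          (hBP _ hz1) hC'0 (hHle w h1 hw1) hC0 hL0
          ((hLip _ w hzn hz1 h1 hw1.le).trans (mul_le_mul_of_nonneg_left hzw hL0))
          (hnn n w (by nlinarith [hr1 n, hr0 n]) hwr') hwr'.le hkg hw1.le
        refine le_trans key ?_
        rw [hbd]
        simp only
        refine le_add_of_nonneg_of_le hB0 ?_
        refine mul_le_mul_of_nonneg_left (add_le_add ?_ le_rfl) hD0
        exact le_abs_self _
    · rw [indicator_of_notMem hwr, norm_zero]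
      exact hbd0
  have hlim : ∀ᵐ w ∂(volume.restrict (ball (0 : ℂ) 1)),
      Tendsto (fun n => (ball (0 : ℂ) (r n)).indicator (Ep p (G n) (K n)) w) atTop
        (𝓝 (‖H w‖ ^ p * Ep p g k w)) := by
    filter_upwards [ae_restrict_mem measurableSet_ball, ae_ne hB.dg hgne subset_rfl] with w hw hgw
    have hw1 : ‖w‖ < 1 := mem_ball_zero_iff.1 hw
    have tr : Tendsto (fun n => (r n : ℂ)) atTop (𝓝 1) := by
      have h9 := (continuous_ofReal.tendsto (1 : ℝ)).comp hrt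
      rw [ofReal_one] at h9
      exact h9
    have tz : Tendsto (fun n => w / (r n : ℂ)) atTop (𝓝 w) := by
      have h9 := (tendsto_const_nhds (x := w) (f := (atTop : Filter ℕ))).div tr one_ne_zero
      rw [div_one] at h9
      exact h9
    have tP : ∀ Q : Polynomial ℂ, Tendsto (fun n => Q.eval (w / (r n : ℂ))) atTop
        (𝓝 (Q.eval w)) := fun Q => (Q.continuous.tendsto w).comp tz
    have tC : Tendsto (fun n => h₀ w + C * (1 - (r n : ℂ))) atTop (𝓝 (h₀ w)) := by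
      have := (tendsto_const_nhds (x := h₀ w) (f := (atTop : Filter ℕ))).add
        (((tendsto_const_nhds (x := (1 : ℂ)) (f := (atTop : Filter ℕ))).sub tr).const_mul (C : ℂ))
      simpa using this
    have t := lim_eq (p := p) (H := H w) (g₀ := g₀ w) (g := g w) (k := k w) (h := h₀ w)
      (Pw := P.eval w) (Nw := N.eval w) (G := fun n => G n w) (K := fun n => K n w) hp
      (hF.eg w hw) (hF.ek w hw) hgw (tendsto_const_nhds.mul (tP P))
      (tendsto_const_nhds.mul ((tP N).add ((tP P).mul tC)))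
      (fun h n => by rw [hG]; simp [h])
    refine t.congr' ?_
    filter_upwards [hrt.eventually (lt_mem_nhds hw1)] with n hn
    rw [indicator_of_mem (mem_ball_zero_iff.2 hn)]
    rfl
  have hmeas : AEStronglyMeasurable (fun w => ‖H w‖ ^ p * Ep p g k w)
      (volume.restrict (ball (0 : ℂ) 1)) :=
    (norm_pow_meas cH p).mul (Ep_meas cg ck p)
  have hint : IntegrableOn (fun w => ‖H w‖ ^ p * Ep p g k w) (ball 0 1) := by
    refine Integrable.mono' ibd hmeas ?_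
    filter_upwards [hlim, ae_restrict_mem measurableSet_ball] with w hw hwb
    exact le_of_tendsto hw.norm (Eventually.of_forall fun n => hdom n w hwb)
  refine ⟨hint, ?_⟩
  have hconv := tendsto_integral_of_dominated_convergence (μ := volume.restrict (ball (0 : ℂ) 1))
    (F := fun n => (ball (0 : ℂ) (r n)).indicator (Ep p (G n) (K n)))
    (f := fun w => ‖H w‖ ^ p * Ep p g k w) bd
    (fun n => (Ep_meas (dG n).continuousOn (dK n).continuousOn p).indicator measurableSet_ball)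
    ibd (fun n => by
      filter_upwards [ae_restrict_mem measurableSet_ball] with w hwb
      exact hdom n w hwb) hlim
  refine ge_of_tendsto hconv (Eventually.of_forall fun n => ?_)
  rw [setIntegral_indicator measurableSet_ball,
    inter_eq_right.2 (ball_subset_ball (hr1 n).le)]
  exact hLn n

end Pool.Agent.KRC
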