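import Pool.Agent.KRC.Bas

/-!
# The Korenblum constant along integer multiples: the derivative in `s`
-/

set_option autoImplicit false

namespace Pool.Agent.KRC

open Complex MeasureTheory Set Filter Topology Metric

namespace LMSAux

variable {κ : ℝ} {g k : ℂ → ℂ} {P N : Polynomial ℂ} {g₀ h₀ : ℂ → ℂ} {ρ : ℝ}

theorem ph_cont (hF : Fac κ g k P N g₀ h₀) (h0 : 0 < ρ) (h1 : ρ < 1) :
    ContinuousOn (ph P N g₀ h₀ ρ) (ball 0 1) := by
  have e1 : ContinuousOn (fun z : ℂ => h₀ (ρ * z)) (ball 0 1) := by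
    refine hF.dh.continuousOn.comp (by fun_prop) ?_
    intro z hz
    rw [mem_ball_zero_iff] at hz ⊢
    rw [norm_mul, Complex.norm_real, Real.norm_eq_abs, abs_of_pos h0]
    nlinarith [norm_nonneg z]
  exact hF.dg.continuousOn.mul
    (N.continuous.continuousOn.add (P.continuous.continuousOn.mul e1))

theorem ph_le (hκ0 : 0 ≤ κ) (hκ : κ < 1) (hF : Fac κ g k P N g₀ h₀) (h0 : 0 < ρ) (h1 : ρ < 1) :
    ∃ C : ℝ, 0 ≤ C ∧ ∀ z : ℂ, (κ + 1) / 2 ≤ ‖z‖ → ‖z‖ < 1 →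
      ‖ph P N g₀ h₀ ρ z‖ ≤ C * ‖g z‖ := by
  have hS : IsCompact (closedBall (0 : ℂ) 1 ∩ {z : ℂ | (κ + 1) / 2 ≤ ‖z‖}) :=
    (isCompact_closedBall (0 : ℂ) 1).inter_right (isClosed_le continuous_const continuous_norm)
  have hne : ∀ z ∈ closedBall (0 : ℂ) 1 ∩ {z : ℂ | (κ + 1) / 2 ≤ ‖z‖}, P.eval z ≠ 0 := by
    rintro z ⟨_, hz⟩
    apply hF.ne
    have : (κ + 1) / 2 ≤ ‖z‖ := hz
    linarith
  obtain ⟨C₁, hC₁⟩ := hS.exists_bound_of_continuousOn
    (f := fun z => (P.eval z)⁻¹) (P.continuous.continuousOn.inv₀ hne)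
  obtain ⟨CN, hCN⟩ := (isCompact_closedBall (0 : ℂ) 1).exists_bound_of_continuousOn
    N.continuous.continuousOn
  obtain ⟨CP, hCP⟩ := (isCompact_closedBall (0 : ℂ) 1).exists_bound_of_continuousOn
    P.continuous.continuousOn
  obtain ⟨Ch, hCh0, hCh⟩ := Bas.bdd hF.dh.continuousOn h1
  have hCN0 : 0 ≤ CN := (norm_nonneg _).trans (hCN 0 (by simp))
  have hCP0 : 0 ≤ CP := (norm_nonneg _).trans (hCP 0 (by simp))
  refine ⟨max C₁ 0 * (CN + CP * Ch), by positivity, fun z hz hz1 => ?_⟩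
  have hzb : z ∈ ball (0 : ℂ) 1 := mem_ball_zero_iff.2 hz1
  have hzc : z ∈ closedBall (0 : ℂ) 1 := ball_subset_closedBall hzb
  have hzS : z ∈ closedBall (0 : ℂ) 1 ∩ {z : ℂ | (κ + 1) / 2 ≤ ‖z‖} := ⟨hzc, hz⟩
  have e1 : g₀ z = (P.eval z)⁻¹ * g z := by
    rw [hF.eg z hzb, ← mul_assoc, inv_mul_cancel₀ (hne z hzS), one_mul]
  have e2 : ‖g₀ z‖ ≤ max C₁ 0 * ‖g z‖ := by
    rw [e1, norm_mul]
    exact mul_le_mul_of_nonneg_right ((hC₁ z hzS).trans (le_max_left _ _)) (norm_nonneg _)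
  have e3 : ‖h₀ (ρ * z)‖ ≤ Ch := by
    apply hCh
    rw [norm_mul, Complex.norm_real, Real.norm_eq_abs, abs_of_pos h0]
    nlinarith [norm_nonneg z]
  have e4 : ‖N.eval z + P.eval z * h₀ (ρ * z)‖ ≤ CN + CP * Ch := by
    refine (norm_add_le _ _).trans (add_le_add (hCN z hzc) ?_)
    rw [norm_mul]
    exact mul_le_mul (hCP z hzc) e3 (norm_nonneg _) hCP0
  calc ‖ph P N g₀ h₀ ρ z‖ = ‖g₀ z‖ * ‖N.eval z + P.eval z * h₀ (ρ * z)‖ := by
        rw [ph, norm_mul]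
    _ ≤ (max C₁ 0 * ‖g z‖) * (CN + CP * Ch) := mul_le_mul e2 e4 (norm_nonneg _) (by positivity)
    _ = max C₁ 0 * (CN + CP * Ch) * ‖g z‖ := by ring

/-- the weight -/
noncomputable def W (p : ℝ) (m : ℕ) (g k : ℂ → ℂ) (z : ℂ) : ℝ :=
  ‖g z ^ (m - 2)‖ ^ p * Ep p g k z

theorem W_zero {p : ℝ} {m : ℕ} {z : ℂ} (h : g z = 0) : W p m g k z = 0 := by
  rw [W, Bas.Ep_zero h, mul_zero]

theorem W_eq {p : ℝ} {m : ℕ} (hm : 2 ≤ m) {z : ℂ} (h : g z ≠ 0) :
    W p m g k z = ‖g z‖ ^ (((m : ℝ) - 2) * p + (p - 2)) * (k z * (starRingEnd ℂ) (g z)).re := by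
  have hg : 0 < ‖g z‖ := norm_pos_iff.2 h
  rw [W, Ep, norm_pow, ← Real.rpow_natCast, ← Real.rpow_mul hg.le, Real.rpow_add hg]
  have e : ((m - 2 : ℕ) : ℝ) = (m : ℝ) - 2 := by
    rw [Nat.cast_sub hm]
    norm_num
  rw [e]
  ring

/-- the integrand of `S_LMR` -/
theorem I_eq {p : ℝ} {m : ℕ} (φ : ℂ → ℂ) (s : ℝ) (z : ℂ) :
    ‖g z ^ (m - 2) * (g z - s * φ z)‖ ^ p * Ep p g k z =
      W p m g k z * ‖g z - s * φ z‖ ^ p := by
  rw [W, norm_mul, Real.mul_rpow (norm_nonneg _) (norm_nonneg _)]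
  ring

theorem W_mul {p : ℝ} {m : ℕ} (hp : 1 ≤ p) (hm : 2 ≤ m) (z : ℂ) :
    W p m g k z * ‖g z‖ ^ p = Ep (m * p) g k z := by
  by_cases h : g z = 0
  · rw [W_zero h, Bas.Ep_zero h, zero_mul]
  · have hg : 0 < ‖g z‖ := norm_pos_iff.2 h
    rw [W_eq hm h, Ep]
    have e : ‖g z‖ ^ ((m : ℝ) * p - 2) = ‖g z‖ ^ (((m : ℝ) - 2) * p + (p - 2)) * ‖g z‖ ^ p := by
      rw [← Real.rpow_add hg]
      congr 1
      ring
    rw [e]
    ring

/-- the limit -/
theorem W_lim {p : ℝ} {m : ℕ} (hm : 2 ≤ m) (φ : ℂ → ℂ) {z : ℂ} (h : g z ≠ 0) :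
    W p m g k z * (p * (‖g z‖ ^ (p - 2) * (φ z * (starRingEnd ℂ) (g z)).re)) =
      p * (‖g z‖ ^ ((m : ℝ) * p - 4) *
        ((φ z * (starRingEnd ℂ) (g z)).re * (k z * (starRingEnd ℂ) (g z)).re)) := by
  have hg : 0 < ‖g z‖ := norm_pos_iff.2 h
  rw [W_eq hm h]
  have e : ‖g z‖ ^ ((m : ℝ) * p - 4) =
      ‖g z‖ ^ (((m : ℝ) - 2) * p + (p - 2)) * ‖g z‖ ^ (p - 2) := by
    rw [← Real.rpow_add hg]
    congr 1
    ring
  rw [e]
  ring

/-- the difference quotient -/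
theorem quot_le (h2 : S_PTB) {p : ℝ} (hp : 1 ≤ p) (a b : ℂ) {s : ℝ} (hs : 0 < s) (hs1 : s ≤ 1) :
    |(‖a‖ ^ p - ‖a - s * b‖ ^ p) / s| ≤ p * ‖b‖ * (‖a‖ + ‖b‖) ^ (p - 1) := by
  have h3 : ‖a - s * b‖ ≤ ‖a‖ + ‖b‖ := by
    refine (norm_sub_le _ _).trans ?_
    rw [norm_mul, Complex.norm_real, Real.norm_eq_abs, abs_of_pos hs]
    nlinarith [norm_nonneg b]
  have h4 := h2 a (a - s * b) p (‖a‖ + ‖b‖) hp (by linarith [norm_nonneg b]) h3
  have h5 : ‖a - (a - s * b)‖ = s * ‖b‖ := by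
    rw [sub_sub_cancel, norm_mul, Complex.norm_real, Real.norm_eq_abs, abs_of_pos hs]
  rw [h5] at h4
  rw [abs_div, abs_of_pos hs, div_le_iff₀ hs]
  calc |‖a‖ ^ p - ‖a - s * b‖ ^ p| ≤ p * (s * ‖b‖) * (‖a‖ + ‖b‖) ^ (p - 1) := h4
    _ = p * ‖b‖ * (‖a‖ + ‖b‖) ^ (p - 1) * s := by ring

end LMSAux

open LMSAux

theorem lms (hL : S_LMR) (h1 : S_PTL) (h2 : S_PTB) : S_LMS := by
  intro p κ m g k P N g₀ h₀ hp hm hκ0 hκ1 hK hB hF ρ hρ0 hρ1
  have hp0 : 0 < p := by linarith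
  set φ := ph P N g₀ h₀ ρ with hφ
  have hgc := hB.dg.continuousOn
  have hkc := hB.dk.continuousOn
  have hφc : ContinuousOn φ (ball 0 1) := ph_cont hF hρ0 hρ1
  have hI : ∀ s : ℝ, IntegrableOn (fun z => W p m g k z * ‖g z - s * φ z‖ ^ p) (ball 0 1) ∧
      0 ≤ ∫ z in ball (0 : ℂ) 1, W p m g k z * ‖g z - s * φ z‖ ^ p := by
    intro s
    have h := hL p κ m g k P N g₀ h₀ hp hm hκ0 hκ1 hK hB hF ρ s hρ0 hρ1
    rw [← hφ] at h
    simp only [I_eq] at h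
    exact h
  have hI0 : (fun z => W p m g k z * ‖g z‖ ^ p) = Ep (m * p) g k :=
    funext fun z => W_mul hp hm z
  -- the difference quotients
  set sn : ℕ → ℝ := fun n => 1 / ((n : ℝ) + 1) with hsn
  have hs0 : ∀ n, 0 < sn n := fun n => by rw [hsn]; positivity
  have hs1 : ∀ n, sn n ≤ 1 := fun n => by
    rw [hsn]
    simp only
    rw [div_le_one (by positivity)]
    linarith [Nat.cast_nonneg (α := ℝ) n]
  have hst : Tendsto sn atTop (𝓝 0) := tendsto_one_div_add_atTop_nhds_zero_nat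
  set Dn : ℕ → ℂ → ℝ := fun n z =>
    W p m g k z * ((‖g z‖ ^ p - ‖g z - sn n * φ z‖ ^ p) / sn n) with hDn
  have hDeq : ∀ n, Dn n = fun z => (sn n)⁻¹ *
      (Ep (m * p) g k z - W p m g k z * ‖g z - sn n * φ z‖ ^ p) := by
    intro n
    funext z
    rw [hDn, ← W_mul hp hm z]
    simp only
    rw [div_eq_inv_mul]
    ring
  have hDint : ∀ n, IntegrableOn (Dn n) (ball 0 1) := by
    intro n
    rw [hDeq]
    exact (hB.int.sub (hI (sn n)).1).const_mul _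
  have hDnp : ∀ n, ∫ z in ball (0 : ℂ) 1, Dn n z ≤ 0 := by
    intro n
    rw [hDeq]
    rw [integral_const_mul, integral_sub hB.int (hI (sn n)).1]
    have h3 : 0 < (sn n)⁻¹ := inv_pos.2 (hs0 n)
    have h4 := hB.nonpos
    have h5 := (hI (sn n)).2
    nlinarith
  -- the bound
  obtain ⟨C, hC0, hC⟩ := ph_le hκ0 hκ1 hF hρ0 hρ1
  have hκ2 : (κ + 1) / 2 < 1 := by linarith
  obtain ⟨Mg, hMg0, hMg⟩ := Bas.bdd hgc hκ2
  obtain ⟨Mk, hMk0, hMk⟩ := Bas.bdd hkc hκ2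
  obtain ⟨Mf, hMf0, hMf⟩ := Bas.bdd hφc hκ2
  set M₀ := ((Mg ^ (m - 2)) ^ p * (Mg ^ (p - 1) * Mk)) *
    (p * Mf * (Mg + Mf) ^ (p - 1)) with hM₀
  have hM₀0 : 0 ≤ M₀ := by positivity
  set C' := p * C * (1 + C) ^ (p - 1) with hC'
  have hC'0 : 0 ≤ C' := by positivity
  have hbound : ∀ n, ∀ z ∈ ball (0 : ℂ) 1, |Dn n z| ≤ M₀ + C' * |Ep (m * p) g k z| := by
    intro n z hz
    rw [mem_ball_zero_iff] at hz
    have h3 := quot_le h2 hp (g z) (φ z) (hs0 n) (hs1 n)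
    rw [hDn]
    simp only
    rw [abs_mul]
    rcases le_total ‖z‖ ((κ + 1) / 2) with hz2 | hz2
    · have h4 : |W p m g k z| ≤ (Mg ^ (m - 2)) ^ p * (Mg ^ (p - 1) * Mk) := by
        rw [W, abs_mul, abs_of_nonneg (by positivity : 0 ≤ ‖g z ^ (m - 2)‖ ^ p)]
        refine mul_le_mul ?_ ((Bas.Ep_le g k z).trans ?_) (abs_nonneg _) (by positivity)
        · rw [norm_pow]
          exact Real.rpow_le_rpow (by positivity)
            (pow_le_pow_left₀ (norm_nonneg _) (hMg z hz2) _) hp0.le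
        · exact mul_le_mul (Real.rpow_le_rpow (norm_nonneg _) (hMg z hz2) (by linarith))
            (hMk z hz2) (norm_nonneg _) (by positivity)
      have h5 : p * ‖φ z‖ * (‖g z‖ + ‖φ z‖) ^ (p - 1) ≤ p * Mf * (Mg + Mf) ^ (p - 1) := by
        refine mul_le_mul (mul_le_mul_of_nonneg_left (hMf z hz2) hp0.le) ?_ (by positivity)
          (by positivity)
        exact Real.rpow_le_rpow (by positivity) (add_le_add (hMg z hz2) (hMf z hz2)) (by linarith)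
      calc |W p m g k z| * |(‖g z‖ ^ p - ‖g z - sn n * φ z‖ ^ p) / sn n|
          ≤ ((Mg ^ (m - 2)) ^ p * (Mg ^ (p - 1) * Mk)) *
            (p * Mf * (Mg + Mf) ^ (p - 1)) :=
            mul_le_mul h4 (h3.trans h5) (abs_nonneg _) (by positivity)
        _ = M₀ := rfl
        _ ≤ M₀ + C' * |Ep (m * p) g k z| := by
            have : 0 ≤ C' * |Ep (m * p) g k z| := by positivity
            linarith
    · have h4 := hC z hz2 hz
      have h5 : |W p m g k z| * |(‖g z‖ ^ p - ‖g z - sn n * φ z‖ ^ p) / sn n| ≤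
          C' * |Ep (m * p) g k z| := by
        have e1 : |Ep (m * p) g k z| = |W p m g k z| * ‖g z‖ ^ p := by
          rw [← W_mul hp hm z, abs_mul, abs_of_nonneg (by positivity : 0 ≤ ‖g z‖ ^ p)]
        rw [e1]
        by_cases hgz : g z = 0
        · rw [W_zero hgz]
          simp
        have hg : 0 < ‖g z‖ := norm_pos_iff.2 hgz
        have h6 : p * ‖φ z‖ * (‖g z‖ + ‖φ z‖) ^ (p - 1) ≤ C' * ‖g z‖ ^ p := by
          have e2 : ‖g z‖ ^ p = ‖g z‖ * ‖g z‖ ^ (p - 1) := by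
            rw [mul_comm, ← Real.rpow_add_one hg.ne']
            congr 1
            ring
          have h7 : (‖g z‖ + ‖φ z‖) ^ (p - 1) ≤ (1 + C) ^ (p - 1) * ‖g z‖ ^ (p - 1) := by
            rw [← Real.mul_rpow (by positivity) hg.le]
            refine Real.rpow_le_rpow (by positivity) ?_ (by linarith)
            nlinarith
          calc p * ‖φ z‖ * (‖g z‖ + ‖φ z‖) ^ (p - 1)
              ≤ p * (C * ‖g z‖) * ((1 + C) ^ (p - 1) * ‖g z‖ ^ (p - 1)) :=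
                mul_le_mul (mul_le_mul_of_nonneg_left h4 hp0.le) h7 (by positivity)
                  (by positivity)
            _ = C' * ‖g z‖ ^ p := by rw [e2, hC']; ring
        calc |W p m g k z| * |(‖g z‖ ^ p - ‖g z - sn n * φ z‖ ^ p) / sn n|
            ≤ |W p m g k z| * (C' * ‖g z‖ ^ p) :=
              mul_le_mul_of_nonneg_left (h3.trans h6) (abs_nonneg _)
          _ = C' * (|W p m g k z| * ‖g z‖ ^ p) := by ring
      linarith
  -- the limit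
  set J : ℂ → ℝ := fun z => ‖g z‖ ^ ((m : ℝ) * p - 4) *
      ((φ z * (starRingEnd ℂ) (g z)).re * (k z * (starRingEnd ℂ) (g z)).re) with hJ
  have hgne : ∃ z ∈ ball (0 : ℂ) 1, g z ≠ 0 := by
    obtain ⟨z, hz, hz2⟩ := hB.lt
    refine ⟨z, Bas.An_sub κ hz, fun h => ?_⟩
    rw [h] at hz2
    simp at hz2
  have hae := Bas.ae_ne hB.dg hgne (subset_refl _)
  have hlim : ∀ z : ℂ, g z ≠ 0 → Tendsto (fun n => Dn n z) atTop (𝓝 (p * J z)) := by
    intro z hz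
    have h3 := h1 (fun _ => g z) (fun _ => φ z) (fun _ => p) sn (g z) (φ z) p hz hp
      (fun _ => hp) hs0 tendsto_const_nhds tendsto_const_nhds tendsto_const_nhds hst
    have h4 := h3.const_mul (W p m g k z)
    rw [W_lim hm φ hz] at h4
    exact h4
  have hBd : Integrable (fun z => M₀ + C' * |Ep (m * p) g k z|)
      (volume.restrict (ball (0 : ℂ) 1)) := by
    have h3 : IntegrableOn (fun _ : ℂ => M₀) (ball (0 : ℂ) 1) :=
      integrableOn_const measure_ball_lt_top.ne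
    exact h3.add (hB.int.abs.const_mul _)
  have hJm : AEStronglyMeasurable J (volume.restrict (ball (0 : ℂ) 1)) :=
    (Bas.norm_pow_meas hgc _).mul ((Bas.re_meas hgc hφc).mul (Bas.re_meas hgc hkc))
  have hpJ : IntegrableOn (fun z => p * J z) (ball (0 : ℂ) 1) := by
    refine Integrable.mono' hBd (hJm.const_mul p) ?_
    filter_upwards [hae, ae_restrict_mem measurableSet_ball] with z hz hzb
    rw [Real.norm_eq_abs]
    exact le_of_tendsto (hlim z hz).abs (Eventually.of_forall fun n => hbound n z hzb)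
  have hJi : IntegrableOn J (ball (0 : ℂ) 1) := by
    have h3 := hpJ.const_mul p⁻¹
    have h4 : (fun z => p⁻¹ * (p * J z)) = J := by
      funext z
      rw [← mul_assoc, inv_mul_cancel₀ hp0.ne', one_mul]
    rwa [h4] at h3
  refine ⟨hJi, ?_⟩
  have hT : Tendsto (fun n => ∫ z in ball (0 : ℂ) 1, Dn n z) atTop
      (𝓝 (∫ z in ball (0 : ℂ) 1, p * J z)) := by
    refine tendsto_integral_of_dominated_convergence
      (fun z => M₀ + C' * |Ep (m * p) g k z|) (fun n => (hDint n).aestronglyMeasurable) hBd ?_ ?_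
    · intro n
      filter_upwards [ae_restrict_mem measurableSet_ball] with z hz
      rw [Real.norm_eq_abs]
      exact hbound n z hz
    · filter_upwards [hae] with z hz
      exact hlim z hz
  have h3 : ∫ z in ball (0 : ℂ) 1, p * J z ≤ 0 :=
    le_of_tendsto hT (Eventually.of_forall hDnp)
  rw [integral_const_mul] at h3
  by_contra h4
  push Not at h4
  have : 0 < p * ∫ z in ball (0 : ℂ) 1, J z := mul_pos hp0 h4
  linarith

end Pool.Agent.KRC
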