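import Pool.Agent.KRC.Bas

/-!
# The Korenblum constant along integer multiples: Montel
-/

set_option autoImplicit false

namespace Pool.Agent.KRC

open Complex MeasureTheory Set Filter Topology Metric

namespace MONAux

/-- Taylor coefficients at the centre -/
noncomputable def tc (f : ℂ → ℂ) (j : ℕ) : ℂ := ((j.factorial : ℂ))⁻¹ * iteratedDeriv j f 0

theorem tc_sum {f : ℂ → ℂ} (hf : DifferentiableOn ℂ f (ball 0 1)) {z : ℂ} (hz : ‖z‖ < 1) :
    HasSum (fun j : ℕ => tc f j * z ^ j) (f z) := by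
  have h := Complex.hasSum_taylorSeries_on_ball hf (z := z) (mem_ball_zero_iff.2 hz)
  have h2 : (fun j : ℕ => tc f j * z ^ j) =
      fun n : ℕ => ((n.factorial : ℂ))⁻¹ • (z - 0) ^ n • iteratedDeriv n f 0 := by
    funext n
    rw [tc, smul_eq_mul, smul_eq_mul, sub_zero]
    ring
  rw [h2]
  exact h

theorem tc_bound {f : ℂ → ℂ} (hf : DifferentiableOn ℂ f (ball 0 1)) {r M : ℝ} (hr0 : 0 < r)
    (hr1 : r < 1) (hM : ∀ z : ℂ, ‖z‖ ≤ r → ‖f z‖ ≤ M) (j : ℕ) : ‖tc f j‖ ≤ M / r ^ j := by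
  have hd : DiffContOnCl ℂ f (ball 0 r) :=
    (hf.mono (by rw [closure_ball _ hr0.ne']; exact closedBall_subset_ball hr1)).diffContOnCl
  have h := Complex.norm_iteratedDeriv_le_of_forall_mem_sphere_norm_le j hr0 hd
    (fun z hz => hM z (by rw [mem_sphere_zero_iff_norm] at hz; exact hz.le))
  have hj : (0 : ℝ) < j.factorial := by exact_mod_cast j.factorial_pos
  rw [tc, norm_mul, norm_inv, Complex.norm_natCast]
  rw [inv_mul_le_iff₀ hj]
  refine h.trans (le_of_eq ?_)
  ring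

end MONAux

open MONAux in
theorem mon : S_MON := by
  intro gn hgn hbd
  -- bounds with positive constants
  have hb : ∀ r : ℝ, 0 < r → r < 1 → ∃ M : ℝ, 0 ≤ M ∧ ∀ n j, ‖tc (gn n) j‖ ≤ M / r ^ j := by
    intro r hr0 hr1
    obtain ⟨M, hM⟩ := hbd r hr1
    refine ⟨max M 0, le_max_right _ _, fun n j => ?_⟩
    exact tc_bound (hgn n) hr0 hr1 (fun z hz => (hM n z hz).trans (le_max_left _ _)) j
  obtain ⟨M, hM0, hM⟩ := hb (1 / 2) (by norm_num) (by norm_num)
  set S : Set (ℕ → ℂ) := Set.pi univ fun j => closedBall (0 : ℂ) (M / (1 / 2) ^ j) with hS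
  have hSc : IsCompact S := isCompact_univ_pi fun j => isCompact_closedBall _ _
  have hmem : ∀ n, (fun j => tc (gn n) j) ∈ S := by
    intro n j _
    rw [mem_closedBall_zero_iff]
    exact hM n j
  obtain ⟨a, _, φ, hφ, ha⟩ := hSc.tendsto_subseq hmem
  have hat : ∀ j, Tendsto (fun n => tc (gn (φ n)) j) atTop (𝓝 (a j)) := by
    intro j
    exact ((continuous_apply j).tendsto a).comp ha
  have hab : ∀ r : ℝ, 0 < r → r < 1 → ∃ M : ℝ, 0 ≤ M ∧ (∀ n j, ‖tc (gn n) j‖ ≤ M / r ^ j) ∧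
      ∀ j, ‖a j‖ ≤ M / r ^ j := by
    intro r hr0 hr1
    obtain ⟨M, hM0, hM⟩ := hb r hr0 hr1
    exact ⟨M, hM0, hM, fun j => le_of_tendsto (hat j).norm (Eventually.of_forall fun n => hM _ j)⟩
  set g : ℂ → ℂ := fun z => ∑' j : ℕ, a j * z ^ j with hg
  have hasum : ∀ z : ℂ, ‖z‖ < 1 → Summable (fun j : ℕ => a j * z ^ j) := by
    intro z hz
    obtain ⟨ρ, h1, h2⟩ := exists_between hz
    have hρ0 : 0 < ρ := (norm_nonneg z).trans_lt h1
    obtain ⟨M, hM0, _, hM⟩ := hab ρ hρ0 h2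
    have hq : ‖z‖ / ρ < 1 := (div_lt_one hρ0).2 h1
    refine Summable.of_norm_bounded
      ((summable_geometric_of_lt_one (by positivity) hq).mul_left M) fun j => ?_
    rw [norm_mul, norm_pow, div_pow]
    calc ‖a j‖ * ‖z‖ ^ j ≤ M / ρ ^ j * ‖z‖ ^ j :=
          mul_le_mul_of_nonneg_right (hM j) (by positivity)
      _ = M * (‖z‖ ^ j / ρ ^ j) := by ring
  have hunif : ∀ r : ℝ, r < 1 → TendstoUniformlyOn (fun n => gn (φ n)) g atTop
      (closedBall 0 r) := by
    intro r hr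
    set r0 : ℝ := max r 0 with hr0
    have hr01 : r0 < 1 := max_lt hr zero_lt_one
    have hr00 : 0 ≤ r0 := le_max_right _ _
    obtain ⟨ρ, h1, h2⟩ := exists_between hr01
    have hρ0 : 0 < ρ := hr00.trans_lt h1
    obtain ⟨M, hM0, hMn, hMa⟩ := hab ρ hρ0 h2
    have hq : r0 / ρ < 1 := (div_lt_one hρ0).2 h1
    have hq0 : 0 ≤ r0 / ρ := by positivity
    have hsum : Summable fun j : ℕ => 2 * M * (r0 / ρ) ^ j :=
      (summable_geometric_of_lt_one hq0 hq).mul_left _
    have hle : ∀ n j, ‖tc (gn n) j - a j‖ * r0 ^ j ≤ 2 * M * (r0 / ρ) ^ j := by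
      intro n j
      have h3 : ‖tc (gn n) j - a j‖ ≤ 2 * M / ρ ^ j := by
        refine (norm_sub_le _ _).trans ?_
        have := hMn n j
        have h4 := hMa j
        have h5 : 2 * M / ρ ^ j = M / ρ ^ j + M / ρ ^ j := by ring
        rw [h5]
        exact add_le_add this h4
      calc ‖tc (gn n) j - a j‖ * r0 ^ j ≤ 2 * M / ρ ^ j * r0 ^ j :=
            mul_le_mul_of_nonneg_right h3 (by positivity)
        _ = 2 * M * (r0 / ρ) ^ j := by rw [div_pow]; ring
    have hT : Tendsto (fun n => ∑' j : ℕ, ‖tc (gn (φ n)) j - a j‖ * r0 ^ j) atTop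
        (𝓝 (∑' j : ℕ, (0 : ℝ))) := by
      refine tendsto_tsum_of_dominated_convergence hsum (fun j => ?_)
        (Eventually.of_forall fun n j => ?_)
      · have h3 : Tendsto (fun n => tc (gn (φ n)) j - a j) atTop (𝓝 0) := by
          have := (hat j).sub_const (a j)
          rwa [sub_self] at this
        have h4 := (h3.norm).mul_const (r0 ^ j)
        rwa [norm_zero, zero_mul] at h4
      · rw [Real.norm_of_nonneg (by positivity)]
        exact hle _ j
    rw [tsum_zero] at hT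
    rw [Metric.tendstoUniformlyOn_iff]
    intro ε hε
    filter_upwards [hT.eventually (gt_mem_nhds hε)] with n hn z hz
    rw [mem_closedBall_zero_iff] at hz
    have hz0 : ‖z‖ ≤ r0 := hz.trans (le_max_left _ _)
    have hz1 : ‖z‖ < 1 := hz0.trans_lt hr01
    have e1 := tc_sum (hgn (φ n)) hz1
    have e2 := (hasum z hz1).hasSum
    have e3 := e1.sub e2
    have hsn : Summable fun j : ℕ => ‖tc (gn (φ n)) j - a j‖ * r0 ^ j :=
      Summable.of_nonneg_of_le (fun j => by positivity) (fun j => hle _ j) hsum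
    have h5 : ‖gn (φ n) z - g z‖ ≤ ∑' j : ℕ, ‖tc (gn (φ n)) j - a j‖ * r0 ^ j := by
      have h6 : gn (φ n) z - g z = ∑' j : ℕ, (tc (gn (φ n)) j * z ^ j - a j * z ^ j) :=
        e3.tsum_eq.symm
      rw [h6]
      refine tsum_of_norm_bounded hsn.hasSum fun j => ?_
      rw [← sub_mul, norm_mul, norm_pow]
      exact mul_le_mul_of_nonneg_left (pow_le_pow_left₀ (norm_nonneg z) hz0 j) (norm_nonneg _)
    rw [dist_eq_norm, norm_sub_rev]
    exact h5.trans_lt hn
  refine ⟨φ, g, hφ, ?_, hunif⟩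
  have hloc : TendstoLocallyUniformlyOn (fun n => gn (φ n)) g atTop (ball 0 1) := by
    refine tendstoLocallyUniformlyOn_of_forall_exists_nhds fun z hz => ?_
    rw [mem_ball_zero_iff] at hz
    obtain ⟨r, h1, h2⟩ := exists_between hz
    refine ⟨closedBall 0 r, mem_nhdsWithin_of_mem_nhds ?_, hunif r h2⟩
    exact mem_of_superset (isOpen_ball.mem_nhds (mem_ball_zero_iff.2 h1)) ball_subset_closedBall
  exact hloc.differentiableOn (Eventually.of_forall fun n => hgn (φ n)) isOpen_ball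

end Pool.Agent.KRC
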