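import Pool.Agent.KRC.Bas
import Pool.Agent.KRB.Ph

/-!
# The Korenblum constant along integer multiples: Schwarz-Pick
-/

set_option autoImplicit false

namespace Pool.Agent.KRC

open Complex MeasureTheory Set Filter Topology Metric

namespace PCKAux

/-- the inequalities between numbers -/
theorem num {A w : ℂ} (hA : ‖A‖ < 1) (hw : ‖w‖ ≤ 1)
    (h : ‖w - A‖ ≤ 1 / 3 * ‖1 - (starRingEnd ℂ) A * w‖) :
    ‖w - A‖ ≤ 2 * (1 - ‖A‖) ∧ 1 - ‖A‖ ≤ 3 * (1 - ‖w‖) := by
  have h1 : ∀ x y : ℂ, ‖x‖ ≤ 1 → ‖y‖ ≤ 1 → ‖y - x‖ ≤ 1 / 3 * ‖1 - (starRingEnd ℂ) x * y‖ →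
      ‖y - x‖ ≤ 1 - ‖x‖ := by
    intro x y hx _ hxy
    have h2 : (1 : ℂ) - (starRingEnd ℂ) x * y =
        ((1 - ‖x‖ ^ 2 : ℝ) : ℂ) - (starRingEnd ℂ) x * (y - x) := by
      have h3 : (starRingEnd ℂ) x * x = ((‖x‖ ^ 2 : ℝ) : ℂ) := by
        rw [← Complex.normSq_eq_conj_mul_self, Complex.normSq_eq_norm_sq]
      rw [mul_sub, h3]
      push_cast
      ring
    have h4 : ‖(1 : ℂ) - (starRingEnd ℂ) x * y‖ ≤ (1 - ‖x‖ ^ 2) + ‖x‖ * ‖y - x‖ := by
      rw [h2]
      refine (norm_sub_le _ _).trans ?_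
      rw [norm_mul, RCLike.norm_conj, Complex.norm_real, Real.norm_eq_abs, abs_of_nonneg]
      nlinarith [norm_nonneg x]
    have h5 : ‖x‖ * ‖y - x‖ ≤ ‖y - x‖ := mul_le_of_le_one_left (norm_nonneg _) hx
    nlinarith [norm_nonneg x, norm_nonneg (y - x)]
  have h2 := h1 A w hA.le hw h
  have h3 := h1 w A hw hA.le (by
    rw [norm_sub_rev]
    refine h.trans (le_of_eq ?_)
    congr 1
    rw [← RCLike.norm_conj (1 - (starRingEnd ℂ) w * A)]
    congr 1
    simp [mul_comm])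
  rw [norm_sub_rev] at h3
  have h4 : ‖w‖ ≤ ‖A‖ + ‖w - A‖ := by
    calc ‖w‖ = ‖A + (w - A)‖ := by ring_nf
      _ ≤ _ := norm_add_le _ _
  constructor
  · nlinarith [norm_nonneg (w - A)]
  · linarith

end PCKAux

open PCKAux in
theorem pck : S_PCK := by
  intro ω a R hR hd hb z hz
  have ha : a ∈ ball a R := mem_ball_self hR
  have hz1 : z ∈ ball a R := by
    rw [mem_ball, dist_eq_norm]
    linarith
  rcases lt_or_eq_of_le (hb a ha) with h1 | h1
  · have hne : ∀ ζ ∈ ball a R, (1 : ℂ) - (starRingEnd ℂ) (ω a) * ω ζ ≠ 0 := by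
      intro ζ hζ h0
      have h2 : ‖(starRingEnd ℂ) (ω a) * ω ζ‖ = 1 := by
        rw [← sub_eq_zero.1 h0]; simp
      rw [norm_mul, RCLike.norm_conj] at h2
      have h3 := hb ζ hζ
      nlinarith [norm_nonneg (ω a), norm_nonneg (ω ζ)]
    have hφd : DifferentiableOn ℂ
        (fun z => (ω z - ω a) / (1 - (starRingEnd ℂ) (ω a) * ω z)) (ball a R) :=
      (hd.sub_const _).div ((hd.const_mul _).const_sub 1) hne
    have h0 : (fun z => (ω z - ω a) / (1 - (starRingEnd ℂ) (ω a) * ω z)) a = 0 := by simp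
    have hφm : MapsTo (fun z => (ω z - ω a) / (1 - (starRingEnd ℂ) (ω a) * ω z)) (ball a R)
        (closedBall ((fun z => (ω z - ω a) / (1 - (starRingEnd ℂ) (ω a) * ω z)) a) 1) := by
      intro ζ hζ
      rw [h0, mem_closedBall_zero_iff, norm_div]
      exact div_le_one_of_le₀ (Pool.Agent.KRB.PHAux.key_ineq h1.le (hb ζ hζ)) (norm_nonneg _)
    have h2 := Complex.dist_le_div_mul_dist_of_mapsTo_ball hφd hφm hz1
    rw [sub_self, zero_div, dist_zero_right, norm_div, dist_eq_norm] at h2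
    have h3 : 1 / R * ‖z - a‖ ≤ 1 / 3 := by
      rw [div_mul_eq_mul_div, one_mul, div_le_iff₀ hR]
      linarith
    have h4 := h2.trans h3
    rw [div_le_iff₀ (norm_pos_iff.2 (hne z hz1))] at h4
    exact num h1 (hb z hz1) h4
  · have h2 : IsMaxOn (norm ∘ ω) (ball a R) a := by
      intro ζ hζ
      simp only [Function.comp_apply, mem_ofPred_eq]
      rw [h1]
      exact hb ζ hζ
    have h3 := Complex.eqOn_of_isPreconnected_of_isMaxOn_norm (convex_ball a R).isPreconnected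
      isOpen_ball hd ha h2 hz1
    rw [h3]
    simp [h1]

end Pool.Agent.KRC
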