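import Pool.Agent.KRC.Bas

/-!
# The Korenblum constant along integer multiples: strict signs (POS)
-/

set_option autoImplicit false

namespace Pool.Agent.KRC

open Complex MeasureTheory Set Filter Topology Metric

namespace POSAux

/-- if the integral over the smaller ball is not negative, the function vanishes outside it -/
theorem ae_zero {φ : ℂ → ℝ} {c r : ℝ} (hr0 : c < r) (hr1 : r < 1)
    (hint : IntegrableOn φ (ball 0 1)) (hpos : ∀ z ∈ An c, 0 ≤ φ z)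
    (hle : ∫ z in ball (0 : ℂ) 1, φ z ≤ 0) (h : ¬ ∫ z in ball (0 : ℂ) r, φ z < 0) :
    φ =ᵐ[volume.restrict {z : ℂ | r < ‖z‖ ∧ ‖z‖ < 1}] fun _ => 0 := by
  push Not at h
  have hsub : ball (0 : ℂ) r ⊆ ball 0 1 := ball_subset_ball hr1.le
  have h1 : ∫ z in ball (0 : ℂ) 1, φ z =
      (∫ z in ball (0 : ℂ) r, φ z) + ∫ z in ball (0 : ℂ) 1 \ ball 0 r, φ z := by
    rw [← setIntegral_union disjoint_sdiff_right (measurableSet_ball.diff measurableSet_ball)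
      (hint.mono_set hsub) (hint.mono_set sdiff_subset), union_sdiff_cancel hsub]
  have hnn : ∀ z ∈ ball (0 : ℂ) 1 \ ball 0 r, 0 ≤ φ z := by
    rintro z ⟨hz1, hz2⟩
    rw [mem_ball_zero_iff] at hz1 hz2
    push Not at hz2
    exact hpos z ⟨hr0.trans_le hz2, hz1⟩
  have hnn' : 0 ≤ᵐ[volume.restrict (ball (0 : ℂ) 1 \ ball 0 r)] φ := by
    filter_upwards [ae_restrict_mem (measurableSet_ball.diff measurableSet_ball)] with z hz
    exact hnn z hz
  have h2 : ∫ z in ball (0 : ℂ) 1 \ ball 0 r, φ z = 0 := by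
    apply le_antisymm
    · linarith
    · exact integral_nonneg_of_ae hnn'
  have h3 := (integral_eq_zero_iff_of_nonneg_ae hnn' (hint.mono_set sdiff_subset)).1 h2
  have hs : {z : ℂ | r < ‖z‖ ∧ ‖z‖ < 1} ⊆ ball (0 : ℂ) 1 \ ball 0 r := by
    rintro z ⟨h1, h2⟩
    refine ⟨mem_ball_zero_iff.2 h2, ?_⟩
    rw [mem_ball_zero_iff]
    push Not
    exact h1.le
  exact ae_mono (Measure.restrict_mono hs le_rfl) h3

/-- the annulus is not empty -/
theorem nonempty {r : ℝ} (hr0 : 0 ≤ r) (hr1 : r < 1) :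
    {z : ℂ | r < ‖z‖ ∧ ‖z‖ < 1}.Nonempty := by
  refine ⟨(((r + 1) / 2 : ℝ) : ℂ), ?_⟩
  have h : ‖(((r + 1) / 2 : ℝ) : ℂ)‖ = (r + 1) / 2 := by
    rw [norm_real, Real.norm_eq_abs, abs_of_nonneg (by linarith)]
  constructor
  · show r < ‖(((r + 1) / 2 : ℝ) : ℂ)‖
    rw [h]
    linarith
  · show ‖(((r + 1) / 2 : ℝ) : ℂ)‖ < 1
    rw [h]
    linarith

theorem posA (hR : S_RIG) (c q r : ℝ) (f g : ℂ → ℂ) (hc : 0 ≤ c) (hq : 1 ≤ q) (hcr : c < r)
    (hr1 : r < 1) (H : LimA c q f g) : ∫ z in ball (0 : ℂ) r, Dp q f g z < 0 := by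
  by_contra h
  have hpos : ∀ z ∈ An c, 0 ≤ Dp q f g z := by
    intro z hz
    unfold Dp
    have := Real.rpow_le_rpow (norm_nonneg _) (H.le z hz) (by linarith : 0 ≤ q)
    linarith
  have h0 := ae_zero hcr hr1 H.int hpos H.nonpos h
  have hUo : IsOpen {z : ℂ | r < ‖z‖ ∧ ‖z‖ < 1} := Bas.isOpen_annulus r 1
  have hUs : {z : ℂ | r < ‖z‖ ∧ ‖z‖ < 1} ⊆ ball 0 1 := Bas.annulus_sub le_rfl
  have hcont : ContinuousOn (Dp q f g) (ball 0 1) :=
    Bas.Dp_cont H.df.continuousOn H.dg.continuousOn (by linarith)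
  have h1 := Measure.eqOn_open_of_ae_eq h0 hUo (hcont.mono hUs) continuousOn_const
  have h2 : ∀ z ∈ {z : ℂ | r < ‖z‖ ∧ ‖z‖ < 1}, ‖f z‖ = ‖g z‖ := by
    intro z hz
    have h3 : ‖g z‖ ^ q - ‖f z‖ ^ q = 0 := h1 hz
    have h4 : ‖f z‖ ^ q = ‖g z‖ ^ q := by linarith
    exact (Real.rpow_left_inj (norm_nonneg _) (norm_nonneg _) (by linarith)).1 h4
  obtain ⟨u, hu, hfu⟩ := hR f g _ H.df H.dg hUo (nonempty (hc.trans hcr.le) hr1) hUs h2
  obtain ⟨z, hz, hlt⟩ := H.lt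
  rw [hfu z (Bas.An_sub c hz), norm_mul, hu, one_mul] at hlt
  exact lt_irrefl _ hlt

theorem posB (hR : S_RIG) (c q r : ℝ) (g k : ℂ → ℂ) (hc : 0 ≤ c) (hcr : c < r)
    (hr1 : r < 1) (H : LimB c q g k) : ∫ z in ball (0 : ℂ) r, Ep q g k z < 0 := by
  by_contra h
  have hpos : ∀ z ∈ An c, 0 ≤ Ep q g k z := by
    intro z hz
    unfold Ep
    exact mul_nonneg (by positivity) (H.le z hz)
  have h0 := ae_zero hcr hr1 H.int hpos H.nonpos h
  have hUo : IsOpen {z : ℂ | r < ‖z‖ ∧ ‖z‖ < 1} := Bas.isOpen_annulus r 1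
  have hUs : {z : ℂ | r < ‖z‖ ∧ ‖z‖ < 1} ⊆ ball 0 1 := Bas.annulus_sub le_rfl
  obtain ⟨z₁, hz₁, hlt⟩ := H.lt
  have hg1 : g z₁ ≠ 0 := by
    intro h1
    rw [h1] at hlt
    simp at hlt
  have hne := Bas.ae_ne H.dg ⟨z₁, Bas.An_sub c hz₁, hg1⟩ hUs
  have hre : (fun z => (k z * (starRingEnd ℂ) (g z)).re)
      =ᵐ[volume.restrict {z : ℂ | r < ‖z‖ ∧ ‖z‖ < 1}] fun _ => 0 := by
    filter_upwards [h0, hne] with z hz hgz
    have h3 : ‖g z‖ ^ (q - 2) * (k z * (starRingEnd ℂ) (g z)).re = 0 := hz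
    have h4 : 0 < ‖g z‖ ^ (q - 2) := Real.rpow_pos_of_pos (norm_pos_iff.2 hgz) _
    rcases mul_eq_zero.1 h3 with h5 | h5
    · exact absurd h5 h4.ne'
    · exact h5
  have hcont : ContinuousOn (fun z => (k z * (starRingEnd ℂ) (g z)).re) (ball 0 1) :=
    continuous_re.comp_continuousOn
      (H.dk.continuousOn.mul (continuous_conj.comp_continuousOn H.dg.continuousOn))
  have h1 := Measure.eqOn_open_of_ae_eq hre hUo (hcont.mono hUs) continuousOn_const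
  have h2 : ∀ z ∈ {z : ℂ | r < ‖z‖ ∧ ‖z‖ < 1}, ‖g z - k z‖ = ‖g z + k z‖ := by
    intro z hz
    have h3 : (k z * (starRingEnd ℂ) (g z)).re = 0 := h1 hz
    have h4 := Bas.four (g z) (k z)
    rw [h3, mul_zero, sub_eq_zero] at h4
    exact ((pow_left_inj₀ (norm_nonneg _) (norm_nonneg _) two_ne_zero).1 h4).symm
  obtain ⟨u, hu, hfu⟩ := hR (fun z => g z - k z) (fun z => g z + k z) _ (H.dg.sub H.dk)
    (H.dg.add H.dk) hUo (nonempty (hc.trans hcr.le) hr1) hUs h2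
  have h5 := hfu z₁ (Bas.An_sub c hz₁)
  have h6 : ‖g z₁ - k z₁‖ = ‖g z₁ + k z₁‖ := by
    have := congrArg norm h5
    rw [norm_mul, hu, one_mul] at this
    exact this
  have h7 := Bas.four (g z₁) (k z₁)
  rw [h6, sub_self] at h7
  linarith

end POSAux

/-- **Strict signs.** -/
theorem pos (hR : S_RIG) : S_POS :=
  ⟨fun c q r f g hc hq hcr hr1 H => POSAux.posA hR c q r f g hc hq hcr hr1 H,
    fun c q r g k hc _ hcr hr1 H => POSAux.posB hR c q r g k hc hcr hr1 H⟩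

end Pool.Agent.KRC
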