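import Pool.Agent.KRC.Bas

/-!
# Module PTB: pointwise bound
-/

set_option autoImplicit false

namespace Pool.Agent.KRC

theorem ptb : S_PTB := by
  intro a b q M hq ha hb
  have hM : 0 ≤ M := le_trans (norm_nonneg _) ha
  have h1 : ∀ x ∈ Set.Icc (0 : ℝ) M,
      HasDerivWithinAt (fun t : ℝ => t ^ q) (q * x ^ (q - 1)) (Set.Icc 0 M) x := fun x _ =>
    (Real.hasDerivAt_rpow_const (Or.inr hq)).hasDerivWithinAt
  have h2 : ∀ x ∈ Set.Icc (0 : ℝ) M, ‖q * x ^ (q - 1)‖ ≤ q * M ^ (q - 1) := by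
    intro x hx
    rw [Real.norm_eq_abs, abs_of_nonneg (mul_nonneg (by linarith) (Real.rpow_nonneg hx.1 _))]
    exact mul_le_mul_of_nonneg_left (Real.rpow_le_rpow hx.1 hx.2 (by linarith)) (by linarith)
  have h3 := (convex_Icc (0 : ℝ) M).norm_image_sub_le_of_norm_hasDerivWithin_le h1 h2
    (x := ‖b‖) (y := ‖a‖) ⟨norm_nonneg _, hb⟩ ⟨norm_nonneg _, ha⟩
  rw [Real.norm_eq_abs, Real.norm_eq_abs] at h3
  refine le_trans h3 ?_
  calc q * M ^ (q - 1) * |‖a‖ - ‖b‖| ≤ q * M ^ (q - 1) * ‖a - b‖ :=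
        mul_le_mul_of_nonneg_left (abs_norm_sub_norm_le a b)
          (mul_nonneg (by linarith) (Real.rpow_nonneg hM _))
    _ = q * ‖a - b‖ * M ^ (q - 1) := by ring

end Pool.Agent.KRC
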