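import Pool.Agent.KRC.Bas

/-!
# The pointwise derivative of `‖g‖ ^ q`
-/

set_option autoImplicit false

namespace Pool.Agent.KRC

open Complex MeasureTheory Set Filter Topology Metric

namespace PTLAux

/-- `‖a‖² - ‖a - t b‖² = t (2 Re (b conj a) - t ‖b‖²)`. -/
theorem sq_sub (a b : ℂ) (t : ℝ) :
    ‖a‖ ^ 2 - ‖a - t * b‖ ^ 2 = t * (2 * (b * (starRingEnd ℂ) a).re - t * ‖b‖ ^ 2) := by
  rw [Complex.sq_norm, Complex.sq_norm, Complex.sq_norm, Complex.normSq_apply,
    Complex.normSq_apply, Complex.normSq_apply]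
  simp
  ring

/-- The quotient `(exp u - 1)/u`. -/
noncomputable def psi (u : ℝ) : ℝ := dslope Real.exp 0 u

theorem psi_mul (u : ℝ) : Real.exp u - 1 = u * psi u := by
  have h := sub_smul_dslope Real.exp 0 u
  rw [sub_zero, smul_eq_mul, Real.exp_zero] at h
  exact h.symm

theorem psi_tend : Tendsto psi (𝓝 0) (𝓝 1) := by
  have h : ContinuousAt (dslope Real.exp 0) 0 :=
    continuousAt_dslope_same.2 Real.differentiableAt_exp
  have h2 : dslope Real.exp 0 0 = 1 := by
    rw [dslope_same, Real.deriv_exp, Real.exp_zero]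
  have h3 := h.tendsto
  rw [h2] at h3
  exact h3

/-- The quotient `log (1 + v)/v`. -/
noncomputable def chi (v : ℝ) : ℝ := dslope Real.log 1 (1 + v)

theorem chi_mul (v : ℝ) : Real.log (1 + v) = v * chi v := by
  have h := sub_smul_dslope Real.log 1 (1 + v)
  rw [smul_eq_mul, Real.log_one, sub_zero] at h
  rw [← h]
  unfold chi
  ring

theorem chi_tend : Tendsto chi (𝓝 0) (𝓝 1) := by
  have h : ContinuousAt (dslope Real.log 1) 1 :=
    continuousAt_dslope_same.2 (Real.differentiableAt_log one_ne_zero)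
  have h2 : dslope Real.log 1 1 = 1 := by
    rw [dslope_same, Real.deriv_log, inv_one]
  have h3 : Tendsto (fun v : ℝ => 1 + v) (𝓝 0) (𝓝 1) := by
    have : Tendsto (fun v : ℝ => 1 + v) (𝓝 0) (𝓝 (1 + 0)) :=
      tendsto_const_nhds.add tendsto_id
    simpa using this
  have h4 := h.tendsto.comp h3
  rw [h2] at h4
  exact h4

end PTLAux

open PTLAux in
theorem ptl : S_PTL := by
  intro a b qn en α β q hα hq hqn hen ha hb htq hte
  have hA : 0 < ‖α‖ := norm_pos_iff.2 hα
  have hec : Tendsto (fun n => ((en n : ℝ) : ℂ)) atTop (𝓝 0) := by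
    have h := (Complex.continuous_ofReal.tendsto 0).comp hte
    rw [Complex.ofReal_zero] at h
    exact h
  have hy : Tendsto (fun n => a n - (en n : ℂ) * b n) atTop (𝓝 α) := by
    have := ha.sub (hec.mul hb)
    simpa using this
  have hx' : Tendsto (fun n => ‖a n‖) atTop (𝓝 ‖α‖) := ha.norm
  have hy' : Tendsto (fun n => ‖a n - (en n : ℂ) * b n‖) atTop (𝓝 ‖α‖) := hy.norm
  -- the quotient of the squares
  set w : ℕ → ℝ := fun n => (2 * (b n * (starRingEnd ℂ) (a n)).re - en n * ‖b n‖ ^ 2) /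
    ‖a n - (en n : ℂ) * b n‖ ^ 2 with hw
  have hwt : Tendsto w atTop (𝓝 (2 * (β * (starRingEnd ℂ) α).re / ‖α‖ ^ 2)) := by
    have h1 : Tendsto (fun n => (b n * (starRingEnd ℂ) (a n)).re) atTop
        (𝓝 (β * (starRingEnd ℂ) α).re) := by
      have h2 : Tendsto (fun n => (starRingEnd ℂ) (a n)) atTop (𝓝 ((starRingEnd ℂ) α)) :=
        (Complex.continuous_conj.tendsto α).comp ha
      exact (Complex.continuous_re.tendsto _).comp (hb.mul h2)
    have h3 : Tendsto (fun n => en n * ‖b n‖ ^ 2) atTop (𝓝 (0 * ‖β‖ ^ 2)) :=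
      hte.mul (hb.norm.pow 2)
    have h4 := ((h1.const_mul 2).sub h3).div (hy'.pow 2) (by positivity)
    rw [zero_mul, sub_zero] at h4
    exact h4
  have hvt : Tendsto (fun n => en n * w n) atTop (𝓝 0) := by
    have := hte.mul hwt
    rw [zero_mul] at this
    exact this
  -- the logarithm
  set δ : ℕ → ℝ := fun n => 1 / 2 * (w n * chi (en n * w n)) with hδ
  have hδt : Tendsto δ atTop (𝓝 ((β * (starRingEnd ℂ) α).re / ‖α‖ ^ 2)) := by
    have h1 := (hwt.mul (chi_tend.comp hvt)).const_mul (1 / 2)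
    have h2 : 1 / 2 * (2 * (β * (starRingEnd ℂ) α).re / ‖α‖ ^ 2 * 1) =
        (β * (starRingEnd ℂ) α).re / ‖α‖ ^ 2 := by ring
    rw [h2] at h1
    exact h1
  have hut : Tendsto (fun n => qn n * (en n * δ n)) atTop (𝓝 0) := by
    have := htq.mul (hte.mul hδt)
    rw [zero_mul, mul_zero] at this
    exact this
  -- the main identity
  have hmain : ∀ᶠ n in atTop, ‖a n - (en n : ℂ) * b n‖ ^ qn n *
      (qn n * δ n * psi (qn n * (en n * δ n))) =
        (‖a n‖ ^ qn n - ‖a n - (en n : ℂ) * b n‖ ^ qn n) / en n := by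
    filter_upwards [hx'.eventually (lt_mem_nhds hA), hy'.eventually (lt_mem_nhds hA)] with n h1 h2
    have he : 0 < en n := hen n
    have h3 : 1 + en n * w n = ‖a n‖ ^ 2 / ‖a n - (en n : ℂ) * b n‖ ^ 2 := by
      have h4 := sq_sub (a n) (b n) (en n)
      have h5 : ‖a n - (en n : ℂ) * b n‖ ^ 2 ≠ 0 := by positivity
      have h6 : en n * w n = (‖a n‖ ^ 2 - ‖a n - (en n : ℂ) * b n‖ ^ 2) /
          ‖a n - (en n : ℂ) * b n‖ ^ 2 := by
        rw [h4, hw]
        ring
      rw [h6, sub_div, div_self h5]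
      ring
    have h4 : en n * δ n = Real.log ‖a n‖ - Real.log ‖a n - (en n : ℂ) * b n‖ := by
      have h5 : en n * δ n = 1 / 2 * Real.log (1 + en n * w n) := by
        rw [chi_mul, hδ]
        ring
      rw [h5, h3, Real.log_div (by positivity) (by positivity), Real.log_pow, Real.log_pow]
      push_cast
      ring
    have h5 : ‖a n‖ ^ qn n = ‖a n - (en n : ℂ) * b n‖ ^ qn n *
        Real.exp (qn n * (en n * δ n)) := by
      rw [Real.rpow_def_of_pos h1, Real.rpow_def_of_pos h2, ← Real.exp_add, h4]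
      congr 1
      ring
    rw [h5]
    have h6 := psi_mul (qn n * (en n * δ n))
    have h7 : ‖a n - (en n : ℂ) * b n‖ ^ qn n * Real.exp (qn n * (en n * δ n)) -
        ‖a n - (en n : ℂ) * b n‖ ^ qn n = ‖a n - (en n : ℂ) * b n‖ ^ qn n *
          (qn n * (en n * δ n) * psi (qn n * (en n * δ n))) := by
      rw [← h6]
      ring
    rw [h7, eq_div_iff he.ne']
    ring
  refine Tendsto.congr' hmain ?_
  have hpow : Tendsto (fun n => ‖a n - (en n : ℂ) * b n‖ ^ qn n) atTop (𝓝 (‖α‖ ^ q)) :=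
    hy'.rpow htq (Or.inl hA.ne')
  have hfin := hpow.mul ((htq.mul hδt).mul (psi_tend.comp hut))
  have he : ‖α‖ ^ q * (q * ((β * (starRingEnd ℂ) α).re / ‖α‖ ^ 2) * 1) =
      q * (‖α‖ ^ (q - 2) * (β * (starRingEnd ℂ) α).re) := by
    have h1 : ‖α‖ ^ (q - 2) = ‖α‖ ^ q / ‖α‖ ^ 2 := by
      rw [Real.rpow_sub hA]
      congr 1
      exact_mod_cast Real.rpow_natCast ‖α‖ 2
    rw [h1]
    ring
  rw [he] at hfin
  exact hfin

end Pool.Agent.KRC
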