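import Pool.Agent.KRC.Bas

/-!
# Module RG: dilation of the factor
-/

set_option autoImplicit false

namespace Pool.Agent.KRC

open Complex MeasureTheory Set Filter Topology Metric

namespace RGAux

/-- an analytic function on the disc is Lipschitz on smaller discs -/
theorem lip {h : ℂ → ℂ} (hh : DifferentiableOn ℂ h (ball 0 1)) {r : ℝ} (hr : r < 1) :
    ∃ C : ℝ, 0 ≤ C ∧ ∀ z w : ℂ, ‖z‖ ≤ r → ‖w‖ ≤ r → ‖h z - h w‖ ≤ C * ‖z - w‖ := by
  have hd : DifferentiableOn ℂ (deriv h) (ball 0 1) := hh.deriv isOpen_ball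
  obtain ⟨M, hM0, hM⟩ := Bas.bdd hd.continuousOn hr
  refine ⟨M, hM0, fun z w hz hw => ?_⟩
  refine Convex.norm_image_sub_le_of_norm_deriv_le (s := closedBall (0 : ℂ) r) ?_ ?_
    (convex_closedBall 0 r) (mem_closedBall_zero_iff.2 hw) (mem_closedBall_zero_iff.2 hz)
  · intro x hx
    exact hh.differentiableAt (isOpen_ball.mem_nhds (Bas.closedBall_sub hr hx))
  · intro x hx
    exact hM x (mem_closedBall_zero_iff.1 hx)

/-- polynomials are bounded and Lipschitz on the closed unit disc -/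
theorem pol (P : Polynomial ℂ) :
    ∃ C : ℝ, 0 ≤ C ∧ (∀ z : ℂ, ‖z‖ ≤ 1 → ‖P.eval z‖ ≤ C) ∧
      ∀ z w : ℂ, ‖z‖ ≤ 1 → ‖w‖ ≤ 1 → ‖P.eval z - P.eval w‖ ≤ C * ‖z - w‖ := by
  obtain ⟨M, hM⟩ := (isCompact_closedBall (0 : ℂ) 1).exists_bound_of_continuousOn
    P.continuous.continuousOn
  obtain ⟨M', hM'⟩ := (isCompact_closedBall (0 : ℂ) 1).exists_bound_of_continuousOn
    P.derivative.continuous.continuousOn
  have hC0 : (0 : ℝ) ≤ max (max M M') 0 := le_max_right _ _
  have hC1 : M ≤ max (max M M') 0 := (le_max_left _ _).trans (le_max_left _ _)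
  have hC2 : M' ≤ max (max M M') 0 := (le_max_right _ _).trans (le_max_left _ _)
  refine ⟨max (max M M') 0, hC0, fun z hz => (hM z (mem_closedBall_zero_iff.2 hz)).trans hC1,
    fun z w hz hw => ?_⟩
  refine Convex.norm_image_sub_le_of_norm_deriv_le (f := fun z => P.eval z)
    (s := closedBall (0 : ℂ) 1) ?_ ?_
    (convex_closedBall 0 1) (mem_closedBall_zero_iff.2 hw) (mem_closedBall_zero_iff.2 hz)
  · intro x _
    exact P.differentiableAt
  · intro x hx
    rw [Polynomial.deriv]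
    exact (hM' x hx).trans hC2

/-- the real part of a product with the conjugate -/
theorem re_mul_conj (v p : ℂ) : (p * v * (starRingEnd ℂ) p).re = ‖p‖ ^ 2 * v.re := by
  have h : p * v * (starRingEnd ℂ) p = ((‖p‖ ^ 2 : ℝ) : ℂ) * v := by
    have h1 : p * (starRingEnd ℂ) p = ((‖p‖ ^ 2 : ℝ) : ℂ) := by
      rw [mul_conj, normSq_eq_norm_sq]
    calc p * v * (starRingEnd ℂ) p = p * (starRingEnd ℂ) p * v := by ring
      _ = _ := by rw [h1]
  rw [h, re_ofReal_mul]

theorem re_ge (v : ℂ) (c : ℝ) (h : ‖v‖ ≤ c) : 0 ≤ (v + c).re := by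
  have h1 := abs_re_le_norm v
  have h2 := neg_abs_le v.re
  rw [add_re, ofReal_re]
  linarith

end RGAux

open RGAux

theorem rg : S_RG := by
  intro κ g k P N g₀ h₀ hκ0 hκ1 hF
  obtain ⟨dg, dh, eg, ek, ne, le⟩ := hF
  -- the radii
  set κ' : ℝ := (2 * κ + 1) / 3 with hκ'
  set κ₁ : ℝ := (κ + 2) / 3 with hκ₁
  have h1 : κ < κ' := by rw [hκ']; linarith
  have h2 : κ' < κ₁ := by rw [hκ', hκ₁]; linarith
  have h3 : κ₁ < 1 := by rw [hκ₁]; linarith
  have h4 : 0 < κ₁ := by rw [hκ₁]; linarith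
  have h5 : 0 < κ' := by rw [hκ']; linarith
  obtain ⟨Ch, hCh0, hCh⟩ := lip dh h3
  obtain ⟨CP, hCP0, hCPb, hCPl⟩ := pol P
  obtain ⟨CN, hCN0, hCNb, hCNl⟩ := pol N
  -- a lower bound of `P`
  obtain ⟨b, hb0, hb⟩ : ∃ b : ℝ, 0 < b ∧ ∀ z : ℂ, κ' ≤ ‖z‖ → ‖z‖ ≤ 1 → b ≤ ‖P.eval z‖ := by
    have hcomp : IsCompact ({z : ℂ | κ' ≤ ‖z‖} ∩ closedBall 0 1) :=
      (isCompact_closedBall (0 : ℂ) 1).inter_left (isClosed_le continuous_const continuous_norm)
    have hne : ({z : ℂ | κ' ≤ ‖z‖} ∩ closedBall (0 : ℂ) 1).Nonempty := by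
      refine ⟨1, ?_, ?_⟩
      · rw [mem_setOf_eq, norm_one]
        linarith
      · rw [mem_closedBall_zero_iff, norm_one]
    obtain ⟨z₀, hz₀, hmin⟩ := hcomp.exists_isMinOn hne
      (P.continuous.norm.continuousOn (s := {z : ℂ | κ' ≤ ‖z‖} ∩ closedBall (0 : ℂ) 1))
    refine ⟨‖P.eval z₀‖, ?_, fun z hz hz1 => ?_⟩
    · exact norm_pos_iff.2 (ne z₀ (lt_of_lt_of_le h1 hz₀.1))
    · exact hmin ⟨hz, mem_closedBall_zero_iff.2 hz1⟩
  set C : ℝ := Ch + 2 * CP * CN / b ^ 2 with hC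
  have hC2 : 0 ≤ 2 * CP * CN / b ^ 2 := by positivity
  refine ⟨C, κ' / κ₁, by rw [hC]; positivity, (div_lt_one h4).2 h2, ?_⟩
  intro r hr hr1 z hz
  have hr0 : 0 < r := lt_trans (by positivity) hr
  have hrr : 0 < 1 - r := by linarith
  have hnr : ‖(r : ℂ) * z‖ = r * ‖z‖ := by
    rw [norm_mul, norm_real, Real.norm_of_nonneg hr0.le]
  have hdz : ‖z - r * z‖ ≤ 1 - r := by
    have : z - r * z = ((1 - r : ℝ) : ℂ) * z := by
      push_cast
      ring
    rw [this, norm_mul, norm_real, Real.norm_of_nonneg hrr.le]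
    have := hz.2
    nlinarith [norm_nonneg z]
  rcases le_total ‖z‖ κ₁ with hz1 | hz1
  · -- near the inner circle
    have h6 : ‖h₀ (r * z) - h₀ z‖ ≤ Ch * (1 - r) := by
      have h7 : ‖(r : ℂ) * z‖ ≤ κ₁ := by
        rw [hnr]
        nlinarith [norm_nonneg z]
      have h8 := hCh (r * z) z h7 hz1
      rw [norm_sub_rev (↑r * z) z] at h8
      exact h8.trans (mul_le_mul_of_nonneg_left hdz hCh0)
    have h9 : ‖h₀ (r * z) - h₀ z‖ ≤ C * (1 - r) := by
      refine h6.trans (mul_le_mul_of_nonneg_right ?_ hrr.le)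
      rw [hC]
      linarith
    have h10 := re_ge _ _ h9
    have h11 : (N.eval z + P.eval z * (h₀ (r * z) + C * (1 - r))) * (starRingEnd ℂ) (P.eval z) =
        (N.eval z + P.eval z * h₀ z) * (starRingEnd ℂ) (P.eval z) +
        P.eval z * (h₀ (r * z) - h₀ z + (C * (1 - r) : ℝ)) * (starRingEnd ℂ) (P.eval z) := by
      push_cast
      ring
    rw [h11, add_re, re_mul_conj]
    have h12 := le z hz
    have h13 : 0 ≤ ‖P.eval z‖ ^ 2 := by positivity
    have h14 := mul_nonneg h13 h10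
    linarith
  · -- near the unit circle
    have h6 : κ' ≤ ‖(r : ℂ) * z‖ := by
      rw [hnr]
      rw [div_lt_iff₀ h4] at hr
      nlinarith
    have h7 : ‖(r : ℂ) * z‖ < 1 := by
      rw [hnr]
      have := hz.2
      nlinarith [norm_nonneg z]
    have hrz : (r : ℂ) * z ∈ An κ := ⟨lt_of_lt_of_le h1 h6, h7⟩
    have hPz : P.eval z ≠ 0 := ne z hz.1
    have hPr : P.eval (r * z) ≠ 0 := ne _ hrz.1
    have hbz : b ≤ ‖P.eval z‖ := hb z (by linarith) hz.2.le
    have hbr : b ≤ ‖P.eval (r * z)‖ := hb _ h6 h7.le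
    -- the inequality at `r z`
    have h8 : 0 ≤ (N.eval (r * z) / P.eval (r * z) + h₀ (r * z)).re := by
      have h9 := le _ hrz
      have h10 : (N.eval (r * z) + P.eval (r * z) * h₀ (r * z)) =
          P.eval (r * z) * (N.eval (r * z) / P.eval (r * z) + h₀ (r * z)) := by
        field_simp
      rw [h10, re_mul_conj] at h9
      have h11 : 0 < ‖P.eval (r * z)‖ ^ 2 := by
        have : 0 < ‖P.eval (r * z)‖ := norm_pos_iff.2 hPr
        positivity
      exact (mul_nonneg_iff_of_pos_left h11).1 h9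
    have h9 : ‖N.eval z / P.eval z - N.eval (r * z) / P.eval (r * z)‖ ≤ C * (1 - r) := by
      have h10 : N.eval z / P.eval z - N.eval (r * z) / P.eval (r * z) =
          ((N.eval z - N.eval (r * z)) * P.eval (r * z) -
            N.eval (r * z) * (P.eval z - P.eval (r * z))) / (P.eval z * P.eval (r * z)) := by
        field_simp
        ring
      have h11 : ‖(N.eval z - N.eval (r * z)) * P.eval (r * z) -
            N.eval (r * z) * (P.eval z - P.eval (r * z))‖ ≤ 2 * CP * CN * (1 - r) := by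
        have a1 : ‖N.eval z - N.eval (r * z)‖ ≤ CN * (1 - r) :=
          (hCNl z (r * z) hz.2.le h7.le).trans (mul_le_mul_of_nonneg_left hdz hCN0)
        have a2 : ‖P.eval z - P.eval (r * z)‖ ≤ CP * (1 - r) :=
          (hCPl z (r * z) hz.2.le h7.le).trans (mul_le_mul_of_nonneg_left hdz hCP0)
        have a3 := hCPb (r * z) h7.le
        have a4 := hCNb (r * z) h7.le
        calc _ ≤ ‖(N.eval z - N.eval (r * z)) * P.eval (r * z)‖ +
              ‖N.eval (r * z) * (P.eval z - P.eval (r * z))‖ := norm_sub_le _ _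
          _ ≤ CN * (1 - r) * CP + CN * (CP * (1 - r)) := by
              rw [norm_mul, norm_mul]
              exact add_le_add (mul_le_mul a1 a3 (norm_nonneg _) (by positivity))
                (mul_le_mul a4 a2 (norm_nonneg _) hCN0)
          _ = 2 * CP * CN * (1 - r) := by ring
      rw [h10, norm_div, norm_mul]
      have h12 : b ^ 2 ≤ ‖P.eval z‖ * ‖P.eval (r * z)‖ := by
        rw [sq]
        exact mul_le_mul hbz hbr hb0.le (norm_nonneg _)
      calc _ ≤ 2 * CP * CN * (1 - r) / b ^ 2 :=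
            div_le_div₀ (by positivity) h11 (by positivity) h12
        _ = 2 * CP * CN / b ^ 2 * (1 - r) := by ring
        _ ≤ C * (1 - r) := by
            refine mul_le_mul_of_nonneg_right ?_ hrr.le
            rw [hC]
            linarith
    have h10 := re_ge _ _ h9
    have h11 : N.eval z + P.eval z * (h₀ (r * z) + C * (1 - r)) =
        P.eval z * ((N.eval (r * z) / P.eval (r * z) + h₀ (r * z)) +
          (N.eval z / P.eval z - N.eval (r * z) / P.eval (r * z) + (C * (1 - r) : ℝ))) := by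
      have h12 : P.eval z * (N.eval z / P.eval z) = N.eval z := mul_div_cancel₀ _ hPz
      calc N.eval z + P.eval z * (h₀ (r * z) + C * (1 - r))
          = P.eval z * (N.eval z / P.eval z) + P.eval z * (h₀ (r * z) + C * (1 - r)) := by
            rw [h12]
        _ = _ := by
            push_cast
            ring
    rw [h11, re_mul_conj, add_re]
    have h12 : 0 ≤ ‖P.eval z‖ ^ 2 := by positivity
    exact mul_nonneg h12 (add_nonneg h8 h10)

end Pool.Agent.KRC
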