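import Pool.Agent.KRC.Bas

/-!
# The Korenblum constant along integer multiples: rigidity
-/

set_option autoImplicit false

namespace Pool.Agent.KRC

open Complex MeasureTheory Set Filter Topology Metric

theorem rig : S_RIG := by
  intro f g U hf hg hU hne hsub heq
  have hfA : AnalyticOnNhd ℂ f (ball 0 1) := hf.analyticOnNhd isOpen_ball
  have hgA : AnalyticOnNhd ℂ g (ball 0 1) := hg.analyticOnNhd isOpen_ball
  have hpre : IsPreconnected (ball (0 : ℂ) 1) := (convex_ball (0 : ℂ) 1).isPreconnected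
  by_cases h0 : ∀ z ∈ U, g z = 0
  · obtain ⟨z₁, hz₁⟩ := hne
    have hU1 : U ∈ 𝓝 z₁ := hU.mem_nhds hz₁
    have e1 := hgA.eqOn_zero_of_preconnected_of_eventuallyEq_zero hpre (hsub hz₁)
      (by filter_upwards [hU1] with z hz using h0 z hz)
    have e2 := hfA.eqOn_zero_of_preconnected_of_eventuallyEq_zero hpre (hsub hz₁)
      (by
        filter_upwards [hU1] with z hz
        have := heq z hz
        rw [h0 z hz, norm_zero, norm_eq_zero] at this
        simpa using this)
    refine ⟨1, norm_one, fun z hz => ?_⟩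
    have h1 := e1 hz
    have h2 := e2 hz
    simp only [Pi.zero_apply] at h1 h2
    rw [h1, h2, mul_zero]
  · push Not at h0
    obtain ⟨z₁, hz₁, hg1⟩ := h0
    have hU1 : U ∈ 𝓝 z₁ := hU.mem_nhds hz₁
    have hgc : ContinuousAt g z₁ := (hgA z₁ (hsub hz₁)).continuousAt
    have hne1 : ∀ᶠ z in 𝓝 z₁, g z ≠ 0 := hgc.eventually_ne hg1
    have hd : ∀ᶠ z in 𝓝 z₁, DifferentiableAt ℂ (fun z => f z / g z) z := by
      filter_upwards [hne1, hU1] with z hz hzU
      exact (hfA z (hsub hzU)).differentiableAt.div (hgA z (hsub hzU)).differentiableAt hz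
    have hn : ∀ z ∈ U, g z ≠ 0 → ‖f z / g z‖ = 1 := by
      intro z hz hgz
      rw [norm_div, heq z hz, div_self (norm_ne_zero_iff.2 hgz)]
    have hmax : IsLocalMax (norm ∘ fun z => f z / g z) z₁ := by
      filter_upwards [hne1, hU1] with z hz hzU
      simp only [Function.comp_apply]
      rw [hn z hzU hz, hn z₁ hz₁ hg1]
    have hev := Complex.eventually_eq_of_isLocalMax_norm hd hmax
    refine ⟨f z₁ / g z₁, hn z₁ hz₁ hg1, ?_⟩
    have hA2 : AnalyticOnNhd ℂ (fun z => f z₁ / g z₁ * g z) (ball 0 1) :=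
      (hg.const_mul _).analyticOnNhd isOpen_ball
    have h3 := hfA.eqOn_of_preconnected_of_eventuallyEq hA2 hpre (hsub hz₁) (by
      filter_upwards [hev, hne1] with z hz hgz
      rw [← hz]
      field_simp)
    exact fun z hz => h3 hz

end Pool.Agent.KRC
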