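import Pool.Agent.KRC.Bas

/-!
# Local bounds by the mean over an annulus, uniform in the exponent
-/

set_option autoImplicit false

namespace Pool.Agent.KRC

namespace SMVAux

open Filter Topology Metric MeasureTheory Real
open scoped ENNReal

/-- Sub-mean value property of `‖F‖ ^ p` on circles. -/
lemma circle_submean {F : ℂ → ℂ} {w : ℂ} {R : ℝ} (hR : 0 < R)
    (hF : AnalyticOnNhd ℂ F (closedBall w R)) {p : ℝ} (hp : 0 < p) :
    ‖F w‖ ^ p ≤ circleAverage (fun z => ‖F z‖ ^ p) w R := by
  by_cases h0 : F w = 0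
  · rw [h0, norm_zero, Real.zero_rpow hp.ne']
    apply circleAverage_nonneg_of_nonneg
    intro z _
    positivity
  have hR' : |R| = R := abs_of_pos hR
  have hF' : AnalyticOnNhd ℂ F (closedBall w |R|) := by rwa [hR']
  have hmer : MeromorphicOn F (sphere w |R|) :=
    (hF'.mono sphere_subset_closedBall).meromorphicOn
  -- Jensen formula
  have h1 : Real.log ‖F w‖ ≤ circleAverage (Real.log ‖F ·‖) w R := by
    rw [AnalyticOnNhd.circleAverage_log_norm hR.ne' hF' h0]
    have : 0 ≤ ∑ᶠ u, (MeromorphicOn.divisor F (closedBall w |R|) u : ℝ) * Real.log (R * ‖w - u‖⁻¹) := by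
      apply finsum_nonneg
      intro u
      by_cases hu : u ∈ closedBall w |R|
      · apply mul_nonneg
        · have := MeromorphicOn.AnalyticOnNhd.divisor_nonneg hF'
          exact_mod_cast this u
        · by_cases hwu : w = u
          · simp [hwu]
          apply Real.log_nonneg
          have hd : 0 < ‖w - u‖ := norm_pos_iff.mpr (sub_ne_zero.mpr hwu)
          rw [← div_eq_mul_inv, le_div_iff₀ hd, one_mul]
          rw [hR', mem_closedBall, dist_comm, dist_eq_norm] at hu
          exact hu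
      · rw [Function.locallyFinsuppWithin.apply_eq_zero_of_notMem _ hu]
        simp
    linarith
  have hint1 : CircleIntegrable (fun z => p * Real.log ‖F z‖) w R := by
    have := hmer.circleIntegrable_log_norm
    exact this.const_mul p
  -- the functions agree off the zeros
  have hcod : (fun z => Real.exp (p * Real.log ‖F z‖)) =ᶠ[codiscreteWithin (sphere w |R|)]
      (fun z => ‖F z‖ ^ p) := by
    have h := hF'.preimage_zero_mem_codiscreteWithin h0 (by simp)
      ((convex_closedBall w |R|).isConnected ⟨w, by simp⟩)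
    have h' := codiscreteWithin_mono (sphere_subset_closedBall (x := w) (ε := |R|)) h
    filter_upwards [h'] with z hz
    have hz' : 0 < ‖F z‖ := norm_pos_iff.mpr hz
    rw [Real.rpow_def_of_pos hz', mul_comm]
  have hcont : ContinuousOn (fun z => ‖F z‖ ^ p) (sphere w |R|) := by
    apply ContinuousOn.rpow_const
    · exact (hF'.continuousOn.mono sphere_subset_closedBall).norm
    · intro z _
      right
      exact hp.le
  have hint3 : CircleIntegrable (fun z => ‖F z‖ ^ p) w R := hcont.circleIntegrable'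
  have hint2 : CircleIntegrable (fun z => Real.exp (p * Real.log ‖F z‖)) w R :=
    hint3.congr_codiscreteWithin hcod.symm
  have h2 : Real.exp (circleAverage (fun z => p * Real.log ‖F z‖) w R) ≤
      circleAverage (fun z => Real.exp (p * Real.log ‖F z‖)) w R := by
    rw [circleAverage_eq_intervalAverage, circleAverage_eq_intervalAverage]
    have h3 : Set.uIoc 0 (2 * π) = Set.Ioc 0 (2 * π) := Set.uIoc_of_le (by positivity)
    rw [h3]
    refine ConvexOn.map_set_average_le (s := Set.univ) (g := Real.exp) convexOn_exp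
      Real.continuous_exp.continuousOn isClosed_univ ?_ ?_ ?_ ?_ ?_
    · simp [Real.pi_pos]
    · exact measure_Ioc_lt_top.ne
    · simp
    · rw [← h3]
      exact intervalIntegrable_iff.mp hint1
    · rw [← h3]
      exact intervalIntegrable_iff.mp hint2
  have h4 : circleAverage (fun z => p * Real.log ‖F z‖) w R = p * circleAverage (Real.log ‖F ·‖) w R := by
    have := circleAverage_fun_smul (f := fun z => Real.log ‖F z‖) (c := w) (R := R) (a := p)
    simpa [smul_eq_mul] using this
  rw [← circleAverage_congr_codiscreteWithin hcod hR.ne']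
  refine le_trans ?_ h2
  rw [h4, Real.rpow_def_of_pos (norm_pos_iff.mpr h0), mul_comm]
  exact Real.exp_le_exp.mpr (mul_le_mul_of_nonneg_left h1 hp.le)

lemma enorm_rpow (z : ℂ) {p : ℝ} (hp : 0 < p) : ‖z‖ₑ ^ p = ENNReal.ofReal (‖z‖ ^ p) := by
  rw [← ofReal_norm, ENNReal.ofReal_rpow_of_nonneg (norm_nonneg _) hp.le]

/-- The circle version in terms of lower integrals. -/
lemma circle_submean_lintegral {F : ℂ → ℂ} {w : ℂ} {R : ℝ} (hR : 0 < R)
    (hF : AnalyticOnNhd ℂ F (closedBall w R)) {p : ℝ} (hp : 0 < p) :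
    ENNReal.ofReal (2 * π) * ‖F w‖ₑ ^ p ≤
      ∫⁻ θ in Set.Ioo (-π) π, ‖F (circleMap w R θ)‖ₑ ^ p := by
  have h := circle_submean hR hF hp
  rw [circleAverage_eq_integral_add (-π)] at h
  have h1 : ∫ θ in (0:ℝ)..2 * π, ‖F (circleMap w R (θ + -π))‖ ^ p =
      ∫ θ in (-π)..π, ‖F (circleMap w R θ)‖ ^ p := by
    rw [intervalIntegral.integral_comp_add_right (fun θ => ‖F (circleMap w R θ)‖ ^ p)]
    congr 1
    · ring
    · ring
  rw [h1, smul_eq_mul, ← div_eq_inv_mul, le_div_iff₀ (by positivity)] at h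
  have hcont : Continuous (fun θ : ℝ => ‖F (circleMap w R θ)‖ ^ p) := by
    have h2 : Continuous (fun θ : ℝ => F (circleMap w R θ)) := by
      have h3 : ContinuousOn F (sphere w R) := hF.continuousOn.mono sphere_subset_closedBall
      exact h3.comp_continuous (continuous_circleMap w R) (fun θ => circleMap_mem_sphere w hR.le θ)
    exact h2.norm.rpow_const (fun _ => Or.inr hp.le)
  have h4 : ∫⁻ θ in Set.Ioo (-π) π, ‖F (circleMap w R θ)‖ₑ ^ p =
      ENNReal.ofReal (∫ θ in (-π)..π, ‖F (circleMap w R θ)‖ ^ p) := by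
    rw [intervalIntegral.integral_of_le (by linarith [Real.pi_pos]),
      integral_Ioc_eq_integral_Ioo, ofReal_integral_eq_lintegral_ofReal]
    · apply lintegral_congr
      intro θ
      rw [enorm_rpow _ hp]
    · have := hcont.intervalIntegrable (μ := volume) (-π) π
      rw [intervalIntegrable_iff_integrableOn_Ioo_of_le (by linarith [Real.pi_pos])] at this
      exact this
    · exact Eventually.of_forall fun θ => by positivity
  rw [h4, enorm_rpow _ hp, ← ENNReal.ofReal_mul (by positivity)]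
  apply ENNReal.ofReal_le_ofReal
  linarith

/-- Sub-mean value property of `‖F‖ ^ p` over discs. -/
lemma area_submean {F : ℂ → ℂ} {w : ℂ} {R : ℝ} (hR : 0 < R)
    (hF : AnalyticOnNhd ℂ F (closedBall w R)) {p : ℝ} (hp : 0 < p) :
    ENNReal.ofReal (π * R ^ 2) * ‖F w‖ₑ ^ p ≤ ∫⁻ z in ball w R, ‖F z‖ₑ ^ p := by
  classical
  set G : ℂ → ℝ≥0∞ := (ball w R).indicator (fun z => ‖F z‖ₑ ^ p) with hG
  have hGm : Measurable G := by
    have h1 : Measurable ((ball w R).indicator F) := by
      rw [← Set.piecewise_eq_indicator]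
      exact ContinuousOn.measurable_piecewise (hF.continuousOn.mono ball_subset_closedBall)
        continuousOn_const measurableSet_ball
    have h2 : G = fun z => ‖(ball w R).indicator F z‖ₑ ^ p := by
      ext z
      by_cases hz : z ∈ ball w R
      · simp [hG, hz]
      · simp [hG, hz, hp]
    rw [h2]
    fun_prop
  have h3 : ∫⁻ z in ball w R, ‖F z‖ₑ ^ p = ∫⁻ z, G (w + z) := by
    rw [lintegral_add_left_eq_self G w, hG, lintegral_indicator measurableSet_ball]
  rw [h3, ← Complex.lintegral_comp_polarCoord_symm]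
  have hGm2 : Measurable (fun p : ℝ × ℝ => ENNReal.ofReal p.1 • G (w + Complex.polarCoord.symm p)) := by
    simp only [Complex.polarCoord_symm_apply, smul_eq_mul]
    fun_prop
  rw [polarCoord_target, Measure.volume_eq_prod, ← Measure.prod_restrict, lintegral_prod _ hGm2.aemeasurable]
  have h5 : ∀ r ∈ Set.Ioo 0 R, ENNReal.ofReal r * (ENNReal.ofReal (2 * π) * ‖F w‖ₑ ^ p) ≤
      ∫⁻ θ in Set.Ioo (-π) π, ENNReal.ofReal (r, θ).1 • G (w + Complex.polarCoord.symm (r, θ)) := by
    intro r hr
    simp only [smul_eq_mul]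
    rw [lintegral_const_mul' _ _ (by simp)]
    gcongr
    refine (circle_submean_lintegral hr.1 (hF.mono (closedBall_subset_closedBall hr.2.le)) hp).trans ?_
    apply lintegral_mono
    intro θ
    have h6 : w + Complex.polarCoord.symm (r, θ) = circleMap w r θ := by
      simp only [Complex.polarCoord_symm_apply, circleMap, Complex.exp_mul_I]
      push_cast
      ring
    simp only [h6]
    simp only [hG]
    rw [Set.indicator_of_mem]
    rw [mem_ball, dist_eq_norm, circleMap_sub_center, norm_circleMap_zero, abs_of_pos hr.1]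
    exact hr.2
  calc ENNReal.ofReal (π * R ^ 2) * ‖F w‖ₑ ^ p
      = ∫⁻ r in Set.Ioo 0 R, ENNReal.ofReal r * (ENNReal.ofReal (2 * π) * ‖F w‖ₑ ^ p) := by
        rw [lintegral_mul_const _ (by fun_prop)]
        have h7 : ∫⁻ r in Set.Ioo 0 R, ENNReal.ofReal r = ENNReal.ofReal (R ^ 2 / 2) := by
          rw [← ofReal_integral_eq_lintegral_ofReal]
          · rw [← integral_Ioc_eq_integral_Ioo, ← intervalIntegral.integral_of_le hR.le, integral_id]
            simp
          · have : IntervalIntegrable (fun r : ℝ => r) volume 0 R := continuous_id.intervalIntegrable _ _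
            rw [intervalIntegrable_iff_integrableOn_Ioo_of_le hR.le] at this
            exact this
          · refine (ae_restrict_mem measurableSet_Ioo).mono ?_
            intro r hr
            exact hr.1.le
        rw [h7, ← mul_assoc, ← ENNReal.ofReal_mul (by positivity)]
        congr 2
        ring
    _ ≤ ∫⁻ r in Set.Ioo 0 R, ∫⁻ θ in Set.Ioo (-π) π, ENNReal.ofReal (r, θ).1 • G (w + Complex.polarCoord.symm (r, θ)) := by
        apply setLIntegral_mono' measurableSet_Ioo h5
    _ ≤ ∫⁻ r in Set.Ioi 0, ∫⁻ θ in Set.Ioo (-π) π, ENNReal.ofReal (r, θ).1 • G (w + Complex.polarCoord.symm (r, θ)) := by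
        apply lintegral_mono_set
        exact Set.Ioo_subset_Ioi_self

/-- the bound on the circle of radius `ρ` -/
theorem onCircle {a ρ b R : ℝ} (hR : 0 < R) (h1 : a + R < ρ) (h2 : ρ + R < b) (hb : b ≤ 1)
    {q M : ℝ} {g : ℂ → ℂ} (hq : 1 ≤ q) (hg : DifferentiableOn ℂ g (ball 0 1))
    (hi : IntegrableOn (fun z => ‖g z‖ ^ q) {z : ℂ | a < ‖z‖ ∧ ‖z‖ < b})
    (hM : ∫ z in {z : ℂ | a < ‖z‖ ∧ ‖z‖ < b}, ‖g z‖ ^ q ≤ M) {z : ℂ} (hz : ‖z‖ = ρ) :
    π * R ^ 2 * ‖g z‖ ^ q ≤ M := by
  have hq0 : 0 < q := by linarith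
  have hsub : ∀ w ∈ closedBall z R, a < ‖w‖ ∧ ‖w‖ < b := by
    intro w hw
    rw [mem_closedBall, dist_eq_norm] at hw
    constructor
    · have := norm_sub_norm_le z w
      rw [norm_sub_rev] at this
      linarith
    · have := norm_sub_norm_le w z
      linarith
  have hA : AnalyticOnNhd ℂ g (closedBall z R) :=
    (hg.analyticOnNhd isOpen_ball).mono fun w hw => by
      rw [mem_ball_zero_iff]
      exact (hsub w hw).2.trans_le hb
  have key := area_submean hR hA hq0
  have h3 : ∫⁻ w in ball z R, ‖g w‖ₑ ^ q ≤ ∫⁻ w in {w : ℂ | a < ‖w‖ ∧ ‖w‖ < b}, ‖g w‖ₑ ^ q :=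
    lintegral_mono_set fun w hw => hsub w (ball_subset_closedBall hw)
  have h4 : ∫⁻ w in {w : ℂ | a < ‖w‖ ∧ ‖w‖ < b}, ‖g w‖ₑ ^ q =
      ENNReal.ofReal (∫ w in {w : ℂ | a < ‖w‖ ∧ ‖w‖ < b}, ‖g w‖ ^ q) := by
    rw [ofReal_integral_eq_lintegral_ofReal hi (Eventually.of_forall fun w => by positivity)]
    exact lintegral_congr fun w => enorm_rpow _ hq0
  have hM0 : 0 ≤ M := le_trans (integral_nonneg fun w => by positivity) hM
  have h5 : ENNReal.ofReal (π * R ^ 2 * ‖g z‖ ^ q) ≤ ENNReal.ofReal M := by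
    rw [ENNReal.ofReal_mul (by positivity), ← enorm_rpow _ hq0]
    exact key.trans (h3.trans (h4.le.trans (ENNReal.ofReal_le_ofReal hM)))
  exact (ENNReal.ofReal_le_ofReal_iff hM0).1 h5

end SMVAux

open Metric MeasureTheory Real in
theorem smv : S_SMV := by
  intro a ρ b ha haρ hρb hb
  set R : ℝ := min ((ρ - a) / 2) ((b - ρ) / 2) with hRd
  have hR : 0 < R := lt_min (by linarith) (by linarith)
  have h1 : a + R < ρ := by
    have := min_le_left ((ρ - a) / 2) ((b - ρ) / 2)
    rw [← hRd] at this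
    linarith
  have h2 : ρ + R < b := by
    have := min_le_right ((ρ - a) / 2) ((b - ρ) / 2)
    rw [← hRd] at this
    linarith
  have hρ : 0 < ρ := lt_of_le_of_lt ha haρ
  have hρ1 : ρ < 1 := hρb.trans_le hb
  have hP : 0 < π * R ^ 2 := by positivity
  refine ⟨(π * R ^ 2)⁻¹, by positivity, ?_⟩
  intro q M g hq hg hi hM z hz
  have hq0 : 0 < q := by linarith
  have hM0 : 0 ≤ M := le_trans (integral_nonneg fun w => by positivity) hM
  have hCM : 0 ≤ (π * R ^ 2)⁻¹ * M := by positivity
  have hc : ∀ w : ℂ, ‖w‖ = ρ → ‖g w‖ ^ q ≤ (π * R ^ 2)⁻¹ * M := by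
    intro w hw
    have := SMVAux.onCircle hR h1 h2 hb hq hg hi hM hw
    rw [← div_eq_inv_mul, le_div_iff₀ hP]
    linarith
  have hd : DiffContOnCl ℂ g (ball 0 ρ) := by
    refine DifferentiableOn.diffContOnCl ?_
    rw [closure_ball _ hρ.ne']
    exact hg.mono (closedBall_subset_ball hρ1)
  have hf : ∀ w ∈ frontier (ball (0 : ℂ) ρ), ‖g w‖ ≤ ((π * R ^ 2)⁻¹ * M) ^ q⁻¹ := by
    intro w hw
    rw [frontier_ball _ hρ.ne', mem_sphere_zero_iff_norm] at hw
    exact (Real.le_rpow_inv_iff_of_pos (norm_nonneg _) hCM hq0).2 (hc w hw)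
  have hz' : z ∈ closure (ball (0 : ℂ) ρ) := by
    rw [closure_ball _ hρ.ne']
    exact mem_closedBall_zero_iff.2 hz
  have := Complex.norm_le_of_forall_mem_frontier_norm_le isBounded_ball hd hf hz'
  exact (Real.le_rpow_inv_iff_of_pos (norm_nonneg _) hCM hq0).1 this

end Pool.Agent.KRC
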