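import Pool.Agent.KRC.Bas

/-!
# The Korenblum constant along integer multiples: first kind, multiples
-/

set_option autoImplicit false

namespace Pool.Agent.KRC

open Complex MeasureTheory Set Filter Topology Metric
open Pool.Agent.KRB (Berg nrm KP kap)

namespace STAAux

/-- Bernoulli in two variables -/
theorem phi (n : ℕ) {x y : ℝ} (hx : 0 ≤ x) (hy : 0 ≤ y) :
    0 ≤ x ^ (n + 1) - y ^ (n + 1) - (n + 1) * y ^ n * (x - y) := by
  induction n with
  | zero => simp
  | succ n ih =>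
    have e : x ^ (n + 1 + 1) - y ^ (n + 1 + 1) - ((n + 1 : ℕ) + 1) * y ^ (n + 1) * (x - y) =
        x * (x ^ (n + 1) - y ^ (n + 1) - (n + 1) * y ^ n * (x - y)) +
          (n + 1) * y ^ n * (x - y) ^ 2 := by
      push_cast
      ring
    rw [e]
    positivity

theorem phi_pos (n : ℕ) {x y : ℝ} (hy : 0 ≤ y) (hxy : y < x) :
    0 < x ^ (n + 2) - y ^ (n + 2) - (n + 2) * y ^ (n + 1) * (x - y) := by
  have hx : 0 < x := hy.trans_lt hxy
  induction n with
  | zero =>
    have e : x ^ (0 + 2) - y ^ (0 + 2) - ((0 : ℕ) + 2) * y ^ (0 + 1) * (x - y) = (x - y) ^ 2 := by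
      push_cast
      ring
    rw [e]
    have : 0 < x - y := sub_pos.2 hxy
    positivity
  | succ n ih =>
    have e : x ^ (n + 1 + 2) - y ^ (n + 1 + 2) - ((n + 1 : ℕ) + 2) * y ^ (n + 1 + 1) * (x - y) =
        x * (x ^ (n + 2) - y ^ (n + 2) - (n + 2) * y ^ (n + 1) * (x - y)) +
          (n + 2) * y ^ (n + 1) * (x - y) ^ 2 := by
      push_cast
      ring
    rw [e]
    positivity

/-- `1 - p t ≤ (1 + t)^{-p}` -/
theorem bern {t p : ℝ} (ht : 0 ≤ t) (hp : 1 ≤ p) : 1 - p * t ≤ ((1 + t)⁻¹) ^ p := by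
  have h1 : 0 < 1 + t := by linarith
  have h2 : (1 + t)⁻¹ = 1 + -(t / (1 + t)) := by
    field_simp
    ring
  have h3 : t / (1 + t) ≤ 1 := by
    rw [div_le_one h1]
    linarith
  have h4 : t / (1 + t) ≤ t := div_le_self ht (by linarith)
  rw [h2]
  refine le_trans ?_ (one_add_mul_self_le_rpow_one_add (by linarith) hp)
  nlinarith [mul_le_mul_of_nonneg_left h4 (by linarith : (0 : ℝ) ≤ p)]

theorem pow_comm' {a : ℝ} (ha : 0 ≤ a) (p : ℝ) (n : ℕ) : (a ^ n) ^ p = (a ^ p) ^ n := by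
  rw [← Real.rpow_natCast, ← Real.rpow_mul ha, mul_comm, Real.rpow_mul ha, Real.rpow_natCast]

/-- the domination extends to slightly smaller radii up to a factor -/
theorem dom (hE : S_EXT) {κ : ℝ} (h0 : 0 ≤ κ) (h1 : κ < 1) {f g : ℂ → ℂ}
    (df : DifferentiableOn ℂ f (ball 0 1)) (dg : DifferentiableOn ℂ g (ball 0 1))
    (le : ∀ z ∈ An κ, ‖f z‖ ≤ ‖g z‖) (nz : ∃ z ∈ ball (0 : ℂ) 1, g z ≠ 0) :
    ∃ C r₀ : ℝ, 0 ≤ C ∧ 0 < r₀ ∧ r₀ < 1 ∧ ∀ r : ℝ, r₀ < r → r < 1 → ∀ w : ℂ, r * κ < ‖w‖ →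
      ‖w‖ < r → ‖f w‖ ≤ (1 + C * (1 - r)) * ‖g w‖ := by
  rcases h0.eq_or_lt with h | h
  · subst h
    refine ⟨0, 1 / 2, le_rfl, by norm_num, by norm_num, fun r _ hr w hw hw' => ?_⟩
    have := le w ⟨by simpa using hw, hw'.trans hr⟩
    simpa using this
  · obtain ⟨C, δ, hC, hδ, hδκ, H⟩ := hE κ f g h h1 df dg nz le
    refine ⟨C, 1 - δ / κ, hC, ?_, ?_, fun r hr0 hr w hw hw' => ?_⟩
    · rw [sub_pos, div_lt_one h]
      exact hδκ
    · have : 0 < δ / κ := by positivity
      linarith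
    · have hg0 := norm_nonneg (g w)
      by_cases hk : ‖w‖ ≤ κ
      · have h2 : κ - δ < ‖w‖ := by
          have : (1 - δ / κ) * κ < r * κ := mul_lt_mul_of_pos_right hr0 h
          rw [sub_mul, div_mul_cancel₀ _ h.ne', one_mul] at this
          linarith
        refine (H w h2 hk).trans ?_
        have h5 : κ - ‖w‖ ≤ 1 - r := by
          nlinarith [mul_nonneg (sub_nonneg.2 h1.le) (sub_nonneg.2 hr.le)]
        exact mul_le_mul_of_nonneg_right (by linarith [mul_le_mul_of_nonneg_left h5 hC]) hg0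
      · have := le w ⟨not_le.1 hk, hw'.trans hr⟩
        have h3 : 0 ≤ C * (1 - r) := mul_nonneg hC (by linarith)
        nlinarith

end STAAux

open STAAux in
theorem sta (hD : S_DIL) (hE : S_EXT) (hW : S_WT) : S_STA := by
  intro p κ m hp hm h0 h1 hK f g H
  obtain ⟨n, rfl⟩ : ∃ n, m = n + 2 := ⟨m - 2, by omega⟩
  have hp0 : 0 < p := by linarith
  have hq : 1 ≤ ((n + 2 : ℕ) : ℝ) * p := by
    push_cast
    have : (0 : ℝ) ≤ n := Nat.cast_nonneg n
    nlinarith
  set q : ℝ := ((n + 2 : ℕ) : ℝ) * p with hqd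
  have hfc := H.df.continuousOn
  have hgc := H.dg.continuousOn
  -- the functions
  set x : ℂ → ℝ := fun z => ‖g z‖ ^ p with hx
  set y : ℂ → ℝ := fun z => ‖f z‖ ^ p with hy
  have hxc : ContinuousOn x (ball 0 1) := Bas.pow_cont hgc hp0.le
  have hyc : ContinuousOn y (ball 0 1) := Bas.pow_cont hfc hp0.le
  have hx0 : ∀ z, 0 ≤ x z := fun z => by positivity
  have hy0 : ∀ z, 0 ≤ y z := fun z => by positivity
  have hxq : ∀ z, ‖g z‖ ^ q = x z ^ (n + 2) := fun z => by
    rw [hqd, mul_comm, Real.rpow_mul_natCast (norm_nonneg _)]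
  have hyq : ∀ z, ‖f z‖ ^ q = y z ^ (n + 2) := fun z => by
    rw [hqd, mul_comm, Real.rpow_mul_natCast (norm_nonneg _)]
  obtain ⟨z₁, hz₁, hlt⟩ := H.lt
  have nz : ∃ z ∈ ball (0 : ℂ) 1, g z ≠ 0 := ⟨z₁, Bas.An_sub κ hz₁, fun h => by
    rw [h, norm_zero] at hlt
    exact absurd hlt (not_lt.2 (norm_nonneg _))⟩
  obtain ⟨C, r₀, hC, hr00, hr01, hdom⟩ := dom hE h0 h1 H.df H.dg H.le nz
  -- main inequality
  have main : ∀ r : ℝ, r₀ < r → r < 1 →
      (1 - p * (C * (1 - r))) * ∫ w in ball (0 : ℂ) r, y w ^ (n + 2) ≤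
        ∫ w in ball (0 : ℂ) r, x w * y w ^ (n + 1) := by
    intro r hr0 hr1
    have ht : 0 ≤ C * (1 - r) := mul_nonneg hC (by linarith)
    set t : ℝ := C * (1 - r) with htd
    have h1t : 0 < 1 + t := by linarith
    have key := hD p κ r (fun z => ((1 + t : ℝ) : ℂ)⁻¹ * f z ^ (n + 2))
      (fun z => g z * f z ^ (n + 1)) hp0 hK (hr00.trans hr0) hr1
      ((H.df.pow _).const_mul _) (H.dg.mul (H.df.pow _)) ?_
    · have e1 : ∀ w : ℂ, ‖((1 + t : ℝ) : ℂ)⁻¹ * f w ^ (n + 2)‖ ^ p =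
          ((1 + t)⁻¹) ^ p * y w ^ (n + 2) := by
        intro w
        rw [norm_mul, norm_inv, norm_pow, Complex.norm_real, Real.norm_of_nonneg h1t.le,
          Real.mul_rpow (by positivity) (by positivity), pow_comm' (norm_nonneg _)]
      have e2 : ∀ w : ℂ, ‖g w * f w ^ (n + 1)‖ ^ p = x w * y w ^ (n + 1) := by
        intro w
        rw [norm_mul, norm_pow, Real.mul_rpow (by positivity) (by positivity),
          pow_comm' (norm_nonneg _)]
      simp only [e1, e2] at key
      rw [integral_const_mul] at key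
      refine le_trans ?_ key
      refine mul_le_mul_of_nonneg_right (bern ht hp) ?_
      exact integral_nonneg fun w => by positivity
    · intro w hw hw'
      have h2 := hdom r hr0 hr1 w hw hw'
      show ‖((1 + t : ℝ) : ℂ)⁻¹ * f w ^ (n + 2)‖ ≤ ‖g w * f w ^ (n + 1)‖
      rw [norm_mul, norm_mul, norm_inv, norm_pow, norm_pow, Complex.norm_real,
        Real.norm_of_nonneg h1t.le, pow_succ' ‖f w‖ (n + 1), ← mul_assoc]
      refine mul_le_mul_of_nonneg_right ?_ (by positivity)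
      rw [inv_mul_le_iff₀ h1t]
      exact h2
  -- integrability of the weight
  have hwt : IntegrableOn (fun z => (1 - ‖z‖) * ‖f z‖ ^ q) (ball 0 1) := by
    have hw := hW.1 κ q f g h0 h1 hq H
    have hmeas : AEStronglyMeasurable (fun z : ℂ => (1 - ‖z‖) * ‖f z‖ ^ q)
        (volume.restrict (ball 0 1)) :=
      Bas.meas ((continuousOn_const.sub continuous_norm.continuousOn).mul
        (Bas.pow_cont hfc (by linarith)))
    have hU : ball (0 : ℂ) 1 = closedBall 0 κ ∪ An κ := by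
      ext z
      simp only [mem_ball_zero_iff, mem_union, mem_closedBall_zero_iff, An, mem_ofPred_eq]
      constructor
      · intro hz
        by_cases hk : ‖z‖ ≤ κ
        · exact Or.inl hk
        · exact Or.inr ⟨not_le.1 hk, hz⟩
      · rintro (hz | hz)
        · exact hz.trans_lt h1
        · exact hz.2
    rw [hU, integrableOn_union]
    refine ⟨Bas.intOn_of_cont ((continuousOn_const.sub continuous_norm.continuousOn).mul
        (Bas.pow_cont hfc (by linarith))) h1, ?_⟩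
    refine Integrable.mono' (hw.mono_set (Bas.An_sub κ)).norm
      (hmeas.mono_measure (Measure.restrict_mono (Bas.An_sub κ) le_rfl)) ?_
    filter_upwards [ae_restrict_mem (Bas.isOpen_An κ).measurableSet] with z hz
    have h2 : 0 ≤ 1 - ‖z‖ := by linarith [hz.2]
    rw [norm_mul, norm_mul, Real.norm_of_nonneg h2]
    refine mul_le_mul_of_nonneg_left ?_ h2
    rw [Real.norm_of_nonneg (by positivity), Real.norm_of_nonneg (by positivity)]
    exact Real.rpow_le_rpow (norm_nonneg _) (H.le z hz) (by linarith)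
  -- the sequence of radii
  set r : ℕ → ℝ := fun k => 1 - 1 / ((k : ℝ) + 2) with hr
  have hr1 : ∀ k, r k < 1 := fun k => by
    have : 0 < 1 / ((k : ℝ) + 2) := by positivity
    simp only [hr]
    linarith
  have hrt : Tendsto r atTop (𝓝 1) := by
    have h2 : Tendsto (fun k : ℕ => 1 / ((k : ℝ) + 2)) atTop (𝓝 0) := by
      have h3 : Tendsto (fun k : ℕ => 1 / ((k : ℝ) + 1)) atTop (𝓝 0) :=
        tendsto_one_div_add_atTop_nhds_zero_nat
      refine squeeze_zero (fun k => by positivity) (fun k => ?_) h3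
      gcongr
      norm_num
    simpa [hr] using h2.const_sub 1
  have hz0 : Tendsto (fun k => (1 - r k) * ∫ w in ball (0 : ℂ) (r k), y w ^ (n + 2)) atTop
      (𝓝 0) := by
    have e : ∀ k, (1 - r k) * ∫ w in ball (0 : ℂ) (r k), y w ^ (n + 2) =
        ∫ w in ball (0 : ℂ) 1, (ball (0 : ℂ) (r k)).indicator
          (fun w => (1 - r k) * ‖f w‖ ^ q) w := by
      intro k
      rw [setIntegral_indicator measurableSet_ball,
        inter_eq_right.2 (ball_subset_ball (hr1 k).le), ← integral_const_mul]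
      simp only [hyq]
    simp_rw [e]
    have h4 : (0 : ℝ) = ∫ w in ball (0 : ℂ) 1, (0 : ℝ) := by simp
    rw [h4]
    refine tendsto_integral_of_dominated_convergence (fun z => (1 - ‖z‖) * ‖f z‖ ^ q) ?_ hwt ?_ ?_
    · intro k
      exact ((Bas.norm_pow_meas hfc q).const_mul _).indicator measurableSet_ball
    · intro k
      filter_upwards [ae_restrict_mem measurableSet_ball] with z hz
      rw [mem_ball_zero_iff] at hz
      by_cases hzk : z ∈ ball (0 : ℂ) (r k)
      · rw [indicator_of_mem hzk, Real.norm_of_nonneg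
          (mul_nonneg (by linarith [hr1 k]) (by positivity))]
        rw [mem_ball_zero_iff] at hzk
        gcongr
      · rw [indicator_of_notMem hzk, norm_zero]
        exact mul_nonneg (by linarith) (by positivity)
    · filter_upwards [ae_restrict_mem measurableSet_ball] with z hz
      rw [mem_ball_zero_iff] at hz
      have h5 : Tendsto (fun k => (1 - r k) * ‖f z‖ ^ q) atTop (𝓝 0) := by
        have := (hrt.const_sub 1).mul_const (‖f z‖ ^ q)
        simpa using this
      refine h5.congr' ?_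
      filter_upwards [hrt.eventually (lt_mem_nhds hz)] with k hk
      rw [indicator_of_mem (mem_ball_zero_iff.2 hk)]
  -- the function Φ
  set Φ : ℂ → ℝ := fun z => x z ^ (n + 2) - y z ^ (n + 2) -
    ((n : ℝ) + 2) * y z ^ (n + 1) * (x z - y z) with hΦ
  have hΦc : ContinuousOn Φ (ball 0 1) :=
    ((hxc.pow _).sub (hyc.pow _)).sub ((continuousOn_const.mul (hyc.pow _)).mul (hxc.sub hyc))
  have hΦ0 : ∀ z, 0 ≤ Φ z := fun z => by
    have := phi (n + 1) (hx0 z) (hy0 z)
    push_cast at this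
    simp only [hΦ]
    convert this using 3
    ring
  have hz₁' : 0 < Φ z₁ := phi_pos n (hy0 z₁) (by
    simp only [hx, hy]
    exact Real.rpow_lt_rpow (norm_nonneg _) hlt hp0)
  obtain ⟨r₁, hr₁, hr₁'⟩ := exists_between hz₁.2
  have hη : 0 < ∫ z in ball (0 : ℂ) r₁, Φ z := by
    rw [setIntegral_pos_iff_support_of_nonneg_ae (Eventually.of_forall hΦ0)
      ((Bas.intOn_of_cont hΦc hr₁').mono_set ball_subset_closedBall)]
    have hO : IsOpen (ball (0 : ℂ) r₁ ∩ Φ ⁻¹' Ioi 0) :=
      (hΦc.mono (ball_subset_ball hr₁'.le)).isOpen_inter_preimage isOpen_ball isOpen_Ioi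
    refine (hO.measure_pos volume ⟨z₁, mem_ball_zero_iff.2 hr₁, hz₁'⟩).trans_le
      (measure_mono ?_)
    rintro z ⟨hz, hz'⟩
    exact ⟨(mem_Ioi.1 hz').ne', hz⟩
  set η : ℝ := ∫ z in ball (0 : ℂ) r₁, Φ z with hηd
  -- lower bound
  have low : ∀ᶠ k in atTop, η - ((n : ℝ) + 2) * (p * C) *
      ((1 - r k) * ∫ w in ball (0 : ℂ) (r k), y w ^ (n + 2)) ≤
      ∫ z in ball (0 : ℂ) (r k), Dp q f g z := by
    filter_upwards [hrt.eventually (lt_mem_nhds hr01), hrt.eventually (lt_mem_nhds hr₁')]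
      with k hk hk'
    have hm1 := main (r k) hk (hr1 k)
    have hiy : IntegrableOn (fun w => y w ^ (n + 2)) (ball 0 (r k)) :=
      (Bas.intOn_of_cont (hyc.pow _) (hr1 k)).mono_set ball_subset_closedBall
    have hixy : IntegrableOn (fun w => x w * y w ^ (n + 1)) (ball 0 (r k)) :=
      (Bas.intOn_of_cont (hxc.mul (hyc.pow _)) (hr1 k)).mono_set ball_subset_closedBall
    have hiΦ : IntegrableOn Φ (ball 0 (r k)) :=
      (Bas.intOn_of_cont hΦc (hr1 k)).mono_set ball_subset_closedBall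
    have e3 : ∫ z in ball (0 : ℂ) (r k), Dp q f g z = (∫ z in ball (0 : ℂ) (r k), Φ z) +
        ((n : ℝ) + 2) * ((∫ z in ball (0 : ℂ) (r k), x z * y z ^ (n + 1)) -
          ∫ z in ball (0 : ℂ) (r k), y z ^ (n + 2)) := by
      have hsub : IntegrableOn (fun z => ((n : ℝ) + 2) *
          (x z * y z ^ (n + 1) - y z ^ (n + 2))) (ball 0 (r k)) := (hixy.sub hiy).const_mul _
      rw [← integral_sub hixy hiy, ← integral_const_mul, ← integral_add hiΦ hsub]
      refine integral_congr_ae (Eventually.of_forall fun z => ?_)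
      simp only [Dp, hxq, hyq, hΦ]
      ring
    have e4 : η ≤ ∫ z in ball (0 : ℂ) (r k), Φ z :=
      setIntegral_mono_set hiΦ (Eventually.of_forall hΦ0)
        (ball_subset_ball hk'.le).eventuallyLE
    rw [e3]
    have h6 : (0 : ℝ) ≤ (n : ℝ) + 2 := by positivity
    nlinarith [mul_le_mul_of_nonneg_left hm1 h6]
  have hlim := (hz0.const_mul (((n : ℝ) + 2) * (p * C))).const_sub η
  have hlim2 := Bas.tendsto_int H.int (fun k => (hr1 k).le) hrt
  have h7 := le_of_tendsto_of_tendsto hlim hlim2 low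
  have h8 := H.nonpos
  rw [mul_zero, sub_zero] at h7
  linarith

end Pool.Agent.KRC
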