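import Pool.Agent.KRC.Bas

/-!
# The Korenblum constant along integer multiples: the second kind, multiples
-/

set_option autoImplicit false

namespace Pool.Agent.KRC

open Complex MeasureTheory Set Filter Topology Metric

namespace STBAux

theorem re_fac (a b P : ℂ) : (a * b * (starRingEnd ℂ) (P * a)).re =
    ‖a‖ ^ 2 * (b * (starRingEnd ℂ) P).re := by
  have h : a * b * (starRingEnd ℂ) (P * a) = ((normSq a : ℝ) : ℂ) * (b * (starRingEnd ℂ) P) := by
    rw [map_mul, ← mul_conj]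
    ring
  rw [h, re_ofReal_mul, normSq_eq_norm_sq]

theorem re_add (N P h : ℂ) (C r : ℝ) : ((N + P * (h + C * (1 - r))) * (starRingEnd ℂ) P).re =
    ((N + P * h) * (starRingEnd ℂ) P).re + C * (1 - r) * ‖P‖ ^ 2 := by
  have h1 : (N + P * (h + C * (1 - r))) * (starRingEnd ℂ) P =
      (N + P * h) * (starRingEnd ℂ) P + ((C * (1 - r) * normSq P : ℝ) : ℂ) := by
    push_cast
    rw [← mul_conj]
    ring
  rw [h1, Complex.add_re, ofReal_re, normSq_eq_norm_sq]

/-- the lower bound for the first factor -/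
theorem low {κ : ℝ} {g k : ℂ → ℂ} {P N : Polynomial ℂ} {g₀ h₀ : ℂ → ℂ}
    (hf : Fac κ g k P N g₀ h₀) {C r : ℝ} {z : ℂ} (hz : z ∈ ball (0 : ℂ) 1)
    (h : 0 ≤ ((N.eval z + P.eval z * (h₀ (r * z) + C * (1 - r))) *
      (starRingEnd ℂ) (P.eval z)).re) :
    -(C * (1 - r) * ‖g z‖ ^ 2) ≤ (ph P N g₀ h₀ r z * (starRingEnd ℂ) (g z)).re := by
  rw [re_add] at h
  rw [hf.eg z hz, ph, re_fac, norm_mul, mul_pow]
  have h2 : 0 ≤ ‖g₀ z‖ ^ 2 := by positivity
  have h3 := mul_nonneg h2 h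
  linarith

/-- the lower bound for the integrand -/
theorem lowJ {q c A B x : ℝ} (hx : 0 ≤ x) (hA : -(c * x ^ 2) ≤ A) (hB : 0 ≤ B)
    (h0 : x = 0 → B = 0) : -(c * (x ^ (q - 2) * B)) ≤ x ^ (q - 4) * (A * B) := by
  rcases hx.eq_or_lt with h | h
  · rw [h0 h.symm, mul_zero, mul_zero, mul_zero, mul_zero, neg_zero]
  · have h1 : x ^ (q - 2) = x ^ (q - 4) * x ^ 2 := by
      rw [← Real.rpow_natCast x 2, ← Real.rpow_add h]
      congr 1
      push_cast
      ring
    have h2 : 0 ≤ x ^ (q - 4) * B := mul_nonneg (Real.rpow_nonneg hx _) hB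
    have h3 := mul_le_mul_of_nonneg_left hA h2
    rw [h1]
    linarith

/-- the bound for the integrand -/
theorem bddJ {q A B x y w M M1 M2 : ℝ} (hq : 2 ≤ q) (hx : 0 ≤ x) (hxM : x ≤ M)
    (hA : |A| ≤ y * x) (hB : |B| ≤ w * x) (hy : 0 ≤ y) (hy1 : y ≤ M1) (hw : 0 ≤ w)
    (hw1 : w ≤ M2) : |x ^ (q - 4) * (A * B)| ≤ M ^ (q - 2) * (M1 * M2) := by
  have hM : 0 ≤ M := hx.trans hxM
  have hM1 : 0 ≤ M1 := hy.trans hy1
  have hM2 : 0 ≤ M2 := hw.trans hw1
  rcases hx.eq_or_lt with h | h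
  · rw [← h, mul_zero] at hA
    have hA0 : A = 0 := abs_eq_zero.1 (le_antisymm hA (abs_nonneg _))
    rw [hA0, zero_mul, mul_zero, abs_zero]
    positivity
  · have h1 : x ^ (q - 2) = x ^ (q - 4) * x ^ 2 := by
      rw [← Real.rpow_natCast x 2, ← Real.rpow_add h]
      congr 1
      push_cast
      ring
    have h0 : 0 ≤ x ^ (q - 4) := Real.rpow_nonneg hx _
    rw [abs_mul, abs_mul, abs_of_nonneg h0]
    calc x ^ (q - 4) * (|A| * |B|) ≤ x ^ (q - 4) * ((y * x) * (w * x)) :=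
          mul_le_mul_of_nonneg_left (mul_le_mul hA hB (abs_nonneg _) (by positivity)) h0
      _ = x ^ (q - 2) * (y * w) := by rw [h1]; ring
      _ ≤ M ^ (q - 2) * (M1 * M2) := by
          refine mul_le_mul (Real.rpow_le_rpow hx hxM (by linarith)) ?_ (by positivity)
            (by positivity)
          exact mul_le_mul hy1 hw1 hw hM1

/-- the test functions are uniformly bounded on smaller discs -/
theorem ph_bdd {κ : ℝ} {g k : ℂ → ℂ} {P N : Polynomial ℂ} {g₀ h₀ : ℂ → ℂ}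
    (hf : Fac κ g k P N g₀ h₀) {R : ℝ} (hR : R < 1) : ∃ M : ℝ, 0 ≤ M ∧
      ∀ r : ℝ, 0 ≤ r → r ≤ 1 → ∀ z : ℂ, ‖z‖ ≤ R → ‖ph P N g₀ h₀ r z‖ ≤ M := by
  obtain ⟨M1, h10, h1⟩ := Bas.bdd hf.dg.continuousOn hR
  obtain ⟨M2, h20, h2⟩ := Bas.bdd hf.dh.continuousOn hR
  obtain ⟨M3, h30, h3⟩ := Bas.bdd (f := fun z => P.eval z) (P.continuous.continuousOn) hR
  obtain ⟨M4, h40, h4⟩ := Bas.bdd (f := fun z => N.eval z) (N.continuous.continuousOn) hR
  refine ⟨M1 * (M4 + M3 * M2), by positivity, fun r hr0 hr1 z hz => ?_⟩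
  have hrz : ‖(r : ℂ) * z‖ ≤ R := by
    rw [norm_mul, Complex.norm_real, Real.norm_of_nonneg hr0]
    exact (mul_le_of_le_one_left (norm_nonneg _) hr1).trans hz
  rw [ph, norm_mul]
  refine mul_le_mul (h1 z hz) ?_ (norm_nonneg _) h10
  refine (norm_add_le _ _).trans (add_le_add (h4 z hz) ?_)
  rw [norm_mul]
  exact mul_le_mul (h3 z hz) (h2 _ hrz) (norm_nonneg _) h30

theorem ph_tendsto {κ : ℝ} {g k : ℂ → ℂ} {P N : Polynomial ℂ} {g₀ h₀ : ℂ → ℂ}
    (hf : Fac κ g k P N g₀ h₀) {ρ : ℕ → ℝ} (hρ : Tendsto ρ atTop (𝓝 1)) {z : ℂ}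
    (hz : z ∈ ball (0 : ℂ) 1) :
    Tendsto (fun n => ph P N g₀ h₀ (ρ n) z) atTop (𝓝 (k z)) := by
  rw [hf.ek z hz]
  have h1 : Tendsto (fun n => ((ρ n : ℝ) : ℂ) * z) atTop (𝓝 z) := by
    have h := (((continuous_ofReal.tendsto 1).comp hρ).mul_const z)
    rw [ofReal_one, one_mul] at h
    exact h
  have h2 : Tendsto (fun n => h₀ (((ρ n : ℝ) : ℂ) * z)) atTop (𝓝 (h₀ z)) :=
    ((hf.dh.continuousOn.continuousAt (isOpen_ball.mem_nhds hz)).tendsto).comp h1
  unfold ph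
  exact ((h2.const_mul _).const_add _).const_mul _

end STBAux

open STBAux

theorem stb (hF : S_FAC) (hL : S_LMS) (hR : S_RG) : S_STB := by
  intro p κ m hp hm hκ hκ1 hKP g k hB
  obtain ⟨z₁, hz₁, hpos⟩ := hB.lt
  have hz₁b : z₁ ∈ ball (0 : ℂ) 1 := Bas.An_sub κ hz₁
  have hg₁ : g z₁ ≠ 0 := by
    intro h
    rw [h, map_zero, mul_zero, zero_re] at hpos
    exact lt_irrefl _ hpos
  obtain ⟨P, N, g₀, h₀, hf⟩ := hF κ g k hκ hκ1 hB.dg hB.dk ⟨z₁, hz₁b, hg₁⟩ hB.le
  obtain ⟨C, r₀, hC, hr₀, hRG⟩ := hR κ g k P N g₀ h₀ hκ hκ1 hf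
  set q : ℝ := (m : ℝ) * p with hqdef
  have hq : 2 ≤ q := by
    have h1 : (2 : ℝ) ≤ m := by exact_mod_cast hm
    nlinarith
  have hgc := hB.dg.continuousOn
  have hkc := hB.dk.continuousOn
  -- the sequence of dilations
  set ρ : ℕ → ℝ := fun n => 1 - 1 / ((n : ℝ) + 2) with hρdef
  have hρ0 : ∀ n, 0 < ρ n := by
    intro n
    have h1 : (0 : ℝ) < (n : ℝ) + 2 := by positivity
    have h2 : 1 / ((n : ℝ) + 2) < 1 := by
      rw [div_lt_one h1]
      have : (0 : ℝ) ≤ n := Nat.cast_nonneg n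
      linarith
    simp only [hρdef]
    linarith
  have hρ1 : ∀ n, ρ n < 1 := by
    intro n
    have h1 : (0 : ℝ) < 1 / ((n : ℝ) + 2) := by positivity
    simp only [hρdef]
    linarith
  have hρt : Tendsto ρ atTop (𝓝 1) := by
    have h1 : Tendsto (fun n : ℕ => (n : ℝ) + 2) atTop atTop :=
      tendsto_atTop_add_const_right _ _ tendsto_natCast_atTop_atTop
    have h2 : Tendsto (fun n : ℕ => 1 / ((n : ℝ) + 2)) atTop (𝓝 0) := by
      have h3 := h1.inv_tendsto_atTop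
      refine h3.congr fun n => ?_
      rw [Pi.inv_apply, one_div]
    have h4 := h2.const_sub 1
    rw [sub_zero] at h4
    exact h4
  -- the radius
  obtain ⟨R, hR1, hR2⟩ : ∃ R : ℝ, ‖z₁‖ < R ∧ R < 1 := exists_between hz₁.2
  have hRκ : κ < R := hz₁.1.trans hR1
  have hR0 : 0 < R := hκ.trans_lt hRκ
  set J : ℕ → ℂ → ℝ := fun n z => ‖g z‖ ^ (q - 4) *
      ((ph P N g₀ h₀ (ρ n) z * (starRingEnd ℂ) (g z)).re * (k z * (starRingEnd ℂ) (g z)).re)
    with hJdef
  have hJ : ∀ n, IntegrableOn (J n) (ball 0 1) ∧ ∫ z in ball (0 : ℂ) 1, J n z ≤ 0 := fun n =>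
    hL p κ m g k P N g₀ h₀ hp hm hκ hκ1 hKP hB hf (ρ n) (hρ0 n) (hρ1 n)
  have hbR : ball (0 : ℂ) R ⊆ ball 0 1 := ball_subset_ball hR2.le
  have hEp : IntegrableOn (Ep q g k) (ball 0 1) := hB.int
  -- the integral over the small disc
  have hle : ∀ n, r₀ < ρ n → ∫ z in ball (0 : ℂ) R, J n z ≤
      (C * (1 - ρ n)) * ∫ z in ball (0 : ℂ) 1 \ ball (0 : ℂ) R, Ep q g k z := by
    intro n hn
    have h1 : ∫ z in ball (0 : ℂ) 1 \ ball (0 : ℂ) R, J n z =
        (∫ z in ball (0 : ℂ) 1, J n z) - ∫ z in ball (0 : ℂ) R, J n z :=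
      setIntegral_sdiff measurableSet_ball (hJ n).1 hbR
    have h2 : ∫ z in ball (0 : ℂ) 1 \ ball (0 : ℂ) R, -((C * (1 - ρ n)) * Ep q g k z) ≤
        ∫ z in ball (0 : ℂ) 1 \ ball (0 : ℂ) R, J n z := by
      refine setIntegral_mono_on ((hEp.mono_set sdiff_subset).const_mul _).neg
        ((hJ n).1.mono_set sdiff_subset) (measurableSet_ball.diff measurableSet_ball) ?_
      intro z hz
      have hz1 : z ∈ ball (0 : ℂ) 1 := hz.1
      have hzA : z ∈ An κ := by
        refine ⟨?_, mem_ball_zero_iff.1 hz.1⟩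
        have := hz.2
        rw [mem_ball_zero_iff, not_lt] at this
        linarith
      have h3 := low hf hz1 (hRG (ρ n) hn (hρ1 n) z hzA)
      have h4 := hB.le z hzA
      exact lowJ (norm_nonneg _) h3 h4 (fun h => by
        rw [norm_eq_zero.1 h, map_zero, mul_zero, zero_re])
    rw [integral_neg, integral_const_mul] at h2
    have h5 := (hJ n).2
    linarith
  -- the limit function
  set L : ℂ → ℝ := fun z => ‖g z‖ ^ (q - 4) *
      ((k z * (starRingEnd ℂ) (g z)).re * (k z * (starRingEnd ℂ) (g z)).re) with hLdef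
  obtain ⟨M, hM0, hM⟩ := Bas.bdd hgc hR2
  obtain ⟨M2, hM20, hM2⟩ := Bas.bdd hkc hR2
  obtain ⟨M1, hM10, hM1⟩ := ph_bdd hf hR2
  have hlim : Tendsto (fun n => ∫ z in ball (0 : ℂ) R, J n z) atTop
      (𝓝 (∫ z in ball (0 : ℂ) R, L z)) := by
    refine tendsto_integral_of_dominated_convergence (fun _ => M ^ (q - 2) * (M1 * M2)) ?_ ?_ ?_ ?_
    · intro n
      exact ((hJ n).1.mono_set hbR).aestronglyMeasurable
    · exact integrableOn_const measure_ball_lt_top.ne
    · intro n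
      filter_upwards [ae_restrict_mem measurableSet_ball] with z hz
      have hzR : ‖z‖ ≤ R := (mem_ball_zero_iff.1 hz).le
      rw [Real.norm_eq_abs]
      exact bddJ hq (norm_nonneg _) (hM z hzR) (Bas.re_le _ _) (Bas.re_le _ _) (norm_nonneg _)
        (hM1 (ρ n) (hρ0 n).le (hρ1 n).le z hzR) (norm_nonneg _) (hM2 z hzR)
    · filter_upwards [ae_restrict_mem measurableSet_ball] with z hz
      have h1 := ph_tendsto hf hρt (hbR hz)
      exact (((continuous_re.tendsto _).comp (h1.mul_const _)).mul_const _).const_mul _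
  have hLint : IntegrableOn L (closedBall 0 R) := by
    refine Bas.intOn_of_bdd (M := M ^ (q - 2) * (M2 * M2)) ?_ hR2 ?_
    · exact (Bas.norm_pow_meas hgc (q - 4)).mul ((Bas.re_meas hgc hkc).mul (Bas.re_meas hgc hkc))
    · intro z hz
      exact bddJ hq (norm_nonneg _) (hM z hz) (Bas.re_le _ _) (Bas.re_le _ _) (norm_nonneg _)
        (hM2 z hz) (norm_nonneg _) (hM2 z hz)
  have hLle : ∫ z in ball (0 : ℂ) R, L z ≤ 0 := by
    have h1 : Tendsto (fun n => (C * (1 - ρ n)) *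
        ∫ z in ball (0 : ℂ) 1 \ ball (0 : ℂ) R, Ep q g k z) atTop (𝓝 0) := by
      have h2 : Tendsto (fun n => C * (1 - ρ n)) atTop (𝓝 0) := by
        simpa using (hρt.const_sub 1).const_mul C
      simpa using h2.mul_const (∫ z in ball (0 : ℂ) 1 \ ball (0 : ℂ) R, Ep q g k z)
    refine le_of_tendsto_of_tendsto hlim h1 ?_
    filter_upwards [hρt.eventually (lt_mem_nhds hr₀)] with n hn
    exact hle n hn
  have hL0 : ∀ z, 0 ≤ L z := fun z => mul_nonneg (Real.rpow_nonneg (norm_nonneg _) _)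
    (mul_self_nonneg _)
  have hLae : L =ᵐ[volume.restrict (ball (0 : ℂ) R)] 0 := by
    refine (setIntegral_eq_zero_iff_of_nonneg_ae (Eventually.of_forall hL0)
      (hLint.mono_set ball_subset_closedBall)).1 (le_antisymm hLle ?_)
    exact setIntegral_nonneg measurableSet_ball fun z _ => hL0 z
  -- the open set where the limit function is positive
  set V : Set ℂ := ball (0 : ℂ) R ∩ (fun z => (k z * (starRingEnd ℂ) (g z)).re) ⁻¹' (Ioi 0)
    with hVdef
  have hVo : IsOpen V := by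
    refine ContinuousOn.isOpen_inter_preimage ?_ isOpen_ball isOpen_Ioi
    exact (continuous_re.comp_continuousOn (hkc.mul (continuous_conj.comp_continuousOn hgc))).mono
      hbR
  have hVn : V.Nonempty := ⟨z₁, mem_ball_zero_iff.2 hR1, hpos⟩
  have hVm : 0 < volume V := hVo.measure_pos volume hVn
  have hVR : V ⊆ ball (0 : ℂ) R := inter_subset_left
  have h0 : volume V = 0 := by
    have h1 : ∀ᵐ z ∂(volume.restrict V), L z = 0 :=
      ae_mono (Measure.restrict_mono hVR le_rfl) hLae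
    have h2 : ∀ᵐ z ∂(volume.restrict V), z ∈ V := ae_restrict_mem hVo.measurableSet
    have h3 : ∀ᵐ z ∂(volume.restrict V), False := by
      filter_upwards [h1, h2] with z hz1 hz2
      have hz3 : 0 < (k z * (starRingEnd ℂ) (g z)).re := hz2.2
      have hg : g z ≠ 0 := by
        intro h
        rw [h, map_zero, mul_zero, zero_re] at hz3
        exact lt_irrefl _ hz3
      have h4 : 0 < L z := mul_pos (Real.rpow_pos_of_pos (norm_pos_iff.2 hg) _)
        (mul_pos hz3 hz3)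
      exact h4.ne' hz1
    rw [ae_iff] at h3
    simpa using h3
  exact hVm.ne' h0

end Pool.Agent.KRC
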