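import Pool.Agent.KRC.Defs

/-!
# The Korenblum constant along integer multiples: statements of the modules

Theorems: `κ_p < κ_{mp}` for real `p ≥ 1` and integers `m ≥ 2`, and `κ` is continuous on `[1, ∞)`. Paper proofs are in the
doc-strings. Basic lemmas (measurability, bounds, null sets): `Pool/Agent/KRC/Bas.lean`.
-/

set_option autoImplicit false

namespace Pool.Agent.KRC

open Complex MeasureTheory Set Filter Topology Metric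
open Pool.Agent.KRB (Berg nrm KP kap)

/-- **Pointwise derivative.** `‖α - t b‖^2 = ‖α‖^2 - 2 t Re (b conj α) + t^2 ‖b‖^2`. Write `x_n = ‖a n‖`, `y_n = ‖a n - e n b n‖`, both tend
to `‖α‖ > 0`. `(x_n² - y_n²)/e_n = 2 Re (b_n conj a_n) - e_n ‖b_n‖² → 2 Re (β conj α)`, so `(x_n - y_n)/e_n → Re (β conj α)/‖α‖`. By the mean
value theorem for `t ↦ t^{q_n}` between `y_n` and `x_n`: `x_n^{q_n} - y_n^{q_n} = q_n ξ_n^{q_n - 1} (x_n - y_n)` with `ξ_n` between, so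
`ξ_n → ‖α‖` and `ξ_n^{q_n - 1} → ‖α‖^{q - 1}` (joint continuity of `rpow` at a positive base). -/
def S_PTL : Prop := ∀ (a b : ℕ → ℂ) (qn en : ℕ → ℝ) (α β : ℂ) (q : ℝ), α ≠ 0 → 1 ≤ q →
  (∀ n, 1 ≤ qn n) → (∀ n, 0 < en n) → Tendsto a atTop (𝓝 α) → Tendsto b atTop (𝓝 β) →
  Tendsto qn atTop (𝓝 q) → Tendsto en atTop (𝓝 0) →
  Tendsto (fun n => (‖a n‖ ^ qn n - ‖a n - en n * b n‖ ^ qn n) / en n) atTop
    (𝓝 (q * (‖α‖ ^ (q - 2) * (β * (starRingEnd ℂ) α).re)))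

/-- **Pointwise bound.** Mean value theorem for `t ↦ t^q` on `[0, max]` (or convexity: `x^q - y^q ≤ q x^{q-1} (x - y)` for `0 ≤ y ≤ x`,
see `Pool.Agent.KRB.LOW0Aux.tangent` in `Pool/Agent/KRB/Low0.lean`), and `|‖a‖ - ‖b‖| ≤ ‖a - b‖`. -/
def S_PTB : Prop := ∀ (a b : ℂ) (q M : ℝ), 1 ≤ q → ‖a‖ ≤ M → ‖b‖ ≤ M →
  |‖a‖ ^ q - ‖b‖ ^ q| ≤ q * ‖a - b‖ * M ^ (q - 1)

/-- **Rigidity.** If `g = 0` on `U`, then `f = 0` on `U` and both vanish on the ball (identity theorem), `u = 1`. Otherwise let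
`z₁ ∈ U`, `g z₁ ≠ 0`; on a small ball around `z₁` in `U` the quotient `f / g` is analytic of modulus `1`, hence constant `= u`
(maximum modulus: `Complex.eqOn_of_isPreconnected_of_isMaxOn_norm` or `Complex.norm_eventually_eq_of_isLocalMax`,
`Complex.eventually_eq_of_isLocalMax_norm`), and `f = u g` on the ball by the identity theorem
(`AnalyticOnNhd.eqOn_of_preconnected_of_eventuallyEq`). -/
def S_RIG : Prop := ∀ (f g : ℂ → ℂ) (U : Set ℂ), DifferentiableOn ℂ f (ball 0 1) →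
  DifferentiableOn ℂ g (ball 0 1) → IsOpen U → U.Nonempty → U ⊆ ball 0 1 →
  (∀ z ∈ U, ‖f z‖ = ‖g z‖) → ∃ u : ℂ, ‖u‖ = 1 ∧ ∀ z ∈ ball (0 : ℂ) 1, f z = u * g z

/-- **Schwarz-Pick.** Let `A = ω a`. If `‖A‖ = 1` then `ω` is constant on the ball (maximum modulus). If `‖A‖ < 1`, then
`φ z = (ω z - A) / (1 - conj A ω z)` maps the ball to the closed unit disc (`Pool.Agent.KRB.PHAux.key_ineq`) with `φ a = 0`, so
`‖φ z‖ ≤ ‖z - a‖ / R ≤ 1/3` (Schwarz lemma). With `w = ω z`, `t = 1/3`: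
`‖w - A‖ ≤ t ‖1 - conj A w‖ ≤ t (1 - ‖A‖² + ‖A‖ ‖w - A‖)`, hence `‖w - A‖ ≤ t (1 + ‖A‖)(1 - ‖A‖)/(1 - t) ≤ 1 - ‖A‖`. By symmetry
(`‖1 - conj A w‖ = ‖1 - conj w A‖`) also `‖w - A‖ ≤ 1 - ‖w‖`, so `1 - ‖A‖ ≤ 1 - ‖w‖ + ‖w - A‖ ≤ 2 (1 - ‖w‖)`. -/
def S_PCK : Prop := ∀ (ω : ℂ → ℂ) (a : ℂ) (R : ℝ), 0 < R → DifferentiableOn ℂ ω (ball a R) →
  (∀ z ∈ ball a R, ‖ω z‖ ≤ 1) → ∀ z : ℂ, ‖z - a‖ ≤ R / 3 →
    ‖ω z - ω a‖ ≤ 2 * (1 - ‖ω a‖) ∧ 1 - ‖ω a‖ ≤ 3 * (1 - ‖ω z‖)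

/-- **Harnack.** For `z' ∈ An c` let `ball z' R ⊆ An c`; for `z ∈ ball z' (R/3)` the lemma of Schwarz-Pick gives
`‖ω z - ω z'‖ ≤ 2 (1 - ‖ω z'‖)` and `1 - ‖ω z'‖ ≤ 3 (1 - ‖ω z‖)`, `1 - ‖ω z‖ ≤ 3 (1 - ‖ω z'‖)`. Let `S` be the set of the `z' ∈ An c` such that
some `C` works for `z'` (i.e. `‖ω z' - ω z₀‖ ≤ C (1 - ‖ω z₀‖)`, `1 - ‖ω z₀‖ ≤ C (1 - ‖ω z'‖)` for all `ω`). By these inequalities
`S` is open and closed in `An c`, and if `C` works for `z'` then `3 + 9 C` (say) works for all `z` in `ball z' (R/3)`. `z₀ ∈ S`, and `An c` is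
connected (the image of `Ioo c 1 ×ˢ univ` under `(r, θ) ↦ r e^{iθ}`), so `S = An c`; `K` is covered by finitely many balls. -/
def S_HAR : Prop := ∀ (c : ℝ) (K : Set ℂ) (z₀ : ℂ), 0 ≤ c → IsCompact K → K ⊆ An c → z₀ ∈ An c →
  ∃ C : ℝ, 1 ≤ C ∧ ∀ ω : ℂ → ℂ, DifferentiableOn ℂ ω (An c) → (∀ z ∈ An c, ‖ω z‖ ≤ 1) →
    ∀ z ∈ K, ‖ω z - ω z₀‖ ≤ C * (1 - ‖ω z₀‖) ∧ 1 - ‖ω z₀‖ ≤ C * (1 - ‖ω z‖)

/-- **Sub-mean value.** Let `d = min (ρ - a) (b - ρ)`, `C = 1/(π d²)`. For `‖z‖ = ρ` the ball `ball z d` lies in the annulus. The mean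
value property over circles (`Complex.circleAverage_of_differentiable_on` or similar) and polar coordinates, or the same with
subharmonicity, give `‖g z‖ ≤ (π d²)⁻¹ ∫_{ball z d} ‖g‖`, and Jensen (`ConvexOn.map_set_average_le`, or Hoelder) gives
`‖g z‖^q ≤ (π d²)⁻¹ ∫_{ball z d} ‖g‖^q ≤ C M`. (One may use another `C` which does not depend on `q`, `g`, `M`. Every bound of the form
`‖g z‖ ≤ C₁ ∫ ‖g‖` and Hoelder would give `C` depending on `q`, which is not enough, so use averages.) For `‖z‖ ≤ ρ` use the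
maximum principle on the ball of radius `ρ`. -/
def S_SMV : Prop := ∀ a ρ b : ℝ, 0 ≤ a → a < ρ → ρ < b → b ≤ 1 → ∃ C : ℝ, 0 < C ∧
  ∀ (q M : ℝ) (g : ℂ → ℂ), 1 ≤ q → DifferentiableOn ℂ g (ball 0 1) →
    IntegrableOn (fun z => ‖g z‖ ^ q) {z : ℂ | a < ‖z‖ ∧ ‖z‖ < b} →
    ∫ z in {z : ℂ | a < ‖z‖ ∧ ‖z‖ < b}, ‖g z‖ ^ q ≤ M → ∀ z : ℂ, ‖z‖ ≤ ρ → ‖g z‖ ^ q ≤ C * M

/-- **Montel.** Let `a_{n,j}` be the Taylor coefficients of `gn n` at `0`; `‖a_{n,j}‖ ≤ M_r r^{-j}` (Cauchy). The sequence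
`(a_{n,j})_j` lies in a product of closed balls, which is compact in `ℕ → ℂ` (`isCompact_univ_pi`), so a subsequence converges to
`(a_j)` coordinatewise (`IsCompact.tendsto_subseq`), with `‖a_j‖ ≤ M_r r^{-j}`; `g z = ∑ a_j z^j`. For `ρ < r < 1`:
`‖gn z - g z‖ ≤ ∑_{j<J} ‖a_{n,j} - a_j‖ + 2 M_r ∑_{j ≥ J} (ρ/r)^j` on the closed ball of radius `ρ`. (Or Arzela-Ascoli and a
diagonal sequence; the limit is differentiable by `TendstoLocallyUniformlyOn.differentiableOn`.) -/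
def S_MON : Prop := ∀ gn : ℕ → ℂ → ℂ, (∀ n, DifferentiableOn ℂ (gn n) (ball 0 1)) →
  (∀ r : ℝ, r < 1 → ∃ M : ℝ, ∀ n, ∀ z : ℂ, ‖z‖ ≤ r → ‖gn n z‖ ≤ M) →
  ∃ (φ : ℕ → ℕ) (g : ℂ → ℂ), StrictMono φ ∧ DifferentiableOn ℂ g (ball 0 1) ∧
    ∀ r : ℝ, r < 1 → TendstoUniformlyOn (fun n => gn (φ n)) g atTop (closedBall 0 r)

/-- **Bad pairs** (uses `S_HAR`, `S_SMV`, `S_PTB`, `S_RIG` and `Pool.Agent.KRB.rem : S_REM`). `f = ω g` on `An c'`, `‖ω‖ ≤ 1`. Let `z₀ = r₁`,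
`e = 1 - ‖ω z₀‖`. `e > 0`: otherwise `ω` is a unimodular constant on `An c'` (maximum modulus, or `S_HAR`: `‖ω z - ω z₀‖ ≤ 0` on compact
sets), so `‖f‖ = ‖g‖` there, so `f = u g` on the ball (`S_RIG`) and the norms are equal. Let `‖u‖ = 1`, `ω z₀ = u ‖ω z₀‖`,
`k = (g - ū f)/e`. On `An c'`: `k = g (1 - ū ω)/e` and `‖1 - ū ω‖ ≤ e + ‖ω - ω z₀‖`. (1) `a ≤ ‖z‖ ≤ b`, `c₂ < a`: `S_HAR` (with `c = c₂`)
gives `C₁ = C₁(a,b)`: `‖k z‖ ≤ (1 + C₁) ‖g z‖`, `‖ω z‖ ≤ 1 - e/C₁`. (2) `‖k‖ ≤ 1 + C₁(r₁,r₁)` on `‖z‖ = r₁`, hence for `‖z‖ ≤ r₁` (maximum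
principle), `f = u (g - e k)`, so by `S_PTB` `‖f‖^q - ‖g‖^q ≤ C₂ e` for `‖z‖ ≤ r₁`, `C₂` depends only on `Q`, `C₁(r₁,r₁)`. (3) From `nrm q g < nrm q f`:
`∫_{An c'} (‖g‖^q - ‖f‖^q) < ∫_{‖z‖ ≤ c'} (‖f‖^q - ‖g‖^q) ≤ π C₂ e`. For `a ≤ ‖z‖ ≤ b`: `‖g‖^q - ‖f‖^q ≥ ‖g‖^q (1 - (1 - e/C₁)^q) ≥ ‖g‖^q e/C₁`
(`q ≥ 1`, `0 ≤ 1 - e/C₁ ≤ 1`), so `∫_{a<‖z‖<b} ‖g‖^q ≤ π C₂ C₁(a,b)`, and `S_SMV` gives `‖g z‖^q ≤ C₃` for `‖z‖ ≤ ρ`, for each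
`ρ < b`; `‖g z‖ ≤ max 1 C₃` (`q ≥ 1`). For the claim with `b`, use the annulus from `(c₂ + r₁)/2` to `(1 + max b r₁)/2`, say; then
`‖k‖ ≤ (1 + C₁) ‖g‖` on a circle of radius `≥ max b r₁` and the maximum principle bound `k`. -/
def S_BND : Prop := ∀ c₂ r₁ Q : ℝ, 0 ≤ c₂ → c₂ < r₁ → r₁ < 1 → ∃ C : ℝ → ℝ → ℝ,
  (∀ a b, 1 ≤ C a b) ∧ ∀ (q c' : ℝ) (f g : ℂ → ℂ), 1 ≤ q → q ≤ Q → 0 ≤ c' → c' ≤ c₂ →
    Berg q f → Berg q g → (∀ z : ℂ, c' < ‖z‖ → ‖z‖ < 1 → ‖f z‖ ≤ ‖g z‖) → nrm q g < nrm q f →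
    (∀ z : ℂ, ‖z‖ ≤ r₁ → ‖g z‖ ≤ 1) →
    ∃ (e : ℝ) (u : ℂ) (k : ℂ → ℂ), 0 < e ∧ e ≤ 1 ∧ ‖u‖ = 1 ∧ DifferentiableOn ℂ k (ball 0 1) ∧
      (∀ z ∈ ball (0 : ℂ) 1, f z = u * (g z - e * k z)) ∧
      ∀ a b : ℝ, c₂ < a → a ≤ b → b < 1 →
        (∀ z : ℂ, a ≤ ‖z‖ → ‖z‖ ≤ b →
          ‖k z‖ ≤ C a b * ‖g z‖ ∧ ‖f z‖ ≤ (1 - e / C a b) * ‖g z‖) ∧
        ∀ z : ℂ, ‖z‖ ≤ b → ‖g z‖ ≤ C a b ∧ ‖k z‖ ≤ C a b

/-- **Extraction** (uses `S_BND`, `S_MON`). Let `c₂ = sup cn < 1` (a convergent sequence in `[0,1)` with limit `< 1`), `r₁ = (1 + c₂)/2`,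
`Q = sup qn`. For each `n` take a bad pair `(f_n, g_n)`; `μ_n = max_{‖z‖ ≤ r₁} ‖g_n‖ > 0` (if `g_n = 0` on this ball then `g_n = 0`,
`f_n = 0` on `An cn`, `f_n = 0`, and the pair is not bad); divide both by `μ_n` (still bad). Apply `S_BND`: `e_n, u_n, k_n`. By `S_MON` (twice)
and compactness of `[0,1]` pass to a subsequence: `g_n → g`, `k_n → k` locally uniformly, `e_n → e`. `max_{‖z‖ ≤ r₁} ‖g‖ = 1`, so
`g` is not identically `0`, and there is `z₁` with `c₂ < ‖z₁‖ < 1`, `g z₁ ≠ 0`; `S_BND` with `a = b = ‖z₁‖` gives `nt` with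
`η = 1 / C a a`. `adm`: `‖f_n‖ = ‖g_n - e_n k_n‖`. `bad`: `∫_{ball} (‖g_n‖^q - ‖f_n‖^q) < 0`, the integrand is `≥ 0` on `An cn`, which
contains the annulus `a < ‖z‖ < b`; the integral over the ball is the sum of those over the closed ball of radius `cn` and over `An cn`. -/
def S_EXR : Prop := ∀ (q c : ℝ) (qn cn : ℕ → ℝ), (∀ n, 1 ≤ qn n) → Tendsto qn atTop (𝓝 q) →
  0 ≤ c → c < 1 → (∀ n, 0 ≤ cn n) → (∀ n, cn n < 1) → Tendsto cn atTop (𝓝 c) →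
  (∀ n, ¬ KP (qn n) (cn n)) →
  ∃ (qn' cn' en : ℕ → ℝ) (gn kn : ℕ → ℂ → ℂ) (e : ℝ) (g k : ℂ → ℂ),
    Conv c q qn' cn' en gn kn e g k

/-- **Limits, first kind.** `e ≥ 0`; `e > 0` here. Admissibility: for `z ∈ An c`, `cn n < ‖z‖` for large `n`; pass to the limit.
Strictness: at `z₁`, `‖g z₁ - e k z₁‖ ≤ (1 - η e) ‖g z₁‖ < ‖g z₁‖`. Let `c < a < b < 1`. Then `cn n ≤ a` for large `n`, and the left side of `bad`
tends to `∫_{a<‖z‖<b} Dp` (the integrands converge pointwise, `‖·‖^{q_n}` with `q_n → q ≥ 1`, and are bounded on the ball of radius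
`b`). The right side tends to `M = ∫_{‖z‖ ≤ c} -Dp` (write it as the integral of indicators over the ball of radius `b`; the
indicators converge off the null set `‖z‖ = c`). So `∫_{a<‖z‖<b} Dp ≤ M`. `Dp ≥ 0` on `An c`; let `a ↓ c`, `b ↑ 1` (monotone convergence, e.g.
`MeasureTheory.AECover.integrable_of_integral_bounded_of_nonneg_ae` / `integrableOn_iUnion_of_...`): `Dp` is integrable on `An c` with
`∫_{An c} Dp ≤ M`, so it is integrable on the ball with integral `≤ 0`. -/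
def S_LMA : Prop := ∀ (c q : ℝ) (qn cn en : ℕ → ℝ) (gn kn : ℕ → ℂ → ℂ) (e : ℝ) (g k : ℂ → ℂ),
  Conv c q qn cn en gn kn e g k → 0 < e → LimA c q (fun z => g z - e * k z) g

/-- **Limits, second kind** (uses `S_PTL`, `S_PTB`). The same with the integrands divided by `e_n`:
`(‖gn‖^{qn} - ‖gn - en kn‖^{qn})/en → q Ep q g k` where `g z ≠ 0` (almost everywhere, `g` is not identically `0` by `nt`), and it is bounded by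
`qn ‖kn‖ M^{qn - 1}` on the ball of radius `b`. Admissibility: `‖gn - en kn‖² ≤ ‖gn‖²` gives `2 Re (kn conj gn) ≥ en ‖kn‖² ≥ 0`. Strictness:
`‖gn‖² - en Re (kn conj gn) = Re ((gn - en kn) conj gn) ≤ (1 - η en) ‖gn‖²` at `z₁`, so `Re (kn conj gn) ≥ η ‖gn‖²` there. -/
def S_LMB : Prop := ∀ (c q : ℝ) (qn cn en : ℕ → ℝ) (gn kn : ℕ → ℂ → ℂ) (g k : ℂ → ℂ),
  Conv c q qn cn en gn kn 0 g k → LimB c q g k

/-- **Dilation.** Apply the property to `z ↦ F (r z)`, `z ↦ G (r z)`, bounded analytic functions on the disc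
(`Pool.Agent.KRB.UPAux.int_le`, `Pool.Agent.KRB.UPAux.integ` or directly), and substitute `w = r z`
(`MeasureTheory.Measure.setIntegral_comp_smul` / `MeasureTheory.Measure.integral_comp_smul`; the factor `r²` is the same on both sides). -/
def S_DIL : Prop := ∀ (p κ r : ℝ) (F G : ℂ → ℂ), 0 < p → KP p κ → 0 < r → r < 1 →
  DifferentiableOn ℂ F (ball 0 1) → DifferentiableOn ℂ G (ball 0 1) →
  (∀ w : ℂ, r * κ < ‖w‖ → ‖w‖ < r → ‖F w‖ ≤ ‖G w‖) →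
  ∫ w in ball (0 : ℂ) r, ‖F w‖ ^ p ≤ ∫ w in ball (0 : ℂ) r, ‖G w‖ ^ p

/-- **Linearisation** (uses `S_DIL`, `S_PTL`, `S_PTB`). `‖G + t K‖² - ‖G - t K‖² = 4 t Re (K conj G) ≥ 0` for `t > 0`, so
`∫ ‖G - t K‖^p ≤ ∫ ‖G + t K‖^p` over the ball of radius `r`. Divide by `t = 1/(n+1)` and let `n → ∞`: the integrand
`(‖G + t K‖^p - ‖G - t K‖^p)/t` tends to `2 p Ep p G K` where `G ≠ 0` (`S_PTL` for `b = K` and `b = -K`), and it is bounded (`S_PTB`). If `G = 0`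
identically, then `Ep = 0`. -/
def S_LIN : Prop := ∀ (p κ r : ℝ) (G K : ℂ → ℂ), 1 ≤ p → KP p κ → 0 < r → r < 1 →
  DifferentiableOn ℂ G (ball 0 1) → DifferentiableOn ℂ K (ball 0 1) →
  (∀ w : ℂ, r * κ < ‖w‖ → ‖w‖ < r → 0 ≤ (K w * (starRingEnd ℂ) (G w)).re) →
  0 ≤ ∫ w in ball (0 : ℂ) r, Ep p G K w

/-- **Strict signs** (uses `S_RIG`). The integral over the ball is that over `ball 0 r` plus that over `r ≤ ‖z‖ < 1`, which is `≥ 0`. If it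
is `0`, then `‖f‖ = ‖g‖` almost everywhere for `r < ‖z‖ < 1`, hence everywhere there (continuity), so `f = u g` on the ball by `S_RIG`:
a contradiction to `lt`. For the second kind: `Re (k conj g) = 0` for `r < ‖z‖ < 1` (where `g ≠ 0` almost everywhere, then
continuity), so `‖g - k‖ = ‖g + k‖` there, so everywhere on the ball by `S_RIG`, so `Re (k conj g) = 0` on the ball. -/
def S_POS : Prop := (∀ (c q r : ℝ) (f g : ℂ → ℂ), 0 ≤ c → 1 ≤ q → c < r → r < 1 → LimA c q f g →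
    ∫ z in ball (0 : ℂ) r, Dp q f g z < 0) ∧
  ∀ (c q r : ℝ) (g k : ℂ → ℂ), 0 ≤ c → 1 ≤ q → c < r → r < 1 → LimB c q g k →
    ∫ z in ball (0 : ℂ) r, Ep q g k z < 0

/-- **Good constants** (uses `S_DIL`, `S_LIN`, `S_POS`). Let `r ∈ (c/κ, 1)`; then `c ≤ r κ` and `c < r`. `S_DIL` (`S_LIN`) gives
`∫_{ball r} Dp ≥ 0` (`∫_{ball r} Ep ≥ 0`), `S_POS` gives `< 0`. -/
def S_GD : Prop := ∀ c κ q : ℝ, 0 ≤ c → c < κ → κ < 1 → 1 ≤ q → KP q κ →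
  (∀ f g : ℂ → ℂ, ¬ LimA c q f g) ∧ ∀ g k : ℂ → ℂ, ¬ LimB c q g k

/-- **Openness.** A bad pair `(f, g)` for `(q, c)`: `∫ ‖f‖^q > ∫ ‖g‖^q`. For `r → 1`, `∫_{ball r} ‖f‖^q → ∫ ‖f‖^q`, so for some `r < 1` with
`c < r c'` one has `∫_{ball r} ‖f‖^q > ∫_{ball r} ‖g‖^q`. With `r` fixed, `∫_{ball r} ‖f‖^{q'}` is continuous in `q'` at `q` (dominated
convergence; `‖f‖`, `‖g‖` are bounded on this ball), so the inequality holds for `q'` near `q`; the dilates `z ↦ f (r z)`, `z ↦ g (r z)`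
are a bad pair for `(q', c')`. -/
def S_USC : Prop := ∀ q c c' : ℝ, 1 ≤ q → 0 < c → c < c' → c' < 1 → ¬ KP q c →
  ∃ δ : ℝ, 0 < δ ∧ ∀ q' : ℝ, 1 ≤ q' → |q' - q| < δ → ¬ KP q' c'

/-- **Extension across the circle.** Local claim: for `‖z₀‖ = κ` there are `L, ρ > 0` with `‖f w‖ ≤ (1 + L (κ - ‖w‖)) ‖g w‖` for
`‖w - z₀‖ < ρ`, `‖w‖ ≤ κ`. Proof: near `z₀`, `g = (z - z₀)^n g₁`, `g₁ z₀ ≠ 0`, and `f = (z - z₀)^l f₁` with `f₁ z₀ ≠ 0` (or `f = 0`); if `l < n`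
then `‖f/g‖ → ∞` along `z → z₀` from outside, a contradiction; so `f = ω g` near `z₀` with `ω` analytic. `ω` is Lipschitz near `z₀` (constant
`L`), `‖ω‖ ≤ 1` at the points with `‖z‖ ≥ κ` near `z₀` (where `g ≠ 0`, then by continuity), and for `w` near `z₀` with `0 < ‖w‖ ≤ κ` the point
`w' = κ w/‖w‖` is near `z₀`, `‖w - w'‖ = κ - ‖w‖`, so `‖ω w‖ ≤ ‖ω w'‖ + L (κ - ‖w‖)`. Compactness of the circle (or: if the claim fails with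
`C = n`, `δ = κ/(n+2)`, take points `w_n` and a limit point `z₀`, `‖z₀‖ = κ`; contradiction to the local claim at `z₀`). -/
def S_EXT : Prop := ∀ (κ : ℝ) (f g : ℂ → ℂ), 0 < κ → κ < 1 → DifferentiableOn ℂ f (ball 0 1) →
  DifferentiableOn ℂ g (ball 0 1) → (∃ z ∈ ball (0 : ℂ) 1, g z ≠ 0) →
  (∀ z ∈ An κ, ‖f z‖ ≤ ‖g z‖) → ∃ C δ : ℝ, 0 ≤ C ∧ 0 < δ ∧ δ < κ ∧
    ∀ w : ℂ, κ - δ < ‖w‖ → ‖w‖ ≤ κ → ‖f w‖ ≤ (1 + C * (κ - ‖w‖)) * ‖g w‖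

/-- **The constant itself is good** (uses `S_EXT`; `Pool.Agent.KRB.kap_nonneg`, `Pool.Agent.KRB.kap_le`, `Pool.Agent.KRB.up`,
`Pool.Agent.KRB.rad`, `Pool.Agent.KRB.LOWAux.mono`). `κ = kap p ≤ 1 - 1/(40√p) < 1`. If `κ = 0`, the domination holds on the punctured disc, hence
everywhere. Let `κ > 0`, `f, g` in the Bergman space with `‖f‖ ≤ ‖g‖` on `An κ`. If `g = 0` identically then `f = 0`. Otherwise let `C, δ` be from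
`S_EXT`. For `c ∈ (κ - δ, κ)` close to `κ`: `KP p c` (there is `c'' > c` in the set), and `f / (1 + C (κ - c))`, `g` satisfy the domination on
`An c`; so `nrm p f / (1 + C (κ - c)) ≤ nrm p g`. Let `c → κ`. -/
def S_KGD : Prop := ∀ p : ℝ, 1 ≤ p → 0 ≤ kap p ∧ kap p < 1 ∧ KP p (kap p)

/-- **Continuity** (uses `S_EXR`, `S_LMA`, `S_LMB`, `S_GD`, `S_USC`, `S_KGD`). Upper semicontinuity: let `kap q < c' < 1` and
`kap q < c < c'`; then `¬ KP q c` (else `c ≤ kap q`), so by `S_USC` `¬ KP q' c'` for `q'` near `q`, and `kap q' ≤ c'` (`KP` is monotone). Lower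
semicontinuity: let `0 < c < kap q` and `q_n → q` with `kap q_n < c`. Then `¬ KP q_n c`, and `S_EXR` (with `cn = c`), `S_LMA`, `S_LMB` give
`LimA c q _ _` or `LimB c q _ _`; but `KP q κ` for some `κ ∈ (c, 1)` (`c < kap q`), a contradiction to `S_GD`. -/
def S_CON : Prop := ContinuousOn kap (Ici 1)

/-- **Hopf** (uses `Pool.Agent.KRB.rem : S_REM`). `f = ω g` on `An κ`, `‖ω‖ ≤ 1`, and `‖ω‖ < 1` at the point of strict inequality, so `‖ω‖ < 1` on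
`An κ` (maximum modulus on the connected set `An κ`). Let `N ≥ 1` with `(max_{‖z‖=ρ} ‖ω‖)^N ≤ ρ`. The function `h = ω^N / z`
satisfies `‖h‖ ≤ 1` for `‖z‖ = ρ` and `‖h‖ ≤ 1/r` for `‖z‖ = r`, so `‖h‖ ≤ 1/r` for `ρ ≤ ‖z‖ ≤ r` (maximum principle on the annulus); let `r → 1`:
`‖ω‖^N ≤ ‖z‖`. With `s = 1 - ‖z‖`: `‖ω‖^N ≤ 1 - s ≤ (1 - s/N)^N` (Bernoulli), so `‖ω‖ ≤ 1 - s/N`; `a = 1/N`. -/
def S_HOP : Prop := ∀ (κ ρ : ℝ) (f g : ℂ → ℂ), 0 ≤ κ → κ < ρ → ρ < 1 →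
  DifferentiableOn ℂ f (ball 0 1) → DifferentiableOn ℂ g (ball 0 1) →
  (∀ z ∈ An κ, ‖f z‖ ≤ ‖g z‖) → (∃ z ∈ An κ, ‖f z‖ < ‖g z‖) →
  ∃ a : ℝ, 0 < a ∧ a ≤ 1 ∧
    ∀ z : ℂ, ρ ≤ ‖z‖ → ‖z‖ < 1 → ‖f z‖ ≤ (1 - a * (1 - ‖z‖)) * ‖g z‖

/-- **Weights** (uses `S_HOP`). Take `ρ = (1 + κ)/2`. First kind: for `ρ ≤ ‖z‖ < 1`, `Dp ≥ ‖g‖^q (1 - (1 - a (1 - ‖z‖))^q) ≥ a (1 - ‖z‖) ‖g‖^q`. Second
kind: the pair `(g - k, g + k)` satisfies the hypotheses of `S_HOP` (`‖g + k‖² - ‖g - k‖² = 4 Re (k conj g)`), so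
`4 Re (k conj g) ≥ (1 - (1 - a (1 - ‖z‖))²) ‖g + k‖² ≥ a (1 - ‖z‖) ‖g + k‖² ≥ a (1 - ‖z‖) ‖g‖²` (as `Re (k conj g) ≥ 0`), and
`4 Ep ≥ a (1 - ‖z‖) ‖g‖^q`. For `‖z‖ ≤ ρ` the functions are bounded. -/
def S_WT : Prop := (∀ (κ q : ℝ) (f g : ℂ → ℂ), 0 ≤ κ → κ < 1 → 1 ≤ q → LimA κ q f g →
    IntegrableOn (fun z => (1 - ‖z‖) * ‖g z‖ ^ q) (ball 0 1)) ∧
  ∀ (κ q : ℝ) (g k : ℂ → ℂ), 0 ≤ κ → κ < 1 → 1 ≤ q → LimB κ q g k →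
    IntegrableOn (fun z => (1 - ‖z‖) * ‖g z‖ ^ q) (ball 0 1)

/-- **First kind, multiples** (uses `S_DIL`, `S_EXT`, `S_WT`). Let `C, δ` be from `S_EXT` (`C = 0` if `κ = 0`; `g` is not identically `0`).
For `r < 1` close to `1`: on `r κ < ‖w‖ < r` one has `‖f w‖ ≤ (1 + C (1 - r)) ‖g w‖`. `S_DIL` for `F = f/(1 + C (1 - r)) · f^{m-1}`, `G = g f^{m-1}`:
with `x = ‖g‖^p`, `y = ‖f‖^p`, `∫_{ball r} y^m ≤ (1 + C (1 - r))^p ∫_{ball r} x y^{m-1}`, hence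
`∫_{ball r} y^{m-1} (x - y) ≥ -(1 - (1 + C (1-r))^{-p}) ∫_{ball r} y^m ≥ -p C (1 - r) ∫_{ball r} ‖f‖^{mp}`. By `S_WT`, `(1 - ‖w‖) ‖f‖^{mp}` is integrable
(`‖f‖ ≤ ‖g‖` on `An κ`), and `(1 - r) 1_{ball r} ≤ 1 - ‖w‖`, so `(1 - r) ∫_{ball r} ‖f‖^{mp} → 0` as `r → 1` (dominated convergence). Now
`Φ = x^m - y^m - m y^{m-1} (x - y) ≥ 0`, with strict inequality if `x ≠ y` (`m ≥ 2`: `Φ = (x - y) ∑_{i<m} (x^i y^{m-1-i} - y^{m-1})`). `Φ` is continuous,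
and positive at a point of `ball r₁`, some `r₁ < 1`; `η = ∫_{ball r₁} Φ > 0`. For `r ≥ r₁`:
`∫_{ball r} Dp (mp) f g = ∫_{ball r} Φ + m ∫_{ball r} y^{m-1} (x - y) ≥ η - o(1)`; in the limit `∫ Dp ≥ η > 0`, a contradiction. -/
def S_STA : Prop := ∀ (p κ : ℝ) (m : ℕ), 1 ≤ p → 2 ≤ m → 0 ≤ κ → κ < 1 → KP p κ →
  ∀ f g : ℂ → ℂ, ¬ LimA κ (m * p) f g

/-- **Factorisation.** `g` is not identically `0` (its zeros in the compact ball `‖z‖ ≤ κ` are finite in number). Let `P` be the monic polynomial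
with the zeros of `g` in `‖z‖ ≤ κ`, with multiplicity, `g = P g₀`, `g₀` analytic in the disc without zeros for `‖z‖ ≤ κ` (induction; or
`MeromorphicOn.extract_zeros_poles`, or: among the pairs `(P, g₀)` with `P` monic with roots in `‖z‖ ≤ κ`, the degree is bounded by the sum of the
orders). Then `v = k/g₀` is analytic in the disc: at a zero `a` of `g₀`, `κ < ‖a‖ < 1`, use `‖g - k‖ ≤ ‖g + k‖` near `a` (from
`Re (k conj g) ≥ 0`): so `g - k = ω (g + k)` near `a` with `ω` analytic, `‖ω‖ ≤ 1` (removable singularity: `Pool.Agent.KRB.rem` applied to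
`f = g - k`, `g = g + k` on `An κ`); `g + k` is not identically `0`, and `(1 + ω) k = (1 - ω) g`; if `ω a ≠ -1` then
`k = (1 - ω)/(1 + ω) g` near `a` is divisible by the zero of `g`; if `ω a = -1` then `ω = -1` identically (maximum modulus) and `g = 0`, excluded.
Hence the order of `k` at `a` is at least that of `g`. Finally `v = N + P h₀` with a polynomial `N` and `h₀` analytic, by induction on `deg P`: if
`P = (X - a) P'` and `v = N' + P' h'`, then `h' = h' a + (z - a) h₀` (`dslope`), `N = N' + C (h' a) * P'`. The inequality `le`: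
`Re (k conj g) = ‖g₀‖² Re ((N + P h₀) conj P) ≥ 0` where `g₀ ≠ 0`, and by continuity at the (isolated) zeros of `g₀`. -/
def S_FAC : Prop := ∀ (κ : ℝ) (g k : ℂ → ℂ), 0 ≤ κ → κ < 1 → DifferentiableOn ℂ g (ball 0 1) →
  DifferentiableOn ℂ k (ball 0 1) → (∃ z ∈ ball (0 : ℂ) 1, g z ≠ 0) →
  (∀ z ∈ An κ, 0 ≤ (k z * (starRingEnd ℂ) (g z)).re) →
  ∃ (P N : Polynomial ℂ) (g₀ h₀ : ℂ → ℂ), Fac κ g k P N g₀ h₀

/-- **Dilation of the factor.** Let `κ < κ' < κ₁ < 1`. For `κ < ‖z‖ ≤ κ₁`: `‖h₀ (r z) - h₀ z‖ ≤ C (1 - r)` (`h₀` is Lipschitz on the ball of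
radius `κ₁`), so `Re ((N + P (h₀ (r z) + C (1 - r))) conj P) ≥ Re ((N + P h₀ z) conj P) ≥ 0` at `z`. For `κ₁ ≤ ‖z‖ < 1` and `r ≥ κ'/κ₁`: `r z ∈ An κ`,
so `Re (N/P (r z) + h₀ (r z)) ≥ 0` (divide `le` at `r z` by `‖P (r z)‖²`), and `‖(N/P)(z) - (N/P)(r z)‖ ≤ C (1 - r)` (the derivative of `N/P` is bounded on the compact
set `κ' ≤ ‖z‖ ≤ 1`, where `P ≠ 0`; the radial segment from `r z` to `z` lies there), so
`Re ((N/P)(z) + h₀ (r z) + C (1 - r)) ≥ 0`; multiply by `‖P z‖²`. -/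
def S_RG : Prop := ∀ (κ : ℝ) (g k : ℂ → ℂ) (P N : Polynomial ℂ) (g₀ h₀ : ℂ → ℂ), 0 ≤ κ → κ < 1 →
  Fac κ g k P N g₀ h₀ → ∃ C r₀ : ℝ, 0 ≤ C ∧ r₀ < 1 ∧ ∀ r : ℝ, r₀ < r → r < 1 → ∀ z ∈ An κ,
    0 ≤ ((N.eval z + P.eval z * (h₀ (r * z) + C * (1 - r))) * (starRingEnd ℂ) (P.eval z)).re

/-- **The inequality for test functions** (uses `S_LIN`, `S_RG`, `S_WT`). Let `H = g^{m-2} (g - s ph)`, and for `r < 1` close to `1`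
`G_r w = H w g₀ w P(w/r)`, `K_r w = H w g₀ w (N(w/r) + P(w/r) (h₀ w + C (1 - r)))` with `C` from `S_RG`. By `S_RG` (with `z = w/r`),
`Re (K_r conj G_r) ≥ 0` for `r κ < ‖w‖ < r`, so `S_LIN` gives `0 ≤ ∫_{ball r} Ep p G_r K_r`. Pointwise (`r → 1`), where `P w ≠ 0`, `g₀ w ≠ 0`:
`Ep p G_r K_r → ‖H‖^p Ep p g k`. Dominating function (`w` in `ball r`): for `‖w‖ ≤ κ₁` (`κ < κ₁ < 1` fixed) everything is bounded (`p ≥ 1`). For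
`κ₁ ≤ ‖w‖ < r`: `P` is bounded and bounded away from `0` for `κ₁ ≤ ‖z‖ ≤ 1`, `‖ph‖ ≤ C' ‖g‖` (`h₀ (ρ ·)` is bounded, `ρ < 1`), so
`‖H‖^p ≤ C' ‖g‖^{(m-1)p}`, and `0 ≤ Ep p G_r K_r = ‖H g₀‖^p ‖P(w/r)‖^p Re (N/P(w/r) + h₀ w + C (1 - r)) ≤
C' ‖g‖^{mp} (Re (N/P w + h₀ w) + C'' (1 - r)) ≤ C' (Ep (mp) g k w + C'' (1 - ‖w‖) ‖g‖^{mp})`, as `Re (N/P w + h₀ w) = Re (k conj g)/‖g‖²` and
`1 - r ≤ 1 - ‖w‖`. This is integrable by `LimB.int` and `S_WT`. So `0 ≤ ∫ ‖H‖^p Ep p g k`, and the integrand is integrable (same bounds). -/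
def S_LMR : Prop := ∀ (p κ : ℝ) (m : ℕ) (g k : ℂ → ℂ) (P N : Polynomial ℂ) (g₀ h₀ : ℂ → ℂ),
  1 ≤ p → 2 ≤ m → 0 ≤ κ → κ < 1 → KP p κ → LimB κ (m * p) g k → Fac κ g k P N g₀ h₀ →
  ∀ ρ s : ℝ, 0 < ρ → ρ < 1 →
    IntegrableOn (fun z => ‖g z ^ (m - 2) * (g z - s * ph P N g₀ h₀ ρ z)‖ ^ p * Ep p g k z)
      (ball 0 1) ∧
    0 ≤ ∫ z in ball (0 : ℂ) 1,
      ‖g z ^ (m - 2) * (g z - s * ph P N g₀ h₀ ρ z)‖ ^ p * Ep p g k z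

/-- **Derivative in `s`** (uses `S_LMR`, `S_PTL`, `S_PTB`). Let `I s` be the integrand of `S_LMR`; `I 0 = Ep (mp) g k` (where `g ≠ 0`, and both are
`0` where `g = 0`), so `∫ I 0 ≤ 0 ≤ ∫ I s`, `∫ (I 0 - I s)/s ≤ 0` for `s = 1/(n+1)`. As `n → ∞`, where `g ≠ 0`,
`(I 0 - I s)/s = ‖g‖^{(m-2)p} (‖g‖^p - ‖g - s ph‖^p)/s · Ep p g k → p ‖g‖^{mp-4} Re (ph conj g) Re (k conj g)`, and
`|(I 0 - I s)/s| ≤ ‖g‖^{(m-2)p} p ‖ph‖ (‖g‖ + ‖ph‖)^{p-1} |Ep p g k|`, which is bounded for `‖z‖ ≤ κ₁` and `≤ C |Ep (mp) g k|` for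
`κ₁ ≤ ‖z‖ < 1` (`‖ph‖ ≤ C ‖g‖` there: `P` is bounded away from `0`, `h₀ (ρ ·)` is bounded). -/
def S_LMS : Prop := ∀ (p κ : ℝ) (m : ℕ) (g k : ℂ → ℂ) (P N : Polynomial ℂ) (g₀ h₀ : ℂ → ℂ),
  1 ≤ p → 2 ≤ m → 0 ≤ κ → κ < 1 → KP p κ → LimB κ (m * p) g k → Fac κ g k P N g₀ h₀ →
  ∀ ρ : ℝ, 0 < ρ → ρ < 1 →
    IntegrableOn (fun z => ‖g z‖ ^ (m * p - 4) *
      ((ph P N g₀ h₀ ρ z * (starRingEnd ℂ) (g z)).re * (k z * (starRingEnd ℂ) (g z)).re))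
      (ball 0 1) ∧
    ∫ z in ball (0 : ℂ) 1, ‖g z‖ ^ (m * p - 4) *
      ((ph P N g₀ h₀ ρ z * (starRingEnd ℂ) (g z)).re * (k z * (starRingEnd ℂ) (g z)).re) ≤ 0

/-- **Second kind, multiples** (uses `S_FAC`, `S_LMS`, `S_RG`). Suppose `LimB κ (mp) g k`; take a factorisation and `C, r₀` from `S_RG`. Let `J_ρ` be
the integrand of `S_LMS`, `ρ ∈ (r₀, 1)`. On `An κ`: `Re (ph conj g) = ‖g₀‖² Re ((N + P h₀(ρ z)) conj P) ≥ -C (1 - ρ) ‖g‖²` (`S_RG` with `r = ρ`), so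
`J_ρ ≥ -C (1 - ρ) Ep (mp) g k` there. Fix `R ∈ (κ, 1)`. `0 ≥ ∫ J_ρ ≥ ∫_{ball R} J_ρ - C (1 - ρ) ∫_{R ≤ ‖z‖ < 1} Ep (mp) g k`; let `ρ → 1`
(`ph → k` on the ball of radius `R`, `|J_ρ| ≤ ‖g‖^{mp-2} ‖ph‖ ‖k‖` is bounded there, `mp ≥ 2`): `∫_{ball R} ‖g‖^{mp-4} (Re (k conj g))² ≤ 0`. But this integrand is
`≥ 0` and, for `R` close to `1`, continuous and positive at the point of `LimB.lt`. -/
def S_STB : Prop := ∀ (p κ : ℝ) (m : ℕ), 1 ≤ p → 2 ≤ m → 0 ≤ κ → κ < 1 → KP p κ →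
  ∀ g k : ℂ → ℂ, ¬ LimB κ (m * p) g k

/-- **Strict inequality** (uses `S_EXR`, `S_LMA`, `S_LMB`, `S_KGD`, `S_STA`, `S_STB`). Let `κ = kap p` and suppose `kap (m p) ≤ κ`. The constants
`cn = κ + (1 - κ)/(n + 2)` are `> kap (m p)`, so `¬ KP (m p) cn`; `S_EXR` with `qn = m p` gives a `Conv κ (m p)`, `e ≥ 0`, and `S_LMA` (`e > 0`) or
`S_LMB` (`e = 0`) gives a contradiction to `S_STA` or `S_STB` (`KP p κ` by `S_KGD`). -/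
def S_STR : Prop := ∀ (p : ℝ) (m : ℕ), 1 ≤ p → 2 ≤ m → kap p < kap (m * p)

end Pool.Agent.KRC
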