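import Pool.Agent.KRC.Bas

/-!
# The Korenblum constant along integer multiples: strict inequality
-/

set_option autoImplicit false

namespace Pool.Agent.KRC

open Complex MeasureTheory Set Filter Topology Metric
open Pool.Agent.KRB (Berg nrm KP kap)

namespace STRAux

theorem le_kap {q c : ℝ} (h0 : 0 < c) (h1 : c < 1) (h : KP q c) : c ≤ kap q :=
  le_csSup ⟨1, fun _ hx => hx.2.1.le⟩ ⟨h0, h1, h⟩

theorem tends (κ : ℝ) :
    Tendsto (fun n : ℕ => κ + (1 - κ) / ((n : ℝ) + 2)) atTop (𝓝 κ) := by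
  have h1 : Tendsto (fun n : ℕ => (n : ℝ) + 2) atTop atTop :=
    tendsto_atTop_add_const_right _ _ tendsto_natCast_atTop_atTop
  have h2 : Tendsto (fun n : ℕ => (1 - κ) / ((n : ℝ) + 2)) atTop (𝓝 0) :=
    h1.const_div_atTop (1 - κ)
  have h3 := h2.const_add κ
  rwa [add_zero] at h3

end STRAux

open STRAux in
theorem str (hE : S_EXR) (hA : S_LMA) (hB : S_LMB) (hK : S_KGD) (hSA : S_STA) (hSB : S_STB) :
    S_STR := by
  intro p m hp hm
  by_contra hcon
  rw [not_lt] at hcon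
  obtain ⟨h0, h1, hKP⟩ := hK p hp
  have hm' : (2 : ℝ) ≤ m := by exact_mod_cast hm
  have hmp : 1 ≤ (m : ℝ) * p := by nlinarith
  have hpos : ∀ n : ℕ, 0 < (1 - kap p) / ((n : ℝ) + 2) := fun n => by
    have h2 : (0 : ℝ) ≤ n := Nat.cast_nonneg n
    exact div_pos (by linarith) (by linarith)
  have hlt : ∀ n : ℕ, kap p + (1 - kap p) / ((n : ℝ) + 2) < 1 := fun n => by
    have h2 : (0 : ℝ) ≤ n := Nat.cast_nonneg n
    have h3 : (1 - kap p) / ((n : ℝ) + 2) < 1 - kap p := by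
      rw [div_lt_iff₀ (by linarith)]
      nlinarith
    linarith
  obtain ⟨qn, cn, en, gn, kn, e, g, k, hC⟩ := hE (m * p) (kap p) (fun _ => m * p)
    (fun n : ℕ => kap p + (1 - kap p) / ((n : ℝ) + 2)) (fun _ => hmp) tendsto_const_nhds h0 h1
    (fun n => by have := hpos n; linarith) hlt (tends _) (fun n hn => by
      have h2 := le_kap (by have := hpos n; linarith) (hlt n) hn
      have h3 := hpos n
      linarith)
  have he : 0 ≤ e := ge_of_tendsto' hC.te fun n => (hC.hen n).le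
  rcases he.lt_or_eq with he | he
  · exact hSA p (kap p) m hp hm h0 h1 hKP _ _ (hA _ _ _ _ _ _ _ _ _ _ hC he)
  · subst he
    exact hSB p (kap p) m hp hm h0 h1 hKP _ _ (hB _ _ _ _ _ _ _ _ _ hC)

end Pool.Agent.KRC
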