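import Pool.Agent.KRC.Bas

/-!
# The Korenblum constant along integer multiples: openness
-/

set_option autoImplicit false

namespace Pool.Agent.KRC

open Complex MeasureTheory Set Filter Topology Metric Pool.Agent.KRB

namespace USCAux

/-- continuity of the integral of the power in the exponent, on a smaller disc -/
theorem cont_exp {f : ℂ → ℂ} (hf : ContinuousOn f (ball 0 1)) {r : ℝ} (hr : r < 1) {q : ℝ}
    (hq : 1 ≤ q) : ContinuousAt (fun x : ℝ => ∫ z in ball (0 : ℂ) r, ‖f z‖ ^ x) q := by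
  obtain ⟨M, hM0, hM⟩ := Bas.bdd hf hr
  have hev : ∀ᶠ x : ℝ in 𝓝 q, 0 < x ∧ x < q + 1 :=
    (lt_mem_nhds (by linarith)).and (gt_mem_nhds (by linarith))
  refine continuousAt_of_dominated (bound := fun _ => (max M 1) ^ (q + 1)) ?_ ?_ ?_ ?_
  · exact Eventually.of_forall fun x => (Bas.norm_pow_meas hf x).mono_measure
      (Measure.restrict_mono (ball_subset_ball hr.le) le_rfl)
  · filter_upwards [hev] with x hx
    filter_upwards [ae_restrict_mem measurableSet_ball] with z hz
    rw [mem_ball_zero_iff] at hz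
    have h1 : ‖f z‖ ≤ max M 1 := (hM z hz.le).trans (le_max_left _ _)
    rw [Real.norm_of_nonneg (by positivity)]
    calc ‖f z‖ ^ x ≤ (max M 1) ^ x := Real.rpow_le_rpow (norm_nonneg _) h1 hx.1.le
      _ ≤ (max M 1) ^ (q + 1) := Real.rpow_le_rpow_of_exponent_le (le_max_right _ _) hx.2.le
  · exact integrableOn_const measure_ball_lt_top.ne
  · exact Eventually.of_forall fun z => Real.continuousAt_const_rpow' (by linarith)

/-- the dilate of a function analytic in the disc is in the Bergman space -/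
theorem dil_berg {f : ℂ → ℂ} (hf : DifferentiableOn ℂ f (ball 0 1)) {r : ℝ} (hr0 : 0 < r)
    (hr : r < 1) {q : ℝ} (hq : 1 ≤ q) : Berg q (fun z => f (r • z)) := by
  have hmap : MapsTo (fun z : ℂ => r • z) (ball 0 1) (ball 0 1) := by
    intro z hz
    rw [mem_ball_zero_iff] at hz ⊢
    rw [norm_smul, Real.norm_of_nonneg hr0.le]
    nlinarith [norm_nonneg z]
  have hd : DifferentiableOn ℂ (fun z => f (r • z)) (ball 0 1) := by
    refine hf.comp (f := fun z : ℂ => r • z) ?_ hmap
    have h1 : (fun z : ℂ => r • z) = fun z => (r : ℂ) * z := by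
      funext z; simp
    rw [h1]
    exact (differentiable_id.const_mul _).differentiableOn
  refine ⟨hd, ?_⟩
  obtain ⟨M, hM0, hM⟩ := Bas.bdd hf.continuousOn hr
  have h : IntegrableOn (fun _ : ℂ => M ^ q) (ball (0 : ℂ) 1) :=
    integrableOn_const measure_ball_lt_top.ne
  refine Integrable.mono' h (Bas.norm_pow_meas hd.continuousOn q) ?_
  filter_upwards [ae_restrict_mem measurableSet_ball] with z hz
  rw [mem_ball_zero_iff] at hz
  rw [Real.norm_of_nonneg (by positivity)]
  refine Real.rpow_le_rpow (norm_nonneg _) (hM _ ?_) (by linarith)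
  rw [norm_smul, Real.norm_of_nonneg hr0.le]
  nlinarith [norm_nonneg z]

/-- the integral of the dilate -/
theorem dil_int (f : ℂ → ℂ) {r : ℝ} (hr0 : 0 < r) (q : ℝ) :
    ∫ z in ball (0 : ℂ) 1, ‖f (r • z)‖ ^ q =
      (r ^ Module.finrank ℝ ℂ)⁻¹ * ∫ z in ball (0 : ℂ) r, ‖f z‖ ^ q := by
  have h := Measure.setIntegral_comp_smul_of_pos (volume : Measure ℂ) (fun z => ‖f z‖ ^ q)
    (ball (0 : ℂ) 1) hr0
  rw [smul_unitBall_of_pos hr0, smul_eq_mul] at h
  exact h

/-- comparison of the norms and the integrals -/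
theorem nrm_lt {f g : ℂ → ℂ} {q : ℝ} (hq : 1 ≤ q)
    (h : ∫ z in ball (0 : ℂ) 1, ‖g z‖ ^ q < ∫ z in ball (0 : ℂ) 1, ‖f z‖ ^ q) :
    nrm q g < nrm q f := by
  unfold nrm
  exact Real.rpow_lt_rpow (integral_nonneg fun z => by positivity) h (by positivity)

theorem int_lt {f g : ℂ → ℂ} {q : ℝ} (hq : 1 ≤ q) (h : nrm q g < nrm q f) :
    ∫ z in ball (0 : ℂ) 1, ‖g z‖ ^ q < ∫ z in ball (0 : ℂ) 1, ‖f z‖ ^ q := by
  by_contra hle
  rw [not_lt] at hle
  refine absurd h (not_lt.2 ?_)
  unfold nrm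
  exact Real.rpow_le_rpow (integral_nonneg fun z => by positivity) hle (by positivity)

end USCAux

open USCAux

theorem usc : S_USC := by
  intro q c c' hq hc hcc' hc'1 hbad
  unfold KP at hbad
  push Not at hbad
  obtain ⟨f, g, hf, hg, hdom, hlt⟩ := hbad
  have hint := int_lt hq hlt
  -- a radius
  set r : ℕ → ℝ := fun n => 1 - 1 / ((n : ℝ) + 2) with hrdef
  have hr1 : ∀ n, r n < 1 := fun n => by
    have : 0 < 1 / ((n : ℝ) + 2) := by positivity
    simp only [hrdef]; linarith
  have hr0 : ∀ n, 0 < r n := fun n => by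
    have : 1 / ((n : ℝ) + 2) ≤ 1 / 2 := one_div_le_one_div_of_le (by norm_num) (by
      have : (0 : ℝ) ≤ n := Nat.cast_nonneg n
      linarith)
    simp only [hrdef]; linarith
  have hrt : Tendsto r atTop (𝓝 1) := by
    have h1 : Tendsto (fun n : ℕ => 1 / ((n : ℝ) + 2)) atTop (𝓝 0) := by
      have h2 : Tendsto (fun n : ℕ => (n : ℝ) + 2) atTop atTop :=
        tendsto_atTop_add_const_right _ _ tendsto_natCast_atTop_atTop
      have h3 : (fun n : ℕ => 1 / ((n : ℝ) + 2)) = (fun n : ℕ => (n : ℝ) + 2)⁻¹ := by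
        funext n; simp
      rw [h3]
      exact h2.inv_tendsto_atTop
    simpa [hrdef] using tendsto_const_nhds.sub h1
  have ht1 := Bas.tendsto_int hf.2 (fun n => (hr1 n).le) hrt
  have ht2 := Bas.tendsto_int hg.2 (fun n => (hr1 n).le) hrt
  have ht3 : Tendsto (fun n => r n * c') atTop (𝓝 (1 * c')) := hrt.mul_const c'
  rw [one_mul] at ht3
  obtain ⟨n, hn1, hn2⟩ := ((ht2.eventually_lt ht1 hint).and (ht3.eventually (lt_mem_nhds hcc'))).exists
  have hF := cont_exp hf.1.continuousOn (hr1 n) hq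
  have hG := cont_exp hg.1.continuousOn (hr1 n) hq
  obtain ⟨δ, hδ, hnear⟩ := Metric.eventually_nhds_iff.1 (hG.tendsto.eventually_lt hF.tendsto hn1)
  refine ⟨δ, hδ, fun q' hq' hqq' hKP => ?_⟩
  have h1 := hnear (y := q') (by rwa [Real.dist_eq])
  have h2 := hKP (fun z => f (r n • z)) (fun z => g (r n • z)) (dil_berg hf.1 (hr0 n) (hr1 n) hq')
    (dil_berg hg.1 (hr0 n) (hr1 n) hq') (fun z hz hz1 => by
      apply hdom
      · rw [norm_smul, Real.norm_of_nonneg (hr0 n).le]
        have := mul_lt_mul_of_pos_left hz (hr0 n)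
        linarith
      · rw [norm_smul, Real.norm_of_nonneg (hr0 n).le]
        have := hr0 n
        have := hr1 n
        nlinarith [norm_nonneg z])
  refine absurd h2 (not_le.2 (nrm_lt hq' ?_))
  rw [dil_int f (hr0 n), dil_int g (hr0 n)]
  exact mul_lt_mul_of_pos_left h1 (inv_pos.2 (pow_pos (hr0 n) _))

end Pool.Agent.KRC
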