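import Pool.Agent.KRC.Bas
import Pool.Agent.KRC.Stmts

/-!
# The Korenblum constant along integer multiples: the weights
-/

set_option autoImplicit false

namespace Pool.Agent.KRC

open Complex MeasureTheory Set Filter Topology Metric

namespace WTAux

/-- comparison with an integrable function near the circle -/
theorem comp {g : ℂ → ℂ} {Φ : ℂ → ℝ} {q ρ C : ℝ} (hg : DifferentiableOn ℂ g (ball 0 1))
    (hq : 1 ≤ q) (hρ1 : ρ < 1) (hC : 0 ≤ C) (hΦ : IntegrableOn Φ (ball 0 1))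
    (h : ∀ z : ℂ, ρ ≤ ‖z‖ → ‖z‖ < 1 → (1 - ‖z‖) * ‖g z‖ ^ q ≤ C * Φ z) :
    IntegrableOn (fun z => (1 - ‖z‖) * ‖g z‖ ^ q) (ball 0 1) := by
  have hc : ContinuousOn (fun z : ℂ => (1 - ‖z‖) * ‖g z‖ ^ q) (ball 0 1) :=
    (continuousOn_const.sub continuous_norm.continuousOn).mul
      (Bas.pow_cont hg.continuousOn (by linarith))
  have hm := Bas.meas hc
  have h1 : IntegrableOn (fun z : ℂ => (1 - ‖z‖) * ‖g z‖ ^ q) (closedBall 0 ρ) :=
    Bas.intOn_of_cont hc hρ1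
  have h2 : IntegrableOn (fun z : ℂ => (1 - ‖z‖) * ‖g z‖ ^ q) (ball 0 1 \ closedBall 0 ρ) := by
    have h3 : IntegrableOn (fun z => C * |Φ z|) (ball (0 : ℂ) 1 \ closedBall 0 ρ) :=
      IntegrableOn.mono_set (Integrable.const_mul (Integrable.abs hΦ) C) sdiff_subset
    refine Integrable.mono' h3 (hm.mono_measure (Measure.restrict_mono sdiff_subset le_rfl)) ?_
    filter_upwards [ae_restrict_mem (measurableSet_ball.diff measurableSet_closedBall)] with z hz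
    have hz1 : ‖z‖ < 1 := mem_ball_zero_iff.1 hz.1
    have hz2 : ρ ≤ ‖z‖ := by
      have := hz.2
      rw [mem_closedBall_zero_iff, not_le] at this
      exact this.le
    have h4 : 0 ≤ (1 - ‖z‖) * ‖g z‖ ^ q :=
      mul_nonneg (by linarith) (by positivity)
    rw [Real.norm_of_nonneg h4]
    exact (h z hz2 hz1).trans (mul_le_mul_of_nonneg_left (le_abs_self _) hC)
  refine (h1.union h2).mono_set ?_
  intro z hz
  by_cases hz' : z ∈ closedBall (0 : ℂ) ρ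
  · exact Or.inl hz'
  · exact Or.inr ⟨hz, hz'⟩

end WTAux

theorem wt (hH : S_HOP) : S_WT := by
  refine ⟨?_, ?_⟩
  · intro κ q f g hκ0 hκ1 hq hL
    obtain ⟨a, ha0, ha1, ha⟩ := hH κ ((1 + κ) / 2) f g hκ0 (by linarith) (by linarith) hL.df hL.dg
      hL.le hL.lt
    refine WTAux.comp (Φ := Dp q f g) (ρ := (1 + κ) / 2) (C := a⁻¹) hL.dg hq (by linarith)
      (by positivity) hL.int ?_
    intro z hz0 hz1
    have h1 := ha z hz0 hz1
    have hs : 0 < 1 - ‖z‖ := by linarith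
    have hs1 : 1 - ‖z‖ ≤ 1 := by linarith [norm_nonneg z]
    have hs2 : a * (1 - ‖z‖) ≤ 1 := by nlinarith
    have h2 : ‖f z‖ ^ q ≤ (1 - a * (1 - ‖z‖)) * ‖g z‖ ^ q := by
      calc ‖f z‖ ^ q ≤ ((1 - a * (1 - ‖z‖)) * ‖g z‖) ^ q :=
            Real.rpow_le_rpow (norm_nonneg _) h1 (by linarith)
        _ = (1 - a * (1 - ‖z‖)) ^ q * ‖g z‖ ^ q :=
            Real.mul_rpow (by linarith) (norm_nonneg _)
        _ ≤ (1 - a * (1 - ‖z‖)) * ‖g z‖ ^ q := by
            refine mul_le_mul_of_nonneg_right ?_ (by positivity)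
            rcases (show 0 ≤ 1 - a * (1 - ‖z‖) by linarith).eq_or_lt with h0 | h0
            · rw [← h0, Real.zero_rpow (by linarith)]
            · calc (1 - a * (1 - ‖z‖)) ^ q ≤ (1 - a * (1 - ‖z‖)) ^ (1 : ℝ) :=
                    Real.rpow_le_rpow_of_exponent_ge h0 (by nlinarith) hq
                _ = _ := Real.rpow_one _
    have h3 : a * ((1 - ‖z‖) * ‖g z‖ ^ q) ≤ Dp q f g z := by
      unfold Dp
      linarith
    calc (1 - ‖z‖) * ‖g z‖ ^ q = a⁻¹ * (a * ((1 - ‖z‖) * ‖g z‖ ^ q)) := by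
          field_simp
      _ ≤ a⁻¹ * Dp q f g z := mul_le_mul_of_nonneg_left h3 (by positivity)
  · intro κ q g k hκ0 hκ1 hq hL
    have hle : ∀ z ∈ An κ, ‖g z - k z‖ ≤ ‖g z + k z‖ := by
      intro z hz
      have h1 := Bas.four (g z) (k z)
      have h2 := hL.le z hz
      have h3 : ‖g z - k z‖ ^ 2 ≤ ‖g z + k z‖ ^ 2 := by linarith
      exact (pow_le_pow_iff_left₀ (norm_nonneg _) (norm_nonneg _) (by norm_num)).1 h3
    have hlt : ∃ z ∈ An κ, ‖g z - k z‖ < ‖g z + k z‖ := by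
      obtain ⟨z, hz, h2⟩ := hL.lt
      refine ⟨z, hz, ?_⟩
      have h1 := Bas.four (g z) (k z)
      have h3 : ‖g z - k z‖ ^ 2 < ‖g z + k z‖ ^ 2 := by linarith
      exact (pow_lt_pow_iff_left₀ (norm_nonneg _) (norm_nonneg _) (by norm_num)).1 h3
    obtain ⟨a, ha0, ha1, ha⟩ := hH κ ((1 + κ) / 2) (fun z => g z - k z) (fun z => g z + k z) hκ0
      (by linarith) (by linarith) (hL.dg.sub hL.dk) (hL.dg.add hL.dk) hle hlt
    refine WTAux.comp (Φ := Ep q g k) (ρ := (1 + κ) / 2) (C := 4 / a) hL.dg hq (by linarith)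
      (by positivity) hL.int ?_
    intro z hz0 hz1
    have h1 := ha z hz0 hz1
    have hs : 0 < 1 - ‖z‖ := by linarith
    have hs1 : 1 - ‖z‖ ≤ 1 := by linarith [norm_nonneg z]
    have hs2 : a * (1 - ‖z‖) ≤ 1 := by nlinarith
    have hs3 : 0 ≤ a * (1 - ‖z‖) := by positivity
    have hzA : z ∈ An κ := ⟨by linarith, hz1⟩
    have hre := hL.le z hzA
    set R : ℝ := (k z * (starRingEnd ℂ) (g z)).re with hR
    have h4 := Bas.four (g z) (k z)
    rw [← hR] at h4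
    have h5 : ‖g z - k z‖ ^ 2 ≤ (1 - a * (1 - ‖z‖)) ^ 2 * ‖g z + k z‖ ^ 2 := by
      rw [← mul_pow]
      exact pow_le_pow_left₀ (norm_nonneg _) h1 2
    have h6 : (1 - a * (1 - ‖z‖)) ^ 2 ≤ 1 - a * (1 - ‖z‖) := by nlinarith
    have h7 : ‖g z‖ ^ 2 ≤ ‖g z + k z‖ ^ 2 := by
      have e1 := Bas.sq_sub (g z) (k z) (-1)
      have e2 : g z - ((-1 : ℝ) : ℂ) * k z = g z + k z := by
        push_cast
        ring
      rw [e2, ← hR] at e1
      have e3 : 0 ≤ ‖k z‖ ^ 2 := by positivity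
      nlinarith
    have h8 : a * (1 - ‖z‖) * ‖g z‖ ^ 2 ≤ 4 * R := by
      have e1 : (1 - a * (1 - ‖z‖)) ^ 2 * ‖g z + k z‖ ^ 2 ≤
          (1 - a * (1 - ‖z‖)) * ‖g z + k z‖ ^ 2 :=
        mul_le_mul_of_nonneg_right h6 (by positivity)
      have e2 : a * (1 - ‖z‖) * ‖g z‖ ^ 2 ≤ a * (1 - ‖z‖) * ‖g z + k z‖ ^ 2 :=
        mul_le_mul_of_nonneg_left h7 hs3
      nlinarith
    by_cases hg0 : g z = 0
    · rw [Bas.Ep_zero hg0, hg0, norm_zero, Real.zero_rpow (by linarith)]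
      simp
    have hgp : 0 < ‖g z‖ := norm_pos_iff.2 hg0
    have h9 : ‖g z‖ ^ q = ‖g z‖ ^ (q - 2) * ‖g z‖ ^ 2 := by
      rw [← Real.rpow_natCast ‖g z‖ 2, ← Real.rpow_add hgp]
      congr 1
      push_cast
      ring
    have h10 : a * ((1 - ‖z‖) * ‖g z‖ ^ q) ≤ 4 * Ep q g k z := by
      have e1 : Ep q g k z = ‖g z‖ ^ (q - 2) * R := rfl
      rw [e1, h9]
      calc a * ((1 - ‖z‖) * (‖g z‖ ^ (q - 2) * ‖g z‖ ^ 2))
          = ‖g z‖ ^ (q - 2) * (a * (1 - ‖z‖) * ‖g z‖ ^ 2) := by ring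
        _ ≤ ‖g z‖ ^ (q - 2) * (4 * R) := mul_le_mul_of_nonneg_left h8 (by positivity)
        _ = 4 * (‖g z‖ ^ (q - 2) * R) := by ring
    calc (1 - ‖z‖) * ‖g z‖ ^ q = (a * ((1 - ‖z‖) * ‖g z‖ ^ q)) / a := by
          field_simp
      _ ≤ (4 * Ep q g k z) / a := div_le_div_of_nonneg_right h10 ha0.le
      _ = 4 / a * Ep q g k z := by ring

end Pool.Agent.KRC
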